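import Pool.Agent.Lib.L8.IG17
import Pool.Agent.Lib.L1S.IW2
import Pool.Agent.Lib.L1S.QStm
import Pool.Agent.Lib.H67G.B3
import Pool.Agent.Lib.L1S.B1

/-!
# FL (the density hypothesis): definitions

See `Lib/L8/PROOF_F.md`. `K` is a number field, `G(K) = GK b K` (split), `G_∞ = HRt H`, `H` the full group. Real parameters `ρ + μ = ∑ e_k α_k` are given by their coordinates `e : b.support → ℝ`.
Words are lists with the **last** letter first: `nW (i :: L) = nW L * n_i`, `wW (i :: L) = wW L * s_i`.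
-/

namespace Pool.Agent.Lib.L8.FL

set_option linter.unusedSectionVars false

open MeasureTheory Matrix NumberField IsDedekindDomain Pool.Agent.Lib.H89N Pool.Agent.Lib.H33W Pool.Agent.Lib.H67G Pool.Agent.Lib.L1S
open scoped ENNReal

noncomputable section

variable {ι M N : Type} [Fintype ι] [DecidableEq ι] [AddCommGroup M] [Module ℚ M] [AddCommGroup N] [Module ℚ N]
  {P : RootPairing ι ℚ M N} [P.IsCrystallographic] [P.IsReduced] [P.IsIrreducible] [P.IsRootSystem]

/-! ## 1. Words and parameters -/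

section words

variable (b : P.Base)

/-- The permutation of the roots of a word. -/
def wW : List b.support → Equiv.Perm ι
  | [] => 1
  | i :: L => wW L * P.reflectionPerm i

/-- Reduced words. -/
def RedW : List b.support → Prop
  | [] => True
  | i :: L => b.IsPos (wW b L i) ∧ RedW L

/-- The coordinate of `ρ + μ` at the fundamental weight of `i`: `⟨ρ + μ, α_i^∨⟩ = ∑_k e_k ⟨α_k, α_i^∨⟩`. -/
def xe (e : b.support → ℝ) (i : b.support) : ℝ := ∑ k, e k * (b.cartanMatrix k i : ℝ)

/-- `μ_i = ⟨μ, α_i^∨⟩`. -/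
def mu (e : b.support → ℝ) (i : b.support) : ℝ := xe b e i - 1

/-- `ρ + μ ↦ ρ + s_i μ`. -/
def se (i : b.support) (e : b.support → ℝ) : b.support → ℝ := fun k => if k = i then e k - mu b e i else e k

/-- `ρ + μ ↦ ρ + w⁻¹ μ`. -/
def eW (e : b.support → ℝ) : List b.support → b.support → ℝ
  | [] => e
  | i :: L => se b i (eW e L)

/-- All exponents along the word are at least `κ`. -/
def PosW (κ : ℝ) (e : b.support → ℝ) : List b.support → Prop
  | [] => True
  | i :: L => κ ≤ mu b (eW b e L) i ∧ PosW κ e L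

/-- The coefficient of `α_k` in the fundamental weight `ω_j = c_j⁻¹ ∑_(β ∈ Φ_j) β`. -/
def om (j k : b.support) : ℝ := (∑ β ∈ Phi b j, (mc b k (Sum.inr β) : ℝ)) / (cw b j : ℝ)

/-- The parameter `∑_j x_j ω_j`. -/
def ex (x : b.support → ℝ) (k : b.support) : ℝ := ∑ j, x j * om b j k

/-- The degree with respect to `J`: `∑_(j ∈ J) m_j`. -/
def dJ (J : Finset b.support) (a : I b) : ℤ := ∑ j ∈ J, mc b j a

/-- `w = w_0 w_M`, `M` the complement of `J`: `w` makes a positive root positive if and only if it has degree `0`. -/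
def IsWJ (J : Finset b.support) (w : Equiv.Perm ι) : Prop :=
  w ∈ WP P ∧ ∀ β, b.IsPos β → (b.IsPos (w β) ↔ dJ b J (Sum.inr β) = 0)

open scoped Classical in
/-- `J*`: the set of the simple roots which `w⁻¹` makes negative. -/
def Js (w : Equiv.Perm ι) : Finset b.support := Finset.univ.filter fun j => ¬b.IsPos (w⁻¹ j)

open scoped Classical in
/-- The parameter `ρ + c ∑_(j ∈ J) ω_j`. -/
def eJ (c : ℝ) (J : Finset b.support) : b.support → ℝ := ex b fun j => if j ∈ J then 1 + c else 1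

end words

/-! ## 2. Groups over `K` -/

section groups

variable (b : P.Base) (K : Type) [Field K] [NumberField K]

/-- The representative of a word. -/
def nW : List b.support → GK b K
  | [] => 1
  | i :: L => nW L * b1m b K i 1

/-- The elements `g` for which `g - 1` and `g⁻¹ - 1` raise the degree `h`. -/
def UG (h : I b → ℤ) : Subgroup (GK b K) where
  carrier := {g | ∀ r c, h r ≤ h c → g.1.1 r c = (1 : Matrix (I b) (I b) K) r c ∧ g⁻¹.1.1 r c = (1 : Matrix (I b) (I b) K) r c}
  one_mem' := fun r c _ => by simp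
  mul_mem' := by
    intro g g' hg hg' r c hrc
    have key : ∀ X Y : Matrix (I b) (I b) K, (∀ r c, h r ≤ h c → X r c = (1 : Matrix (I b) (I b) K) r c) →
        (∀ r c, h r ≤ h c → Y r c = (1 : Matrix (I b) (I b) K) r c) → ∀ r c, h r ≤ h c → (X * Y) r c = (1 : Matrix (I b) (I b) K) r c := by
      intro X Y hX hY r c hrc
      rw [Matrix.mul_apply, Finset.sum_eq_single r]
      · rw [hX r r le_rfl, hY r c hrc, Matrix.one_apply_eq, one_mul]
      · intro k _ hk
        by_cases h1 : h r ≤ h k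
        · rw [hX r k h1, Matrix.one_apply_ne hk.symm, zero_mul]
        · have h2 : h k ≤ h c := (not_le.1 h1).le.trans hrc
          by_cases h3 : k = c
          · subst h3
            exact absurd hrc h1
          · rw [hY k c h2, Matrix.one_apply_ne h3, mul_zero]
      · intro h
        exact absurd (Finset.mem_univ r) h
    refine ⟨key _ _ (fun r c h => (hg r c h).1) (fun r c h => (hg' r c h).1) r c hrc, ?_⟩
    have e : (g * g')⁻¹.1.1 = g'⁻¹.1.1 * g⁻¹.1.1 := by
      rw [_root_.mul_inv_rev]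
      rfl
    rw [e]
    exact key _ _ (fun r c h => (hg' r c h).2) (fun r c h => (hg r c h).2) r c hrc
  inv_mem' := by
    intro g hg r c hrc
    refine ⟨(hg r c hrc).2, ?_⟩
    rw [inv_inv]
    exact (hg r c hrc).1

/-- The opposite unipotent group. -/
def HV : Subgroup (GK b K) := UG b K fun r => -ht b r

/-- `U_w = {u ∈ U(K) : n_w u n_w⁻¹ ∈ V(K)}`. -/
def Uw (L : List b.support) : Subgroup (GK b K) := HU b K ⊓ (HV b K).comap (MulAut.conj (nW b K L)).toMonoidHom

/-- The unipotent radical `N_J(K)` of the parabolic group of `J`. -/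
def NJ (J : Finset b.support) : Subgroup (GK b K) := HU b K ⊓ UG b K (dJ b J)

/-- The torus `T(K)`: the diagonal elements of `G(K)`. -/
def TK : Subgroup (GK b K) where
  carrier := {t | ∀ r c, r ≠ c → t.1.1 r c = 0 ∧ t⁻¹.1.1 r c = 0}
  one_mem' := fun r c h => by simp [Matrix.one_apply_ne h]
  mul_mem' := by
    intro g g' hg hg' r c hrc
    have key : ∀ X Y : Matrix (I b) (I b) K, (∀ r c, r ≠ c → X r c = 0) → (∀ r c, r ≠ c → Y r c = 0) → ∀ r c, r ≠ c → (X * Y) r c = 0 := by
      intro X Y hX hY r c hrc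
      rw [Matrix.mul_apply]
      refine Finset.sum_eq_zero fun k _ => ?_
      by_cases h1 : r = k
      · subst h1
        rw [hY r c hrc, mul_zero]
      · rw [hX r k h1, zero_mul]
    refine ⟨key _ _ (fun r c h => (hg r c h).1) (fun r c h => (hg' r c h).1) r c hrc, ?_⟩
    have e : (g * g')⁻¹.1.1 = g'⁻¹.1.1 * g⁻¹.1.1 := by
      rw [_root_.mul_inv_rev]
      rfl
    rw [e]
    exact key _ _ (fun r c h => (hg' r c h).2) (fun r c h => (hg r c h).2) r c hrc
  inv_mem' := by
    intro g hg r c hrc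
    refine ⟨(hg r c hrc).2, ?_⟩
    rw [inv_inv]
    exact (hg r c hrc).1

/-- The value of the simple root `α_i` at a torus element. -/
def tv (t : GK b K) (i : b.support) : K := t.1.1 (Sum.inr (i : ι)) (Sum.inr (i : ι))

/-- The **cell** of `w`: the elements `u n u'`, `u, u' ∈ U(K)`, `n` over `w`. -/
def cell (w : Equiv.Perm ι) : Set (GK b K) := {g | ∃ u ∈ HU b K, ∃ n, IsN b K w n ∧ ∃ u' ∈ HU b K, g = u * n * u'}

/-- The maximal parabolic group of `j`: the elements which do not lower the coefficient of `α_j`. -/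
def PJ (j : b.support) : Set (GK b K) := {p | ∀ r c, mc b j r < mc b j c → p.1.1 r c = 0}

variable {K}

/-! ## 3. Local objects -/

/-- The absolute value at `v`: `|x|_v = N(v) ^ (-ord_v x)`. -/
abbrev av (v : HeightOneSpectrum (𝓞 K)) : AbsoluteValue K ℝ := NumberField.HeightOneSpectrum.adicAbv K v

/-- The absolute value of an ideal at `v`: `N(v) ^ (-ord_v)`. -/
def aI (v : HeightOneSpectrum (𝓞 K)) (𝔫 : Ideal (𝓞 K)) : ℝ := (Ideal.absNorm v.asIdeal : ℝ) ^ (-((Associates.mk v.asIdeal).count (Associates.mk 𝔫).factors : ℤ))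

/-- The elements of `G(K)` which are integral at `v` together with their inverses. -/
def Gv (v : HeightOneSpectrum (𝓞 K)) : Set (GK b K) := {k | ∀ r c, av v (k.1.1 r c) ≤ 1 ∧ av v (k⁻¹.1.1 r c) ≤ 1}

/-- The elements of `G(K)` congruent to `1` modulo `𝔫` at `v`, together with their inverses. -/
def Kv (𝔫 : Ideal (𝓞 K)) (v : HeightOneSpectrum (𝓞 K)) : Set (GK b K) :=
  {k | ∀ r c, av v ((k.1.1 - 1) r c) ≤ aI v 𝔫 ∧ av v ((k⁻¹.1.1 - 1) r c) ≤ aI v 𝔫}

/-- The level condition at `j`: `g ∈ P_j(K) K_v(𝔫)` for all `v`. -/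
def Chi (𝔫 : Ideal (𝓞 K)) (j : b.support) (g : GK b K) : Prop := ∀ v, ∃ p ∈ PJ b K j, ∃ k ∈ Kv b 𝔫 v, g = p * k

/-- `g = u t k` is an Iwasawa decomposition at `v` and `a_i = |α_i(t)|_v`. -/
def IwA (v : HeightOneSpectrum (𝓞 K)) (g : GK b K) (a : b.support → ℝ) : Prop :=
  ∃ u ∈ HU b K, ∃ t ∈ TK b K, ∃ k ∈ Gv b v, g = u * t * k ∧ ∀ i, a i = av v (tv b K t i)

open scoped Classical in
/-- The **height** of `g` at `v`: `|α_i(t)|_v`. -/
def Ah (v : HeightOneSpectrum (𝓞 K)) (g : GK b K) : b.support → ℝ := if h : ∃ a, IwA b v g a then h.choose else fun _ => 1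

/-- The function `f_e(g) = ∏_v ∏_k |α_k(t_v)|_v ^ (e_k)`. -/
def fe (e : b.support → ℝ) (g : GK b K) : ℝ := ∏ᶠ v : HeightOneSpectrum (𝓞 K), ∏ k, Ah b v g k ^ (e k)

/-- The principal congruence group. -/
def G1 (𝔫 : Ideal (𝓞 K)) : Subgroup (GK b K) where
  carrier := {g | ∀ r c, L1S.InI 𝔫 ((g.1.1 - 1) r c) ∧ L1S.InI 𝔫 ((g⁻¹.1.1 - 1) r c)}
  one_mem' := fun r c => by simp [L1S.InI.zero]
  mul_mem' := by
    intro g g' hg hg' r c
    have key : ∀ X Y : Matrix (I b) (I b) K, (∀ r c, L1S.InI 𝔫 ((X - 1) r c)) → (∀ r c, L1S.InI 𝔫 ((Y - 1) r c)) → ∀ r c, L1S.InI 𝔫 ((X * Y - 1) r c) := by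
      intro X Y hX hY r c
      have e : X * Y - 1 = (X - 1) * (Y - 1) + (X - 1) + (Y - 1) := by
        rw [sub_mul, one_mul, mul_sub, mul_one]
        abel
      rw [e, Matrix.add_apply, Matrix.add_apply, Matrix.mul_apply]
      refine ((L1S.InI.sum _ _ fun k _ => ?_).add (hX r c)).add (hY r c)
      exact (hX r k).mul (hY k c).top
    refine ⟨key _ _ (fun r c => (hg r c).1) (fun r c => (hg' r c).1) r c, ?_⟩
    have e : (g * g')⁻¹.1.1 = g'⁻¹.1.1 * g⁻¹.1.1 := by
      rw [_root_.mul_inv_rev]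
      rfl
    rw [e]
    exact key _ _ (fun r c => (hg' r c).2) (fun r c => (hg r c).2) r c
  inv_mem' := by
    intro g hg r c
    refine ⟨(hg r c).2, ?_⟩
    rw [inv_inv]
    exact (hg r c).1

end groups

/-! ## 4. Indices and sums -/

/-- The generalised index `[A : Λ]` of commensurable subgroups. -/
def gi {G : Type} [Group G] (A Λ : Subgroup G) : ℝ≥0∞ := (Λ.relIndex A : ℝ≥0∞) / (A.relIndex Λ : ℝ≥0∞)

/-- The sum of `f` over the right cosets `g Λ`, `g ∈ A` (`f` right invariant under `Λ`, `Λ ≤ A`). -/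
def rs {G : Type} [Group G] (A Λ : Subgroup G) (f : G → ℝ≥0∞) : ℝ≥0∞ := ce Λ (A : Set G) fun g => f g⁻¹

/-! ## 5. The archimedean places -/

section arch

variable {K : Type} [Field K] [NumberField K]

open scoped Classical in
/-- The evaluation at an infinite place, as a complex number. -/
def evw (w : InfinitePlace K) : EE K →+* ℂ :=
  if h : w.IsReal then Complex.ofRealHom.comp ((Pi.evalRingHom (fun _ : {w : InfinitePlace K // w.IsReal} => ℝ) ⟨w, h⟩).comp (RingHom.fst _ _))
  else (Pi.evalRingHom (fun _ : {w : InfinitePlace K // w.IsComplex} => ℂ) ⟨w, InfinitePlace.not_isReal_iff_isComplex.1 h⟩).comp (RingHom.snd _ _)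

variable {b : P.Base} {H : Subgroup (GK b K)}

/-- The Iwasawa height at the infinite place `w` (coroot coordinates). -/
def Hw (w : InfinitePlace K) (y : HRt H) (j : b.support) : ℝ :=
  -(1 / (2 * ((cw b j : ℤ) : ℝ))) * (Real.log ‖Nj b ℂ j (y.1.1.1.map (evw w))‖ - Real.log ‖Nj b ℂ j (1 : Matrix (I b) (I b) ℂ)‖)

/-- The total height. -/
def Ht (y : HRt H) (j : b.support) : ℝ := ∑ w : InfinitePlace K, (w.mult : ℝ) * Hw w y j

/-- The function `F_e(y) = exp((ρ + μ)(H(y)))`, `ρ + μ = ∑ e_k α_k`. -/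
def Fe (e : b.support → ℝ) (y : HRt H) : ℝ := Real.exp (∑ k, e k * al (cA b) k (Ht y))

end arch

end

end Pool.Agent.Lib.L8.FL
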