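import Pool.Agent.Lib.L8.FL.M7
import Pool.Agent.Lib.L8.FL.R4
import Pool.Agent.Lib.L8.PX.Stm
import Pool.Agent.Lib.L8.F7.CLA
import Pool.Agent.Lib.L8.F7.CLB
import Pool.Agent.Lib.L8.F7.CLC
import Pool.Agent.Lib.L8.F7.CLD

/-!
# FL, file BG (helper21): the exponents `ν_w` and the number `D / 2` of `PX.Dim`, all types
-/

namespace Pool.Agent.Lib.L8.FL

open Matrix Pool.Agent.Lib.L1S Pool.Agent.Lib.L8.F7

noncomputable section

set_option linter.unusedSectionVars false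

variable {ι M N : Type} [Fintype ι] [DecidableEq ι] [AddCommGroup M] [Module ℚ M] [AddCommGroup N] [Module ℚ N]
  {P : RootPairing ι ℚ M N} [P.IsCrystallographic] [P.IsReduced] [P.IsIrreducible] [P.IsRootSystem] {b : P.Base}

/-! ## 1. The large types: `ν = rank` -/

theorem ineqR_ci {D : ℝ} (h : CI b D) : IneqR b D (nu1 b) := by
  rintro w ⟨J, hJ, hw⟩
  refine ⟨?_, fun Λ hΛ => ?_⟩
  · obtain ⟨j, _⟩ := hJ
    have : 0 < Fintype.card b.support := Fintype.card_pos_iff.2 ⟨j⟩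
    show (1 : ℝ) ≤ ((Fintype.card b.support : ℕ) : ℝ)
    exact_mod_cast this
  · rw [sum_xw, FC.Js_inv hw]
    exact c7_gen h hw hΛ

/-- Type A from the inequality for `e j + e j.rev`. -/
theorem ci_A {n : ℕ} (hn : 2 ≤ n) (h0 : Typ b (CartanMatrix.A n)) {D : ℝ}
    (hS : ∀ {c : Fin n → ℝ}, (∀ i, pr (CartanMatrix.A n) c i = 2) → ∀ {e : Fin n → ℝ}, Box (CartanMatrix.A n) e → ∀ j : Fin n, D * (e j + e j.rev) ≤ c j * (2 * ∑ k, e k + n)) : CI b D := by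
  intro σ w h E E' hE hE' hs j
  obtain ⟨e, he⟩ := h0
  have h1 := hS (pr_cI e he) (box_of e he hE) (e j)
  simp only [Equiv.symm_apply_apply] at h1
  rw [Equiv.sum_comp e.symm E] at h1
  have h5 : E (e.symm (e j).rev) = E' j := by
    have h6 : e (σ (e.symm (e j).rev)) = e j := by
      rw [star_A hn e he h, Equiv.apply_symm_apply, Fin.rev_rev]
    rw [← hs, e.injective h6]
  have h7 : ∑ k, E' k = ∑ k, E k := by
    rw [← Equiv.sum_comp σ E']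
    exact Finset.sum_congr rfl fun k _ => hs k
  rw [h5] at h1
  rw [h7, card_of e]
  refine h1.trans (le_of_eq ?_)
  ring

/-- The large types of the list. -/
def BigD (b : P.Base) (D : ℕ) : Prop :=
  (∃ n : ℕ, (5 ≤ n ∧ Typ b (CartanMatrix.A n) ∧ D = 3 * n ^ 2) ∨ (3 ≤ n ∧ Typ b (CartanMatrix.B n) ∧ D = 3 * n * (2 * n - 1)) ∨ (3 ≤ n ∧ Typ b (CartanMatrix.C n) ∧ D = 2 * n * (3 * n - 1)) ∨
    (4 ≤ n ∧ Typ b (CartanMatrix.D n) ∧ D = 2 * (n - 1) * (3 * n - 2))) ∨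
  (Typ b CartanMatrix.G₂ ∧ D = 36) ∨ (Typ b CartanMatrix.F₄ ∧ D = 208) ∨ (Typ b CartanMatrix.E₆ ∧ D = 304) ∨ (Typ b CartanMatrix.E₇ ∧ D = 612) ∨ (Typ b CartanMatrix.E₈ ∧ D = 1914)

theorem ci_big {D : ℕ} (h : BigD b D) : CI b ((D : ℝ) / 2) := by
  rcases h with ⟨n, ⟨hn, h, rfl⟩ | ⟨hn, h, rfl⟩ | ⟨hn, h, rfl⟩ | ⟨hn, h, rfl⟩⟩ | ⟨h, rfl⟩ | ⟨h, rfl⟩ | ⟨h, rfl⟩ | ⟨h, rfl⟩ | ⟨h, rfl⟩
  · have e1 : ((3 * n ^ 2 : ℕ) : ℝ) / 2 = 3 * (n : ℝ) ^ 2 / 2 := by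
      push_cast
      ring
    rw [e1]
    exact ci_A (by omega) h fun {c} hc {e} he j => clA hn hc he j
  · have e1 : ((3 * n * (2 * n - 1) : ℕ) : ℝ) / 2 = 3 * n * (2 * n - 1) / 2 := by
      rw [Nat.cast_mul, Nat.cast_sub (by omega)]
      push_cast
      ring
    rw [e1]
    exact ci_sq h (clB hn)
  · have e1 : ((2 * n * (3 * n - 1) : ℕ) : ℝ) / 2 = n * (3 * n - 1) := by
      rw [Nat.cast_mul, Nat.cast_sub (by omega)]
      push_cast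
      ring
    rw [e1]
    exact ci_sq h (clC hn)
  · have e1 : ((2 * (n - 1) * (3 * n - 2) : ℕ) : ℝ) / 2 = (n - 1) * (3 * n - 2) := by
      rw [Nat.cast_mul, Nat.cast_mul, Nat.cast_sub (by omega), Nat.cast_sub (by omega)]
      push_cast
      ring
    rw [e1]
    exact ci_sq h (clD hn)
  · have h1 := ci_ex (b := b) (D := 18) (Or.inl ⟨h, rfl⟩)
    norm_num at h1 ⊢
    exact h1
  · have h1 := ci_ex (b := b) (D := 104) (Or.inr (Or.inl ⟨h, rfl⟩))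
    norm_num at h1 ⊢
    exact h1
  · have h1 := ci_ex (b := b) (D := 152) (Or.inr (Or.inr (Or.inl ⟨h, rfl⟩)))
    norm_num at h1 ⊢
    exact h1
  · have h1 := ci_ex (b := b) (D := 306) (Or.inr (Or.inr (Or.inr (Or.inl ⟨h, rfl⟩))))
    norm_num at h1 ⊢
    exact h1
  · have h1 := ci_ex (b := b) (D := 957) (Or.inr (Or.inr (Or.inr (Or.inr ⟨h, rfl⟩))))
    norm_num at h1 ⊢
    exact h1

/-- The word clause for `ν = rank`. -/
theorem word_nu1 (b : P.Base) : FC.WordC b (nu1 b) := by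
  intro w hw
  have hw' := hw
  obtain ⟨J, hJ, hw'⟩ := hw'
  obtain ⟨L, h1, h2⟩ := FC.RedW_exists b hw'.1
  refine ⟨L, 0, h1, h2, Or.inl rfl, fun c hc => ?_⟩
  rw [Int.cast_zero, add_zero]
  exact gn_rank hw h1 h2 hc _

theorem ineqR_mono {D : ℝ} {nu nu' : Equiv.Perm ι → ℝ} (h : IneqR b D nu) (hn : ∀ w, IsC b w → nu w ≤ nu' w) : IneqR b D nu' := by
  intro w hw
  obtain ⟨h1, h2⟩ := h w hw
  refine ⟨h1.trans (hn w hw), fun Λ hΛ => (h2 Λ hΛ).trans ?_⟩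
  have h3 : 0 ≤ ∑ k, Λ k := Finset.sum_nonneg fun k _ => ig_dom hΛ k
  have h4 := hn w hw
  exact mul_le_mul_of_nonneg_left (by linarith) (by linarith)

theorem ineqR_mono_D {D D' : ℝ} (hD : D' ≤ D) {nu : Equiv.Perm ι → ℝ} (h : IneqR b D nu) : IneqR b D' nu := by
  intro w hw
  obtain ⟨h1, h2⟩ := h w hw
  refine ⟨h1, fun Λ hΛ => le_trans (mul_le_mul_of_nonneg_right hD ?_) (h2 Λ hΛ)⟩
  exact add_nonneg (Finset.sum_nonneg fun j _ => ig_dom hΛ j) (Finset.sum_nonneg fun j _ => ig_dom hΛ j)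

/-! ## 2. The small types -/

/-- The small types of the list and twice the number for which the exponents of the tables are sufficient. -/
def SmT (b : P.Base) (D : ℕ) : Prop :=
  (Typ b (CartanMatrix.A 1) ∧ D = 6) ∨ (Typ b (CartanMatrix.A 2) ∧ D = 16) ∨ (Typ b (CartanMatrix.A 3) ∧ D = 32) ∨ (Typ b (CartanMatrix.A 4) ∧ D = 56) ∨ (Typ b (CartanMatrix.B 2) ∧ D = 20)

theorem exS_sm {D : ℕ} (h : SmT b D) : FC.ExS b ((D : ℝ) / 2) := by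
  rcases h with ⟨h, rfl⟩ | ⟨h, rfl⟩ | ⟨h, rfl⟩ | ⟨h, rfl⟩ | ⟨h, rfl⟩
  · have h2 := FC.exS_A1 h
    norm_num at h2 ⊢
    exact h2
  · have h2 := FC.exS_A2 h
    norm_num at h2 ⊢
    exact h2
  · have h2 := FC.exS_A3 h
    norm_num at h2 ⊢
    exact h2
  · have h2 := FC.exS_A4 h
    norm_num at h2 ⊢
    exact h2
  · have h2 := FC.exS_B2 h
    norm_num at h2 ⊢
    exact h2

theorem typ_A2_B2 (h : Typ b (CartanMatrix.A 2)) (h' : Typ b (CartanMatrix.B 2)) : False := by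
  obtain ⟨e, he⟩ := h
  obtain ⟨e', he'⟩ := h'
  have h1 := he' (e'.symm 0) (e'.symm 1)
  rw [he, Equiv.apply_symm_apply, Equiv.apply_symm_apply] at h1
  have h2 : ∀ a c : Fin 2, CartanMatrix.A 2 a c ≠ CartanMatrix.B 2 0 1 := by decide
  exact h2 _ _ h1

theorem typ_card {n : ℕ} {A : Matrix (Fin n) (Fin n) ℤ} (h : Typ b A) : Fintype.card b.support = n := by
  obtain ⟨e, -⟩ := h
  exact card_of e

theorem sm_unique {D D' : ℕ} (h : SmT b D) (h' : SmT b D') : D = D' := by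
  rcases h with ⟨h, e⟩ | ⟨h, e⟩ | ⟨h, e⟩ | ⟨h, e⟩ | ⟨h, e⟩ <;> rcases h' with ⟨h', e'⟩ | ⟨h', e'⟩ | ⟨h', e'⟩ | ⟨h', e'⟩ | ⟨h', e'⟩ <;>
    first
      | exact e.trans e'.symm
      | (exfalso
         have h1 := typ_card h
         have h2 := typ_card h'
         omega)
      | exact (typ_A2_B2 h h').elim
      | exact (typ_A2_B2 h' h).elim

/-! ## 3. All types -/

theorem dim_cases {D : ℕ} (h : PX.Dim b D) : (∃ D₁, SmT b D₁ ∧ D ≤ D₁) ∨ BigD b D := by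
  rcases h with ⟨n, ⟨h1, h2, h, e⟩ | ⟨h1, h, e⟩ | ⟨h1, h, e⟩ | ⟨h1, h, e⟩ | ⟨h1, h, e⟩ | ⟨h1, h, e⟩ | ⟨h1, h, e⟩ | ⟨h1, h, e⟩⟩ | h
  · left
    have hn : n = 1 ∨ n = 2 := by omega
    rcases hn with rfl | rfl
    · exact ⟨6, Or.inl ⟨h, rfl⟩, by omega⟩
    · exact ⟨16, Or.inr (Or.inl ⟨h, rfl⟩), by omega⟩
  · subst h1
    exact Or.inl ⟨32, Or.inr (Or.inr (Or.inl ⟨h, rfl⟩)), by omega⟩
  · subst h1
    exact Or.inl ⟨56, Or.inr (Or.inr (Or.inr (Or.inl ⟨h, rfl⟩))), by omega⟩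
  · exact Or.inr (Or.inl ⟨n, Or.inl ⟨h1, h, e⟩⟩)
  · subst h1
    exact Or.inl ⟨20, Or.inr (Or.inr (Or.inr (Or.inr ⟨h, rfl⟩))), by omega⟩
  · exact Or.inr (Or.inl ⟨n, Or.inr (Or.inl ⟨h1, h, e⟩)⟩)
  · exact Or.inr (Or.inl ⟨n, Or.inr (Or.inr (Or.inl ⟨h1, h, e⟩))⟩)
  · exact Or.inr (Or.inl ⟨n, Or.inr (Or.inr (Or.inr ⟨h1, h, e⟩))⟩)
  · exact Or.inr (Or.inr h)

/-- **The exponents `ν_w` for all types** and the numbers `D / 2` of `PX.Dim`: the inequality (C7), `ν_w = ν_(w⁻¹)`, `ν_w ≥ rank`, and the word clause. -/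
theorem exists_nuR (b : P.Base) : ∃ nu : Equiv.Perm ι → ℝ, (∀ D, PX.Dim b D → IneqR b ((D : ℝ) / 2) nu) ∧ (∀ w, nu w⁻¹ = nu w) ∧ (∀ w, IsC b w → (Fintype.card b.support : ℝ) ≤ nu w) ∧ FC.WordC b nu := by
  by_cases hS : ∃ D, SmT b D
  · obtain ⟨D₀, hD₀⟩ := hS
    obtain ⟨nu, h1, h2, h3, h4⟩ := FC.s5D (exS_sm hD₀)
    refine ⟨nu, fun D hD => ?_, h2, h3, h4⟩
    rcases dim_cases hD with ⟨D₁, h, h'⟩ | h
    · have h5 : IneqR b ((D₀ : ℝ) / 2) nu := h1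
      refine ineqR_mono_D ?_ h5
      rw [sm_unique h hD₀] at h'
      have h6 : (D : ℝ) ≤ (D₀ : ℝ) := by exact_mod_cast h'
      linarith
    · exact ineqR_mono (ineqR_ci (ci_big h)) h3
  · refine ⟨nu1 b, fun D hD => ?_, fun w => rfl, fun w _ => le_rfl, word_nu1 b⟩
    rcases dim_cases hD with ⟨D₁, h, h'⟩ | h
    · exact (hS ⟨D₁, h⟩).elim
    · exact ineqR_ci (ci_big h)

end

end Pool.Agent.Lib.L8.FL
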