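import Pool.Agent.Lib.L8.FL.BG
import Pool.Agent.Lib.L8.F7.CMA
import Pool.Agent.Lib.L8.F7.CMB
import Pool.Agent.Lib.L8.F7.CMC
import Pool.Agent.Lib.L8.F7.CMD
import Pool.Agent.Lib.L8.F7.EXM

/-!
# FL, file BH (helper21): the exponents `ν_w ≥ rank + 1` and the numbers with `rank + 1`, all types
-/

namespace Pool.Agent.Lib.L8.FL

open Matrix Pool.Agent.Lib.L1S Pool.Agent.Lib.L8.F7

noncomputable section

set_option linter.unusedSectionVars false

variable {ι M N : Type} [Fintype ι] [DecidableEq ι] [AddCommGroup M] [Module ℚ M] [AddCommGroup N] [Module ℚ N]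
  {P : RootPairing ι ℚ M N} [P.IsCrystallographic] [P.IsReduced] [P.IsIrreducible] [P.IsRootSystem] {b : P.Base}

/-! ## 1. A torus direction for every `w ≠ 1` -/

/-- A root is determined by its values on the simple coroots. -/
theorem root_det (b : P.Base) {β γ : ι} (h : ∀ i : b.support, P.pairingIn ℤ β (i : ι) = P.pairingIn ℤ γ (i : ι)) : β = γ := by
  have h1 : ∀ α : ι, P.coroot' α (P.root β) = P.coroot' α (P.root γ) := by
    intro α
    rw [FC.coroot_sum' b α (P.root β), FC.coroot_sum' b α (P.root γ)]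
    refine Finset.sum_congr rfl fun j _ => ?_
    have h2 : P.coroot' (j : ι) (P.root β) = P.coroot' (j : ι) (P.root γ) := by
      rw [P.root_coroot'_eq_pairing, P.root_coroot'_eq_pairing, ← P.algebraMap_pairingIn ℤ, ← P.algebraMap_pairingIn ℤ, h j]
    rw [h2]
  have h2 : P.root β = P.root γ := by
    have h3 : ∀ y : N, P.toLinearMap (P.root β) y = P.toLinearMap (P.root γ) y := by
      intro y
      have hy : y ∈ Submodule.span ℚ (Set.range P.coroot) := by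
        rw [RootPairing.IsRootSystem.span_coroot_eq_top]
        trivial
      induction hy using Submodule.span_induction with
      | mem x hx =>
        obtain ⟨α, rfl⟩ := hx
        exact h1 α
      | zero => rw [map_zero, map_zero]
      | add x z _ _ hx hz => rw [map_add, map_add, hx, hz]
      | smul a x _ hx => rw [map_smul, map_smul, hx]
    exact (LinearMap.IsPerfPair.bijective_left P.toLinearMap).injective (LinearMap.ext h3)
  exact P.root.injective h2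

/-- A torus direction. -/
def TorM (b : P.Base) (w : Equiv.Perm ι) : Prop := ∃ (i k : b.support) (m : ℕ), 1 ≤ m ∧
  (pj b i (Sum.inr (k : ι)) - pj b i (Sum.inr (w⁻¹ (k : ι))) = m ∨ pj b i (Sum.inr (k : ι)) - pj b i (Sum.inr (w⁻¹ (k : ι))) = -m)

theorem torM_isC {w : Equiv.Perm ι} (hw : IsC b w) : TorM b w := by
  obtain ⟨J, hJ, hw⟩ := hw
  have h1 : (Js b w⁻¹).Nonempty := by
    rw [FC.Js_inv hw]
    exact hJ
  obtain ⟨j₀, h0⟩ := h1
  have h2 : ∃ k : b.support, w⁻¹ (k : ι) ≠ (k : ι) := by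
    by_contra h
    push Not at h
    have h3 : ¬b.IsPos ((w⁻¹)⁻¹ (j₀ : ι)) := (FC.mem_Js _ _).1 h0
    rw [inv_inv] at h3
    have h4 : w (j₀ : ι) = (j₀ : ι) := by
      have h5 := h j₀
      rw [Equiv.Perm.inv_eq_iff_eq] at h5
      exact h5.symm
    rw [h4] at h3
    exact h3 (b.isPos_of_mem_support j₀.2)
  obtain ⟨k, hk⟩ := h2
  have h3 : ∃ i : b.support, P.pairingIn ℤ (k : ι) (i : ι) ≠ P.pairingIn ℤ (w⁻¹ (k : ι)) (i : ι) := by
    by_contra h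
    push Not at h
    exact hk (root_det b h).symm
  obtain ⟨i, hi⟩ := h3
  have e1 : pj b i (Sum.inr (k : ι)) = P.pairingIn ℤ (k : ι) (i : ι) := rfl
  have e2 : pj b i (Sum.inr (w⁻¹ (k : ι))) = P.pairingIn ℤ (w⁻¹ (k : ι)) (i : ι) := rfl
  refine ⟨i, k, (P.pairingIn ℤ (k : ι) (i : ι) - P.pairingIn ℤ (w⁻¹ (k : ι)) (i : ι)).natAbs, ?_, ?_⟩
  · have := Int.natAbs_pos.2 (sub_ne_zero.2 hi)
    omega
  · rw [e1, e2]
    exact Int.natAbs_eq _

/-- **The word clause**: for every `w = w_J` a reduced word with `ν_w ≤ gain + κ`, `κ = 1` only with a torus direction (any `m ≥ 1`). -/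
def WordM (b : P.Base) (nu : Equiv.Perm ι → ℝ) : Prop :=
  ∀ w, IsC b w → ∃ (L : List b.support) (κ : ℤ), RedW b L ∧ wW b L = w ∧
    (κ = 0 ∨ (κ = 1 ∧ ∃ (i k : b.support) (m : ℕ), 1 ≤ m ∧
      (pj b i (Sum.inr (k : ι)) - pj b i (Sum.inr ((wW b L)⁻¹ (k : ι))) = m ∨ pj b i (Sum.inr (k : ι)) - pj b i (Sum.inr ((wW b L)⁻¹ (k : ι))) = -m))) ∧
    ∀ c : ℝ, 1 ≤ c → nu w ≤ FC.gn b (eJ b c (Js b w)) Finset.univ Finset.univ L + κ

theorem wordM_of {nu : Equiv.Perm ι → ℝ} (h : FC.WordC b nu) : WordM b nu := by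
  intro w hw
  obtain ⟨L, κ, h1, h2, h3, h4⟩ := h w hw
  refine ⟨L, κ, h1, h2, ?_, h4⟩
  rcases h3 with h3 | ⟨h3, i, k, m, h5, h6⟩
  · exact Or.inl h3
  · exact Or.inr ⟨h3, i, k, m, by omega, h6⟩

/-- The exponents `rank + 1`. -/
def nu1r (b : P.Base) : Equiv.Perm ι → ℝ := fun _ => (Fintype.card b.support : ℝ) + 1

theorem wordM_r (b : P.Base) : WordM b (nu1r b) := by
  intro w hw
  have hw' := hw
  obtain ⟨J, hJ, hw'⟩ := hw'
  obtain ⟨L, h1, h2⟩ := FC.RedW_exists b hw'.1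
  refine ⟨L, 1, h1, h2, Or.inr ⟨rfl, ?_⟩, fun c hc => ?_⟩
  · rw [h2]
    exact torM_isC hw
  · have h3 := gn_rank hw h1 h2 hc Finset.univ
    unfold nu1r
    push_cast
    linarith

theorem wordM_max {nu nu' : Equiv.Perm ι → ℝ} (h : WordM b nu) (h' : WordM b nu') : WordM b (fun w => max (nu w) (nu' w)) := by
  intro w hw
  rcases le_total (nu w) (nu' w) with h1 | h1
  · obtain ⟨L, κ, h2, h3, h4, h5⟩ := h' w hw
    refine ⟨L, κ, h2, h3, h4, fun c hc => ?_⟩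
    show max (nu w) (nu' w) ≤ _
    rw [max_eq_right h1]
    exact h5 c hc
  · obtain ⟨L, κ, h2, h3, h4, h5⟩ := h w hw
    refine ⟨L, κ, h2, h3, h4, fun c hc => ?_⟩
    show max (nu w) (nu' w) ≤ _
    rw [max_eq_left h1]
    exact h5 c hc

/-! ## 2. The large types: `ν = rank + 1` -/

theorem ineqR_ci1 {D : ℝ} (h : CI1 b D) : IneqR b D (nu1r b) := by
  rintro w ⟨J, hJ, hw⟩
  refine ⟨?_, fun Λ hΛ => ?_⟩
  · have h0 : (0 : ℝ) ≤ (Fintype.card b.support : ℝ) := Nat.cast_nonneg _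
    show (1 : ℝ) ≤ (Fintype.card b.support : ℝ) + 1
    linarith
  · rw [sum_xw, FC.Js_inv hw]
    exact c7_gen1 h hw hΛ

/-- The large types of the list, with the numbers for `rank + 1` (twice the number). -/
def BigE (b : P.Base) (D : ℕ) : Prop :=
  (∃ n : ℕ, (n = 5 ∧ Typ b (CartanMatrix.A n) ∧ D = 79) ∨ (6 ≤ n ∧ Typ b (CartanMatrix.A n) ∧ D = n * (3 * n + 1)) ∨ (3 ≤ n ∧ Typ b (CartanMatrix.B n) ∧ D = (2 * n - 1) * (3 * n + 1)) ∨
    (n = 3 ∧ Typ b (CartanMatrix.C n) ∧ D = 50) ∨ (4 ≤ n ∧ Typ b (CartanMatrix.C n) ∧ D = 6 * n ^ 2) ∨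
    (n = 4 ∧ Typ b (CartanMatrix.D n) ∧ D = 63) ∨ (5 ≤ n ∧ Typ b (CartanMatrix.D n) ∧ D = 2 * (n - 1) * (3 * n - 1))) ∨
  (Typ b CartanMatrix.G₂ ∧ D = 38) ∨ (Typ b CartanMatrix.F₄ ∧ D = 216) ∨ (Typ b CartanMatrix.E₆ ∧ D = 312) ∨ (Typ b CartanMatrix.E₇ ∧ D = 630) ∨ (Typ b CartanMatrix.E₈ ∧ D = 1943)

theorem ci1_big {D : ℕ} (h : BigE b D) : CI1 b ((D : ℝ) / 2) := by
  rcases h with ⟨n, ⟨hn, h, rfl⟩ | ⟨hn, h, rfl⟩ | ⟨hn, h, rfl⟩ | ⟨hn, h, rfl⟩ | ⟨hn, h, rfl⟩ | ⟨hn, h, rfl⟩ | ⟨hn, h, rfl⟩⟩ | ⟨h, rfl⟩ | ⟨h, rfl⟩ | ⟨h, rfl⟩ | ⟨h, rfl⟩ | ⟨h, rfl⟩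
  · subst hn
    exact ci1_A (by omega) h fun {c} hc {e} he j => by exact_mod_cast cmA5 hc he j
  · have e1 : ((n * (3 * n + 1) : ℕ) : ℝ) / 2 = (n : ℝ) * (3 * n + 1) / 2 := by
      push_cast
      ring
    rw [e1]
    exact ci1_A (by omega) h fun {c} hc {e} he j => cmA hn hc he j
  · have e1 : (((2 * n - 1) * (3 * n + 1) : ℕ) : ℝ) / 2 = (2 * n - 1) * (3 * n + 1) / 2 := by
      rw [Nat.cast_mul, Nat.cast_sub (by omega)]
      push_cast
      ring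
    rw [e1]
    exact ci1_sq h (cmB hn)
  · subst hn
    have e1 : ((50 : ℕ) : ℝ) / 2 = 25 := by norm_num
    rw [e1]
    exact ci1_sq h cmC3
  · have e1 : ((6 * n ^ 2 : ℕ) : ℝ) / 2 = 3 * n ^ 2 := by
      push_cast
      ring
    rw [e1]
    exact ci1_sq h (cmC hn)
  · subst hn
    exact ci1_sq h (by exact_mod_cast cmD4)
  · have e1 : ((2 * (n - 1) * (3 * n - 1) : ℕ) : ℝ) / 2 = (n - 1) * (3 * n - 1) := by
      rw [Nat.cast_mul, Nat.cast_mul, Nat.cast_sub (by omega), Nat.cast_sub (by omega)]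
      push_cast
      ring
    rw [e1]
    exact ci1_sq h (cmD hn)
  · have h1 := ci1_G2 h
    norm_num at h1 ⊢
    exact h1
  · have h1 := ci1_F4 h
    norm_num at h1 ⊢
    exact h1
  · have h1 := ci1_E6 h
    norm_num at h1 ⊢
    exact h1
  · have h1 := ci1_E7 h
    norm_num at h1 ⊢
    exact h1
  · have h1 := ci1_E8 h
    norm_num at h1 ⊢
    exact h1

/-! ## 3. All types -/

/-- The list with the numbers for `rank + 1` (twice the number). -/
def DimE (b : P.Base) (D : ℕ) : Prop := (∃ D₁, SmT b D₁ ∧ D ≤ D₁) ∨ BigE b D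

/-- **The exponents `ν_w ≥ rank + 1` for all types**: the inequality (C7) with the numbers of `DimE`, `ν_w = ν_(w⁻¹)`, `ν_w ≥ rank + 1`, and the word clause. -/
theorem exists_nuE (b : P.Base) : ∃ nu : Equiv.Perm ι → ℝ, (∀ D, DimE b D → IneqR b ((D : ℝ) / 2) nu) ∧ (∀ w, nu w⁻¹ = nu w) ∧ (∀ w, IsC b w → (Fintype.card b.support : ℝ) + 1 ≤ nu w) ∧ WordM b nu := by
  by_cases hS : ∃ D, SmT b D
  · obtain ⟨D₀, hD₀⟩ := hS
    obtain ⟨nu, h1, h2, -, h4⟩ := FC.s5D (exS_sm hD₀)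
    refine ⟨fun w => max (nu w) (nu1r b w), fun D hD => ?_, fun w => ?_, fun w _ => le_max_right _ _, wordM_max (wordM_of h4) (wordM_r b)⟩
    · rcases hD with ⟨D₁, h, h'⟩ | h
      · have h5 : IneqR b ((D₀ : ℝ) / 2) nu := h1
        refine ineqR_mono (ineqR_mono_D ?_ h5) fun w _ => le_max_left _ _
        rw [sm_unique h hD₀] at h'
        have h6 : (D : ℝ) ≤ (D₀ : ℝ) := by exact_mod_cast h'
        linarith
      · exact ineqR_mono (ineqR_ci1 (ci1_big h)) fun w _ => le_max_right _ _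
    · show max (nu w⁻¹) (nu1r b w⁻¹) = max (nu w) (nu1r b w)
      rw [h2]
      rfl
  · refine ⟨nu1r b, fun D hD => ?_, fun w => rfl, fun w _ => le_rfl, wordM_r b⟩
    rcases hD with ⟨D₁, h, h'⟩ | h
    · exact (hS ⟨D₁, h⟩).elim
    · exact ineqR_ci1 (ci1_big h)

end

end Pool.Agent.Lib.L8.FL
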