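import Pool.Agent.Lib.L8.FL.BH

/-!
# FL, file BR (helper21): the exponents `ν_w = gain + κ`, `κ = rank (1 - w)`

`KR b w r`: the matrix `⟨α_k, α_i^∨⟩ - ⟨w⁻¹ α_k, α_i^∨⟩` has a minor of size `r` which is not `0`. `kap b w` is the largest such `r`, `gan b w` the largest gain of a reduced word of `w` (an integer below a fixed bound) and
`nuB b w = gan b w + kap b w`.
-/

namespace Pool.Agent.Lib.L8.FL

open Matrix Pool.Agent.Lib.L1S Pool.Agent.Lib.L8.F7

noncomputable section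

set_option linter.unusedSectionVars false

variable {ι M N : Type} [Fintype ι] [DecidableEq ι] [AddCommGroup M] [Module ℚ M] [AddCommGroup N] [Module ℚ N]
  {P : RootPairing ι ℚ M N} [P.IsCrystallographic] [P.IsReduced] [P.IsIrreducible] [P.IsRootSystem] {b : P.Base}

/-! ## 1. The torus part -/

/-- The entries of `1 - w⁻¹`. -/
def pK (b : P.Base) (w : Equiv.Perm ι) (k i : b.support) : ℤ := pj b i (Sum.inr (k : ι)) - pj b i (Sum.inr (w⁻¹ (k : ι)))

/-- A minor of size `r` which is not `0`. -/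
def KR (b : P.Base) (w : Equiv.Perm ι) (r : ℕ) : Prop := ∃ g f : Fin r → b.support, (Matrix.of fun a c : Fin r => pK b w (g a) (f c)).det ≠ 0

theorem kr_zero (b : P.Base) (w : Equiv.Perm ι) : KR b w 0 := ⟨Fin.elim0, Fin.elim0, by simp⟩

theorem kr_le_card {w : Equiv.Perm ι} {r : ℕ} (h : KR b w r) : r ≤ Fintype.card b.support := by
  obtain ⟨g, f, hd⟩ := h
  have h1 : Function.Injective g := by
    intro a a' haa
    by_contra hne
    exact hd (Matrix.det_zero_of_row_eq hne (by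
      funext c
      show pK b w (g a) (f c) = pK b w (g a') (f c)
      rw [haa]))
  have h2 := Fintype.card_le_of_injective g h1
  rwa [Fintype.card_fin] at h2

theorem kr_one {w : Equiv.Perm ι} (h : TorM b w) : KR b w 1 := by
  obtain ⟨i, k, m, hm, h⟩ := h
  refine ⟨fun _ => k, fun _ => i, ?_⟩
  rw [Matrix.det_fin_one]
  show pK b w k i ≠ 0
  unfold pK
  omega

open scoped Classical in
/-- The rank of `1 - w`. -/
def kap (b : P.Base) (w : Equiv.Perm ι) : ℕ := Nat.findGreatest (fun r => KR b w r) (Fintype.card b.support)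

theorem kap_kr (b : P.Base) (w : Equiv.Perm ι) : KR b w (kap b w) := by
  classical
  unfold kap
  exact Nat.findGreatest_spec (P := fun r => KR b w r) (Nat.zero_le _) (kr_zero b w)

theorem le_kap {w : Equiv.Perm ι} {r : ℕ} (h : KR b w r) : r ≤ kap b w := by
  classical
  unfold kap
  exact Nat.le_findGreatest (kr_le_card h) h

theorem one_le_kap {w : Equiv.Perm ι} (hw : IsC b w) : 1 ≤ kap b w := le_kap (kr_one (torM_isC hw))

/-! ## 2. The gain -/

/-- There is a reduced word with the gain `g`. -/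
def GW (b : P.Base) (w : Equiv.Perm ι) (g : ℕ) : Prop := ∃ L : List b.support, RedW b L ∧ wW b L = w ∧ ∀ c : ℝ, 1 ≤ c → (g : ℝ) ≤ FC.gn b (eJ b c (Js b w)) Finset.univ Finset.univ L

theorem gw_rank {w : Equiv.Perm ι} (hw : IsC b w) : GW b w (Fintype.card b.support) := by
  have hw' := hw
  obtain ⟨J, hJ, hw'⟩ := hw'
  obtain ⟨L, h1, h2⟩ := FC.RedW_exists b hw'.1
  exact ⟨L, h1, h2, fun c hc => gn_rank hw h1 h2 hc Finset.univ⟩

open scoped Classical in
/-- The largest gain (below a bound). -/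
def gan (b : P.Base) (w : Equiv.Perm ι) : ℕ := Nat.findGreatest (fun g => GW b w g) (Fintype.card b.support + 1000)

theorem gan_gw {w : Equiv.Perm ι} (hw : IsC b w) : GW b w (gan b w) := by
  classical
  unfold gan
  exact Nat.findGreatest_spec (P := fun g => GW b w g) (Nat.le_add_right _ _) (gw_rank hw)

theorem le_gan {w : Equiv.Perm ι} {g : ℕ} (h : GW b w g) (hg : g ≤ Fintype.card b.support + 1000) : g ≤ gan b w := by
  classical
  unfold gan
  exact Nat.le_findGreatest hg h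

theorem rank_le_gan {w : Equiv.Perm ι} (hw : IsC b w) : Fintype.card b.support ≤ gan b w := le_gan (gw_rank hw) (Nat.le_add_right _ _)

/-! ## 3. The exponents -/

/-- The exponents. -/
def nuB (b : P.Base) (w : Equiv.Perm ι) : ℝ := (gan b w : ℝ) + (kap b w : ℝ)

/-- **The word clause** with the rank of `1 - w`. -/
def WordR (b : P.Base) (nu : Equiv.Perm ι → ℝ) : Prop :=
  ∀ w, IsC b w → ∃ (L : List b.support) (r : ℕ), RedW b L ∧ wW b L = w ∧ KR b w r ∧ ∀ c : ℝ, 1 ≤ c → nu w ≤ FC.gn b (eJ b c (Js b w)) Finset.univ Finset.univ L + r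

theorem wordR_nuB (b : P.Base) : WordR b (nuB b) := by
  intro w hw
  obtain ⟨L, h1, h2, h3⟩ := gan_gw hw
  refine ⟨L, kap b w, h1, h2, kap_kr b w, fun c hc => ?_⟩
  have := h3 c hc
  unfold nuB
  linarith

theorem rank_nuB {w : Equiv.Perm ι} (hw : IsC b w) : (Fintype.card b.support : ℝ) + 1 ≤ nuB b w := by
  have h1 : (Fintype.card b.support : ℝ) ≤ (gan b w : ℝ) := by exact_mod_cast rank_le_gan hw
  have h2 : (1 : ℝ) ≤ (kap b w : ℝ) := by exact_mod_cast one_le_kap hw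
  unfold nuB
  linarith

/-- A lower bound from a word and a minor. -/
theorem le_nuB {w : Equiv.Perm ι} {g r : ℕ} (hg : GW b w g) (hg' : g ≤ Fintype.card b.support + 1000) (hr : KR b w r) : ((g + r : ℕ) : ℝ) ≤ nuB b w := by
  have h1 : (g : ℝ) ≤ (gan b w : ℝ) := by exact_mod_cast le_gan hg hg'
  have h2 : (r : ℝ) ≤ (kap b w : ℝ) := by exact_mod_cast le_kap hr
  unfold nuB
  push_cast
  linarith

/-- A lower bound from the rank and a minor. -/
theorem le_nuB' {w : Equiv.Perm ι} (hw : IsC b w) {r : ℕ} (hr : KR b w r) : (Fintype.card b.support : ℝ) + r ≤ nuB b w := by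
  have h1 : (Fintype.card b.support : ℝ) ≤ (gan b w : ℝ) := by exact_mod_cast rank_le_gan hw
  have h2 : (r : ℝ) ≤ (kap b w : ℝ) := by exact_mod_cast le_kap hr
  unfold nuB
  linarith

/-- The inequality with `rank + 1`. -/
theorem ineqR_B {D : ℝ} (h : CI1 b D) : IneqR b D (nuB b) := ineqR_mono (ineqR_ci1 h) fun w hw => rank_nuB hw

/-- A lower bound from a line of the tables of stage 2. -/
theorem stage2_le {D : ℝ} {nu : Finset b.support → ℤ} {J : Finset b.support} (hJ : J.Nonempty) {w : Equiv.Perm ι} (hw : IsWJ b J w) (h : FC.Stage2 b D nu J w) (hb : nu J ≤ 1000) : (nu J : ℝ) ≤ nuB b w := by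
  obtain ⟨L, κ, h1, h2, h3, h4, -, h5, -⟩ := h
  have hC : IsC b w := ⟨J, hJ, hw⟩
  by_cases hb : nu J ≤ Fintype.card b.support + 1
  · have h7 : (nu J : ℝ) ≤ (Fintype.card b.support : ℝ) + 1 := by exact_mod_cast hb
    exact h7.trans (rank_nuB hC)
  · obtain ⟨g, hg⟩ := Int.eq_ofNat_of_zero_le (show 0 ≤ nu J - κ by
      rcases h3 with h3 | ⟨h3, -⟩ <;> omega)
    have h7 : GW b w g := by
      refine ⟨L, h1, h2, fun c hc => ?_⟩
      have h8 := h5 c hc
      have h9 : ((nu J - κ : ℤ) : ℝ) = (g : ℝ) := by exact_mod_cast hg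
      push_cast at h9
      linarith
    have h8 := le_nuB h7 (by
      rcases h3 with h3 | ⟨h3, -⟩ <;> omega) (kr_one (torM_isC hC))
    have h9 : nu J ≤ ((g + 1 : ℕ) : ℤ) := by
      rcases h3 with h3 | ⟨h3, -⟩ <;> omega
    have h10 : (nu J : ℝ) ≤ ((g + 1 : ℕ) : ℝ) := by exact_mod_cast h9
    exact h10.trans h8

/-- The inequality from lower bounds for the exponents. -/
theorem ineqR_B_of {D : ℝ} (h : ∀ J : Finset b.support, J.Nonempty → ∀ w, IsWJ b J w → ∃ ν : ℝ, ν ≤ nuB b w ∧ ∀ Λ : b.support → ℝ, (∀ i, 0 ≤ al (cA b) i Λ) →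
    D * (∑ j ∈ J, Λ j + ∑ j ∈ Js b w, Λ j) ≤ 2 * (∑ k, Λ k) * (∑ j ∈ J, rr b j + ∑ j ∈ Js b w, rr b j + ν)) : IneqR b D (nuB b) := by
  rintro w ⟨J, hJ, hw⟩
  obtain ⟨ν, h1, h2⟩ := h J hJ w hw
  refine ⟨?_, fun Λ hΛ => ?_⟩
  · have h7 := rank_nuB (b := b) (w := w) ⟨J, hJ, hw⟩
    have h0 : (0 : ℝ) ≤ (Fintype.card b.support : ℝ) := Nat.cast_nonneg _
    linarith
  · rw [sum_xw, FC.Js_inv hw]
    refine (h2 Λ hΛ).trans ?_
    have h8 : 0 ≤ ∑ k, Λ k := Finset.sum_nonneg fun k _ => ig_dom hΛ k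
    exact mul_le_mul_of_nonneg_left (by linarith) (by linarith)

/-- The tables of stage 2. -/
theorem ineqR_B_tab {n : ℕ} {A : Matrix (Fin n) (Fin n) ℤ} (h : Typ b A) {D : ℝ} {Om : Fin n → Fin n → ℝ} (hOm : ∀ j l, ∑ k, Om j k * ((A k l : ℤ) : ℝ) = if j = l then 1 else 0)
    {nu : Finset (Fin n) → ℤ} (tab : ∀ J : Finset (Fin n), J.Nonempty → FC.Line A D Om nu J) (hb : ∀ J, nu J ≤ 1000) : IneqR b D (nuB b) := by
  obtain ⟨e, he⟩ := h
  refine ineqR_B_of fun J hJ w hw => ?_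
  have h1 := FC.stage2_of e he hOm tab hJ hw
  refine ⟨_, stage2_le hJ hw h1 (hb _), ?_⟩
  obtain ⟨L, κ, -, -, -, -, -, -, h6⟩ := h1
  exact h6

end

end Pool.Agent.Lib.L8.FL
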