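import Pool.Agent.Lib.L8.FL.BH
import Pool.Agent.Lib.L8.PY.Stm

/-!
# FL, file BY (helper21): the exponents and the numbers of `PY.Dim`
-/

namespace Pool.Agent.Lib.L8.FL

open Matrix Pool.Agent.Lib.L1S Pool.Agent.Lib.L8.F7

noncomputable section

set_option linter.unusedSectionVars false

variable {ι M N : Type} [Fintype ι] [DecidableEq ι] [AddCommGroup M] [Module ℚ M] [AddCommGroup N] [Module ℚ N]
  {P : RootPairing ι ℚ M N} [P.IsCrystallographic] [P.IsReduced] [P.IsIrreducible] [P.IsRootSystem] {b : P.Base}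

theorem dim_casesY {D : ℕ} (h : PY.Dim b D) : DimE b D := by
  rcases h with ⟨n, ⟨h1, h, e⟩ | ⟨h1, h, e⟩ | ⟨h1, h, e⟩ | ⟨h1, h, e⟩ | ⟨h1, h, e⟩ | ⟨h1, h, e⟩ | ⟨h1, h, e⟩ | ⟨h1, h, e⟩ | ⟨h1, h, e⟩ | ⟨h1, h, e⟩ | ⟨h1, h, e⟩ | ⟨h1, h, e⟩⟩ | h
  · subst h1
    exact Or.inl ⟨6, Or.inl ⟨h, rfl⟩, by omega⟩
  · subst h1
    exact Or.inl ⟨16, Or.inr (Or.inl ⟨h, rfl⟩), by omega⟩
  · subst h1
    exact Or.inl ⟨32, Or.inr (Or.inr (Or.inl ⟨h, rfl⟩)), by omega⟩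
  · subst h1
    exact Or.inl ⟨56, Or.inr (Or.inr (Or.inr (Or.inl ⟨h, rfl⟩))), by omega⟩
  · exact Or.inr (Or.inl ⟨n, Or.inl ⟨h1, h, e⟩⟩)
  · exact Or.inr (Or.inl ⟨n, Or.inr (Or.inl ⟨h1, h, e⟩)⟩)
  · subst h1
    exact Or.inl ⟨20, Or.inr (Or.inr (Or.inr (Or.inr ⟨h, rfl⟩))), by omega⟩
  · exact Or.inr (Or.inl ⟨n, Or.inr (Or.inr (Or.inl ⟨h1, h, e⟩))⟩)
  · exact Or.inr (Or.inl ⟨n, Or.inr (Or.inr (Or.inr (Or.inl ⟨h1, h, e⟩)))⟩)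
  · exact Or.inr (Or.inl ⟨n, Or.inr (Or.inr (Or.inr (Or.inr (Or.inl ⟨h1, h, e⟩))))⟩)
  · exact Or.inr (Or.inl ⟨n, Or.inr (Or.inr (Or.inr (Or.inr (Or.inr (Or.inl ⟨h1, h, e⟩)))))⟩)
  · exact Or.inr (Or.inl ⟨n, Or.inr (Or.inr (Or.inr (Or.inr (Or.inr (Or.inr ⟨h1, h, e⟩)))))⟩)
  · exact Or.inr (Or.inr h)

/-- **The exponents for `PY.Dim`.** -/
theorem exists_nuY (b : P.Base) : ∃ nu : Equiv.Perm ι → ℝ, (∀ D, PY.Dim b D → IneqR b ((D : ℝ) / 2) nu) ∧ (∀ w, nu w⁻¹ = nu w) ∧ (∀ w, IsC b w → (Fintype.card b.support : ℝ) ≤ nu w) ∧ WordM b nu := by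
  obtain ⟨nu, h1, h2, h3, h4⟩ := exists_nuE b
  exact ⟨nu, fun D hD => h1 D (dim_casesY hD), h2, fun w hw => by have := h3 w hw; linarith, h4⟩

end

end Pool.Agent.Lib.L8.FL
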