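import Pool.Agent.Lib.L1S.AW7

/-!
# C1A: the Schur test with weights which depend on the point

The exceptional elements are divided into finitely many cells `Y j`, `j ∈ τ`, with `(Y j a b)⁻¹ = Y (st j) b a`; in the cell `j` the element `γ` is counted with the weight `p j (γ x)`
and the sum is bounded by `A j a b * p (st j) x`.
-/

namespace Pool.Agent.Lib.L8.FL

open MeasureTheory Pool.Agent.Lib.H33W Pool.Agent.Lib.H67G Pool.Agent.Lib.L1S
open scoped ENNReal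

noncomputable section

/-- The abstract Schur property of the exceptional elements (the input of the large sieve inequality). -/
structure CntS {H X T κ : Type} [Group H] [MulAction H X] [MeasurableSpace X] [Fintype κ] (μ : Measure X) (tr : T → X → X) (Γ HU : Subgroup H)
    (hk : κ → H) (Γk : κ → Subgroup H) (S : Set X) (Bd : κ → κ → Set H) (B : ℝ≥0∞) : Prop where
  bad : BadS Γk HU Bd
  disj : ∀ k, ∀ γ ∈ Bd k k, γ ∉ HU
  schur : ∀ F_U : κ → Set X, (∀ a, SF (Γk a ⊓ HU) (F_U a)) → ∀ Φ : κ → X → ℝ≥0∞, (∀ a, Measurable (Φ a)) → (∀ a t x, Φ a (tr t x) = Φ a x) → (∀ a x, x ∉ S → Φ a x = 0) →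
    ∑ b, ∑ a, ∫⁻ x in F_U b, Φ b x * ce (Γk a ⊓ HU) (Zs Γ (hk a) (hk b) ∩ Bd a b) (fun γ => Φ a (γ • x)) ∂μ ≤ B * ∑ b, ∫⁻ x in F_U b, Φ b x ^ 2 ∂μ

/-- The weighted count with weights which depend on the point. -/
structure CntP {H X T κ τ : Type} [Group H] [MulAction H X] [MeasurableSpace X] [MeasurableSpace T] [Fintype κ] [Fintype τ] (ν : Measure T) (tr : T → X → X) (Γ HU : Subgroup H)
    (hk : κ → H) (Γk : κ → Subgroup H) (D : κ → Set T) (S : Set X) (st : τ → τ) (Y : τ → κ → κ → Set H) (p : τ → X → ℝ≥0∞) (A s : τ → κ → κ → ℝ≥0∞) (B : ℝ≥0∞) : Prop where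
  inv2 : ∀ j, st (st j) = j
  yl : ∀ j a b, ∀ u ∈ Γk a ⊓ HU, ∀ g, u * g ∈ Y j a b ↔ g ∈ Y j a b
  yi : ∀ j a b g, g ∈ Y j a b ↔ g⁻¹ ∈ Y (st j) b a
  disj : ∀ j k, ∀ γ ∈ Y j k k, γ ∉ HU
  mp : ∀ j, Measurable (p j)
  ep : ∀ j t x, p j (tr t x) = p j x
  p0 : ∀ j, ∀ x ∈ S, p j x ≠ 0
  pt : ∀ j, ∀ x ∈ S, p j x ≠ ⊤
  cnt : ∀ j a b, ∀ x ∈ S, ∫⁻ t in D b, ce (Γk a ⊓ HU) (Zs Γ (hk a) (hk b) ∩ Y j a b) (fun γ => S.indicator (p j) (γ • tr t x)) ∂ν ≤ A j a b * p (st j) x * ν (D b)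
  rho : ∀ j a b, ∃ ρ : ℝ≥0∞, ρ ≠ 0 ∧ ρ ≠ ⊤ ∧ ρ * A j a b ≤ s j a b ∧ ρ⁻¹ * A (st j) b a ≤ s j a b
  sb : ∀ b, ∑ a, ∑ j, s j a b ≤ B
  sa : ∀ a, ∑ b, ∑ j, s j a b ≤ B

section half

variable {H X T : Type} [Group H] [Countable H] [MulAction H X] [MeasurableSpace X] [MeasurableSpace T] [MeasurableConstSMul H X] {μ : Measure X} {ν : Measure T}
  [SMulInvariantMeasure H X μ] [SFinite μ] [SFinite ν] {tr : T → X → X} {ι : T → T} {HU : Subgroup H} [MulAction HU T]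

/-- The first half: the average of the weighted number of the exceptional elements. -/
theorem c1_half (hA : Avg HU μ ν tr ι) {Γb : Subgroup H} {Da : Set T} (hD : SF (Γb.subgroupOf HU) Da) (pD : ν Da ≠ 0) (fD : ν Da ≠ ⊤)
    {Fb : Set X} (hU : SF (Γb ⊓ HU) Fb) {Ψ N c : X → ℝ≥0∞} (mΨ : Measurable Ψ) (mN : Measurable N) (eΨ : ∀ t x, Ψ (tr t x) = Ψ x)
    (iN : ∀ u ∈ Γb ⊓ HU, ∀ x, N (u • x) = N x) (hn : ∀ x, Ψ x ≠ 0 → ∫⁻ t in Da, N (tr t x) ∂ν ≤ c x * ν Da) :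
    ∫⁻ x in Fb, Ψ x * N x ∂μ ≤ ∫⁻ x in Fb, Ψ x * c x ∂μ := by
  have hT : Nonempty T := by
    by_contra h
    rw [not_nonempty_iff] at h
    exact pD (by rw [Set.eq_empty_of_isEmpty Da, measure_empty])
  have hmc : MeasurableConstSMul HU X := ⟨fun c => measurable_const_smul (c : H)⟩
  have hsi : SMulInvariantMeasure HU X μ := ⟨fun c _ hs => SMulInvariantMeasure.measure_preimage_smul (c : H) hs⟩
  have h1 := avu_lint hA hD (an7a_sub.1 hU) (φ := fun x => Ψ x * N x) (mΨ.mul mN) (fun γ hγ x => by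
    have e1 : Ψ (γ • x) = Ψ x := aw_inv hA eΨ γ.2 x
    have e2 : N (γ • x) = N x := iN (γ : H) ⟨hγ, γ.2⟩ x
    show Ψ (γ • x) * N (γ • x) = _
    rw [e1, e2])
  have h2 : ν Da * ∫⁻ x in Fb, Ψ x * N x ∂μ ≤ ν Da * ∫⁻ x in Fb, Ψ x * c x ∂μ := by
    rw [← h1]
    have h3 : ∀ x, ∫⁻ t in Da, Ψ (tr t x) * N (tr t x) ∂ν ≤ ν Da * (Ψ x * c x) := by
      intro x
      have e3 : ∀ t, Ψ (tr t x) * N (tr t x) = Ψ x * N (tr t x) := fun t => by rw [eΨ]
      rw [lintegral_congr e3]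
      have mNt : Measurable fun t => N (tr t x) := mN.comp (hA.trm.comp (measurable_id.prodMk measurable_const))
      rw [lintegral_const_mul _ mNt]
      by_cases hx : Ψ x = 0
      · rw [hx, zero_mul]
        exact zero_le
      · calc Ψ x * ∫⁻ t in Da, N (tr t x) ∂ν ≤ Ψ x * (c x * ν Da) := mul_le_mul_right (hn x hx) _
          _ = _ := by ring
    refine (lintegral_mono h3).trans (le_of_eq ?_)
    rw [lintegral_const_mul' _ _ fD]
  exact (ENNReal.mul_le_mul_iff_right pD fD).1 h2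

omit [MeasurableSpace T] [SFinite μ] [MulAction HU T] in
/-- Double coset unfolding for one pair. -/
theorem c1_unf {Γa Γb : Subgroup H} {Y1 Y2 : Set H} (h1 : ∀ u ∈ Γa ⊓ HU, ∀ g, u * g ∈ Y1 ↔ g ∈ Y1) (h2 : ∀ u ∈ Γb ⊓ HU, ∀ g, u * g ∈ Y2 ↔ g ∈ Y2)
    (h12 : ∀ g, g ∈ Y1 ↔ g⁻¹ ∈ Y2) {Fa Fb : Set X} (hUa : SF (Γa ⊓ HU) Fa) (hUb : SF (Γb ⊓ HU) Fb) {f g : X → ℝ≥0∞} (mf : Measurable f) (mg : Measurable g)
    (iF : ∀ u ∈ Γb ⊓ HU, ∀ x, f (u • x) = f x) (iG : ∀ u ∈ Γa ⊓ HU, ∀ x, g (u • x) = g x) :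
    ∫⁻ x in Fb, f x * ce (Γa ⊓ HU) Y1 (fun γ => g (γ • x)) ∂μ = ∫⁻ y in Fa, g y * ce (Γb ⊓ HU) Y2 (fun γ => f (γ • y)) ∂μ := by
  have hB : BadS (fun c : Bool => cond c Γa Γb) HU (fun c d => match c, d with
      | true, false => Y1
      | false, true => Y2
      | _, _ => ∅) := by
    constructor
    · rintro (_ | _) (_ | _) u hu g
      · exact Iff.rfl
      · exact h2 u hu g
      · exact h1 u hu g
      · exact Iff.rfl
    · rintro (_ | _) (_ | _) g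
      · exact Iff.rfl
      · show g ∈ Y2 ↔ g⁻¹ ∈ Y1
        rw [h12, inv_inv]
      · exact h12 g
      · exact Iff.rfl
  exact aw_unf hB (F_U := fun c : Bool => cond c Fa Fb) (by rintro (_ | _); exacts [hUb, hUa]) mf mg true false iF iG

end half

section schur

variable {H X T κ τ : Type} [Group H] [Countable H] [MulAction H X] [MeasurableSpace X] [MeasurableSpace T] [MeasurableConstSMul H X] {μ : Measure X} {ν : Measure T}
  [SMulInvariantMeasure H X μ] [SFinite μ] [SFinite ν] {tr : T → X → X} {ι : T → T} {Γ HU : Subgroup H} [MulAction HU T] [Fintype κ] [Fintype τ]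
  {hk : κ → H} {Γk : κ → Subgroup H} {D : κ → Set T} {S : Set X} {st : τ → τ} {Y : τ → κ → κ → Set H} {p : τ → X → ℝ≥0∞} {A s : τ → κ → κ → ℝ≥0∞} {B : ℝ≥0∞}


/-- **The Schur test with weights which depend on the point.** -/
theorem CntP.toS (hA : Avg HU μ ν tr ι) (hΓ : ∀ k g, g ∈ Γk k ↔ hk k * g * (hk k)⁻¹ ∈ Γ) (hD : ∀ a, SF ((Γk a).subgroupOf HU) (D a)) (pD : ∀ a, ν (D a) ≠ 0) (fD : ∀ a, ν (D a) ≠ ⊤)
    (mS : MeasurableSet S) (hS : ∀ t x, tr t x ∈ S ↔ x ∈ S) (hC : CntP ν tr Γ HU hk Γk D S st Y p A s B) :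
    CntS μ tr Γ HU hk Γk S (fun a b => ⋃ j, Y j a b) B where
  bad := by
    constructor
    · intro a b u hu g
      simp only [Set.mem_iUnion]
      exact exists_congr fun j => hC.yl j a b u hu g
    · intro a b g
      simp only [Set.mem_iUnion]
      constructor
      · rintro ⟨j, hj⟩
        exact ⟨st j, (hC.yi j a b g).1 hj⟩
      · rintro ⟨j, hj⟩
        refine ⟨st j, ?_⟩
        have h := (hC.yi j b a g⁻¹).1 hj
        rwa [inv_inv] at h
  disj := by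
    intro k γ h
    obtain ⟨j, hj⟩ := Set.mem_iUnion.1 h
    exact hC.disj j k γ hj
  schur := by
    classical
    intro F_U hU Φ mΦ eΦ sΦ
    rcases isEmpty_or_nonempty κ with hκ | hκ
    · simp
    obtain ⟨k0⟩ := hκ
    have hT : Nonempty T := by
      by_contra h
      rw [not_nonempty_iff] at h
      exact pD k0 (by rw [Set.eq_empty_of_isEmpty (D k0), measure_empty])
    -- the weights
    obtain ⟨P, hP⟩ : ∃ P : τ → X → ℝ≥0∞, P = fun j => S.indicator (p j) := ⟨_, rfl⟩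
    have mP : ∀ j, Measurable (P j) := fun j => by
      rw [hP]
      exact (hC.mp j).indicator mS
    have eP : ∀ j t x, P j (tr t x) = P j x := by
      intro j t x
      rw [hP]
      by_cases hx : x ∈ S
      · simp only [Set.indicator_of_mem hx, Set.indicator_of_mem ((hS t x).2 hx)]
        exact hC.ep j t x
      · simp only [Set.indicator_of_notMem hx, Set.indicator_of_notMem fun h => hx ((hS t x).1 h)]
    have iP : ∀ j, ∀ u ∈ HU, ∀ x, P j (u • x) = P j x := fun j u hu x => aw_inv hA (eP j) hu x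
    -- the functions `Φ² / p`
    obtain ⟨Ψ, hΨ⟩ : ∃ Ψ : τ → κ → X → ℝ≥0∞, Ψ = fun j a x => Φ a x ^ 2 * (p j x)⁻¹ := ⟨_, rfl⟩
    have mΨ : ∀ j a, Measurable (Ψ j a) := fun j a => by
      rw [hΨ]
      exact ((mΦ a).pow_const 2).mul (hC.mp j).inv
    have eΨ : ∀ j a t x, Ψ j a (tr t x) = Ψ j a x := by
      intro j a t x
      rw [hΨ]
      show Φ a (tr t x) ^ 2 * (p j (tr t x))⁻¹ = _
      rw [eΦ, hC.ep]
    have iΨ : ∀ j a, ∀ u ∈ HU, ∀ x, Ψ j a (u • x) = Ψ j a x := fun j a u hu x => aw_inv hA (eΨ j a) hu x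
    have sΨ : ∀ j a x, x ∉ S → Ψ j a x = 0 := by
      intro j a x hx
      rw [hΨ]
      show Φ a x ^ 2 * (p j x)⁻¹ = 0
      rw [sΦ a x hx]
      simp
    have cΨ : ∀ j a x (c : ℝ≥0∞), Ψ j a x * (c * p j x) = c * Φ a x ^ 2 := by
      intro j a x c
      by_cases hx : x ∈ S
      · rw [hΨ]
        show Φ a x ^ 2 * (p j x)⁻¹ * (c * p j x) = _
        calc Φ a x ^ 2 * (p j x)⁻¹ * (c * p j x) = c * Φ a x ^ 2 * ((p j x)⁻¹ * p j x) := by ring
          _ = c * Φ a x ^ 2 := by rw [ENNReal.inv_mul_cancel (hC.p0 j x hx) (hC.pt j x hx), mul_one]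
      · rw [sΨ j a x hx, sΦ a x hx]
        simp
    -- the sets
    obtain ⟨Z, hZ⟩ : ∃ Z : τ → κ → κ → Set H, Z = fun j a b => Zs Γ (hk a) (hk b) ∩ Y j a b := ⟨_, rfl⟩
    have zl : ∀ j a b, ∀ u ∈ Γk a ⊓ HU, ∀ g, u * g ∈ Z j a b ↔ g ∈ Z j a b := by
      intro j a b u hu g
      rw [hZ]
      show u * g ∈ Zs Γ (hk a) (hk b) ∩ Y j a b ↔ g ∈ Zs Γ (hk a) (hk b) ∩ Y j a b
      rw [Set.mem_inter_iff, Set.mem_inter_iff, zs_l hΓ a b u hu.1, hC.yl j a b u hu]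
    have zi : ∀ j a b g, g ∈ Z j a b ↔ g⁻¹ ∈ Z (st j) b a := by
      intro j a b g
      rw [hZ]
      show g ∈ Zs Γ (hk a) (hk b) ∩ Y j a b ↔ g⁻¹ ∈ Zs Γ (hk b) (hk a) ∩ Y (st j) b a
      rw [Set.mem_inter_iff, Set.mem_inter_iff, aw_zsi, hC.yi j a b]
    have zr : ∀ j a b, ∀ u ∈ Γk b ⊓ HU, ∀ g, g * u ∈ Z j a b ↔ g ∈ Z j a b := by
      intro j a b u hu g
      rw [zi j a b (g * u), zi j a b g, mul_inv_rev, zl (st j) b a _ (inv_mem hu)]
    -- the weighted numbers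
    obtain ⟨N, hN⟩ : ∃ N : τ → κ → κ → X → ℝ≥0∞, N = fun j a b x => ce (Γk a ⊓ HU) (Z j a b) (fun γ => P j (γ • x)) := ⟨_, rfl⟩
    have mN : ∀ j a b, Measurable (N j a b) := fun j a b => by
      rw [hN]
      exact aw_cemeas (mP j)
    have iN : ∀ j a b, ∀ u ∈ Γk b ⊓ HU, ∀ x, N j a b (u • x) = N j a b x := by
      intro j a b u hu x
      rw [hN]
      have h1 := ce_shift (U₀ := Γk a ⊓ HU) (S := Z j a b) (zl j a b) (b := fun γ => P j (γ • x))
        (fun u' hu' γ => by rw [mul_smul, iP j u' hu'.2]) u (zr j a b u hu)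
      show ce (Γk a ⊓ HU) (Z j a b) (fun γ => P j (γ • u • x)) = ce (Γk a ⊓ HU) (Z j a b) (fun γ => P j (γ • x))
      rw [← h1]
      simp only [mul_smul]
    obtain ⟨d, hd⟩ : ∃ d : κ → ℝ≥0∞, d = fun b => ∫⁻ x in F_U b, Φ b x ^ 2 ∂μ := ⟨_, rfl⟩
    have half : ∀ j a b, ∫⁻ x in F_U b, Ψ (st j) b x * N j a b x ∂μ ≤ A j a b * d b := by
      intro j a b
      have h1 := c1_half hA (hD b) (pD b) (fD b) (hU b) (c := fun x => A j a b * p (st j) x) (mΨ (st j) b) (mN j a b) (eΨ (st j) b) (iN j a b) (fun x hx => by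
        have hxS : x ∈ S := by
          by_contra h
          exact hx (sΨ _ _ _ h)
        rw [hN, hP, hZ]
        exact hC.cnt j a b x hxS)
      refine h1.trans (le_of_eq ?_)
      rw [lintegral_congr fun x => cΨ (st j) b x (A j a b), lintegral_const_mul _ ((mΦ b).pow_const 2), hd]
    -- the second half
    have half2 : ∀ j a b, ∫⁻ x in F_U b, P (st j) x * ce (Γk a ⊓ HU) (Z j a b) (fun γ => Ψ j a (γ • x)) ∂μ ≤ A (st j) b a * d a := by
      intro j a b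
      rw [c1_unf (zl j a b) (zl (st j) b a) (zi j a b) (hU a) (hU b) (mP (st j)) (mΨ j a) (fun u hu x => iP (st j) u hu.2 x) (fun u hu x => iΨ j a u hu.2 x)]
      have h1 := half (st j) b a
      rw [hC.inv2, hN] at h1
      exact h1
    -- the pair `(a, b)` in the cell `j`
    have pair : ∀ j a b, 2 * ∫⁻ x in F_U b, Φ b x * ce (Γk a ⊓ HU) (Z j a b) (fun γ => Φ a (γ • x)) ∂μ ≤ s j a b * d b + s j a b * d a := by
      intro j a b
      obtain ⟨ρ, r0, rt, hr1, hr2⟩ := hC.rho j a b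
      have m1 : Measurable fun x => Φ b x * ce (Γk a ⊓ HU) (Z j a b) (fun γ => Φ a (γ • x)) := (mΦ b).mul (aw_cemeas (mΦ a))
      have m2 : Measurable fun x => ρ * (Ψ (st j) b x * N j a b x) := ((mΨ (st j) b).mul (mN j a b)).const_mul _
      rw [← lintegral_const_mul _ m1]
      have h1 : ∀ x, 2 * (Φ b x * ce (Γk a ⊓ HU) (Z j a b) (fun γ => Φ a (γ • x))) ≤ ρ * (Ψ (st j) b x * N j a b x) +
          ρ⁻¹ * (P (st j) x * ce (Γk a ⊓ HU) (Z j a b) (fun γ => Ψ j a (γ • x))) := by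
        intro x
        rw [hN]
        simp only [aw_cemul, aw_ceadd]
        refine aw_cele fun γ => ?_
        by_cases hx : x ∈ S
        · by_cases hg : γ • x ∈ S
          · have q0 := hC.p0 (st j) x hx
            have qt := hC.pt (st j) x hx
            have p0 := hC.p0 j _ hg
            have pt := hC.pt j _ hg
            have e1 : P j (γ • x) = p j (γ • x) := by rw [hP]; exact Set.indicator_of_mem hg _
            have e2 : P (st j) x = p (st j) x := by rw [hP]; exact Set.indicator_of_mem hx _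
            rw [e1, e2, hΨ]
            show 2 * (Φ b x * Φ a (γ • x)) ≤ ρ * (Φ b x ^ 2 * (p (st j) x)⁻¹ * p j (γ • x)) + ρ⁻¹ * (p (st j) x * (Φ a (γ • x) ^ 2 * (p j (γ • x))⁻¹))
            have g0 : ρ * (p j (γ • x) * (p (st j) x)⁻¹) ≠ 0 := mul_ne_zero r0 (mul_ne_zero p0 (ENNReal.inv_ne_zero.2 qt))
            have gt : ρ * (p j (γ • x) * (p (st j) x)⁻¹) ≠ ⊤ := ENNReal.mul_ne_top rt (ENNReal.mul_ne_top pt (ENNReal.inv_ne_top.2 q0))
            have gi : (ρ * (p j (γ • x) * (p (st j) x)⁻¹))⁻¹ = ρ⁻¹ * (p (st j) x * (p j (γ • x))⁻¹) := by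
              rw [ENNReal.mul_inv (Or.inl r0) (Or.inl rt), ENNReal.mul_inv (Or.inl p0) (Or.inl pt), inv_inv, mul_comm (p j (γ • x))⁻¹]
            refine (aw_amgm g0 gt _ _).trans (le_of_eq ?_)
            rw [gi]
            ring
          · rw [sΦ a _ hg, mul_zero, mul_zero]
            exact zero_le
        · rw [sΦ b x hx, zero_mul, mul_zero]
          exact zero_le
      refine (lintegral_mono h1).trans ?_
      rw [lintegral_add_left m2]
      refine add_le_add ?_ ?_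
      · have m3 : Measurable fun x => Ψ (st j) b x * N j a b x := (mΨ (st j) b).mul (mN j a b)
        rw [lintegral_const_mul _ m3]
        calc ρ * ∫⁻ x in F_U b, Ψ (st j) b x * N j a b x ∂μ ≤ ρ * (A j a b * d b) := mul_le_mul_right (half j a b) _
          _ = (ρ * A j a b) * d b := by ring
          _ ≤ s j a b * d b := mul_le_mul_left hr1 _
      · have m4 : Measurable fun x => P (st j) x * ce (Γk a ⊓ HU) (Z j a b) (fun γ => Ψ j a (γ • x)) := (mP (st j)).mul (aw_cemeas (mΨ j a))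
        rw [lintegral_const_mul _ m4]
        calc ρ⁻¹ * ∫⁻ x in F_U b, P (st j) x * ce (Γk a ⊓ HU) (Z j a b) (fun γ => Ψ j a (γ • x)) ∂μ ≤ ρ⁻¹ * (A (st j) b a * d a) := mul_le_mul_right (half2 j a b) _
          _ = (ρ⁻¹ * A (st j) b a) * d a := by ring
          _ ≤ s j a b * d a := mul_le_mul_left hr2 _
    -- the union of the cells
    have cells : ∀ a b, ∫⁻ x in F_U b, Φ b x * ce (Γk a ⊓ HU) (Zs Γ (hk a) (hk b) ∩ ⋃ j, Y j a b) (fun γ => Φ a (γ • x)) ∂μ ≤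
        ∑ j, ∫⁻ x in F_U b, Φ b x * ce (Γk a ⊓ HU) (Z j a b) (fun γ => Φ a (γ • x)) ∂μ := by
      intro a b
      have m1 : ∀ j, Measurable fun x => Φ b x * ce (Γk a ⊓ HU) (Z j a b) (fun γ => Φ a (γ • x)) := fun j => (mΦ b).mul (aw_cemeas (mΦ a))
      rw [← lintegral_finset_sum _ fun j _ => m1 j]
      refine lintegral_mono fun x => ?_
      show Φ b x * ce (Γk a ⊓ HU) (Zs Γ (hk a) (hk b) ∩ ⋃ j, Y j a b) (fun γ => Φ a (γ • x)) ≤ ∑ j, Φ b x * ce (Γk a ⊓ HU) (Z j a b) (fun γ => Φ a (γ • x))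
      rw [← Finset.mul_sum]
      refine mul_le_mul_right ?_ _
      unfold ce
      rw [← Summable.tsum_finsetSum fun j _ => ENNReal.summable]
      refine ENNReal.tsum_le_tsum fun q => ?_
      by_cases h1 : (Quotient.out q)⁻¹ ∈ Zs Γ (hk a) (hk b) ∩ ⋃ j, Y j a b
      · rw [if_pos h1]
        obtain ⟨j, hj⟩ := Set.mem_iUnion.1 h1.2
        refine le_trans (le_of_eq ?_) (Finset.single_le_sum (f := fun j => if (Quotient.out q)⁻¹ ∈ Z j a b then Φ a ((Quotient.out q)⁻¹ • x) else 0) (fun _ _ => zero_le) (Finset.mem_univ j))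
        have h2 : (Quotient.out q)⁻¹ ∈ Z j a b := by
          rw [hZ]
          exact ⟨h1.1, hj⟩
        show _ = if (Quotient.out q)⁻¹ ∈ Z j a b then Φ a ((Quotient.out q)⁻¹ • x) else 0
        rw [if_pos h2]
      · rw [if_neg h1]
        exact zero_le
    -- the sum
    have total : 2 * ∑ b, ∑ a, ∫⁻ x in F_U b, Φ b x * ce (Γk a ⊓ HU) (Zs Γ (hk a) (hk b) ∩ ⋃ j, Y j a b) (fun γ => Φ a (γ • x)) ∂μ ≤ 2 * (B * ∑ b, d b) := by
      calc 2 * ∑ b, ∑ a, ∫⁻ x in F_U b, Φ b x * ce (Γk a ⊓ HU) (Zs Γ (hk a) (hk b) ∩ ⋃ j, Y j a b) (fun γ => Φ a (γ • x)) ∂μ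
          ≤ 2 * ∑ b, ∑ a, ∑ j, ∫⁻ x in F_U b, Φ b x * ce (Γk a ⊓ HU) (Z j a b) (fun γ => Φ a (γ • x)) ∂μ :=
            mul_le_mul_right (Finset.sum_le_sum fun b _ => Finset.sum_le_sum fun a _ => cells a b) _
        _ = ∑ b, ∑ a, ∑ j, 2 * ∫⁻ x in F_U b, Φ b x * ce (Γk a ⊓ HU) (Z j a b) (fun γ => Φ a (γ • x)) ∂μ := by
            simp only [Finset.mul_sum]
        _ ≤ ∑ b, ∑ a, ∑ j, (s j a b * d b + s j a b * d a) := Finset.sum_le_sum fun b _ => Finset.sum_le_sum fun a _ => Finset.sum_le_sum fun j _ => pair j a b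
        _ = ∑ b, ∑ a, ∑ j, s j a b * d b + ∑ b, ∑ a, ∑ j, s j a b * d a := by
            simp only [Finset.sum_add_distrib]
        _ ≤ B * ∑ b, d b + B * ∑ b, d b := by
            refine add_le_add ?_ ?_
            · rw [Finset.mul_sum]
              refine Finset.sum_le_sum fun b _ => ?_
              simp only [← Finset.sum_mul]
              exact mul_le_mul_left (hC.sb b) _
            · rw [Finset.sum_comm, Finset.mul_sum]
              refine Finset.sum_le_sum fun a _ => ?_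
              simp only [← Finset.sum_mul]
              exact mul_le_mul_left (hC.sa a) _
        _ = _ := by ring
    rw [hd] at total
    exact (ENNReal.mul_le_mul_iff_right two_ne_zero ENNReal.ofNat_ne_top).1 total

end schur

end

end Pool.Agent.Lib.L8.FL
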