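import Pool.Agent.Lib.L1S.AW10
import Pool.Agent.Lib.L8.FL.C1B

/-!
# C1C: the large sieve inequality for groups

Copies of `L1S.SDB` and `L1S.ls_groupB` (file L1S/AW10.lean).
-/

namespace Pool.Agent.Lib.L8.FL

open MeasureTheory Pool.Agent.Lib.H33W Pool.Agent.Lib.H67G Pool.Agent.Lib.L1S
open scoped ENNReal

noncomputable section

/-- The data of the large sieve for a family with few exceptional elements. -/
structure SDS {H G T κ : Type} [Group H] [Group G] [Group T] [MeasurableSpace G] [MeasurableSpace T] [MulAction H G] {HU : Subgroup H} [MulAction HU T] [Fintype κ]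
    (j : T →* G) (k : HU →* T) (μ : Measure G) (ν : Measure T) (ψ : T → ℂ) (Γ : Subgroup H) (hk : κ → H) (Γk : κ → Subgroup H) (D : κ → Set T) (S Q : Set G)
    (Bd : κ → κ → Set H) (B : ℝ≥0∞) : Prop where
  conj : ∀ i g, g ∈ Γk i ↔ hk i * g * (hk i)⁻¹ ∈ Γ
  sd : ∀ i, SD0 j k μ ν ψ (Γk i) (D i) S Q
  cnt : CntS μ (fun t x => j t * x) Γ HU hk Γk S Bd B
  dich : ∀ a b γ, hk a * γ * (hk b)⁻¹ ∈ Γ → γ ∉ Bd a b → (∃ y ∈ S, γ • y ∈ S) → (a = b ∧ γ ∈ HU) ∨ Dich2 (Γk a) (Γk b) HU (fun h => ψ (k h)) γ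

/-- **The large sieve inequality for a family with few exceptional elements.** -/
theorem ls_groupS {H G T κ : Type} [Group H] [Countable H] [Group G] [Group T] [TopologicalSpace G] [MeasurableSpace G] [MeasurableSpace T] [MulAction H G] {HU : Subgroup H} [MulAction HU T]
    {emb : H →* G} {j : T →* G} {k : HU →* T} {μ : Measure G} {ν : Measure T} [SFinite μ] [SFinite ν] {ψ : T → ℂ} (hG : GD emb j k μ ν ψ) [Fintype κ]
    {Γ : Subgroup H} {hk : κ → H} {Γk : κ → Subgroup H} {D : κ → Set T} {S Q : Set G} {Bd : κ → κ → Set H} {B₀ : ℝ≥0∞}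
    (hS : SDS j k μ ν ψ Γ hk Γk D S Q Bd B₀) {F₁ : Set G} {F_U : κ → Set G} (hF₁ : SF Γ F₁)
    (hU : ∀ i, SF (Γk i ⊓ HU) (F_U i)) {h : G → ℂ} (mh : Measurable h) (ih : ∀ γ ∈ Γ, ∀ x, h (γ • x) = h x) {B : ℝ} (hB : ∀ i, ∀ x ∈ Q, ‖h (hk i • x)‖ ≤ B) :
    ∑ i, ∫⁻ x in F_U i ∩ S, ‖Wm j ψ ν (D i) (fun y => h (hk i • y)) x‖ₑ ^ 2 ∂μ ≤ (1 + B₀) * ∫⁻ x in F₁, ‖h x‖ₑ ^ 2 ∂μ := by
  have i1 : MeasurableConstSMul H G := ⟨fun c => (an10_fun hG c).measurable⟩
  have i2 : SMulInvariantMeasure H G μ :=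
    ⟨fun c s hs => (an10_fun hG c).measure_preimage hs.nullMeasurableSet⟩
  have ih' : ∀ i, ∀ γ ∈ Γk i, ∀ x, h (hk i • γ • x) = h (hk i • x) := by
    intro i γ hγ x
    have e1 : hk i • γ • x = (hk i * γ * (hk i)⁻¹) • (hk i • x) := by
      rw [smul_smul, smul_smul, inv_mul_cancel_right]
    rw [e1, ih _ ((hS.conj i γ).1 hγ)]
  have mh' : ∀ i, Measurable fun y => h (hk i • y) := fun i => mh.comp (measurable_const_smul (hk i))
  have M : ∀ i, MD μ ν (fun t x => j t * x) (fun t => t⁻¹) (Γk i) HU (D i) ψ (fun u => ψ (k u)) S (an10_psi j ψ ν (D i) S (fun y => h (hk i • y))) :=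
    fun i => aw10_md hG (hS.sd i) (mh' i) (ih' i) (hB i)
  have key := c1_ls (Γ := Γ) (hk := hk) (Γk := Γk) (D := D) (S := S) (F₁ := F₁) (F_U := F_U) (h := h) (μ := μ) (ν := ν) hS.conj M hS.cnt hS.dich hF₁ hU
    (fun i => fq_top (hS.sd i).fq (hU i)) mh ih
    ⟨B, fun i x hx => fq_bdd (hS.sd i).fq (h := fun y => h (hk i • y)) (ih' i) (hB i) x hx⟩ (fun i x hx => by
    rw [an10_psi, Set.indicator_of_mem hx]
    rfl)
  refine le_trans (le_of_eq (Finset.sum_congr rfl fun i _ => ?_)) key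
  have e1 : ∀ x, ‖an10_psi j ψ ν (D i) S (fun y => h (hk i • y)) x‖ₑ ^ 2 = S.indicator (fun x => ‖Wm j ψ ν (D i) (fun y => h (hk i • y)) x‖ₑ ^ 2) x := by
    intro x
    by_cases hx : x ∈ S
    · rw [an10_psi, Set.indicator_of_mem hx, Set.indicator_of_mem hx]
    · rw [an10_psi, Set.indicator_of_notMem hx, Set.indicator_of_notMem hx, enorm_zero]
      simp
  rw [lintegral_congr e1, lintegral_indicator (hS.sd i).mS, Measure.restrict_restrict (hS.sd i).mS, Set.inter_comm]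

end

end Pool.Agent.Lib.L8.FL
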