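import Pool.Agent.Lib.L8.PC14
import Pool.Agent.Lib.L8.FL.C1C

/-!
# C1D: the density inequality for a finite family of Hecke elements with the compound convolution operator (form A)

Copy of `L8.l1_absA5` (file L8/PC14.lean).
-/

namespace Pool.Agent.Lib.L8.FL

open MeasureTheory Pool.Agent.Lib.H33W Pool.Agent.Lib.H67G Pool.Agent.Lib.L1S
open scoped ENNReal Pointwise

noncomputable section

/-- **The density inequality for a family with few exceptional elements and the compound convolution operator, form A.** `D₁ i` a fundamental domain of `Γ1 i ∩ U`, `Bd` the exceptional elements. `Γ' i = h_i⁻¹ Γ h_i`, `Γ1 i = h_i⁻¹ Γ₁ h_i` with `Γ₁` of index `c₁` in `Γ`, `D' i` a fundamental domain of `Γ' i ∩ U`. The dichotomy is needed for the elements `γ` with `h_a γ h_b⁻¹ ∈ Γ₁`. -/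
theorem c1_absA5 {H G T κ : Type} [Group H] [Countable H] [Group G] [Group T] [TopologicalSpace G] [IsTopologicalGroup G] [SecondCountableTopology G] [MeasurableSpace G] [BorelSpace G]
    [TopologicalSpace T] [MeasurableSpace T] [MulAction H G] {HU : Subgroup H} [MulAction HU T] {emb : H →* G} {j : T →* G} {k : HU →* T} {μ : Measure G} {ν : Measure T}
    [IsFiniteMeasureOnCompacts μ] [SigmaFinite μ] [SFinite ν] {ψ : T → ℂ} (hG : GD emb j k μ ν ψ) (cj : Continuous j) [Fintype κ]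
    {Γ Γ₁ : Subgroup H} {hk : κ → H} {Γ' Γ1 : κ → Subgroup H} (hΓ : ∀ i g, g ∈ Γ' i ↔ hk i * g * (hk i)⁻¹ ∈ Γ) (hΓ1 : ∀ i g, g ∈ Γ1 i ↔ hk i * g * (hk i)⁻¹ ∈ Γ₁)
    {D' : κ → Set T} (hD' : ∀ i, SF ((Γ' i).subgroupOf HU) (D' i)) (pD' : ∀ i, ν (D' i) ≠ 0) (fD' : ∀ i, ν (D' i) ≠ ⊤) (one' : ∀ i, ∀ h : HU, (h : H) ∈ Γ' i → ψ (k h) = 1)
    (hcc : ∀ i, ∃ KT : Set T, IsCompact KT ∧ ∀ t, ∃ δ : HU, (δ : H) ∈ Γ' i ∧ ∃ s ∈ KT, t = k δ * s) (hle1 : Γ₁ ≤ Γ) {c₁ : ℕ} (hc : Γ₁.relIndex Γ = c₁) (hc0 : c₁ ≠ 0)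
    {S Q K : Set G} (mS : MeasurableSet S) (hS : ∀ t x, j t * x ∈ S ↔ x ∈ S) (fq : ∀ i, FQ μ (Γ1 i) HU S Q)
    {D₁ : κ → Set T} (hD₁ : ∀ i, SF ((Γ1 i).subgroupOf HU) (D₁ i)) {Bd : κ → κ → Set H} {B₀ : ℝ≥0∞}
    (hC : CntS μ (fun t x => j t * x) Γ₁ HU hk Γ1 S Bd B₀)
    (dich : ∀ a b γ, hk a * γ * (hk b)⁻¹ ∈ Γ₁ → γ ∉ Bd a b → (∃ y ∈ S, γ • y ∈ S) → (a = b ∧ γ ∈ HU) ∨ Dich2 (Γ1 a) (Γ1 b) HU (fun h => ψ (k h)) γ)
    (hK : IsCompact K) (hQK : Q ⊆ K) {φ : G → ℂ} (cφ : Continuous φ) (sφ : HasCompactSupport φ) {x : G}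
    {τ : Measure G} {wt : G → ℂ} {Kt : Set G} {Λ : ℝ} (hτ : CvD μ τ wt Kt Λ) (hfol : ∀ i, Fol ↥((Γ1 i).subgroupOf HU)) {Mc : ℕ}
    (hA : ∀ z, φ (x⁻¹ * z) ≠ 0 → ∀ y ∈ Kt ^ Mc, z * y ∈ S)
    {F : Set G} (hF : SF Γ F) {m : ℕ} {lam : Fin m → ℂ} {f : Fin m → G → ℂ} (hf : ∀ l, AFe μ Γ F φ (lam l) (f l)) {kap : Fin m → ℂ} (hκ : ∀ l y, Cv τ wt (f l) y = kap l * f l y)
    (ho : ∀ i l, ∫ x in F, star (f i x) * f l x ∂μ = if i = l then 1 else 0) (a : κ → ℂ) :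
    ∑ l, ‖kap l ^ Mc * lam l‖ₑ ^ 2 * ‖∑ i, a i * Wm j ψ ν (D' i) (fun y => f l (hk i • y)) x‖ₑ ^ 2 ≤ (1 + B₀) * (c₁ * (Jf j μ ν φ x * ENNReal.ofReal (Λ ^ 2) ^ Mc)) * ∑ i, ‖a i‖ₑ ^ 2 / ν (D' i) := by
  classical
  have ft := hτ.fin
  obtain ⟨Bw, hBw⟩ := hτ.bw
  have mmul : Measurable fun p : G × G => p.1 * p.2 := continuous_mul.measurable
  -- instances
  have hpres : ∀ g : H, MeasurePreserving (fun y : G => g • y) μ μ := fun g => by
    rw [show (fun y : G => g • y) = fun y => emb g * y from funext fun y => hG.act g y]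
    exact hG.lm (emb g)
  have i1 : MeasurableConstSMul H G := ⟨fun g => (hpres g).measurable⟩
  have i2 : SMulInvariantMeasure H G μ := ⟨fun g s hs => (hpres g).measure_preimage hs.nullMeasurableSet⟩
  have hpT : ∀ g : HU, MeasurePreserving (fun t : T => g • t) ν ν := fun g => by
    rw [show (fun t : T => g • t) = fun t => k g * t from funext fun t => hG.actT g t]
    exact hG.lT (k g)
  -- subgroups
  have hle1' : ∀ i, Γ1 i ≤ Γ' i := fun i g hg => (hΓ i g).2 (hle1 ((hΓ1 i g).1 hg))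
  have hidx : ∀ i, (Γ1 i).relIndex (Γ' i) ≠ 0 := by
    intro i
    have e1 : Γ' i = Γ.map (MulAut.conj (hk i)⁻¹).toMonoidHom := by
      ext g
      rw [hΓ i g, Subgroup.mem_map]
      constructor
      · intro h
        refine ⟨_, h, ?_⟩
        show (hk i)⁻¹ * (hk i * g * (hk i)⁻¹) * ((hk i)⁻¹)⁻¹ = g
        group
      · rintro ⟨y, hy, rfl⟩
        show hk i * ((hk i)⁻¹ * y * ((hk i)⁻¹)⁻¹) * (hk i)⁻¹ ∈ Γ
        have e : hk i * ((hk i)⁻¹ * y * ((hk i)⁻¹)⁻¹) * (hk i)⁻¹ = y := by group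
        rw [e]
        exact hy
    have e2 : Γ1 i = Γ₁.map (MulAut.conj (hk i)⁻¹).toMonoidHom := by
      ext g
      rw [hΓ1 i g, Subgroup.mem_map]
      constructor
      · intro h
        refine ⟨_, h, ?_⟩
        show (hk i)⁻¹ * (hk i * g * (hk i)⁻¹) * ((hk i)⁻¹)⁻¹ = g
        group
      · rintro ⟨y, hy, rfl⟩
        show hk i * ((hk i)⁻¹ * y * ((hk i)⁻¹)⁻¹) * (hk i)⁻¹ ∈ Γ₁
        have e : hk i * ((hk i)⁻¹ * y * ((hk i)⁻¹)⁻¹) * (hk i)⁻¹ = y := by group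
        rw [e]
        exact hy
    rw [e1, e2, Subgroup.relIndex_map_map_of_injective _ _ (MulAut.conj (hk i)⁻¹).injective, hc]
    exact hc0
  -- fundamental domains
  obtain ⟨F₁, hF₁⟩ := an_sf (fun g => (hpres g).measurable) hle1 hF
  have hF1k : ∀ i, SF (Γ1 i) {y | hk i • y ∈ F₁} := fun i => tr_sf (hΓ1 i) hF₁
  choose F_U hFU using fun i => an_sf (fun g => (hpres g).measurable) (inf_le_left : Γ1 i ⊓ HU ≤ Γ1 i) (hF1k i)
  have v1 : ∀ i, ν (D' i) ≤ ν (D₁ i) := fun i => (vol_sub hG (hle1' i) (hidx i) (hD' i) (hD₁ i) (fD' i)).1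
  have fD₁ : ∀ i, ν (D₁ i) ≠ ⊤ := fun i => (vol_sub hG (hle1' i) (hidx i) (hD' i) (hD₁ i) (fD' i)).2
  have pD₁ : ∀ i, ν (D₁ i) ≠ 0 := fun i h => pD' i (le_antisymm (h ▸ v1 i) bot_le)
  have one1 : ∀ i, ∀ h : HU, (h : H) ∈ Γ1 i → ψ (k h) = 1 := fun i h hh => one' i h (hle1' i hh)
  have hSD : SDS j k μ ν ψ Γ₁ hk Γ1 D₁ S Q Bd B₀ :=
    ⟨hΓ1, fun i => ⟨hD₁ i, pD₁ i, fD₁ i, one1 i, mS, hS, fq i⟩, hC, dich⟩
  -- the functions
  have mf : ∀ l, Measurable (f l) := fun l => (hf l).cont.measurable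
  obtain ⟨g, hg⟩ : ∃ g : κ → Fin m → G → ℂ, g = fun i l y => f l (hk i • y) := ⟨_, rfl⟩
  have hg' : ∀ i l y, g i l y = f l (hk i • y) := fun i l y => by rw [hg]
  have mg : ∀ i l, Measurable (g i l) := fun i l => by
    rw [hg]
    exact (mf l).comp (hpres (hk i)).measurable
  have ig : ∀ i l, ∀ γ ∈ Γ' i, ∀ y, g i l (γ • y) = g i l y := fun i l γ hγ y => by
    rw [hg', hg']
    have e : hk i • (γ • y) = (hk i * γ * (hk i)⁻¹) • (hk i • y) := by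
      rw [← mul_smul, ← mul_smul, inv_mul_cancel_right]
    rw [e]
    exact (hf l).inv _ ((hΓ i γ).1 hγ) _
  have cg : ∀ i l, Continuous (g i l) := fun i l => by
    have e : g i l = fun y => f l (emb (hk i) * y) := funext fun y => by
      rw [hg', hG.act]
    rw [e]
    exact (hf l).cont.comp (continuous_const.mul continuous_id)
  have bg : ∀ i l, ∀ K' : Set G, IsCompact K' → ∃ B : ℝ, ∀ t : T, ∀ y ∈ K', ‖g i l (j t * y)‖ ≤ B := fun i l =>
    an14_bdd hG cj (hcc i) (cg i l) (ig i l)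
  have bg1 : ∀ i l y, ∃ B : ℝ, ∀ t, ‖g i l (j t * y)‖ ≤ B := fun i l y => by
    obtain ⟨B, hB⟩ := bg i l {y} isCompact_singleton
    exact ⟨B, fun t => hB t y rfl⟩
  -- the functionals
  obtain ⟨b, hb⟩ : ∃ b : κ → Fin m → ℂ, b = fun i l => ∫ y, Wm j ψ ν (D' i) (g i l) (x * y) * φ y ∂μ := ⟨_, rfl⟩
  have iφ : Integrable φ μ := cφ.integrable_of_hasCompactSupport sφ
  have hint : ∀ i l, Integrable (fun y => Wm j ψ ν (D' i) (g i l) (x * y) * φ y) μ := fun i l => by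
    obtain ⟨B, hB⟩ := bg i l ((fun y => x * y) '' tsupport φ) (sφ.isCompact.image (continuous_const.mul continuous_id))
    have mW : Measurable fun y => Wm j ψ ν (D' i) (g i l) (x * y) := (wm_meas hG (mg i l)).comp (hG.lm x).measurable
    refine Integrable.mono' (iφ.norm.const_mul |B|) ((mW.mul cφ.measurable).aestronglyMeasurable)
      (Filter.Eventually.of_forall fun y => ?_)
    by_cases hy : y ∈ tsupport φ
    · rw [norm_mul]
      refine mul_le_mul_of_nonneg_right ?_ (norm_nonneg _)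
      exact wm_bdd hG (abs_nonneg B) fun t => (hB t _ ⟨y, hy, rfl⟩).trans (le_abs_self B)
    · rw [image_eq_zero_of_notMem_tsupport hy]
      simp
  have hlin : ∀ i, ∀ c : Fin m → ℂ, ∫ y, Wm j ψ ν (D' i) (fun z => ∑ l, c l * g i l z) (x * y) * φ y ∂μ = ∑ l, c l * b i l := fun i c => by
    calc ∫ y, Wm j ψ ν (D' i) (fun z => ∑ l, c l * g i l z) (x * y) * φ y ∂μ
        = ∫ y, ∑ l, c l * (Wm j ψ ν (D' i) (g i l) (x * y) * φ y) ∂μ := by
          refine integral_congr_ae (Filter.Eventually.of_forall fun y => ?_)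
          show Wm j ψ ν (D' i) (fun z => ∑ l, c l * g i l z) (x * y) * φ y = ∑ l, c l * (Wm j ψ ν (D' i) (g i l) (x * y) * φ y)
          rw [an14_lin hG (fD' i) (mg i) _ (fun l => bg1 i l _), Finset.sum_mul]
          refine Finset.sum_congr rfl fun l _ => ?_
          ring
      _ = ∑ l, ∫ y, c l * (Wm j ψ ν (D' i) (g i l) (x * y) * φ y) ∂μ := integral_finset_sum _ fun l _ => (hint i l).const_mul _
      _ = ∑ l, c l * b i l := by
          rw [hb]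
          exact Finset.sum_congr rfl fun l _ => integral_const_mul _ _
  obtain ⟨J₀, hJ₀⟩ : ∃ J₀ : ℝ≥0∞, J₀ = Jf j μ ν φ x := ⟨_, rfl⟩
  obtain ⟨J, hJ⟩ : ∃ J : ℝ≥0∞, J = J₀ * ENNReal.ofReal (Λ ^ 2) ^ Mc := ⟨_, rfl⟩
  obtain ⟨b', hb'⟩ : ∃ b' : κ → Fin m → ℂ, b' = fun i l => kap l ^ Mc * b i l := ⟨_, rfl⟩
  have i3 : MeasurableConstSMul HU G := ⟨fun c => (an10_fun hG (c : H)).measurable⟩
  have i4 : SMulInvariantMeasure HU G μ := ⟨fun c s hs => (an10_fun hG (c : H)).measure_preimage hs.nullMeasurableSet⟩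
  have hm : ∀ (u : HU) (y z : G), (u • y) * z = u • (y * z) := fun u y z => by
    have h1 : ∀ y : G, (u • y : G) = emb (u : H) * y := fun y => by
      have h2 : (u • y : G) = (u : H) • y := rfl
      rw [h2, hG.act]
    rw [h1, h1, mul_assoc]
  -- the operator on the means
  have hcv : ∀ i l y, Cv τ wt (g i l) y = kap l * g i l y := fun i l y => by
    rw [hg' i l y, ← hκ l (hk i • y)]
    show ∫ z, g i l (y * z) * wt z ∂τ = ∫ z, f l (hk i • y * z) * wt z ∂τ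
    refine integral_congr_ae (Filter.Eventually.of_forall fun z => ?_)
    show g i l (y * z) * wt z = f l (hk i • y * z) * wt z
    rw [hg', hG.act, hG.act, mul_assoc]
  have hcW : ∀ i l y, Cv τ wt (Wm j ψ ν (D' i) (g i l)) y = kap l * Wm j ψ ν (D' i) (g i l) y ∧ Integrable (fun z => Wm j ψ ν (D' i) (g i l) (y * z) * wt z) τ := fun i l y =>
    pc_conv hG (fD' i) hτ (mg i l) (bg i l) (hcv i l) y
  -- step (1)
  have step1 : ∀ c : Fin m → ℂ, ∑ i, ν (D' i) * ‖∑ l, c l * b' i l‖ₑ ^ 2 ≤ (1 + B₀) * (J * c₁) * ∑ l, ‖c l‖ₑ ^ 2 := fun c => by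
    obtain ⟨h, hh⟩ : ∃ h : G → ℂ, h = fun z => ∑ l, c l * f l z := ⟨_, rfl⟩
    have hhk : ∀ i, (fun y => h (hk i • y)) = fun z => ∑ l, c l * g i l z := fun i => by
      rw [hh, hg]
    have mh : Measurable h := by
      rw [hh]
      exact Finset.measurable_fun_sum _ fun l _ => (mf l).const_mul _
    have ih : ∀ γ ∈ Γ, ∀ y, h (γ • y) = h y := fun γ hγ y => by
      rw [hh]
      exact Finset.sum_congr rfl fun l _ => by rw [(hf l).inv γ hγ y]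
    have ih1 : ∀ γ ∈ Γ₁, ∀ y, h (γ • y) = h y := fun γ hγ y => ih γ (hle1 hγ) y
    have mhk : ∀ i, Measurable fun y => h (hk i • y) := fun i => mh.comp (hpres (hk i)).measurable
    have ihk : ∀ i, ∀ γ ∈ Γ' i, ∀ y, h (hk i • γ • y) = h (hk i • y) := fun i γ hγ y => by
      have e : hk i • (γ • y) = (hk i * γ * (hk i)⁻¹) • (hk i • y) := by
        rw [← mul_smul, ← mul_smul, inv_mul_cancel_right]
      rw [e]
      exact ih _ ((hΓ i γ).1 hγ) _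
    have hB : ∃ B : ℝ, ∀ i, ∀ y ∈ Q, ‖h (hk i • y)‖ ≤ B := by
      choose B hB using fun i l => bg i l K hK
      refine ⟨∑ i, ∑ l, ‖c l‖ * |B i l|, fun i y hy => ?_⟩
      have h1 : h (hk i • y) = ∑ l, c l * g i l y := congrFun (hhk i) y
      rw [h1]
      refine (norm_sum_le _ _).trans ?_
      have h2 : ∑ l, ‖c l * g i l y‖ ≤ ∑ l, ‖c l‖ * |B i l| := Finset.sum_le_sum fun l _ => by
        rw [norm_mul]
        refine mul_le_mul_of_nonneg_left ?_ (norm_nonneg _)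
        have := hB i l 1 y (hQK hy)
        rw [map_one, one_mul] at this
        exact this.trans (le_abs_self _)
      refine h2.trans ?_
      exact Finset.single_le_sum (f := fun i => ∑ l, ‖c l‖ * |B i l|) (fun i _ => Finset.sum_nonneg fun l _ => by positivity) (Finset.mem_univ i)
    obtain ⟨B, hB⟩ := hB
    have s3 := ls_groupS hG hSD hF₁ hFU mh ih1 hB
    have s4 : ∫⁻ y in F₁, ‖h y‖ₑ ^ 2 ∂μ = c₁ * ∑ l, ‖c l‖ₑ ^ 2 := by
      rw [u2_lint hpres hle1 hF hF₁ (Φ := fun y => ‖h y‖ₑ ^ 2) (mh.enorm.pow_const 2) (fun γ hγ y => by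
        show ‖h (γ • y)‖ₑ ^ 2 = ‖h y‖ₑ ^ 2
        rw [ih γ hγ y]), an_u2k (by rw [hc]; exact hc0), hc]
      congr 1
      have h1 := tr_norm (μ := μ) (1 : H) hF.meas mf (fun l => (hf l).l2) ho c
      simp only [one_smul] at h1
      rw [← h1, hh]
      rfl
    have each : ∀ i, ν (D' i) * ‖∑ l, c l * b' i l‖ₑ ^ 2 ≤ J * ∫⁻ z in F_U i ∩ S, ‖Wm j ψ ν (D₁ i) (fun y => h (hk i • y)) z‖ₑ ^ 2 ∂μ := by
      intro i
      have eW : Wm j ψ ν (D' i) (fun y => h (hk i • y)) = Wm j ψ ν (D₁ i) (fun y => h (hk i • y)) := funext fun z =>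
        (wm_sub hG (inf_le_left.trans (hle1' i)) (one' i) (hD' i) (hD₁ i) (fD₁ i) (mhk i) (ihk i) z).symm
      obtain ⟨V, hV⟩ : ∃ V : G → ℂ, V = an10_psi j ψ ν (D₁ i) S (fun y => h (hk i • y)) := ⟨_, rfl⟩
      have ih1' : ∀ γ ∈ Γ1 i, ∀ y, h (hk i • γ • y) = h (hk i • y) := fun γ hγ y => ihk i γ (hle1' i hγ) y
      have mV : Measurable V := by
        rw [hV]
        exact (wm_meas hG (mhk i)).indicator mS
      have eqV : ∀ t y, V (j t * y) = ψ t * V y := fun t y => by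
        rw [hV]
        exact aw10_eq hG (hSD.sd i) (mhk i) ih1' t y
      have bV : ∃ B : ℝ, ∀ y, ‖V y‖ ≤ B := by
        rw [hV]
        exact (aw10_md hG (hSD.sd i) (mhk i) ih1' (hB i)).bΨ
      have iV : ∀ u ∈ (Γ1 i).subgroupOf HU, ∀ y, V (u • y) = V y := fun u hu y => by
        have h1 : (u • y : G) = j (k u) * y := by
          have h2 : (u • y : G) = (u : H) • y := rfl
          rw [h2, hG.act, hG.jk]
        rw [h1, eqV, one1 i u hu, one_mul]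
      have vV : ∫⁻ z in F_U i, ‖V z‖ₑ ^ 2 ∂μ = ∫⁻ z in F_U i ∩ S, ‖Wm j ψ ν (D₁ i) (fun y => h (hk i • y)) z‖ₑ ^ 2 ∂μ := by
        rw [hV]
        exact pc_psi_int j ψ μ ν (D₁ i) mS _ _
      have fV : ∫⁻ z in F_U i, ‖V z‖ₑ ^ 2 ∂μ ≠ ⊤ := by
        rw [vV]
        obtain ⟨B', hB'⟩ := bV
        have h1 : ∀ z ∈ F_U i ∩ S, ‖Wm j ψ ν (D₁ i) (fun y => h (hk i • y)) z‖ₑ ^ 2 ≤ ENNReal.ofReal B' ^ 2 := fun z hz => by
          refine pow_le_pow_left' ?_ 2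
          have h2 := hB' z
          rw [hV, an10_psi, Set.indicator_of_mem hz.2] at h2
          rw [← ofReal_norm]
          exact ENNReal.ofReal_le_ofReal h2
        have h2 : ∫⁻ z in F_U i ∩ S, ‖Wm j ψ ν (D₁ i) (fun y => h (hk i • y)) z‖ₑ ^ 2 ∂μ ≤ ∫⁻ _z in F_U i ∩ S, ENNReal.ofReal B' ^ 2 ∂μ :=
          setLIntegral_mono' ((hFU i).meas.inter mS) h1
        rw [setLIntegral_const] at h2
        exact ne_top_of_le_ne_top (ENNReal.mul_ne_top (ENNReal.pow_ne_top ENNReal.ofReal_ne_top) (fq_top (fq i) (hFU i))) h2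
      have contr := pc_it_contr hm mmul (gd_sub.1 (hFU i)) (hfol i) hτ.mw hBw hτ.op mV iV bV fV Mc
      -- the function
      have eF : ∀ z, φ (x⁻¹ * z) ≠ 0 → Wm j ψ ν (D' i) (fun z => ∑ l, (c l * kap l ^ Mc) * g i l z) z = (Cv τ wt)^[Mc] V z := by
        intro z hz
        rw [an14_lin hG (fD' i) (mg i) _ (fun l => bg1 i l _)]
        have h1 := congrFun (pc_lin (fun l y => (hcW i l y).1) (fun l y => (hcW i l y).2) c Mc) z
        have h2 : (fun z => ∑ l, c l * Wm j ψ ν (D' i) (g i l) z) = Wm j ψ ν (D₁ i) (fun y => h (hk i • y)) := by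
          rw [← eW, hhk i]
          funext z
          rw [an14_lin hG (fD' i) (mg i) _ (fun l => bg1 i l _)]
        rw [h2] at h1
        refine h1.symm.trans (pc_agree hτ.tK (fun y hy => ?_) Mc z (hA z hz)).symm
        rw [hV, an10_psi, Set.indicator_of_mem hy]
      have s1 := ax_func hG (μ := μ) cφ.measurable (wm_meas hG (Finset.measurable_fun_sum _ fun l _ => (mg i l).const_mul (c l * kap l ^ Mc)) : Measurable (Wm j ψ ν (D' i) (fun z => ∑ l, (c l * kap l ^ Mc) * g i l z))) x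
      have e1 : ∫ y, Wm j ψ ν (D' i) (fun z => ∑ l, (c l * kap l ^ Mc) * g i l z) (x * y) * φ y ∂μ = ∑ l, c l * b' i l := by
        rw [hlin i, hb']
        exact Finset.sum_congr rfl fun l _ => by
          show c l * kap l ^ Mc * b i l = c l * (kap l ^ Mc * b i l)
          ring
      have e2 : ∫⁻ z, ‖φ (x⁻¹ * z)‖ₑ * ‖Wm j ψ ν (D' i) (fun z => ∑ l, (c l * kap l ^ Mc) * g i l z) z‖ₑ ∂μ = ∫⁻ z, ‖φ (x⁻¹ * z)‖ₑ * ‖(Cv τ wt)^[Mc] V z‖ₑ ∂μ := by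
        refine lintegral_congr fun z => ?_
        by_cases hz : φ (x⁻¹ * z) = 0
        · rw [hz, enorm_zero, zero_mul, zero_mul]
        · rw [eF z hz]
      rw [e1, e2] at s1
      have s2 := pc_J hG (hSD.sd i) (hFU i) (Φ := fun z => ‖(Cv τ wt)^[Mc] V z‖ₑ) (pc_it_meas mmul hτ.mw mV Mc).enorm (fun t y => by
          show ‖(Cv τ wt)^[Mc] V (j t * y)‖ₑ = ‖(Cv τ wt)^[Mc] V y‖ₑ
          rw [pc_it_eq (tr := fun t => j t) eqV Mc t y, enorm_mul]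
          have h1 : ‖ψ t‖ₑ = 1 := by
            rw [← ofReal_norm, hG.nψ, ENNReal.ofReal_one]
          rw [h1, one_mul]) (K := fun z => ‖φ (x⁻¹ * z)‖ₑ) ((cφ.measurable.comp (hG.lm x⁻¹).measurable).enorm)
      calc ν (D' i) * ‖∑ l, c l * b' i l‖ₑ ^ 2 ≤ ν (D₁ i) * (∫⁻ z, ‖φ (x⁻¹ * z)‖ₑ * ‖(Cv τ wt)^[Mc] V z‖ₑ ∂μ) ^ 2 :=
            mul_le_mul' (v1 i) (pow_le_pow_left' s1 2)
        _ ≤ J₀ * ∫⁻ z in F_U i, ‖(Cv τ wt)^[Mc] V z‖ₑ ^ 2 ∂μ := by
            rw [hJ₀]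
            exact s2
        _ ≤ J₀ * (ENNReal.ofReal (Λ ^ 2) ^ Mc * ∫⁻ z in F_U i, ‖V z‖ₑ ^ 2 ∂μ) := mul_le_mul_right contr _
        _ = _ := by rw [vV, hJ, mul_assoc]
    calc ∑ i, ν (D' i) * ‖∑ l, c l * b' i l‖ₑ ^ 2 ≤ ∑ i, J * ∫⁻ z in F_U i ∩ S, ‖Wm j ψ ν (D₁ i) (fun y => h (hk i • y)) z‖ₑ ^ 2 ∂μ :=
          Finset.sum_le_sum fun i _ => each i
      _ = J * ∑ i, ∫⁻ z in F_U i ∩ S, ‖Wm j ψ ν (D₁ i) (fun y => h (hk i • y)) z‖ₑ ^ 2 ∂μ := by rw [Finset.mul_sum]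
      _ ≤ J * ((1 + B₀) * (c₁ * ∑ l, ‖c l‖ₑ ^ 2)) := mul_le_mul_right (s3.trans (mul_le_mul_right s4.le _)) _
      _ = _ := by ring
  -- step (2)
  obtain ⟨R, hR⟩ : ∃ R : ℝ≥0∞, R = ∑ i, ‖a i‖ₑ ^ 2 / ν (D' i) := ⟨_, rfl⟩
  have step2 : ∑ l, ‖∑ i, a i * b' i l‖ₑ ^ 2 ≤ R * ((1 + B₀) * (J * c₁)) := by
    refine bessel (fun l => ∑ i, a i * b' i l) fun c => ?_
    have e1 : ∑ l, c l * ∑ i, a i * b' i l = ∑ i, a i * ∑ l, c l * b' i l := by
      simp only [Finset.mul_sum]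
      rw [Finset.sum_comm]
      refine Finset.sum_congr rfl fun i _ => Finset.sum_congr rfl fun l _ => ?_
      ring
    rw [e1]
    refine (av14_cs a (fun i => ∑ l, c l * b' i l) pD' fD').trans ?_
    rw [← hR]
    refine (mul_le_mul_right (step1 c) R).trans (le_of_eq ?_)
    ring
  -- step (3)
  have step3 : ∀ l, ‖kap l ^ Mc * lam l‖ₑ ^ 2 * ‖∑ i, a i * Wm j ψ ν (D' i) (g i l) x‖ₑ ^ 2 = ‖∑ i, a i * b' i l‖ₑ ^ 2 := fun l => by
    have hl := (hf l).eig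
    have h2 : ∀ i, b i l = lam l * Wm j ψ ν (D' i) (g i l) x := fun i => by
      have hl' : ∀ y, ∫ z, g i l (y * z) * φ z ∂μ = lam l * g i l y := fun y => by
        have h1 := hl (hk i • y)
        have h2 : ∀ z, g i l (y * z) = f l (hk i • y * z) := fun z => by
          rw [hg', hG.act, hG.act, mul_assoc]
        rw [hg' i l y, ← h1]
        refine integral_congr_ae (Filter.Eventually.of_forall fun z => ?_)
        show g i l (y * z) * φ z = _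
        rw [h2 z]
      rw [hb]
      exact wm_conv hG (fD' i) cφ sφ (mg i l) (bg i l) hl' x
    have h3 : ∑ i, a i * b' i l = kap l ^ Mc * lam l * ∑ i, a i * Wm j ψ ν (D' i) (g i l) x := by
      rw [Finset.mul_sum, hb']
      refine Finset.sum_congr rfl fun i _ => ?_
      show a i * (kap l ^ Mc * b i l) = _
      rw [h2 i]
      ring
    rw [h3, ← mul_pow, ← enorm_mul]
  have eg : ∀ i l, (fun y => f l (hk i • y)) = g i l := fun i l => funext fun y => (hg' i l y).symm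
  simp only [eg]
  rw [← hJ₀, ← hJ, ← hR]
  calc ∑ l, ‖kap l ^ Mc * lam l‖ₑ ^ 2 * ‖∑ i, a i * Wm j ψ ν (D' i) (g i l) x‖ₑ ^ 2 = ∑ l, ‖∑ i, a i * b' i l‖ₑ ^ 2 := Finset.sum_congr rfl fun l _ => step3 l
    _ ≤ R * ((1 + B₀) * (J * c₁)) := step2
    _ = (1 + B₀) * (c₁ * J) * R := by ring

end

end Pool.Agent.Lib.L8.FL
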