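import Pool.Agent.Lib.L1S.TW0
import Pool.Agent.Lib.L8.FL.C1A

/-!
# C1F: the weighted count at the points `x C`

As `L1S.CntT` (file L1S/TW0.lean), with finitely many cells `Y j` and weights `p j` which depend on the point.
-/

namespace Pool.Agent.Lib.L8.FL

open MeasureTheory Matrix NumberField IsDedekindDomain Pool.Agent.Lib.H89N Pool.Agent.Lib.H33W Pool.Agent.Lib.H67G Pool.Agent.Lib.L1S Topology
open scoped ENNReal

noncomputable section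

variable {ι M N : Type} [Fintype ι] [DecidableEq ι] [AddCommGroup M] [Module ℚ M] [AddCommGroup N] [Module ℚ N]
  {P : RootPairing ι ℚ M N} [P.IsCrystallographic] {b : P.Base} {L : Type} [Field L] [NumberField L] (H : Subgroup (GK b L))

/-- The weighted count of the exceptional elements for the family `g`. `Y j a b` are the exceptional elements `γ` of the cell `j`, `(Y j a b)⁻¹ = Y (st j) b a`. For every `y ∈ C` the average over `t ∈ D₁ b`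
(a fundamental domain of `g_b⁻¹ Γ₁ g_b ∩ U` in `U`) of the sum of `p j (γ t x y)` over the classes `(g_a⁻¹ Γ₁ g_a ∩ U) γ`, `γ ∈ g_a⁻¹ Γ₁ g_b ∩ Y j a b`, with `γ t x y ∈ U x C`, is at most `A j a b * p (st j) (x y)`. -/
structure CntTP {κ τ : Type} [Fintype κ] [Fintype τ] (ν : Measure (UHR H)) (Γ₁ : Subgroup H) (g : κ → H) (x : HRt H) (C : Set (HRt H)) (D₁ : κ → Set (UHR H)) (st : τ → τ)
    (Y : τ → κ → κ → Set H) (p : τ → HRt H → ℝ≥0∞) (A s : τ → κ → κ → ℝ≥0∞) (B : ℝ≥0∞) : Prop where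
  inv2 : ∀ j, st (st j) = j
  yl : ∀ j a b, ∀ u ∈ cjG Γ₁ (g a) ⊓ HUH H, ∀ γ, u * γ ∈ Y j a b ↔ γ ∈ Y j a b
  yi : ∀ j a b γ, γ ∈ Y j a b ↔ γ⁻¹ ∈ Y (st j) b a
  disj : ∀ j k, ∀ γ ∈ Y j k k, γ ∉ HUH H
  mp : ∀ j, Measurable (p j)
  ep : ∀ j (t : UHR H) (z : HRt H), p j ((t : HRt H) * z) = p j z
  p0 : ∀ j, ∀ y ∈ C, p j (x * y) ≠ 0
  pt : ∀ j, ∀ y ∈ C, p j (x * y) ≠ ⊤
  sf : ∀ i, SF ((cjG Γ₁ (g i)).subgroupOf (HUH H)) (D₁ i)
  cnt : ∀ j a b, ∀ y ∈ C, ∫⁻ t in D₁ b, ce (cjG Γ₁ (g a) ⊓ HUH H) (Zs Γ₁ (g a) (g b) ∩ Y j a b) (fun γ => (ST H x C).indicator (p j) (embH H γ * ((t : HRt H) * (x * y)))) ∂ν ≤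
    A j a b * p (st j) (x * y) * ν (D₁ b)
  rho : ∀ j a b, ∃ ρ : ℝ≥0∞, ρ ≠ 0 ∧ ρ ≠ ⊤ ∧ ρ * A j a b ≤ s j a b ∧ ρ⁻¹ * A (st j) b a ≤ s j a b
  sb : ∀ b, ∑ a, ∑ j, s j a b ≤ B
  sa : ∀ a, ∑ b, ∑ j, s j a b ≤ B

/-- The count at all points of `U x C`. -/
theorem CntTP.toP {κ τ : Type} [Fintype κ] [Fintype τ] {μ : Measure (HRt H)} {ν : Measure (UHR H)} {ψ : UHR H → ℂ} [Countable H] (hG : GD (embH H) (UHR H).subtype (kUH H) μ ν ψ)
    {Γ₁ : Subgroup H} {g : κ → H} {x : HRt H} {C : Set (HRt H)} (mS : MeasurableSet (ST H x C)) {D₁ : κ → Set (UHR H)} {st : τ → τ} {Y : τ → κ → κ → Set H}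
    {p : τ → HRt H → ℝ≥0∞} {A s : τ → κ → κ → ℝ≥0∞} {B : ℝ≥0∞} (hC : CntTP H ν Γ₁ g x C D₁ st Y p A s B) :
    CntP ν (fun t z => (UHR H).subtype t * z) Γ₁ (HUH H) g (fun i => cjG Γ₁ (g i)) D₁ (ST H x C) st Y p A s B where
  inv2 := hC.inv2
  yl := hC.yl
  yi := hC.yi
  disj := hC.disj
  mp := hC.mp
  ep := fun j t z => hC.ep j t z
  p0 := by
    intro j z hz
    obtain ⟨s, y, hy, rfl⟩ := (mem_ST H).1 hz
    rw [hC.ep]
    exact hC.p0 j y hy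
  pt := by
    intro j z hz
    obtain ⟨s, y, hy, rfl⟩ := (mem_ST H).1 hz
    rw [hC.ep]
    exact hC.pt j y hy
  cnt := by
    intro j a b z hz
    obtain ⟨s, y, hy, rfl⟩ := (mem_ST H).1 hz
    have i1 : MeasurableConstSMul H (HRt H) := ⟨fun c => (an10_fun hG c).measurable⟩
    have mI : Measurable ((ST H x C).indicator (p j)) := (hC.mp j).indicator mS
    have hΓ : ∀ k g', g' ∈ (fun i => cjG Γ₁ (g i)) k ↔ g k * g' * (g k)⁻¹ ∈ Γ₁ := fun k g' => Iff.rfl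
    have zl : ∀ j a b, ∀ u ∈ cjG Γ₁ (g a) ⊓ HUH H, ∀ γ, u * γ ∈ Zs Γ₁ (g a) (g b) ∩ Y j a b ↔ γ ∈ Zs Γ₁ (g a) (g b) ∩ Y j a b := by
      intro j a b u hu γ
      rw [Set.mem_inter_iff, Set.mem_inter_iff, zs_l hΓ a b u hu.1, hC.yl j a b u hu]
    have zi : ∀ j a b γ, γ ∈ Zs Γ₁ (g a) (g b) ∩ Y j a b ↔ γ⁻¹ ∈ Zs Γ₁ (g b) (g a) ∩ Y (st j) b a := by
      intro j a b γ
      rw [Set.mem_inter_iff, Set.mem_inter_iff, aw_zsi, hC.yi j a b]
    have zr : ∀ j a b, ∀ u ∈ cjG Γ₁ (g b) ⊓ HUH H, ∀ γ, γ * u ∈ Zs Γ₁ (g a) (g b) ∩ Y j a b ↔ γ ∈ Zs Γ₁ (g a) (g b) ∩ Y j a b := by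
      intro j a b u hu γ
      rw [zi j a b (γ * u), zi j a b γ, _root_.mul_inv_rev, zl (st j) b a _ (inv_mem hu)]
    have eI : ∀ (t : UHR H) (z : HRt H), (ST H x C).indicator (p j) ((t : HRt H) * z) = (ST H x C).indicator (p j) z := by
      intro t z
      have h2 := ST_mul H (x := x) (C := C) t z
      by_cases h3 : z ∈ ST H x C
      · rw [Set.indicator_of_mem h3, Set.indicator_of_mem (h2.2 h3), hC.ep]
      · rw [Set.indicator_of_notMem h3, Set.indicator_of_notMem fun h4 => h3 (h2.1 h4)]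
    obtain ⟨f, hf⟩ : ∃ f : UHR H → ℝ≥0∞, f = fun t : UHR H => ce (cjG Γ₁ (g a) ⊓ HUH H) (Zs Γ₁ (g a) (g b) ∩ Y j a b) (fun γ => (ST H x C).indicator (p j) (γ • ((t : HRt H) * (x * y)))) := ⟨_, rfl⟩
    have mf : Measurable f := by
      rw [hf]
      have h1 : Measurable fun t : UHR H => ((t, x * y) : UHR H × HRt H) := measurable_id.prodMk measurable_const
      have h2 := hG.mj.comp h1
      have h3 : Measurable fun y : HRt H => ce (cjG Γ₁ (g a) ⊓ HUH H) (Zs Γ₁ (g a) (g b) ∩ Y j a b) fun γ => (ST H x C).indicator (p j) (γ • y) :=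
        aw_cemeas (φ := (ST H x C).indicator (p j)) mI
      have h4 := h3.comp h2
      exact h4
    have invf : ∀ u ∈ (cjG Γ₁ (g b)).subgroupOf (HUH H), ∀ t, f (u • t) = f t := by
      intro u hu t
      rw [hf]
      have h1 := ce_shift (U₀ := cjG Γ₁ (g a) ⊓ HUH H) (S := Zs Γ₁ (g a) (g b) ∩ Y j a b) (zl j a b)
        (b := fun γ => (ST H x C).indicator (p j) (γ • ((t : HRt H) * (x * y)))) (fun u' hu' γ => by
          have e1 : (u' * γ) • ((t : HRt H) * (x * y)) = ((kUH H ⟨u', hu'.2⟩ : UHR H) : HRt H) * (γ • ((t : HRt H) * (x * y))) := by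
            rw [mul_smul]
            rfl
          rw [e1, eI]) (u : H) (zr j a b (u : H) ⟨hu, u.2⟩)
      show ce (cjG Γ₁ (g a) ⊓ HUH H) (Zs Γ₁ (g a) (g b) ∩ Y j a b) (fun γ => (ST H x C).indicator (p j) (γ • (((u • t : UHR H) : HRt H) * (x * y)))) = _
      have e2 : ∀ γ : H, γ • (((u • t : UHR H) : HRt H) * (x * y)) = (γ * (u : H)) • ((t : HRt H) * (x * y)) := by
        intro γ
        rw [mul_smul]
        congr 1
        show ((kUH H u * t : UHR H) : HRt H) * (x * y) = (u : H) • ((t : HRt H) * (x * y))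
        rw [Subgroup.coe_mul, mul_assoc]
        rfl
      simp only [e2]
      exact h1
    have h1 := hC.cnt j a b y hy
    have h2 := aw_avs hG (hC.sf b) mf invf s
    have e3 : ∀ t : UHR H, ce (cjG Γ₁ (g a) ⊓ HUH H) (Zs Γ₁ (g a) (g b) ∩ Y j a b) (fun γ => (ST H x C).indicator (p j) (γ • ((UHR H).subtype t * ((s : HRt H) * (x * y))))) = f (t * s) := by
      intro t
      rw [hf]
      have e4 : (UHR H).subtype t * ((s : HRt H) * (x * y)) = ((t * s : UHR H) : HRt H) * (x * y) := by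
        rw [Subgroup.coe_mul, mul_assoc]
        rfl
      rw [e4]
    have e5 : ∀ t : UHR H, ce (cjG Γ₁ (g a) ⊓ HUH H) (Zs Γ₁ (g a) (g b) ∩ Y j a b) (fun γ => (ST H x C).indicator (p j) (embH H γ * ((t : HRt H) * (x * y)))) = f t := by
      intro t
      rw [hf]
      rfl
    show ∫⁻ t in D₁ b, ce (cjG Γ₁ (g a) ⊓ HUH H) (Zs Γ₁ (g a) (g b) ∩ Y j a b) (fun γ => (ST H x C).indicator (p j) (γ • ((UHR H).subtype t * ((s : HRt H) * (x * y))))) ∂ν ≤ _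
    simp only [e3]
    simp only [e5] at h1
    rw [h2, hC.ep]
    exact h1
  rho := hC.rho
  sb := hC.sb
  sa := hC.sa

end

end Pool.Agent.Lib.L8.FL
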