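import Pool.Agent.Lib.L8.PCT
import Pool.Agent.Lib.L8.FL.C1E
import Pool.Agent.Lib.L8.FL.C1F

/-!
# C1G: the density inequalities with the compound convolution operator and cells of exceptional elements, for the groups `H`

Copy of `L8.th5_main` (file L8/PCT.lean).
-/

namespace Pool.Agent.Lib.L8.FL

open MeasureTheory Matrix NumberField IsDedekindDomain Pool.Agent.Lib.H89N Pool.Agent.Lib.H33W Pool.Agent.Lib.H67G Pool.Agent.Lib.L1S Topology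
open scoped ENNReal Pointwise

noncomputable section

variable {ι M N : Type} [Fintype ι] [DecidableEq ι] [AddCommGroup M] [Module ℚ M] [AddCommGroup N] [Module ℚ N]
  {P : RootPairing ι ℚ M N} [P.IsCrystallographic] {b : P.Base} {L : Type} [Field L] [NumberField L] (H : Subgroup (GK b L))

/-- **The density inequalities** for a finite family of Hecke elements with cells of exceptional elements which are counted with weights depending on the point, and the compound convolution operator, forms (A) and (B). -/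
theorem c1_main {κ τ' : Type} [Fintype κ] [Fintype τ'] {Γ Γ₁ : Subgroup H} {g : κ → H} {θ : b.support → (EE L →ₗ[ℝ] ℝ)} {x : HRt H} {φ : HRt H → ℂ} (hy : THyp0 H Γ Γ₁ g θ)
    (cφ : Continuous φ) (sφ : HasCompactSupport φ) {μ : Measure (HRt H)} [μ.IsHaarMeasure] {ν : Measure (UHR H)} [ν.IsHaarMeasure]
    {τ : Measure (HRt H)} {wt : HRt H → ℂ} {Kt : Set (HRt H)} {Λ : ℝ} (hτ : CvD μ τ wt Kt Λ) (hfol : ∀ i, Fol ↥((cjG Γ₁ (g i)).subgroupOf (HUH H))) {Mc : ℕ}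
    {E₁ : κ → Set (UHR H)} {st : τ' → τ'} {Y : τ' → κ → κ → Set H} {p : τ' → HRt H → ℝ≥0∞} {A s : τ' → κ → κ → ℝ≥0∞} {B : ℝ} (hB : 0 ≤ B)
    (hC : CntTP H ν Γ₁ g x (tsupport φ * Kt ^ Mc) E₁ st Y p A s (ENNReal.ofReal B))
    (dich : ∀ i j γ, g i * γ * (g j)⁻¹ ∈ Γ₁ → (∀ l, γ ∉ Y l i j) → MvT H x (tsupport φ * Kt ^ Mc) (embH H γ) → (i = j ∧ γ ∈ HUH H) ∨ AltT H θ γ)
    {D₁ : Set (UHR H)} (hD₁ : SF (Γ.subgroupOf (HUH H)) D₁) {X c₁ : ℝ} (hX : 0 ≤ X)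
    (hJ : Jf (UHR H).subtype μ ν φ x ≤ ENNReal.ofReal X * ν D₁) (hc : (Γ₁.relIndex Γ : ℝ) ≤ c₁)
    {q : κ → ℝ} (hq : ∀ i, (((cjG Γ (g i)).subgroupOf (HUH H)).relIndex (Γ.subgroupOf (HUH H)) : ℝ) = q i) (hq0 : ∀ i, 0 < q i)
    {D : Set (HRt H)} (hD : IsFundamentalDomain (imH H Γ) D μ) {m : ℕ} {lam : Fin m → ℂ} {F : Fin m → HRt H → ℂ} (hF : ∀ l, AuE H Γ μ D φ (lam l) (F l)) {kap : Fin m → ℂ} (hκ : ∀ l y, Cv τ wt (F l) y = kap l * F l y)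
    (hort : ∀ l k, ∫ x in D, star (F l x) * F k x ∂μ = if l = k then 1 else 0) (a : κ → ℂ) :
    (∀ h : κ → H, (∀ i, h i * (g i)⁻¹ ∈ Γ) → ∀ D' : κ → Set (UHR H), (∀ i, IsFundamentalDomain (imUh H Γ (h i)) (D' i) ν) →
      ∑ l, ‖kap l ^ Mc * lam l‖ ^ 2 * ‖∑ i, a i * WhT H ν (D' i) θ (fun y => F l (embH H (h i) * y)) x‖ ^ 2 ≤ (1 + B) * (c₁ * (X * (Λ ^ 2) ^ Mc)) * ∑ i, ‖a i‖ ^ 2 * (q i)⁻¹) ∧
    (∀ t : Fin m → κ → ℂ, (∀ l i, IsUT H Γ (g i) (F l) (t l i)) → ∀ D' : Set (UHR H), IsFundamentalDomain (imU H Γ) D' ν →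
      ∑ l, ‖kap l ^ Mc * lam l‖ ^ 2 * (‖∑ i, a i * t l i‖ ^ 2 * ‖WhT H ν D' θ (F l) x‖ ^ 2) ≤ (1 + B) * (c₁ * (X * (Λ ^ 2) ^ Mc)) * ∑ i, ‖a i‖ ^ 2 * q i) := by
  classical
  have ci : Countable H := th_count H
  have cjj : Continuous ((UHR H).subtype : UHR H →* HRt H) := continuous_subtype_val
  -- fundamental domains
  obtain ⟨F₁, hF₁⟩ := hy.dsc.sf
  have hle' : ∀ k, (cjG Γ (g k)).subgroupOf (HUH H) ≤ Γ.subgroupOf (HUH H) := fun k w hw => hy.sub k ⟨hw, w.2⟩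
  have hcΓ : CCH H Γ := hy.cc1.mono hy.le
  have hccΓ : ∀ k, CCH H (cjG Γ (g k)) := fun k => (hy.cc k).mono (cjG_mono hy.le _)
  have pD := th2_pos H hD₁ ν
  have fD := th2_fin H hcΓ hD₁ ν
  have hG := th2_gd H hcΓ hD₁ μ ν θ (psT_mul' H θ)
  have hpT : ∀ g : HUH H, MeasurePreserving (fun t : UHR H => g • t) ν ν := th2_hp H ν
  choose D₂ hD₂ using fun k => an_sf (fun g => (hpT g).measurable) (hle' k) hD₁
  have hidx : ∀ k, ((cjG Γ (g k)).subgroupOf (HUH H)).relIndex (Γ.subgroupOf (HUH H)) ≠ 0 := by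
    intro k h2
    have h3 := hq k
    rw [h2, Nat.cast_zero] at h3
    exact (hq0 k).ne h3
  have hvol : ∀ k, ν (D₂ k) = ((((cjG Γ (g k)).subgroupOf (HUH H)).relIndex (Γ.subgroupOf (HUH H)) : ℕ) : ℝ≥0∞) * ν D₁ := by
    intro k
    rw [u2_vol hpT (hle' k) hD₁ (hD₂ k), an_u2k (hidx k)]
  have pD2 : ∀ k, ν (D₂ k) ≠ 0 := fun k => th2_pos H (hD₂ k) ν
  have fD2 : ∀ k, ν (D₂ k) ≠ ⊤ := by
    intro k
    rw [hvol k]
    exact ENNReal.mul_ne_top (ENNReal.natCast_ne_top _) fD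
  -- the auxiliary group
  have hCk : IsCompact ((fun y => x * y) '' (tsupport φ * Kt ^ Mc)) := ((show IsCompact (tsupport φ) from sφ).mul (pc_cpow hτ.cK Mc)).image (continuous_const.mul continuous_id)
  have hdk : ∀ k, Dsc H (cjG Γ₁ (g k)) := fun k => dsc_conj H (hy.dsc.mono hy.le) (g k)
  obtain ⟨Q, hQ, hfq⟩ := th3_fq H hdk hy.cc μ hCk
  have hAS : ∀ z, φ (x⁻¹ * z) ≠ 0 → ∀ y ∈ Kt ^ Mc, z * y ∈ ST H x (tsupport φ * Kt ^ Mc) := fun z hz y hy =>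
    (mem_ST H).2 ⟨1, x⁻¹ * z * y, Set.mul_mem_mul (subset_tsupport _ hz) hy, by
      rw [Subgroup.coe_one]
      group⟩
  have hSS : ∀ (t : UHR H) (z : HRt H), (UHR H).subtype t * z ∈ ST H x (tsupport φ * Kt ^ Mc) ↔ z ∈ ST H x (tsupport φ * Kt ^ Mc) := fun t z => ST_mul H t z
  have mST : MeasurableSet (ST H x (tsupport φ * Kt ^ Mc)) := th3_meas H hCk
  have i1' : MeasurableConstSMul H (HRt H) := ⟨fun c => (an10_fun hG c).measurable⟩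
  have i2' : SMulInvariantMeasure H (HRt H) μ := ⟨fun c s hs => (an10_fun hG c).measure_preimage hs.nullMeasurableSet⟩
  have fE : ∀ i, ν (E₁ i) ≠ ⊤ := fun i => th2_fin H (hy.cc i) (hC.sf i) ν
  have hCB : CntS μ (fun t z => (UHR H).subtype t * z) Γ₁ (HUH H) g (fun i => cjG Γ₁ (g i)) (ST H x (tsupport φ * Kt ^ Mc)) (fun a b => ⋃ l, Y l a b) (ENNReal.ofReal B) :=
    (hC.toP H hG mST).toS (gd_avg hG) (fun _ _ => Iff.rfl) hC.sf (fun i => th2_pos H (hC.sf i) ν) fE mST hSS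
  have hcm := cjG_comm hy.comm
  have hdich : ∀ i j γ, g i * γ * (g j)⁻¹ ∈ Γ₁ → γ ∉ (fun a b => ⋃ l, Y l a b) i j → (∃ y ∈ ST H x (tsupport φ * Kt ^ Mc),
      γ • y ∈ ST H x (tsupport φ * Kt ^ Mc)) → (i = j ∧ γ ∈ HUH H) ∨
      Dich2 (cjG Γ₁ (g i)) (cjG Γ₁ (g j)) (HUH H) (fun w => psT H θ (kUH H w)) γ := by
    rintro i j γ hγ hnb ⟨y, hy1, hy2⟩
    obtain ⟨t1, _, ⟨y1, hy1, rfl⟩, e1⟩ := hy1
    obtain ⟨t2, _, ⟨y2, hy2, rfl⟩, e2⟩ := hy2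
    have h2 : MvT H x (tsupport φ * Kt ^ Mc) (embH H γ) := by
      refine ⟨t1, t2, y1, hy1, y2, hy2, ?_⟩
      rw [← e1, ← e2]
      rfl
    rcases dich i j γ hγ (fun l hl => hnb (Set.mem_iUnion.2 ⟨l, hl⟩)) h2 with h3 | ⟨w₀, w₀', hw, hχ⟩
    · exact Or.inl h3
    · exact Or.inr (th3_dich hcm hγ hw hχ)
  have hAF : ∀ l, AFe μ Γ F₁ φ (lam l) (F l) := fun l => th2_afe H hF₁ hD (hF l)
  have hort' : ∀ l k, ∫ x in F₁, star (F l x) * F k x ∂μ = if l = k then 1 else 0 := fun l k => by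
    rw [← hort l k]
    exact (th2_intG H μ hF₁ hD (f := fun y => star (F l y) * F k y) fun γ hγ y => by rw [(hF l).inv γ hγ, (hF k).inv γ hγ]).symm
  -- the numbers
  have hc1 : 0 ≤ c₁ := (Nat.cast_nonneg _).trans hc
  have i1 : ((Γ₁.relIndex Γ : ℕ) : ℝ≥0∞) ≤ ENNReal.ofReal c₁ := by
    rw [← ENNReal.ofReal_natCast]
    exact ENNReal.ofReal_le_ofReal hc
  have i2 : ∀ k, ((((cjG Γ (g k)).subgroupOf (HUH H)).relIndex (Γ.subgroupOf (HUH H)) : ℕ) : ℝ≥0∞) = ENNReal.ofReal (q k) := by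
    intro k
    rw [← ENNReal.ofReal_natCast, hq k]
  have i5 : (1 : ℝ≥0∞) + ENNReal.ofReal B = ENNReal.ofReal (1 + B) := by
    rw [ENNReal.ofReal_add zero_le_one hB, ENNReal.ofReal_one]
  have i4 : ∀ k, ‖a k‖ₑ ^ 2 = ENNReal.ofReal (‖a k‖ ^ 2) := fun k => by
    rw [ENNReal.ofReal_pow (norm_nonneg _), ofReal_norm]
  refine ⟨fun h hg D' hD' => ?_, fun t hT D' hD' => ?_⟩
  · -- form A
    have key := c1_absA5 hG cjj (Γ := Γ) (Γ₁ := Γ₁) (hk := g) (Γ' := fun k => cjG Γ (g k))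
      (Γ1 := fun k => cjG Γ₁ (g k)) (fun i g => Iff.rfl) (fun i g => Iff.rfl) hD₂ pD2 fD2
      (fun i w hw => hy.one w (hy.sub i ⟨hw, w.2⟩)) hccΓ hy.le rfl hy.idx mST hSS hfq hC.sf hCB hdich hQ (subset_refl Q) cφ sφ (x := x) hτ hfol hAS hF₁ (f := F) hAF hκ hort' a
    have hs0 : 0 ≤ ∑ k, ‖a k‖ ^ 2 * (q k)⁻¹ := Finset.sum_nonneg fun k _ => mul_nonneg (sq_nonneg _) (inv_nonneg.2 (hq0 k).le)
    refine fin_real (a := fun l => ‖kap l ^ Mc * lam l‖ₑ ^ 2 * ‖∑ k, a k * Wm (UHR H).subtype (psT H θ) ν (D₂ k) (fun y => F l (g k • y)) x‖ₑ ^ 2)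
      (fun l => ENNReal.mul_ne_top (ENNReal.pow_ne_top enorm_ne_top) (ENNReal.pow_ne_top enorm_ne_top)) (fun l => ?_) (by positivity) ?_
    · rw [ENNReal.toReal_mul, ENNReal.toReal_pow, ENNReal.toReal_pow, toReal_enorm, toReal_enorm]
      congr 3
      refine Finset.sum_congr rfl fun k _ => ?_
      congr 1
      have e1 := hD' k
      rw [imUh_congr H (hg k), imUh_eq] at e1
      have e2 : (fun y => F l (embH H (h k) * y)) = fun y => F l (g k • y) := funext fun y => th4_fcongr H (hg k) (hF l).inv y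
      rw [e2]
      refine th2_Wh H ν (hD₂ k) e1 θ (fun δ hδ u => ?_) (fun γ hγ y => ?_) x
      · rw [psT_mul' H θ, hy.one δ (hy.sub k ⟨hδ, δ.2⟩), one_mul]
      · obtain ⟨δ, hδ, rfl⟩ := hγ
        have h3 : (g k • (embH H δ * y) : HRt H) = embH H (g k * δ * (g k)⁻¹) * (g k • y) := by
          simp only [smulH_def, map_mul, map_inv]
          group
        rw [h3]
        exact (hF l).inv _ ⟨_, hδ, rfl⟩ _
    · refine key.trans ?_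
      have e2 : ∀ k, ‖a k‖ₑ ^ 2 / ν (D₂ k) = ENNReal.ofReal (‖a k‖ ^ 2 * (q k)⁻¹) / ν D₁ := by
        intro k
        rw [hvol k, i2 k, i4 k, ← div_eq_mul_inv, ENNReal.ofReal_div_of_pos (hq0 k)]
        rw [div_eq_mul_inv, div_eq_mul_inv, div_eq_mul_inv, mul_assoc, ENNReal.mul_inv (Or.inr fD) (Or.inr pD)]
      have e3 : ∑ k, ‖a k‖ₑ ^ 2 / ν (D₂ k) = ENNReal.ofReal (∑ k, ‖a k‖ ^ 2 * (q k)⁻¹) / ν D₁ := by
        rw [ENNReal.ofReal_sum_of_nonneg (fun k _ => mul_nonneg (sq_nonneg _) (inv_nonneg.2 (hq0 k).le)), div_eq_mul_inv, Finset.sum_mul]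
        exact Finset.sum_congr rfl fun k _ => by rw [e2 k, div_eq_mul_inv]
      rw [e3]
      rw [i5, ← ENNReal.ofReal_pow (sq_nonneg Λ)]
      calc _ ≤ ENNReal.ofReal (1 + B) * (ENNReal.ofReal c₁ * (ENNReal.ofReal X * ν D₁ * ENNReal.ofReal ((Λ ^ 2) ^ Mc))) * (ENNReal.ofReal (∑ k, ‖a k‖ ^ 2 * (q k)⁻¹) / ν D₁) := by
            gcongr
        _ = ENNReal.ofReal (1 + B) * (ENNReal.ofReal c₁ * (ENNReal.ofReal X * ENNReal.ofReal ((Λ ^ 2) ^ Mc))) * ENNReal.ofReal (∑ k, ‖a k‖ ^ 2 * (q k)⁻¹) * (ν D₁ * (ν D₁)⁻¹) := by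
            rw [div_eq_mul_inv]
            ring
        _ = _ := by
            rw [ENNReal.mul_inv_cancel pD fD, mul_one]
            rw [← ENNReal.ofReal_mul (by positivity), ← ENNReal.ofReal_mul (by positivity), ← ENNReal.ofReal_mul (by positivity), ← ENNReal.ofReal_mul (by positivity)]
  · -- form B
    have hH := fun k l => th3_hecke H (hy.sub k) (hF l).inv (hT l k)
    have key := c1_abs5 hG cjj (Γ := Γ) (Γ₁ := Γ₁) (hk := g) (Γ' := fun k => cjG Γ (g k))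
      (Γ1 := fun k => cjG Γ₁ (g k)) (fun i g => Iff.rfl) (fun i g => Iff.rfl) hy.sub hD₁ pD fD (fun i => rfl) hidx
      hy.one hccΓ hy.le rfl hy.idx mST hSS hfq hC.sf hCB hdich hQ (subset_refl Q) cφ sφ (x := x) hτ hfol hAS hF₁ (f := F) hAF hκ hort'
      (β := fun k l => t l k) (fun k l => (hH k l).2) a
    have hs0 : 0 ≤ ∑ k, ‖a k‖ ^ 2 * q k := Finset.sum_nonneg fun k _ => mul_nonneg (sq_nonneg _) (hq0 k).le
    refine fin_real (a := fun l => ‖kap l ^ Mc * lam l‖ₑ ^ 2 * (‖∑ k, a k * t l k‖ₑ ^ 2 * ‖Wm (UHR H).subtype (psT H θ) ν D₁ (F l) x‖ₑ ^ 2))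
      (fun l => ENNReal.mul_ne_top (ENNReal.pow_ne_top enorm_ne_top) (ENNReal.mul_ne_top (ENNReal.pow_ne_top enorm_ne_top) (ENNReal.pow_ne_top enorm_ne_top))) (fun l => ?_) (by positivity) ?_
    · rw [ENNReal.toReal_mul, ENNReal.toReal_mul, ENNReal.toReal_pow, ENNReal.toReal_pow, ENNReal.toReal_pow, toReal_enorm, toReal_enorm, toReal_enorm,
        th2_Wh H ν hD₁ hD' θ (fun δ hδ u => by rw [psT_mul' H θ, hy.one δ hδ, one_mul]) (hF l).inv x]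
    · have e3 : ∑ k, ((((cjG Γ (g k)).subgroupOf (HUH H)).relIndex (Γ.subgroupOf (HUH H)) : ℕ) : ℝ≥0∞) * ‖a k‖ₑ ^ 2 = ENNReal.ofReal (∑ k, ‖a k‖ ^ 2 * q k) := by
        rw [ENNReal.ofReal_sum_of_nonneg (fun k _ => mul_nonneg (sq_nonneg _) (hq0 k).le)]
        refine Finset.sum_congr rfl fun k _ => ?_
        rw [i2 k, i4 k, ← ENNReal.ofReal_mul (hq0 k).le, mul_comm]
      rw [← ENNReal.mul_le_mul_iff_right pD fD]
      refine key.trans ?_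
      rw [e3]
      rw [i5, ← ENNReal.ofReal_pow (sq_nonneg Λ)]
      calc _ ≤ ENNReal.ofReal (1 + B) * (ENNReal.ofReal c₁ * (ENNReal.ofReal X * ν D₁ * ENNReal.ofReal ((Λ ^ 2) ^ Mc))) * ENNReal.ofReal (∑ k, ‖a k‖ ^ 2 * q k) := by
            gcongr
        _ = ν D₁ * (ENNReal.ofReal (1 + B) * (ENNReal.ofReal c₁ * (ENNReal.ofReal X * ENNReal.ofReal ((Λ ^ 2) ^ Mc))) * ENNReal.ofReal (∑ k, ‖a k‖ ^ 2 * q k)) := by
            ring
        _ = _ := by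
            rw [← ENNReal.ofReal_mul (by positivity), ← ENNReal.ofReal_mul (by positivity), ← ENNReal.ofReal_mul (by positivity), ← ENNReal.ofReal_mul (by positivity)]

end

end Pool.Agent.Lib.L8.FL
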