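import Pool.Agent.Lib.L8.FL.C1F

/-!
# C1I: the weighted count for one element
-/

namespace Pool.Agent.Lib.L8.FL

open MeasureTheory Matrix NumberField IsDedekindDomain Pool.Agent.Lib.H89N Pool.Agent.Lib.H33W Pool.Agent.Lib.H67G Pool.Agent.Lib.L1S Topology
open scoped ENNReal

noncomputable section

variable {ι M N : Type} [Fintype ι] [DecidableEq ι] [AddCommGroup M] [Module ℚ M] [AddCommGroup N] [Module ℚ N]
  {P : RootPairing ι ℚ M N} [P.IsCrystallographic] {b : P.Base} {L : Type} [Field L] [NumberField L] (H : Subgroup (GK b L))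

/-- The weighted count of the exceptional elements for one element `g`, `Γ' = g⁻¹ Γ₁ g`. -/
structure CntU {τ : Type} [Fintype τ] (ν : Measure (UHR H)) (Γ₁ : Subgroup H) (g : H) (x : HRt H) (C : Set (HRt H)) (D₁ : Set (UHR H)) (st : τ → τ)
    (Y : τ → Set H) (p : τ → HRt H → ℝ≥0∞) (a : τ → ℝ) (B : ℝ) : Prop where
  inv2 : ∀ j, st (st j) = j
  yl : ∀ j, ∀ u ∈ cjG Γ₁ g ⊓ HUH H, ∀ γ, u * γ ∈ Y j ↔ γ ∈ Y j
  yi : ∀ j γ, γ ∈ Y j ↔ γ⁻¹ ∈ Y (st j)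
  disj : ∀ j, ∀ γ ∈ Y j, γ ∉ HUH H
  mp : ∀ j, Measurable (p j)
  ep : ∀ j (t : UHR H) (z : HRt H), p j ((t : HRt H) * z) = p j z
  p0 : ∀ j, ∀ y ∈ C, p j (x * y) ≠ 0
  pt : ∀ j, ∀ y ∈ C, p j (x * y) ≠ ⊤
  sf : SF ((cjG Γ₁ g).subgroupOf (HUH H)) D₁
  cnt : ∀ j, ∀ y ∈ C, ∫⁻ t in D₁, ce (cjG Γ₁ g ⊓ HUH H) ((cjG Γ₁ g : Set H) ∩ Y j) (fun γ => (ST H x C).indicator (p j) (embH H γ * ((t : HRt H) * (x * y)))) ∂ν ≤
    ENNReal.ofReal (a j) * p (st j) (x * y) * ν D₁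
  a0 : ∀ j, 0 < a j
  hB : ∑ j, √(a j * a (st j)) ≤ B

theorem c1_rho {a a' : ℝ} (h : 0 < a) (h' : 0 < a') :
    ∃ ρ : ℝ≥0∞, ρ ≠ 0 ∧ ρ ≠ ⊤ ∧ ρ * ENNReal.ofReal a ≤ ENNReal.ofReal (√(a * a')) ∧ ρ⁻¹ * ENNReal.ofReal a' ≤ ENNReal.ofReal (√(a * a')) := by
  have hs : 0 < √(a' / a) := Real.sqrt_pos.2 (div_pos h' h)
  refine ⟨ENNReal.ofReal (√(a' / a)), (ENNReal.ofReal_pos.2 hs).ne', ENNReal.ofReal_ne_top, ?_, ?_⟩
  · rw [← ENNReal.ofReal_mul hs.le]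
    refine ENNReal.ofReal_le_ofReal (le_of_eq ?_)
    have h1 : a = √(a * a) := (Real.sqrt_mul_self h.le).symm
    rw [show √(a' / a) * a = √(a' / a) * √(a * a) by rw [← h1], ← Real.sqrt_mul (div_pos h' h).le]
    congr 1
    field_simp
  · rw [← ENNReal.ofReal_inv_of_pos hs, ← ENNReal.ofReal_mul (inv_nonneg.2 hs.le)]
    refine ENNReal.ofReal_le_ofReal (le_of_eq ?_)
    have h1 : a' = √(a' * a') := (Real.sqrt_mul_self h'.le).symm
    rw [← Real.sqrt_inv, show √(a' / a)⁻¹ * a' = √(a' / a)⁻¹ * √(a' * a') by rw [← h1], ← Real.sqrt_mul (inv_nonneg.2 (div_pos h' h).le)]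
    congr 1
    field_simp

/-- The family with one element. -/
theorem CntU.toTP {τ : Type} [Fintype τ] {ν : Measure (UHR H)} {Γ₁ : Subgroup H} {g : H} {x : HRt H} {C : Set (HRt H)} {D₁ : Set (UHR H)} {st : τ → τ}
    {Y : τ → Set H} {p : τ → HRt H → ℝ≥0∞} {a : τ → ℝ} {B : ℝ} (hC : CntU H ν Γ₁ g x C D₁ st Y p a B) :
    CntTP H ν Γ₁ (fun _ : Unit => g) x C (fun _ => D₁) st (fun j _ _ => Y j) p (fun j _ _ => ENNReal.ofReal (a j)) (fun j _ _ => ENNReal.ofReal (√(a j * a (st j)))) (ENNReal.ofReal B) where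
  inv2 := hC.inv2
  yl := fun j _ _ => hC.yl j
  yi := fun j _ _ => hC.yi j
  disj := fun j _ => hC.disj j
  mp := hC.mp
  ep := hC.ep
  p0 := hC.p0
  pt := hC.pt
  sf := fun _ => hC.sf
  cnt := fun j _ _ => hC.cnt j
  rho := fun j _ _ => c1_rho (hC.a0 j) (hC.a0 (st j))
  sb := fun _ => by
    simp only [Finset.univ_unique, Finset.sum_singleton]
    rw [← ENNReal.ofReal_sum_of_nonneg fun j _ => Real.sqrt_nonneg _]
    exact ENNReal.ofReal_le_ofReal hC.hB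
  sa := fun _ => by
    simp only [Finset.univ_unique, Finset.sum_singleton]
    rw [← ENNReal.ofReal_sum_of_nonneg fun j _ => Real.sqrt_nonneg _]
    exact ENNReal.ofReal_le_ofReal hC.hB

end

end Pool.Agent.Lib.L8.FL
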