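import Pool.Agent.Lib.L8.MainA
import Pool.Agent.Lib.L8.FL.C1G
import Pool.Agent.Lib.L8.FL.C1I

/-!
# C1H: the core of the density theorem with an abstract dichotomy and cells of exceptional elements

Copy of `L8.mm_abs` (file L8/MainA.lean).
-/

namespace Pool.Agent.Lib.L8.FL

open MeasureTheory Matrix NumberField NumberField.InfinitePlace IsDedekindDomain Pool.Agent.Lib.H89N Pool.Agent.Lib.H33W Pool.Agent.Lib.H67G Pool.Agent.Lib.L1S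
open scoped ENNReal Pointwise

noncomputable section

set_option linter.unusedSectionVars false

variable {ι M N : Type} [Fintype ι] [DecidableEq ι] [AddCommGroup M] [Module ℚ M] [AddCommGroup N] [Module ℚ N]
  {P : RootPairing ι ℚ M N} [P.IsCrystallographic] {b : P.Base}

variable [P.IsRootSystem] [P.IsReduced] [P.IsIrreducible] {K L : Type} [Field K] [NumberField K] [Field L] [NumberField L] [Algebra K L]

/-- **The core** with an abstract dichotomy and cells of exceptional elements: as `mm_abs`, and the elements of the cells `Y j` are counted. -/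
theorem c1_abs (Q : QS b K L) [IsGalois K L] :
    ∃ CI : ℝ, 0 ≤ CI ∧ ∀ (B : ℝ), 0 ≤ B → ∀ (m₀ : ℕ) (v : HeightOneSpectrum (𝓞 K)) (𝔫 : Ideal (𝓞 K)), 𝔫 ≠ ⊥ → ¬𝔫 ≤ v.asIdeal → ∀ (r s : ℕ) (c : b.support → ℤ), InvC Q c → (∀ i : b.support, 0 ≤ pr b c (Sum.inr i)) → (1 ≤ r + s ∨ c = 0) →
    ∀ π : K, v.valuation K π = WithZero.exp (-1 : ℤ) → ∀ h : HQ Q, h.1 ∈ HGL b L 𝔫 v → AtVL b v r s π c h.1 →
    ∀ θ : b.support → (EE L →ₗ[ℝ] ℝ), GenQ Q 𝔫 v r s θ →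
    ∀ x : HRt (HQ Q),
    ∀ (μ τ : Measure (HRt (HQ Q))) [μ.IsHaarMeasure] (w : HRt (HQ Q) → ℂ) (Kt : Set (HRt (HQ Q))) (Λ : ℝ), CvD μ τ w Kt Λ →
    ∀ (m : ℕ) (φ : HRt (HQ Q) → ℂ), Continuous φ → HasCompactSupport φ →
    ∀ (ν : Measure (UHR (HQ Q))) [ν.IsHaarMeasure],
    (∀ m₁ : ℕ, m₀ ≤ m₁ → (m₁ : 𝓞 K) ∉ v.asIdeal → ∀ g : HQ Q, LvL b (Ideal.span {(m₁ : 𝓞 K)} * 𝔫) v r s c π g.1 →
      ∃ (τ' : Type) (_ : Fintype τ') (D₁ : Set (UHR (HQ Q))) (st : τ' → τ') (Y : τ' → Set (HQ Q)) (p : τ' → HRt (HQ Q) → ℝ≥0∞) (a : τ' → ℝ),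
        CntU (HQ Q) ν (GamQ (HQ Q) (Ideal.span {(m₁ : 𝓞 K)} * 𝔫) v r s) g x (tsupport φ * Kt ^ m) D₁ st Y p a B ∧
        ∀ γ : HQ Q, g * γ * g⁻¹ ∈ GamQ (HQ Q) (Ideal.span {(m₁ : 𝓞 K)} * 𝔫) v r s → (∀ j, γ ∉ Y j) →
          MvT (HQ Q) x (tsupport φ * Kt ^ m) (embH (HQ Q) γ) → γ ∈ HUH (HQ Q) ∨ AltH (HQ Q) θ γ) →
    ∀ (D : Set (HRt (HQ Q))), IsFundamentalDomain (GamHR (HQ Q) 𝔫 v r s) D μ →
    ∀ (n : ℕ) (F : Fin n → HRt (HQ Q) → ℂ) (c' κ t' : Fin n → ℂ), (∀ l, AutM Q 𝔫 v r s μ D φ τ w h (F l) (c' l) (κ l) (t' l)) → (∀ l k, ∫ x in D, star (F l x) * F k x ∂μ = if l = k then 1 else 0) →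
    ∀ D' : Set (UHR (HQ Q)), IsFundamentalDomain (GamUH (HQ Q) 𝔫 v r s) D' ν →
      ENNReal.ofReal (∑ l, ‖c' l * κ l ^ m * t' l * WhH (HQ Q) ν D' θ (F l) x‖ ^ 2) * ν D' ≤
        ENNReal.ofReal ((1 + B) * ((6 ^ m₀ : ℕ) ^ Module.finrank ℚ L : ℝ) ^ (Fintype.card (I b) ^ 2) * CI * Λ ^ (2 * m) * (Ideal.absNorm v.asIdeal : ℝ) ^ (∑ β ∈ Pos b, pr b c (Sum.inr β))) * Jf (UHR (HQ Q)).subtype μ ν φ x := by
  classical
  have ci : Countable (HQ Q) := th_count (HQ Q)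
  obtain ⟨CI, hCI0, hCI⟩ := qa_idx Q
  refine ⟨CI, hCI0.le, ?_⟩
  intro B hB m₀ v 𝔫 h0 hv r s c hcQ hc hrs π hπ h hh1 hh2 θ hθ x μ τ _ w Kt Λ hτ m φ cφ sφ ν _ hdich D hD n F c' κ t' hF hort D' hD'
  have hq1 : (0 : ℝ) < Ideal.absNorm v.asIdeal := Nat.cast_pos.2 (Nat.pos_of_ne_zero (by
    rw [Ne, Ideal.absNorm_eq_zero_iff]
    exact v.ne_bot))
  have hq0 : (0 : ℝ) < (Ideal.absNorm v.asIdeal : ℝ) ^ (∑ β ∈ Pos b, pr b c (Sum.inr β)) := zpow_pos hq1 _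
  -- the auxiliary level
  obtain ⟨m₁, hm1, hm2, hm3, hm4⟩ := aux_level m₀ v
  have h1 : Ideal.span {(m₁ : 𝓞 K)} * 𝔫 ≠ ⊥ := by
    rw [Ne, Ideal.mul_eq_bot, not_or, Ideal.span_singleton_eq_bot]
    exact ⟨Nat.cast_ne_zero.2 hm2, h0⟩
  have h1v : ¬Ideal.span {(m₁ : 𝓞 K)} * 𝔫 ≤ v.asIdeal := (de_m h0 hv hm3).2
  -- replacement of the Hecke element
  obtain ⟨g', hg'H, hg1, hg2⟩ := qa_exists Q h1v r s hcQ hπ
  obtain ⟨g, hg⟩ : ∃ g : HQ Q, g = ⟨g', hg'H⟩ := ⟨_, rfl⟩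
  have hg1 : g.1 ∈ HGL b L (Ideal.span {(m₁ : 𝓞 K)} * 𝔫) v := by rw [hg]; exact hg1
  have hg2 : AtVL b v r s π c g.1 := by rw [hg]; exact hg2
  have hle : L1S.up L (Ideal.span {(m₁ : 𝓞 K)} * 𝔫) ≤ L1S.up L 𝔫 := L1S.up_mono L Ideal.mul_le_right
  have hg4 : g.1 ∈ HGL b L 𝔫 v := by
    obtain ⟨j, hj⟩ := hg1
    have key : ∀ y : L, DenL (Ideal.span {(m₁ : 𝓞 K)} * 𝔫) v j y → DenL 𝔫 v j y := fun y hy a ha => by
      obtain ⟨z, hz, e⟩ := hy a ha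
      exact ⟨z, hle hz, e⟩
    exact ⟨j, fun i i' => ⟨key _ (hj i i').1, key _ (hj i i').2⟩⟩
  have hg3 : h * g⁻¹ ∈ GamQ (HQ Q) 𝔫 v r s := qa_quot Q h0 hv hπ hh1 hh2 hg4 hg2
  have hL : LvL b 𝔫 v r s c π g.1 := ⟨h0, hv, hc, hπ, hg4, hg2⟩
  have hL1 : LvL b (Ideal.span {(m₁ : 𝓞 K)} * 𝔫) v r s c π g.1 := ⟨h1, h1v, hc, hπ, hg1, hg2⟩
  -- fundamental domains
  have hdΓ : Dsc (HQ Q) (GamQ (HQ Q) 𝔫 v r s) := dsc_Gam (HQ Q) 𝔫 v r s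
  obtain ⟨D₁, hD₁⟩ := hdΓ.sfU
  have hcc0 : CCH (HQ Q) (GamQ (HQ Q) 𝔫 v r s) := by
    have h2 : CCH (HQ Q) (cjG (GamQ (HQ Q) 𝔫 v r s) 1) := qa_cc Q h0 v r s 1
    rw [cjG_one] at h2
    exact h2
  have hcc1 : ∀ g : HQ Q, CCH (HQ Q) (cjG (GamQ (HQ Q) (Ideal.span {(m₁ : 𝓞 K)} * 𝔫) v r s) g) := fun g => qa_cc Q h1 v r s g
  have hG := th2_gd (HQ Q) hcc0 hD₁ μ ν θ (psT_mul' (HQ Q) θ)
  have hone : ∀ w : HUH (HQ Q), (w : HQ Q) ∈ GamQ (HQ Q) 𝔫 v r s → psT (HQ Q) θ (kUH (HQ Q) w) = 1 := fun w hw =>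
    hθ.2 _ ((th2_mem_imU (HQ Q) (GamQ (HQ Q) 𝔫 v r s) _).2 ⟨w, hw, rfl⟩)
  -- the auxiliary group
  have hm5 : GamQ (HQ Q) (Ideal.span {(m₁ : 𝓞 K)} * 𝔫) v r s ≤ GamQ (HQ Q) 𝔫 v r s := by
    have key : ∀ y : L, L1S.InI (L1S.up L (Ideal.span {(m₁ : 𝓞 K)} * 𝔫)) y → L1S.InI (L1S.up L 𝔫) y := fun y ⟨z, hz, e⟩ => ⟨z, hle hz, e⟩
    intro γ hγ
    have h2 : γ.1 ∈ GamL b L (Ideal.span {(m₁ : 𝓞 K)} * 𝔫) v r s := hγ
    show γ.1 ∈ GamL b L 𝔫 v r s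
    intro i j
    obtain ⟨⟨a1, a2⟩, a3, a4⟩ := h2 i j
    exact ⟨⟨key _ a1, a2⟩, key _ a3, a4⟩
  have hcomm : ∀ h h' : HQ Q, (cjG (GamQ (HQ Q) (Ideal.span {(m₁ : 𝓞 K)} * 𝔫) v r s) h).relIndex (cjG (GamQ (HQ Q) (Ideal.span {(m₁ : 𝓞 K)} * 𝔫) v r s) h') ≠ 0 := fun h h' =>
    qa_comm Q h1 v v r s r s h h'
  have hidx0 : (GamQ (HQ Q) (Ideal.span {(m₁ : 𝓞 K)} * 𝔫) v r s).relIndex (GamQ (HQ Q) 𝔫 v r s) ≠ 0 := by
    have h2 : (cjG (GamQ (HQ Q) (Ideal.span {(m₁ : 𝓞 K)} * 𝔫) v r s) 1).relIndex (cjG (GamQ (HQ Q) 𝔫 v r s) 1) ≠ 0 := qa_comm Q h1 (𝔪 := 𝔫) v v r s r s 1 1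
    rw [cjG_one, cjG_one] at h2
    exact h2
  have hfol := fol_gu (HQ Q) (Ideal.span {(m₁ : 𝓞 K)} * 𝔫) v r s g
  have hy : THyp0 (HQ Q) (GamQ (HQ Q) 𝔫 v r s) (GamQ (HQ Q) (Ideal.span {(m₁ : 𝓞 K)} * 𝔫) v r s) (fun _ : Unit => g) θ := by
    refine ⟨hdΓ, hm5, fun g => ?_, hidx0, ?_, fun _ => hcc1 g, fun _ => ?_, hone⟩
    · have h2 := hcomm g 1
      rw [cjG_one] at h2
      exact h2
    · have h2 := hcc1 1
      rw [cjG_one] at h2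
      exact h2
    · exact qa_le Q hcQ hL
  obtain ⟨τ', iτ, E₁, st, Y, p, a, hCU, hdi⟩ := hdich m₁ hm1 hm3 g hL1
  have hcN : (((GamQ (HQ Q) (Ideal.span {(m₁ : 𝓞 K)} * 𝔫) v r s).relIndex (GamQ (HQ Q) 𝔫 v r s) : ℕ) : ℝ) ≤ ((6 ^ m₀ : ℕ) ^ Module.finrank ℚ L : ℝ) ^ (Fintype.card (I b) ^ 2) := by
    have h2 : (cjG (GamQ (HQ Q) (Ideal.span {(m₁ : 𝓞 K)} * 𝔫) v r s) 1).relIndex (cjG (GamQ (HQ Q) 𝔫 v r s) 1) ≤ (m₁ ^ Module.finrank ℚ L) ^ (Fintype.card (I b) ^ 2) :=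
      qa_m Q h0 v r s m₁ hm2 1
    rw [cjG_one, cjG_one] at h2
    have h3 : (m₁ ^ Module.finrank ℚ L) ^ (Fintype.card (I b) ^ 2) ≤ ((6 ^ m₀) ^ Module.finrank ℚ L) ^ (Fintype.card (I b) ^ 2) :=
      Nat.pow_le_pow_left (Nat.pow_le_pow_left hm4 _) _
    exact_mod_cast h2.trans h3
  have hidxR := hCI 𝔫 v r s c π g hcQ hL
  have hq0' : (0 : ℝ) < (((cjG (GamQ (HQ Q) 𝔫 v r s) g).subgroupOf (HUH (HQ Q))).relIndex ((GamQ (HQ Q) 𝔫 v r s).subgroupOf (HUH (HQ Q))) : ℝ) := by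
    have h3 : 0 < CI * (((cjG (GamQ (HQ Q) 𝔫 v r s) g).subgroupOf (HUH (HQ Q))).relIndex ((GamQ (HQ Q) 𝔫 v r s).subgroupOf (HUH (HQ Q))) : ℝ) := hq0.trans_le hidxR.1
    exact (pos_iff_pos_of_mul_pos h3).1 hCI0
  -- the numbers
  have pD : ν D₁ ≠ 0 := th2_pos (HQ Q) hD₁ ν
  have fD : ν D₁ ≠ ⊤ := th2_fin (HQ Q) hcc0 hD₁ ν
  have hvD : ν D' = ν D₁ := th2_volU (HQ Q) ν hD₁ hD'
  have hJt : Jf (UHR (HQ Q)).subtype μ ν φ x ≠ ⊤ := mm_Jfin hcc0 hD₁ cφ sφ x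
  obtain ⟨X, hX⟩ : ∃ X : ℝ, X = (Jf (UHR (HQ Q)).subtype μ ν φ x / ν D₁).toReal := ⟨_, rfl⟩
  have hX0 : 0 ≤ X := by rw [hX]; exact ENNReal.toReal_nonneg
  have hJ : Jf (UHR (HQ Q)).subtype μ ν φ x ≤ ENNReal.ofReal X * ν D₁ := by
    rw [hX, ENNReal.ofReal_toReal (ENNReal.div_ne_top hJt pD), ENNReal.div_mul_cancel pD fD]
  have hF' : ∀ l, AuE (HQ Q) (GamQ (HQ Q) 𝔫 v r s) μ D φ (c' l) (F l) := fun l => ⟨(hF l).cont, (hF l).inv, (hF l).l2, (hF l).eig⟩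
  have key := c1_main (HQ Q) hy cφ sφ (μ := μ) (ν := ν) hτ (fun _ => hfol) (Mc := m) hB (CntU.toTP (HQ Q) hCU) (fun i j γ hγ hnb hm => by
    rcases hdi γ hγ hnb hm with h3 | h3
    · exact Or.inl ⟨rfl, h3⟩
    · exact Or.inr h3) hD₁ hX0 hJ hcN (q := fun _ => (((cjG (GamQ (HQ Q) 𝔫 v r s) g).subgroupOf (HUH (HQ Q))).relIndex ((GamQ (HQ Q) 𝔫 v r s).subgroupOf (HUH (HQ Q))) : ℝ))
    (fun _ => rfl) (fun _ => hq0') hD hF' (fun l => (hF l).cv) hort (fun _ => 1)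
  have fin : ∑ l, ‖c' l * κ l ^ m * t' l * WhH (HQ Q) ν D' θ (F l) x‖ ^ 2 ≤
      (((1 + B) * ((6 ^ m₀ : ℕ) ^ Module.finrank ℚ L : ℝ) ^ (Fintype.card (I b) ^ 2) * CI) * Λ ^ (2 * m) * (Ideal.absNorm v.asIdeal : ℝ) ^ (∑ β ∈ Pos b, pr b c (Sum.inr β))) * X := by
    have hc1 : (0 : ℝ) ≤ ((6 ^ m₀ : ℕ) ^ Module.finrank ℚ L : ℝ) ^ (Fintype.card (I b) ^ 2) := by positivity
    have hΛ : 0 ≤ (Λ ^ 2) ^ m := by positivity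
    rcases hrs with hrs | rfl
    · -- the Hecke operator
      have hU : ∀ (l : Fin n) (i : Unit), IsUT (HQ Q) (GamQ (HQ Q) 𝔫 v r s) g (F l) ((fun l (_ : Unit) => t' l) l i) := fun l _ =>
        qa_isU Q hrs hcQ hL (hF l).inv (qm_isT_congr (HQ Q) hg3 (hF l).hec)
      have h2 := key.2 (fun l _ => t' l) hU D' hD'
      simp only [Finset.univ_unique, Finset.sum_singleton, one_mul, norm_one, one_pow] at h2
      refine le_trans (le_of_eq ?_) (h2.trans ?_)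
      · refine Finset.sum_congr rfl fun l _ => ?_
        show ‖c' l * κ l ^ m * t' l * WhT (HQ Q) ν D' θ (F l) x‖ ^ 2 = _
        simp only [norm_mul]
        ring
      · calc _ ≤ (1 + B) * (((6 ^ m₀ : ℕ) ^ Module.finrank ℚ L : ℝ) ^ (Fintype.card (I b) ^ 2) * (X * (Λ ^ 2) ^ m)) * (CI * (Ideal.absNorm v.asIdeal : ℝ) ^ (∑ β ∈ Pos b, pr b c (Sum.inr β))) :=
              mul_le_mul_of_nonneg_left hidxR.2 (mul_nonneg (by linarith) (mul_nonneg hc1 (mul_nonneg hX0 hΛ)))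
          _ = _ := by
              rw [← pow_mul]
              ring
    · -- the trivial double coset
      have hhΓ : h ∈ GamQ (HQ Q) 𝔫 v r s := mm_gam Q h0 hv hπ hh1 hh2
      have hgΓ : g ∈ GamQ (HQ Q) 𝔫 v r s := mm_gam Q h0 hv hπ hg4 hg2
      have h2 := key.1 (fun _ => 1) (fun _ => by
        rw [one_mul]
        exact Subgroup.inv_mem _ hgΓ) (fun _ => D') (fun _ => by
        have h1 := imUh_eq (HQ Q) (GamQ (HQ Q) 𝔫 v r s) 1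
        rw [cjG_one] at h1
        show IsFundamentalDomain (imUh (HQ Q) (GamQ (HQ Q) 𝔫 v r s) 1) D' ν
        rw [h1]
        exact hD')
      simp only [Finset.univ_unique, Finset.sum_singleton, one_mul, map_one, norm_one, one_pow] at h2
      have hidx1 : (((cjG (GamQ (HQ Q) 𝔫 v r s) g).subgroupOf (HUH (HQ Q))).relIndex ((GamQ (HQ Q) 𝔫 v r s).subgroupOf (HUH (HQ Q))) : ℝ) = 1 := by
        have e1 : cjG (GamQ (HQ Q) 𝔫 v r s) g = GamQ (HQ Q) 𝔫 v r s := by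
          rw [cjG_congr (g := 1) (by rw [inv_one, mul_one]; exact hgΓ), cjG_one]
        rw [e1, Subgroup.relIndex_self, Nat.cast_one]
      rw [hidx1, inv_one, mul_one] at h2
      have h3 := hidxR.2
      rw [show ((((GhQ (HQ Q) 𝔫 v r s g).subgroupOf (HUH (HQ Q))).relIndex ((GamQ (HQ Q) 𝔫 v r s).subgroupOf (HUH (HQ Q))) : ℕ) : ℝ) = 1 from hidx1] at h3
      refine le_trans (Finset.sum_le_sum fun l _ => ?_) (h2.trans ?_)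
      · show ‖c' l * κ l ^ m * t' l * WhT (HQ Q) ν D' θ (F l) x‖ ^ 2 ≤ _
        have e2 : t' l * WhT (HQ Q) ν D' θ (F l) x = WhT (HQ Q) ν D' θ (F l) x := by
          unfold WhT
          rw [setAverage_eq, mul_smul_comm, ← integral_const_mul]
          congr 1
          refine integral_congr_ae (Filter.Eventually.of_forall fun u => ?_)
          show t' l * (F l (u.1 * x) * star (psT (HQ Q) θ u)) = F l (u.1 * x) * star (psT (HQ Q) θ u)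
          rw [← mul_assoc, mm_triv hhΓ (hF l).inv (hF l).hec]
        rw [mul_assoc, e2, norm_mul, mul_pow, mul_comm (c' l)]
      · calc _ ≤ (1 + B) * (((6 ^ m₀ : ℕ) ^ Module.finrank ℚ L : ℝ) ^ (Fintype.card (I b) ^ 2) * (X * (Λ ^ 2) ^ m)) * (CI * (Ideal.absNorm v.asIdeal : ℝ) ^ (∑ β ∈ Pos b, pr b (0 : b.support → ℤ) (Sum.inr β))) :=
              le_mul_of_one_le_right (mul_nonneg (by linarith) (mul_nonneg hc1 (mul_nonneg hX0 hΛ))) h3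
          _ = _ := by
              rw [← pow_mul]
              ring
  have hΛ : 0 ≤ Λ ^ (2 * m) := by
    rw [pow_mul]
    positivity
  rw [hvD]
  exact mm_real pD fD hJt (by positivity) (by rw [← hX]; exact fin)

end

end Pool.Agent.Lib.L8.FL
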