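import Pool.Agent.Lib.L8.FL.Defs
import Pool.Agent.Lib.L8.IG24
import Pool.Agent.Lib.L8.FV1
import Pool.Agent.Lib.L1S.TH1

/-!
# FL, module C5 (the archimedean part), C5A: the components at the infinite places (owner: helper33)

The component of an element of `G(K ⊗ ℝ)` at the infinite place `w` is an element of the complex local group `GF b ℂ` (also at the real places).
-/

namespace Pool.Agent.Lib.L8.FL

set_option linter.unusedSectionVars false

open MeasureTheory Matrix NumberField IsDedekindDomain Pool.Agent.Lib.H89N Pool.Agent.Lib.H33W Pool.Agent.Lib.H67G Pool.Agent.Lib.L1S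
open scoped ENNReal

noncomputable section

variable {ι M N : Type} [Fintype ι] [DecidableEq ι] [AddCommGroup M] [Module ℚ M] [AddCommGroup N] [Module ℚ N]
  {P : RootPairing ι ℚ M N} [P.IsCrystallographic] [P.IsReduced] [P.IsIrreducible] [P.IsRootSystem] {b : P.Base}
  {K : Type} [Field K] [NumberField K]

/-! ## The evaluations -/

theorem evw_real {w : InfinitePlace K} (h : w.IsReal) (x : EE K) : evw w x = ((x.1 ⟨w, h⟩ : ℝ) : ℂ) := by
  unfold evw
  rw [dif_pos h]
  rfl

theorem evw_complex {w : InfinitePlace K} (h : w.IsComplex) (x : EE K) : evw w x = x.2 ⟨w, h⟩ := by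
  unfold evw
  rw [dif_neg (InfinitePlace.not_isReal_iff_isComplex.2 h)]
  rfl

theorem evw_cont (w : InfinitePlace K) : Continuous (evw w) := by
  rcases w.isReal_or_isComplex with h | h
  · have e : (evw w : EE K → ℂ) = fun x => ((x.1 ⟨w, h⟩ : ℝ) : ℂ) := funext fun x => evw_real h x
    rw [e]
    exact Complex.continuous_ofReal.comp ((continuous_apply _).comp continuous_fst)
  · have e : (evw w : EE K → ℂ) = fun x => x.2 ⟨w, h⟩ := funext fun x => evw_complex h x
    rw [e]
    exact (continuous_apply _).comp continuous_snd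

theorem evw_ext {x y : EE K} (h : ∀ w, evw w x = evw w y) : x = y := by
  refine Prod.ext (funext fun w => ?_) (funext fun w => ?_)
  · have h1 := h w.1
    rw [evw_real w.2, evw_real w.2] at h1
    exact Complex.ofReal_injective h1
  · have h1 := h w.1
    rw [evw_complex w.2, evw_complex w.2] at h1
    exact h1

/-! ## The components -/

/-- The component of a matrix. -/
def pwG (b : P.Base) (w : InfinitePlace K) : GL (I b) (EE K) →* GL (I b) ℂ := GeneralLinearGroup.map (evw w)

theorem pwG_cont (w : InfinitePlace K) : Continuous fun g : GL (I b) (EE K) => pwG b w g := by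
  rw [Units.continuous_iff]
  exact ⟨Continuous.matrix_map Units.continuous_val (evw_cont w), Continuous.matrix_map (Units.continuous_val.comp continuous_inv) (evw_cont w)⟩

theorem pwG_x (w : InfinitePlace K) (β : ι) (t : EE K) : pwG b w (xG b β t) = xG b β (evw w t) := xG_map b β (evw w) t

theorem pwG_mem (w : InfinitePlace K) {g : GL (I b) (EE K)} (hg : g ∈ GE b K) : pwG b w g ∈ GFs b ℂ := by
  have h0 : GQ b K ≤ (GFs b ℂ).comap ((pwG b w).comp (embGL b K)) := by
    rw [GQ_eq, Subgroup.closure_le]
    have e : ∀ β : ι, ∀ t : K, pwG b w (embGL b K (xG b β t)) = xG b β (evw w (mixedEmbedding K t)) := fun β t => by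
      have e1 : embGL b K (xG b β t) = xG b β (mixedEmbedding K t) := xG_map b β _ t
      rw [e1]
      exact pwG_x w β _
    rintro _ ⟨i, t, rfl | rfl⟩
    · show pwG b w (embGL b K (xG b (i : ι) t)) ∈ GFs b ℂ
      rw [e]
      exact Subgroup.le_topologicalClosure _ (xG_mem b _ _)
    · show pwG b w (embGL b K (xG b (ng P i) t)) ∈ GFs b ℂ
      rw [e]
      exact Subgroup.le_topologicalClosure _ (xG_mem b _ _)
  have h1 : ((GQ b K).map (embGL b K)) ≤ (GFs b ℂ).comap (pwG b w) := by
    rw [Subgroup.map_le_iff_le_comap, Subgroup.comap_comap]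
    exact h0
  have h2 : IsClosed ((fun g : GL (I b) (EE K) => pwG b w g) ⁻¹' (GFs b ℂ : Set (GL (I b) ℂ))) :=
    (Subgroup.isClosed_topologicalClosure _).preimage (pwG_cont w)
  exact closure_minimal (fun g hg => h1 hg) h2 hg

/-- **The component at `w`.** -/
def pw (b : P.Base) (w : InfinitePlace K) : GR b K →* GF b ℂ where
  toFun g := ⟨pwG b w g.1, pwG_mem w g.2⟩
  map_one' := Subtype.ext (map_one _)
  map_mul' g h := Subtype.ext (map_mul _ _ _)

theorem pw_cont (w : InfinitePlace K) : Continuous (pw b w) := ((pwG_cont w).comp continuous_subtype_val).subtype_mk _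

theorem pw_val (w : InfinitePlace K) (g : GR b K) : (pw b w g).1.1 = g.1.1.map (evw w) := rfl

theorem pw_ext {g h : GR b K} (H : ∀ w, pw b w g = pw b w h) : g = h := by
  refine Subtype.ext (Units.ext (Matrix.ext fun r c => evw_ext fun w => ?_))
  have h1 : (pw b w g).1.1 r c = (pw b w h).1.1 r c := by rw [H w]
  exact h1

theorem pw_x (w : InfinitePlace K) (β : ι) (t : EE K) : pw b w (xR b K β t) = gx b ℂ β (evw w t) := Subtype.ext (pwG_x w β t)

theorem pw_n (w : InfinitePlace K) (i : b.support) : pw b w (emb b K (b1m b K i 1)) = gn b ℂ i := by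
  refine Subtype.ext ?_
  show pwG b w (embGL b K (mG b i (1 : Kˣ))) = mG b i (1 : ℂˣ)
  have e1 : ∀ (β : ι) (t : K), pwG b w (embGL b K (xG b β t)) = xG b β (evw w (mixedEmbedding K t)) := fun β t => by
    have e1 : embGL b K (xG b β t) = xG b β (mixedEmbedding K t) := xG_map b β _ t
    rw [e1]
    exact pwG_x w β _
  unfold mG
  rw [map_mul, map_mul, map_mul, map_mul, e1, e1]
  simp only [inv_one, Units.val_one, map_one, map_neg]

theorem pw_nW (w : InfinitePlace K) (L : List b.support) : pw b w (emb b K (nW b K L)) = gnl b ℂ L.reverse := by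
  induction L with
  | nil =>
    show pw b w (emb b K 1) = gnl b ℂ []
    rw [map_one, map_one]
    rfl
  | cons i L ih =>
    show pw b w (emb b K (nW b K L * b1m b K i 1)) = gnl b ℂ (i :: L).reverse
    rw [map_mul, map_mul, ih, pw_n, List.reverse_cons]
    unfold gnl
    rw [List.map_append, List.prod_append]
    simp

variable {H : Subgroup (GK b K)}

/-- **The height at `w` is the Iwasawa projection of the component.** -/
theorem Hw_eq (w : InfinitePlace K) (y : HRt H) : Hw w y = gH b ℂ (pw b w y.1) := rfl

theorem Hw_cont (w : InfinitePlace K) : Continuous fun y : HRt H => Hw w y := by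
  have h1 : Continuous fun y : HRt H => gH b ℂ (pw b w y.1) := gH_cont.comp ((pw_cont w).comp continuous_subtype_val)
  exact h1

theorem Ht_cont : Continuous fun y : HRt H => Ht y := by
  refine continuous_pi fun j => ?_
  unfold Ht
  exact continuous_finset_sum _ fun w _ => continuous_const.mul ((continuous_apply j).comp (Hw_cont w))

theorem al_cont (A : b.support → b.support → ℤ) (k : b.support) : Continuous fun y : b.support → ℝ => al A k y := by
  unfold al
  exact continuous_finset_sum _ fun j _ => continuous_const.mul (continuous_apply j)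

theorem Fe_cont (e : b.support → ℝ) : Continuous fun y : HRt H => Fe e y := by
  unfold Fe
  exact Real.continuous_exp.comp (continuous_finset_sum _ fun k _ => continuous_const.mul ((al_cont (cA b) k).comp Ht_cont))

theorem Fe_pos (e : b.support → ℝ) (y : HRt H) : 0 < Fe e y := Real.exp_pos _

/-! ## The unipotent group -/

/-- `u ∈ U` if and only if all its components are in `U`. -/
theorem mem_UR_iff {g : GR b K} : g ∈ UR b K ↔ ∀ w, pw b w g ∈ gU b ℂ := by
  have e1 : ∀ (w : InfinitePlace K) (r c : I b), evw w ((1 : Matrix (I b) (I b) (EE K)) r c) = (1 : Matrix (I b) (I b) ℂ) r c := fun w r c => by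
    by_cases h : r = c
    · subst h
      rw [Matrix.one_apply_eq, Matrix.one_apply_eq, map_one]
    · rw [Matrix.one_apply_ne h, Matrix.one_apply_ne h, map_zero]
  constructor
  · intro h w r c hrc
    have h1 := (h r c (by omega)).1
    show evw w (g.1.1 r c) = _
    rw [h1, e1]
  · intro h r c hrc
    refine ⟨evw_ext fun w => ?_, evw_ext fun w => ?_⟩
    · have h1 := h w r c (by omega)
      rw [e1]
      exact h1
    · have h1 := inv_mem (h w) r c (by omega)
      rw [e1]
      rw [← map_inv] at h1
      exact h1

theorem Hw_U (w : InfinitePlace K) {u : HRt H} (hu : u ∈ UHR H) (y : HRt H) : Hw w (u * y) = Hw w y := by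
  rw [Hw_eq, Hw_eq]
  have e : pw b w (u * y).1 = pw b w u.1 * pw b w y.1 := map_mul (pw b w) u.1 y.1
  rw [e]
  exact gH_U (mem_UR_iff.1 hu w) _

theorem Fe_U (e : b.support → ℝ) {u : HRt H} (hu : u ∈ UHR H) (y : HRt H) : Fe e (u * y) = Fe e y := by
  have h : Ht (u * y) = Ht y := by
    funext j
    unfold Ht
    refine Finset.sum_congr rfl fun w _ => ?_
    rw [Hw_U w hu]
  unfold Fe
  rw [h]

end

end Pool.Agent.Lib.L8.FL
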