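import Pool.Agent.Lib.L8.FL.C5A

/-!
# FL, module C5, C5B: the rank one formula for the heights (owner: helper33)
-/

namespace Pool.Agent.Lib.L8.FL

set_option linter.unusedSectionVars false

open MeasureTheory Matrix NumberField IsDedekindDomain Pool.Agent.Lib.H89N Pool.Agent.Lib.H33W Pool.Agent.Lib.L1S
open scoped ENNReal

noncomputable section

variable {ι M N : Type} [Fintype ι] [DecidableEq ι] [AddCommGroup M] [Module ℚ M] [AddCommGroup N] [Module ℚ N]
  {P : RootPairing ι ℚ M N} [P.IsCrystallographic] [P.IsReduced] [P.IsIrreducible] [P.IsRootSystem] {b : P.Base}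
  {K : Type} [Field K] [NumberField K]

/-! ## The local group -/

/-- **The Iwasawa projection of `n_i x_i(t) g`.** -/
theorem gH_rk {F : Type} [RCLike F] (i : b.support) (g : GF b F) : ∃ c : F, ∀ t : F, gH b F (gn b F i * gx b F (i : ι) t * g) =
    sr (cA b) i (gH b F g) + (-(1 / 2 : ℝ) * Real.log (1 + ‖(Real.exp (-(al (cA b) i (gH b F g))) : ℝ) • (t + c)‖ ^ 2)) • Pi.single i 1 := by
  obtain ⟨u, hu, k, hk, h⟩ := g_dec g
  obtain ⟨y, hy⟩ : ∃ y, y = gH b F g := ⟨_, rfl⟩
  rw [← hy] at h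
  rw [← hy]
  obtain ⟨c, hc⟩ : ∃ c, c = gc b F i u := ⟨_, rfl⟩
  refine ⟨c, fun t => ?_⟩
  have hi : 0 < b.height (i : ι) := by
    rw [b.height_one_of_mem_support i.2]
    exact one_pos
  have h1 : gx b F (i : ι) t * (u * gx b F (i : ι) (-c)) * gx b F (i : ι) (-t) ∈ gU b F :=
    mul_mem (mul_mem (gx_U hi _) (mul_mem hu (gx_U hi _))) (gx_U hi _)
  have h2 : gc b F i (gx b F (i : ι) t * (u * gx b F (i : ι) (-c)) * gx b F (i : ι) (-t)) = 0 := by
    rw [gc_mul i (mul_mem (gx_U hi _) (mul_mem hu (gx_U hi _))) (gx_U hi _), gc_mul i (gx_U hi _) (mul_mem hu (gx_U hi _)),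
      gc_mul i hu (gx_U hi _), gc_gx, gc_gx, gc_gx, ← hc]
    ring
  have h3 := (gn_U i h1 h2).1
  have h4 : gex b F (-y) * gx b F (i : ι) (t + c) * (gex b F (-y))⁻¹ = gx b F (i : ι) ((Real.exp (al (cA b) i (-y)) : ℝ) • (t + c)) := gx_gex (-y) i (t + c)
  have h5 : al (cA b) i (-y) = -(al (cA b) i y) := by
    unfold al
    rw [← Finset.sum_neg_distrib]
    refine Finset.sum_congr rfl fun k _ => ?_
    rw [Pi.neg_apply]
    ring
  rw [h5, gex_neg, inv_inv] at h4
  have h6 := gn_gex (b := b) (F := F) i y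
  have e : gn b F i * gx b F (i : ι) t * g =
      (gn b F i * (gx b F (i : ι) t * (u * gx b F (i : ι) (-c)) * gx b F (i : ι) (-t)) * (gn b F i)⁻¹) *
        (gex b F (sr (cA b) i y) * (gn b F i * gx b F (i : ι) ((Real.exp (-(al (cA b) i y)) : ℝ) • (t + c)))) * k := by
    rw [← h4, ← h6, h, gx_neg, gx_neg, gx_add]
    group
  rw [e, gH_K hk, gH_U h3, gH_ex, rk_H]

/-! ## The exponents -/

theorem al_add (A : b.support → b.support → ℤ) (k : b.support) (y z : b.support → ℝ) : al A k (y + z) = al A k y + al A k z := by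
  unfold al
  rw [← Finset.sum_add_distrib]
  exact Finset.sum_congr rfl fun j _ => by rw [Pi.add_apply]; ring

theorem al_smul (A : b.support → b.support → ℤ) (k : b.support) (c : ℝ) (y : b.support → ℝ) : al A k (c • y) = c * al A k y := by
  unfold al
  rw [Finset.mul_sum]
  exact Finset.sum_congr rfl fun j _ => by rw [Pi.smul_apply, smul_eq_mul]; ring

theorem al_sum {α : Type} (A : b.support → b.support → ℤ) (k : b.support) (s : Finset α) (m : α → ℝ) (y : α → b.support → ℝ) :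
    al A k (fun j => ∑ w ∈ s, m w * y w j) = ∑ w ∈ s, m w * al A k (y w) := by
  unfold al
  simp only [Finset.mul_sum]
  rw [Finset.sum_comm]
  exact Finset.sum_congr rfl fun w _ => Finset.sum_congr rfl fun j _ => by ring

/-- `∑ e_k α_k(λ α_i^∨) = λ ⟨ρ + μ, α_i^∨⟩`. -/
theorem sum_al_single (e : b.support → ℝ) (i : b.support) (c : ℝ) : ∑ k, e k * al (cA b) k (c • Pi.single i 1) = c * xe b e i := by
  unfold xe
  rw [Finset.mul_sum]
  refine Finset.sum_congr rfl fun k _ => ?_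
  rw [al_smul]
  have h1 : al (cA b) k (Pi.single i 1) = (b.cartanMatrix k i : ℝ) := by
    unfold al
    rw [Finset.sum_eq_single i]
    · rw [Pi.single_eq_same, mul_one]
      rfl
    · intro j _ hj
      rw [Pi.single_eq_of_ne hj, mul_zero]
    · intro h
      exact absurd (Finset.mem_univ i) h
  rw [h1]
  ring

/-- `∑ e_k α_k(s_i y) = ∑ e_k α_k(y) - α_i(y) ⟨ρ + μ, α_i^∨⟩`. -/
theorem sum_al_sr (e : b.support → ℝ) (i : b.support) (y : b.support → ℝ) : ∑ k, e k * al (cA b) k (sr (cA b) i y) = ∑ k, e k * al (cA b) k y - al (cA b) i y * xe b e i := by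
  have h1 : sr (cA b) i y = y + (-(al (cA b) i y)) • Pi.single i 1 := by
    unfold sr
    rw [neg_smul, sub_eq_add_neg]
  have h2 := sum_al_single (b := b) e i (-(al (cA b) i y))
  rw [h1]
  calc ∑ k, e k * al (cA b) k (y + (-(al (cA b) i y)) • Pi.single i 1) = ∑ k, e k * al (cA b) k y + ∑ k, e k * al (cA b) k ((-(al (cA b) i y)) • Pi.single i 1) := by
        rw [← Finset.sum_add_distrib]
        exact Finset.sum_congr rfl fun k _ => by rw [al_add]; ring
    _ = _ := by rw [h2]; ring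

/-- `∑ (se i e)_k α_k(y) = ∑ e_k α_k(y) - μ_i α_i(y)`. -/
theorem sum_al_se (e : b.support → ℝ) (i : b.support) (y : b.support → ℝ) : ∑ k, se b i e k * al (cA b) k y = ∑ k, e k * al (cA b) k y - mu b e i * al (cA b) i y := by
  have h1 : ∀ k, se b i e k * al (cA b) k y = e k * al (cA b) k y - if k = i then mu b e i * al (cA b) i y else 0 := fun k => by
    unfold se
    split_ifs with h
    · subst h
      ring
    · ring
  rw [Finset.sum_congr rfl fun k _ => h1 k, Finset.sum_sub_distrib, Finset.sum_ite_eq' Finset.univ i]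
  simp

variable {H : Subgroup (GK b K)}

theorem al_Ht (k : b.support) (y : HRt H) : al (cA b) k (Ht y) = ∑ w : InfinitePlace K, (w.mult : ℝ) * al (cA b) k (Hw w y) :=
  al_sum (cA b) k Finset.univ (fun w : InfinitePlace K => (w.mult : ℝ)) fun w => Hw w y

/-- `log F_e(y) = ∑_w d_w ∑_k e_k α_k(H_w(y))`. -/
theorem Fe_eq (e : b.support → ℝ) (y : HRt H) : Fe e y = Real.exp (∑ w : InfinitePlace K, (w.mult : ℝ) * ∑ k, e k * al (cA b) k (Hw w y)) := by
  unfold Fe
  congr 1
  have h1 : ∀ k, e k * al (cA b) k (Ht y) = ∑ w : InfinitePlace K, (w.mult : ℝ) * (e k * al (cA b) k (Hw w y)) := fun k => by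
    rw [al_Ht, Finset.mul_sum]
    exact Finset.sum_congr rfl fun w _ => by ring
  rw [Finset.sum_congr rfl fun k _ => h1 k, Finset.sum_comm]
  exact Finset.sum_congr rfl fun w _ => by rw [Finset.mul_sum]

/-! ## The elements of the real group -/

variable (hH : ∀ g : GR b K, g ∈ HRs H)

/-- `x_i(t)`. -/
def xH (i : b.support) (t : EE K) : HRt H := ⟨xR b K (i : ι) t, hH _⟩

/-- `n_i`. -/
def niH (i : b.support) : HRt H := ⟨emb b K (b1m b K i 1), hH _⟩

/-- `n_L`. -/
def nH (L : List b.support) : HRt H := ⟨emb b K (nW b K L), hH _⟩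

theorem nH_cons (i : b.support) (L : List b.support) : nH hH (i :: L) = nH hH L * niH hH i := by
  refine Subtype.ext ?_
  show emb b K (nW b K L * b1m b K i 1) = _
  rw [map_mul]
  rfl

theorem nH_nil : nH hH [] = 1 := Subtype.ext (map_one _)

theorem xH_cont (i : b.support) : Continuous (xH hH i) := (t4_xR_cont b K (i : ι)).subtype_mk _

theorem xH_add (i : b.support) (s t : EE K) : xH hH i (s + t) = xH hH i s * xH hH i t :=
  Subtype.ext (Subtype.ext (xG_add b (i : ι) s t))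

/-- **The value of `F_e` at `n_i x_i(r) y`.** PROOF: `gH_rk` at every place, `Fe_eq`, `sum_al_sr`, `sum_al_single`, `al_Ht`. -/
theorem Fe_rk (e : b.support → ℝ) (i : b.support) (y : HRt H) : ∃ c : InfinitePlace K → ℂ, ∀ r : EE K, Fe e (niH hH i * xH hH i r * y) =
    Fe e y * Real.exp (-(xe b e i) * al (cA b) i (Ht y)) *
      ∏ w : InfinitePlace K, (1 + ‖(Real.exp (-(al (cA b) i (Hw w y))) : ℝ) • (evw w r + c w)‖ ^ 2) ^ (-((w.mult : ℝ) * xe b e i / 2)) := by
  choose c hc using fun w : InfinitePlace K => gH_rk (F := ℂ) i (pw b w y.1)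
  refine ⟨c, fun r => ?_⟩
  have h1 : ∀ w : InfinitePlace K, Hw w (niH hH i * xH hH i r * y) =
      sr (cA b) i (Hw w y) + (-(1 / 2 : ℝ) * Real.log (1 + ‖(Real.exp (-(al (cA b) i (Hw w y))) : ℝ) • (evw w r + c w)‖ ^ 2)) • Pi.single i 1 := fun w => by
    have e1 : pw b w (niH hH i * xH hH i r * y).1 = gn b ℂ i * gx b ℂ (i : ι) (evw w r) * pw b w y.1 := by
      have e2 : (niH hH i * xH hH i r * y).1 = emb b K (b1m b K i 1) * xR b K (i : ι) r * y.1 := rfl
      rw [e2, map_mul, map_mul, pw_n, pw_x]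
    rw [Hw_eq, e1, hc w]
    rfl
  have h2 : ∀ w : InfinitePlace K, ∑ k, e k * al (cA b) k (Hw w (niH hH i * xH hH i r * y)) =
      ∑ k, e k * al (cA b) k (Hw w y) - al (cA b) i (Hw w y) * xe b e i + (-(1 / 2 : ℝ) * Real.log (1 + ‖(Real.exp (-(al (cA b) i (Hw w y))) : ℝ) • (evw w r + c w)‖ ^ 2)) * xe b e i := fun w => by
    rw [h1 w, ← sum_al_sr e i (Hw w y), ← sum_al_single e i, ← Finset.sum_add_distrib]
    exact Finset.sum_congr rfl fun k _ => by rw [al_add]; ring
  rw [Fe_eq, Fe_eq e y, al_Ht, Finset.mul_sum, ← Real.exp_add]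
  have h3 : ∀ w : InfinitePlace K, (1 + ‖(Real.exp (-(al (cA b) i (Hw w y))) : ℝ) • (evw w r + c w)‖ ^ 2) ^ (-((w.mult : ℝ) * xe b e i / 2)) =
      Real.exp (-((w.mult : ℝ) * xe b e i / 2) * Real.log (1 + ‖(Real.exp (-(al (cA b) i (Hw w y))) : ℝ) • (evw w r + c w)‖ ^ 2)) := fun w => by
    rw [Real.rpow_def_of_pos (by positivity), mul_comm]
  rw [Finset.prod_congr rfl fun w _ => h3 w, ← Real.exp_sum, ← Real.exp_add, ← Finset.sum_add_distrib, ← Finset.sum_add_distrib]
  congr 1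
  refine Finset.sum_congr rfl fun w _ => ?_
  rw [h2 w]
  ring

end

end Pool.Agent.Lib.L8.FL
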