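import Pool.Agent.Lib.L8.FL.C5B

/-!
# FL, module C5, C5C: the rank one integral over `K ⊗ ℝ` (owner: helper33)
-/

namespace Pool.Agent.Lib.L8.FL

set_option linter.unusedSectionVars false

open MeasureTheory Matrix NumberField IsDedekindDomain Pool.Agent.Lib.H89N Pool.Agent.Lib.H33W Pool.Agent.Lib.L1S
open scoped ENNReal

noncomputable section

/-! ## One place -/

/-- The integrand at one place. -/
def phiF (F : Type) [RCLike F] (s A : ℝ) (c t : F) : ℝ := (1 + ‖(Real.exp (-A) : ℝ) • (t + c)‖ ^ 2) ^ (-s / 2)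

theorem phiF_pos (F : Type) [RCLike F] (s A : ℝ) (c t : F) : 0 < phiF F s A c t := Real.rpow_pos_of_pos (by positivity) _

theorem phiF_cont (F : Type) [RCLike F] (s A : ℝ) (c : F) : Continuous (phiF F s A c) := by
  unfold phiF
  refine Continuous.rpow_const ?_ fun t => Or.inl (by positivity)
  fun_prop

theorem phiF_int (F : Type) [RCLike F] {s : ℝ} (hs : (Module.finrank ℝ F : ℝ) < s) (A : ℝ) (c : F) : Integrable (phiF F s A c) (volume : Measure F) := by
  have h1 : Integrable (fun x : F => ((1 : ℝ) + ‖x‖ ^ 2) ^ (-s / 2)) volume := integrable_rpow_neg_one_add_norm_sq hs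
  have h2 := (h1.comp_smul (Real.exp_ne_zero (-A))).comp_add_right c
  exact h2

theorem phiF_eq (F : Type) [RCLike F] {s : ℝ} (A : ℝ) (c : F) :
    ∫ t : F, phiF F s A c t = Real.exp ((Module.finrank ℝ F : ℝ) * A) * ∫ t : F, ((1 : ℝ) + ‖t‖ ^ 2) ^ (-s / 2) := by
  have h1 : ∫ t : F, phiF F s A c t = ∫ t : F, ((1 : ℝ) + ‖(Real.exp (-A) : ℝ) • t‖ ^ 2) ^ (-s / 2) :=
    integral_add_right_eq_self (μ := (volume : Measure F)) (fun t : F => ((1 : ℝ) + ‖(Real.exp (-A) : ℝ) • t‖ ^ 2) ^ (-s / 2)) c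
  have h2 := Measure.integral_comp_smul (μ := (volume : Measure F)) (fun t : F => ((1 : ℝ) + ‖t‖ ^ 2) ^ (-s / 2)) (Real.exp (-A))
  rw [h1, h2, smul_eq_mul]
  congr 1
  rw [← Real.exp_nat_mul, ← Real.exp_neg, abs_of_pos (Real.exp_pos _)]
  congr 1
  ring

/-- The constant. -/
def cF (F : Type) [RCLike F] (s : ℝ) : ℝ := ∫ t : F, ((1 : ℝ) + ‖t‖ ^ 2) ^ (-s / 2)

theorem cF_nonneg (F : Type) [RCLike F] (s : ℝ) : 0 ≤ cF F s := integral_nonneg fun t => Real.rpow_nonneg (by positivity) _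

/-! ## All places -/

variable {K : Type} [Field K] [NumberField K]

/-- The integrand is bounded by a product of functions of the coordinates. -/
theorem c5c_le (s : ℝ) (hs : 0 < s) (A : InfinitePlace K → ℝ) (c : InfinitePlace K → ℂ) (r : EE K) :
    ∏ w : InfinitePlace K, (1 + ‖(Real.exp (-(A w)) : ℝ) • (evw w r + c w)‖ ^ 2) ^ (-((w.mult : ℝ) * s / 2)) ≤
      (∏ w : {w : InfinitePlace K // w.IsReal}, phiF ℝ s (A w.1) ((c w.1).re) (r.1 w)) * ∏ w : {w : InfinitePlace K // w.IsComplex}, phiF ℂ (2 * s) (A w.1) (c w.1) (r.2 w) := by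
  rw [InfinitePlace.prod_eq_prod_mul_prod]
  refine mul_le_mul (Finset.prod_le_prod (fun w _ => Real.rpow_nonneg (by positivity) _) fun w _ => ?_) (le_of_eq (Finset.prod_congr rfl fun w _ => ?_)) (Finset.prod_nonneg fun w _ => Real.rpow_nonneg (by positivity) _)
    (Finset.prod_nonneg fun w _ => (phiF_pos _ _ _ _ _).le)
  · have h1 : w.1.mult = 1 := InfinitePlace.mult_isReal w
    unfold phiF
    rw [h1, Nat.cast_one, one_mul, evw_real w.2]
    have e : -(s / 2) = -s / 2 := by ring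
    rw [e]
    refine Real.rpow_le_rpow_of_nonpos (by positivity) ?_ (by linarith)
    have h2 : |(r.1 w + (c w.1).re)| ≤ ‖((r.1 w : ℝ) : ℂ) + c w.1‖ := by
      have h3 := Complex.abs_re_le_norm (((r.1 w : ℝ) : ℂ) + c w.1)
      rwa [Complex.add_re, Complex.ofReal_re] at h3
    rw [norm_smul, norm_smul, mul_pow, mul_pow, Real.norm_eq_abs (r.1 w + _)]
    have h4 : |(r.1 w + (c w.1).re)| ^ 2 ≤ ‖((r.1 w : ℝ) : ℂ) + c w.1‖ ^ 2 := pow_le_pow_left₀ (abs_nonneg _) h2 2
    have h5 : 0 ≤ ‖(Real.exp (-(A w.1)) : ℝ)‖ ^ 2 := by positivity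
    have h6 := mul_le_mul_of_nonneg_left h4 h5
    have e1 : (⟨w.1, w.2⟩ : {w : InfinitePlace K // w.IsReal}) = w := rfl
    rw [e1]
    linarith
  · have h1 : w.1.mult = 2 := InfinitePlace.mult_isComplex w
    unfold phiF
    rw [h1, evw_complex w.2]
    have e1 : (⟨w.1, w.2⟩ : {w : InfinitePlace K // w.IsComplex}) = w := rfl
    have e2 : -(((2 : ℕ) : ℝ) * s / 2) = -(2 * s) / 2 := by push_cast; ring
    rw [e1, e2]

/-- **The rank one integral over `K ⊗ ℝ`.** -/
theorem int_EE (s : ℝ) (hs : 1 < s) : ∃ C : ℝ, 0 < C ∧ ∀ (A : InfinitePlace K → ℝ) (c : InfinitePlace K → ℂ),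
    ∫⁻ r : EE K, ENNReal.ofReal (∏ w : InfinitePlace K, (1 + ‖(Real.exp (-(A w)) : ℝ) • (evw w r + c w)‖ ^ 2) ^ (-((w.mult : ℝ) * s / 2))) ≤
      ENNReal.ofReal (C * Real.exp (∑ w : InfinitePlace K, (w.mult : ℝ) * A w)) := by
  have hr : (Module.finrank ℝ ℝ : ℝ) < s := by
    rw [Module.finrank_self, Nat.cast_one]
    exact hs
  have hc : (Module.finrank ℝ ℂ : ℝ) < 2 * s := by
    rw [Complex.finrank_real_complex]
    push_cast
    linarith
  obtain ⟨C1, hC1⟩ : ∃ C1 : ℝ, C1 = (∏ _w : {w : InfinitePlace K // w.IsReal}, cF ℝ s) * ∏ _w : {w : InfinitePlace K // w.IsComplex}, cF ℂ (2 * s) := ⟨_, rfl⟩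
  have hC10 : 0 ≤ C1 := by
    rw [hC1]
    exact mul_nonneg (Finset.prod_nonneg fun w _ => cF_nonneg _ _) (Finset.prod_nonneg fun w _ => cF_nonneg _ _)
  refine ⟨C1 + 1, by linarith, fun A c => ?_⟩
  have hm1 : Measurable fun x : {w : InfinitePlace K // w.IsReal} → ℝ => ENNReal.ofReal (∏ w, phiF ℝ s (A w.1) ((c w.1).re) (x w)) := by
    refine ENNReal.measurable_ofReal.comp (Continuous.measurable ?_)
    exact continuous_finsetProd _ fun w _ => (phiF_cont ℝ s (A w.1) _).comp (continuous_apply w)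
  have hm2 : Measurable fun x : {w : InfinitePlace K // w.IsComplex} → ℂ => ENNReal.ofReal (∏ w, phiF ℂ (2 * s) (A w.1) (c w.1) (x w)) := by
    refine ENNReal.measurable_ofReal.comp (Continuous.measurable ?_)
    exact continuous_finsetProd _ fun w _ => (phiF_cont ℂ (2 * s) (A w.1) _).comp (continuous_apply w)
  have h1 : ∫⁻ x : {w : InfinitePlace K // w.IsReal} → ℝ, ENNReal.ofReal (∏ w, phiF ℝ s (A w.1) ((c w.1).re) (x w)) =
      ENNReal.ofReal (∏ w : {w : InfinitePlace K // w.IsReal}, (Real.exp (A w.1) * cF ℝ s)) := by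
    rw [← ofReal_integral_eq_lintegral_ofReal]
    · congr 1
      rw [integral_fintype_prod_volume_eq_prod (fun (w : {w : InfinitePlace K // w.IsReal}) (x : ℝ) => phiF ℝ s (A w.1) ((c w.1).re) x)]
      refine Finset.prod_congr rfl fun w _ => ?_
      rw [phiF_eq, Module.finrank_self, Nat.cast_one, one_mul]
      rfl
    · exact Integrable.fintype_prod_dep (f := fun (w : {w : InfinitePlace K // w.IsReal}) (x : ℝ) => phiF ℝ s (A w.1) ((c w.1).re) x) fun w => phiF_int ℝ hr _ _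
    · exact Filter.Eventually.of_forall fun x => Finset.prod_nonneg fun w _ => (phiF_pos _ _ _ _ _).le
  have h2 : ∫⁻ x : {w : InfinitePlace K // w.IsComplex} → ℂ, ENNReal.ofReal (∏ w, phiF ℂ (2 * s) (A w.1) (c w.1) (x w)) =
      ENNReal.ofReal (∏ w : {w : InfinitePlace K // w.IsComplex}, (Real.exp (2 * A w.1) * cF ℂ (2 * s))) := by
    rw [← ofReal_integral_eq_lintegral_ofReal]
    · congr 1
      rw [integral_fintype_prod_volume_eq_prod (fun (w : {w : InfinitePlace K // w.IsComplex}) (x : ℂ) => phiF ℂ (2 * s) (A w.1) (c w.1) x)]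
      refine Finset.prod_congr rfl fun w _ => ?_
      rw [phiF_eq, Complex.finrank_real_complex]
      push_cast
      rfl
    · exact Integrable.fintype_prod_dep (f := fun (w : {w : InfinitePlace K // w.IsComplex}) (x : ℂ) => phiF ℂ (2 * s) (A w.1) (c w.1) x) fun w => phiF_int ℂ hc _ _
    · exact Filter.Eventually.of_forall fun x => Finset.prod_nonneg fun w _ => (phiF_pos _ _ _ _ _).le
  calc ∫⁻ r : EE K, ENNReal.ofReal (∏ w : InfinitePlace K, (1 + ‖(Real.exp (-(A w)) : ℝ) • (evw w r + c w)‖ ^ 2) ^ (-((w.mult : ℝ) * s / 2)))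
      ≤ ∫⁻ r : EE K, ENNReal.ofReal (∏ w : {w : InfinitePlace K // w.IsReal}, phiF ℝ s (A w.1) ((c w.1).re) (r.1 w)) *
          ENNReal.ofReal (∏ w : {w : InfinitePlace K // w.IsComplex}, phiF ℂ (2 * s) (A w.1) (c w.1) (r.2 w)) := by
        refine lintegral_mono fun r => ?_
        rw [← ENNReal.ofReal_mul (Finset.prod_nonneg fun w _ => (phiF_pos _ _ _ _ _).le)]
        exact ENNReal.ofReal_le_ofReal (c5c_le s (by linarith) A c r)
    _ = (∫⁻ x : {w : InfinitePlace K // w.IsReal} → ℝ, ENNReal.ofReal (∏ w, phiF ℝ s (A w.1) ((c w.1).re) (x w))) *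
          ∫⁻ x : {w : InfinitePlace K // w.IsComplex} → ℂ, ENNReal.ofReal (∏ w, phiF ℂ (2 * s) (A w.1) (c w.1) (x w)) :=
        lintegral_prod_mul hm1.aemeasurable hm2.aemeasurable
    _ = ENNReal.ofReal (C1 * Real.exp (∑ w : InfinitePlace K, (w.mult : ℝ) * A w)) := by
        rw [h1, h2, ← ENNReal.ofReal_mul (Finset.prod_nonneg fun w _ => mul_nonneg (Real.exp_pos _).le (cF_nonneg _ _)), Real.exp_sum, InfinitePlace.prod_eq_prod_mul_prod,
          Finset.prod_mul_distrib, Finset.prod_mul_distrib, hC1]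
        congr 1
        have e1 : ∀ w : {w : InfinitePlace K // w.IsReal}, Real.exp ((w.1.mult : ℝ) * A w.1) = Real.exp (A w.1) := fun w => by
          rw [InfinitePlace.mult_isReal w, Nat.cast_one, one_mul]
        have e2 : ∀ w : {w : InfinitePlace K // w.IsComplex}, Real.exp ((w.1.mult : ℝ) * A w.1) = Real.exp (2 * A w.1) := fun w => by
          rw [InfinitePlace.mult_isComplex w]
          push_cast
          rfl
        rw [Finset.prod_congr rfl fun w _ => e1 w, Finset.prod_congr rfl fun w _ => e2 w]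
        ring
    _ ≤ ENNReal.ofReal ((C1 + 1) * Real.exp (∑ w : InfinitePlace K, (w.mult : ℝ) * A w)) := by
        refine ENNReal.ofReal_le_ofReal (mul_le_mul_of_nonneg_right (by linarith) (Real.exp_pos _).le)

end

end Pool.Agent.Lib.L8.FL
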