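import Pool.Agent.Lib.L8.FL.C5C
import Pool.Agent.Lib.L8.StmV
import Pool.Agent.Lib.L8.BRH

/-!
# FL, module C5, C5D: the subgroups `U^i`, `U_i`, `U_w` of the real group (owner: helper33)
-/

namespace Pool.Agent.Lib.L8.FL

set_option linter.unusedSectionVars false

open MeasureTheory Matrix NumberField IsDedekindDomain Pool.Agent.Lib.H89N Pool.Agent.Lib.H33W Pool.Agent.Lib.L1S
open scoped ENNReal

noncomputable section

variable {ι M N : Type} [Fintype ι] [DecidableEq ι] [AddCommGroup M] [Module ℚ M] [AddCommGroup N] [Module ℚ N]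
  {P : RootPairing ι ℚ M N} [P.IsCrystallographic] [P.IsReduced] [P.IsIrreducible] [P.IsRootSystem] {b : P.Base}
  {K : Type} [Field K] [NumberField K] {H : Subgroup (GK b K)}

/-- The component of an element of the real group. -/
def pH (H : Subgroup (GK b K)) (w : InfinitePlace K) : HRt H →* GF b ℂ where
  toFun g := pw b w g.1
  map_one' := map_one _
  map_mul' g h := map_mul (pw b w) g.1 h.1

theorem pH_cont (w : InfinitePlace K) : Continuous (pH H w) := (pw_cont w).comp continuous_subtype_val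

theorem pH_ext {g h : HRt H} (e : ∀ w, pH H w g = pH H w h) : g = h := Subtype.ext (pw_ext e)

theorem mem_UHR_iff {u : HRt H} : u ∈ UHR H ↔ ∀ w, pH H w u ∈ gU b ℂ := mem_UR_iff

/-- The opposite unipotent group. -/
def VH (H : Subgroup (GK b K)) : Subgroup (HRt H) := ⨅ w, (gV b ℂ).comap (pH H w)

theorem mem_VH_iff {g : HRt H} : g ∈ VH H ↔ ∀ w, pH H w g ∈ gV b ℂ := by
  unfold VH
  simp only [Subgroup.mem_iInf, Subgroup.mem_comap]

theorem VH_closed : IsClosed (VH H : Set (HRt H)) := by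
  have e : (VH H : Set (HRt H)) = ⋂ w, (pH H w) ⁻¹' (gV b ℂ : Set (GF b ℂ)) := by
    ext g
    simp only [Set.mem_iInter, Set.mem_preimage, SetLike.mem_coe]
    exact mem_VH_iff
  rw [e]
  exact isClosed_iInter fun w => gV_closed.preimage (pH_cont w)

/-- The coordinate of the simple root `α_i`. -/
def cH (i : b.support) (g : HRt H) : EE K := g.1.1.1 (Sum.inl i) (Sum.inr (ng P i))

theorem cH_cont (i : b.support) : Continuous (cH (H := H) i) := (cont_entry b K _ _).comp continuous_subtype_val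

theorem evw_cH (w : InfinitePlace K) (i : b.support) (g : HRt H) : evw w (cH i g) = gc b ℂ i (pH H w g) := rfl

theorem cH_mul (i : b.support) {u u' : HRt H} (hu : u ∈ UHR H) (hu' : u' ∈ UHR H) : cH i (u * u') = cH i u + cH i u' :=
  evw_ext fun w => by
    rw [map_add, evw_cH, evw_cH, evw_cH, map_mul]
    exact gc_mul i (mem_UHR_iff.1 hu w) (mem_UHR_iff.1 hu' w)

/-- `U^i`. -/
def UcH (H : Subgroup (GK b K)) (i : b.support) : Subgroup (HRt H) where
  carrier := {u | u ∈ UHR H ∧ cH i u = 0}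
  mul_mem' := by
    rintro u v ⟨hu, hu'⟩ ⟨hv, hv'⟩
    exact ⟨mul_mem hu hv, by rw [cH_mul i hu hv, hu', hv', add_zero]⟩
  one_mem' := by
    refine ⟨one_mem _, ?_⟩
    have h := cH_mul (H := H) i (one_mem _) (one_mem _)
    rw [one_mul] at h
    exact left_eq_add.1 h
  inv_mem' := by
    rintro u ⟨hu, hu'⟩
    refine ⟨inv_mem hu, ?_⟩
    have h1 := cH_mul (H := H) i (one_mem _) (one_mem _)
    rw [one_mul] at h1
    have h := cH_mul i hu (inv_mem hu)
    rw [mul_inv_cancel, hu', zero_add, left_eq_add.1 h1] at h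
    exact h.symm

theorem mem_UcH {i : b.support} {u : HRt H} : u ∈ UcH H i ↔ u ∈ UHR H ∧ cH i u = 0 := Iff.rfl

theorem UcH_closed (i : b.support) : IsClosed (UcH H i : Set (HRt H)) := by
  have e : (UcH H i : Set (HRt H)) = (UHR H : Set (HRt H)) ∩ {u | cH i u = 0} := rfl
  rw [e]
  exact (UHR_closed H).inter (isClosed_eq (cH_cont i) continuous_const)

theorem mem_UcH_iff {i : b.support} {u : HRt H} : u ∈ UcH H i ↔ ∀ w, pH H w u ∈ (iwG b ℂ).Uc i := by
  constructor
  · rintro ⟨h1, h2⟩ w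
    refine ⟨mem_UHR_iff.1 h1 w, ?_⟩
    show gc b ℂ i (pH H w u) = 0
    rw [← evw_cH, h2, map_zero]
  · intro h
    refine ⟨mem_UHR_iff.2 fun w => (h w).1, evw_ext fun w => ?_⟩
    rw [map_zero]
    exact (h w).2

variable (hH : ∀ g : GR b K, g ∈ HRs H)

theorem pH_xH (w : InfinitePlace K) (i : b.support) (t : EE K) : pH H w (xH hH i t) = gx b ℂ (i : ι) (evw w t) := pw_x w _ t

theorem pH_niH (w : InfinitePlace K) (i : b.support) : pH H w (niH hH i) = gn b ℂ i := pw_n w i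

theorem pH_nH (w : InfinitePlace K) (L : List b.support) : pH H w (nH hH L) = gnl b ℂ L.reverse := pw_nW w L

theorem xH_U (i : b.support) (t : EE K) : xH hH i t ∈ UHR H := mem_UHR_iff.2 fun w => by
  rw [pH_xH]
  exact gx_U (by rw [b.height_one_of_mem_support i.2]; exact one_pos) _

theorem cH_xH (i : b.support) (t : EE K) : cH i (xH hH i t) = t := evw_ext fun w => by
  rw [evw_cH, pH_xH, gc_gx]

theorem xH_zero (i : b.support) : xH hH i 0 = 1 := by
  have h := xH_add hH i 0 0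
  rw [add_zero] at h
  exact left_eq_mul.1 h

theorem xH_neg (i : b.support) (t : EE K) : xH hH i (-t) = (xH hH i t)⁻¹ := by
  rw [eq_inv_iff_mul_eq_one, ← xH_add, neg_add_cancel, xH_zero]

/-- `U_i`. -/
def UiH (i : b.support) : Subgroup (HRt H) where
  carrier := {g | ∃ t, g = xH hH i t}
  mul_mem' := by
    rintro a c ⟨s, rfl⟩ ⟨t, rfl⟩
    exact ⟨s + t, (xH_add hH i s t).symm⟩
  one_mem' := ⟨0, (xH_zero hH i).symm⟩
  inv_mem' := by
    rintro a ⟨s, rfl⟩
    exact ⟨-s, (xH_neg hH i s).symm⟩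

/-- `U_w = {u ∈ U : n_w u n_w⁻¹ ∈ V}` for a word. -/
def UwH (L : List b.support) : Subgroup (HRt H) := UHR H ⊓ (VH H).comap (MulAut.conj (nH hH L)).toMonoidHom

theorem mem_UwH {L : List b.support} {u : HRt H} : u ∈ UwH hH L ↔ u ∈ UHR H ∧ nH hH L * u * (nH hH L)⁻¹ ∈ VH H := Iff.rfl

theorem mem_UwH_iff {L : List b.support} {u : HRt H} : u ∈ UwH hH L ↔ ∀ w, pH H w u ∈ (iwG b ℂ).Uw L.reverse := by
  have e : ∀ w, pH H w (nH hH L * u * (nH hH L)⁻¹) = (iwG b ℂ).nl L.reverse * pH H w u * ((iwG b ℂ).nl L.reverse)⁻¹ := fun w => by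
    rw [map_mul, map_mul, map_inv, pH_nH]
    rfl
  constructor
  · rintro ⟨h1, h2⟩ w
    refine ⟨mem_UHR_iff.1 h1 w, ?_⟩
    rw [← e]
    exact mem_VH_iff.1 h2 w
  · intro h
    refine ⟨mem_UHR_iff.2 fun w => (h w).1, mem_VH_iff.2 fun w => ?_⟩
    show pH H w (nH hH L * u * (nH hH L)⁻¹) ∈ gV b ℂ
    rw [e]
    exact (h w).2

theorem UwH_closed (L : List b.support) : IsClosed (UwH hH L : Set (HRt H)) := by
  have e : (UwH hH L : Set (HRt H)) = (UHR H : Set (HRt H)) ∩ (fun u => nH hH L * u * (nH hH L)⁻¹) ⁻¹' (VH H : Set (HRt H)) := rfl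
  rw [e]
  exact (UHR_closed H).inter (VH_closed.preimage (by fun_prop))

theorem wW_eq (L : List b.support) : wW b L = wL b L.reverse := by
  induction L with
  | nil => rfl
  | cons i L ih =>
    show wW b L * P.reflectionPerm i = _
    rw [ih, List.reverse_cons, wL_append]
    congr 1

theorem pos_iw {L : List b.support} {i : b.support} (h : b.IsPos (wW b L i)) : (iwG b ℂ).Pos L.reverse i := by
  rw [wW_eq] at h
  exact iw_pos.2 h

/-- PROOF: `brh_UwUc` at every place. -/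
theorem UwH_le_UcH {L : List b.support} {i : b.support} (h : b.IsPos (wW b L i)) : UwH hH L ≤ UcH H i := fun _ hu =>
  mem_UcH_iff.2 fun w => brh_UwUc (iwG b ℂ) (pos_iw h) ((mem_UwH_iff hH).1 hu w)

/-- PROOF: `brh_Ui_le` at every place. -/
theorem UiH_le {L : List b.support} {i : b.support} (h : b.IsPos (wW b L i)) : UiH hH i ≤ UwH hH (i :: L) := by
  rintro _ ⟨t, rfl⟩
  refine (mem_UwH_iff hH).2 fun w => ?_
  rw [List.reverse_cons, pH_xH]
  exact brh_Ui_le (iwG b ℂ) (pos_iw h) ⟨evw w t, rfl⟩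

/-- PROOF: `brh_V1` at every place. -/
theorem UwH_V1 {L : List b.support} {i : b.support} (h : b.IsPos (wW b L i)) (x : HRt H) :
    x ∈ UwH hH (i :: L) ⊓ UcH H i ↔ niH hH i * x * (niH hH i)⁻¹ ∈ UwH hH L := by
  have e : ∀ w, pH H w (niH hH i * x * (niH hH i)⁻¹) = (iwG b ℂ).n i * pH H w x * ((iwG b ℂ).n i)⁻¹ := fun w => by
    rw [map_mul, map_mul, map_inv, pH_niH]
    rfl
  rw [Subgroup.mem_inf, mem_UwH_iff, mem_UcH_iff, mem_UwH_iff, ← forall_and]
  refine forall_congr' fun w => ?_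
  rw [e, ← brh_V1 (iwG b ℂ) (pos_iw h), List.reverse_cons]
  exact Iff.rfl

/-- `x_i(t)` normalises `U^i`. -/
theorem xH_UcH (i : b.support) (t : EE K) {v : HRt H} (hv : v ∈ UcH H i) : xH hH i t * v * (xH hH i t)⁻¹ ∈ UcH H i := by
  rw [← xH_neg]
  refine ⟨mul_mem (mul_mem (xH_U hH i t) hv.1) (xH_U hH i _), ?_⟩
  rw [cH_mul i (mul_mem (xH_U hH i t) hv.1) (xH_U hH i _), cH_mul i (xH_U hH i t) hv.1, cH_xH, cH_xH, hv.2, add_zero, add_neg_cancel]

/-- `u x_i(c_i(u))⁻¹ ∈ U^i`. -/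
theorem dec_UcH (i : b.support) {u : HRt H} (hu : u ∈ UHR H) : u * (xH hH i (cH i u))⁻¹ ∈ UcH H i := by
  rw [← xH_neg]
  refine ⟨mul_mem hu (xH_U hH i _), ?_⟩
  rw [cH_mul i hu (xH_U hH i _), cH_xH, add_neg_cancel]

theorem UiH_closed (i : b.support) : IsClosed (UiH hH i : Set (HRt H)) := by
  have e : (UiH hH i : Set (HRt H)) = {u | xH hH i (cH i u) = u} := by
    ext u
    constructor
    · rintro ⟨t, rfl⟩
      show xH hH i (cH i (xH hH i t)) = xH hH i t
      rw [cH_xH]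
    · intro h
      exact ⟨_, Eq.symm h⟩
  rw [e]
  exact isClosed_eq ((xH_cont hH i).comp (cH_cont i)) continuous_id

/-- `U_w = 1` for the empty word. -/
theorem UwH_nil (v : HRt H) : v ∈ UwH hH [] ↔ v = 1 := by
  constructor
  · rintro ⟨h1, h2⟩
    have e : (MulAut.conj (nH hH [])).toMonoidHom v = v := by
      show nH hH [] * v * (nH hH [])⁻¹ = v
      rw [nH_nil, one_mul, inv_one, mul_one]
    have h3 : v ∈ VH H := by
      have h4 : (MulAut.conj (nH hH [])).toMonoidHom v ∈ VH H := h2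
      rwa [e] at h4
    refine pH_ext fun w => ?_
    rw [map_one]
    exact brf_UV (iwG b ℂ) (mem_UHR_iff.1 h1 w) (mem_VH_iff.1 h3 w)
  · rintro rfl
    exact one_mem _

end

end Pool.Agent.Lib.L8.FL
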