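import Pool.Agent.Lib.L8.FL.C5D
import Pool.Agent.Lib.L8.BRB

/-!
# FL, module C5, C5E: the Haar measures of the groups `U_w` and the integral (owner: helper33)
-/

namespace Pool.Agent.Lib.L8.FL

set_option linter.unusedSectionVars false

open MeasureTheory Matrix NumberField IsDedekindDomain Pool.Agent.Lib.H89N Pool.Agent.Lib.H33W Pool.Agent.Lib.L1S
open scoped ENNReal

noncomputable section

variable {ι M N : Type} [Fintype ι] [DecidableEq ι] [AddCommGroup M] [Module ℚ M] [AddCommGroup N] [Module ℚ N]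
  {P : RootPairing ι ℚ M N} [P.IsCrystallographic] [P.IsReduced] [P.IsIrreducible] [P.IsRootSystem] {b : P.Base}
  {K : Type} [Field K] [NumberField K] {H : Subgroup (GK b K)} (hH : ∀ g : GR b K, g ∈ HRs H)

theorem Fe_comp (e : b.support → ℝ) {α : Type} [TopologicalSpace α] {f : α → HRt H} (hf : Continuous f) : Continuous fun x => Fe e (f x) := (Fe_cont e).comp hf

theorem c5e_c1 (g y : HRt H) : Continuous fun x : HRt H => g * x * y := (continuous_const_mul g).mul continuous_const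

theorem c5e_c2 (g n y : HRt H) : Continuous fun p : HRt H × HRt H => g * p.1 * (n * p.2 * y) :=
  (continuous_const.mul continuous_fst).mul ((continuous_const.mul continuous_snd).mul continuous_const)

theorem c5e_c3 (n : HRt H) : Continuous fun p : HRt H × HRt H => n⁻¹ * p.1 * n * p.2 :=
  ((continuous_const.mul continuous_fst).mul continuous_const).mul continuous_snd

/-- The Haar measure of the root group `U_i`. -/
def nuI (i : b.support) : Measure (HRt H) := (volume : Measure (EE K)).map (xH hH i)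

instance nuI_sf (i : b.support) : SFinite (nuI hH i) := by
  unfold nuI
  infer_instance

/-- **The right Haar measure of the root group.** -/
theorem nuI_RH (i : b.support) : RH (UiH hH i) (nuI hH i) := by
  have hx := xH_cont hH i
  refine ⟨?_, fun C hC => ?_, ?_, ?_⟩
  · refine (ae_map_iff hx.measurable.aemeasurable (UiH_closed hH i).measurableSet).2 ?_
    exact Filter.Eventually.of_forall fun t => ⟨t, rfl⟩
  · unfold nuI
    rw [Measure.map_apply hx.measurable hC.isClosed.measurableSet]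
    have h1 : IsCompact ((fun u : HRt H => cH i u) '' C) := hC.image (cH_cont i)
    refine lt_of_le_of_lt (measure_mono ?_) h1.measure_lt_top
    intro t ht
    exact ⟨xH hH i t, ht, cH_xH hH i t⟩
  · unfold nuI
    intro h
    rw [Measure.map_eq_zero_iff hx.measurable.aemeasurable] at h
    have h1 := (isOpen_univ.measure_pos (volume : Measure (EE K)) Set.univ_nonempty).ne'
    rw [h] at h1
    exact h1 rfl
  · rintro _ ⟨s, rfl⟩
    unfold nuI
    rw [Measure.map_map (by fun_prop) hx.measurable]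
    have e : ((fun x => x * xH hH i s) ∘ xH hH i) = xH hH i ∘ (fun t => t + s) := by
      funext t
      exact (xH_add hH i t s).symm
    rw [e, ← Measure.map_map hx.measurable (measurable_add_const s), map_add_right_eq_self]

/-- The measure `μ_L`: the law of `n_i⁻¹ u n_i x_i(r)`. -/
def muW : List b.support → Measure (HRt H)
  | [] => Measure.dirac 1
  | i :: L => ((muW L).prod (nuI hH i)).map fun p => (niH hH i)⁻¹ * p.1 * niH hH i * p.2

instance muW_sf : ∀ L : List b.support, SFinite (muW hH L)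
  | [] => by
    unfold muW
    infer_instance
  | i :: L => by
    have := muW_sf L
    unfold muW
    infer_instance

/-- **The chain of right Haar measures** (as `brk_RH`). -/
theorem muW_RH {L : List b.support} (h : RedW b L) : RH (UwH hH L) (muW hH L) := by
  induction L with
  | nil =>
    have h0 : muW hH [] = Measure.dirac 1 := rfl
    rw [h0]
    refine ⟨?_, fun C _ => ?_, ?_, fun v hv => ?_⟩
    · exact (ae_dirac_iff (a := (1 : HRt H)) (p := fun x => x ∈ UwH hH []) (UwH_closed hH []).measurableSet).2 (Subgroup.one_mem _)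
    · exact measure_lt_top _ _
    · intro h1
      have h2 := congrArg (fun m : Measure (HRt H) => m Set.univ) h1
      rw [Measure.coe_zero, Pi.zero_apply, measure_univ] at h2
      exact one_ne_zero h2
    · rw [(UwH_nil hH v).1 hv]
      have e : (fun x : HRt H => x * 1) = id := funext fun x => mul_one x
      rw [e, Measure.map_id]
  | cons i L ih =>
    obtain ⟨hi, hl⟩ := h
    have h1 := ih hl
    have hcl := UwH_closed hH (i :: L)
    have h2 : RH (UwH hH (i :: L) ⊓ UcH H i) ((muW hH L).map fun x => (niH hH i)⁻¹ * x * (niH hH i)⁻¹⁻¹) := by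
      refine rh_conj ((niH hH i)⁻¹) (fun x => ?_) h1
      rw [UwH_V1 hH hi x, inv_inv]
    have hsub : UwH hH (i :: L) ≤ UHR H := fun u hu => hu.1
    have hUi := UiH_le hH hi
    have h3 := rh_prod (V := UwH hH (i :: L)) (V1 := UwH hH (i :: L) ⊓ UcH H i) (V2 := UiH hH i)
      hcl inf_le_left hUi (fun v hv => by
        refine ⟨v * (xH hH i (cH i v))⁻¹, ⟨?_, dec_UcH hH i (hsub hv)⟩, xH hH i (cH i v), ⟨_, rfl⟩, by group⟩
        exact Subgroup.mul_mem _ hv (Subgroup.inv_mem _ (hUi ⟨_, rfl⟩)))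
      (fun g hg a ha => by
        refine ⟨Subgroup.mul_mem _ (Subgroup.mul_mem _ (hUi hg) ha.1) (Subgroup.inv_mem _ (hUi hg)), ?_⟩
        obtain ⟨t, rfl⟩ := hg
        exact xH_UcH hH i t ha.2)
      (π := fun u => xH hH i (cH i u)) ((xH_cont hH i).comp (cH_cont i)).continuousOn
      (fun a ha g hg => by
        obtain ⟨t, rfl⟩ := hg
        show xH hH i (cH i (a * xH hH i t)) = xH hH i t
        rw [cH_mul i ha.2.1 (xH_U hH i t), cH_xH, ha.2.2, zero_add])
      h2 (nuI_RH hH i)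
    have hμ : muW hH (i :: L) = ((muW hH L).prod (nuI hH i)).map fun p => (niH hH i)⁻¹ * p.1 * niH hH i * p.2 := rfl
    have hm1 : Measurable fun x : HRt H => (niH hH i)⁻¹ * x * (niH hH i)⁻¹⁻¹ := by fun_prop
    have e1 : ((muW hH L).map fun x => (niH hH i)⁻¹ * x * (niH hH i)⁻¹⁻¹).prod (nuI hH i) =
        ((muW hH L).prod (nuI hH i)).map (Prod.map (fun x => (niH hH i)⁻¹ * x * (niH hH i)⁻¹⁻¹) id) := by
      rw [← Measure.map_prod_map _ _ hm1 measurable_id, Measure.map_id]
    rw [e1, Measure.map_map (by fun_prop) (hm1.prodMap measurable_id)] at h3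
    rw [hμ]
    have e2 : ((fun p : HRt H × HRt H => p.1 * p.2) ∘ Prod.map (fun x => (niH hH i)⁻¹ * x * (niH hH i)⁻¹⁻¹) id) =
        fun p : HRt H × HRt H => (niH hH i)⁻¹ * p.1 * niH hH i * p.2 := by
      funext p
      show (niH hH i)⁻¹ * p.1 * (niH hH i)⁻¹⁻¹ * p.2 = _
      rw [inv_inv]
    rwa [e2] at h3

/-- **The rank one step.** PROOF: `Fe_rk`, `int_EE` with `s = ⟨ρ + μ, α_i^∨⟩ = 1 + μ_i`, `sum_al_se`, `al_Ht`. -/
theorem step_rk (e : b.support → ℝ) (i : b.support) (he : 0 < mu b e i) : ∃ C : ℝ, 0 < C ∧ ∀ y : HRt H,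
    ∫⁻ x, ENNReal.ofReal (Fe e (niH hH i * x * y)) ∂(nuI hH i) ≤ ENNReal.ofReal (C * Fe (se b i e) y) := by
  have hs : 1 < xe b e i := by
    unfold mu at he
    linarith
  obtain ⟨C, hC, h⟩ := int_EE (K := K) (xe b e i) hs
  refine ⟨C, hC, fun y => ?_⟩
  obtain ⟨c, hc⟩ := Fe_rk hH e i y
  have hx := xH_cont hH i
  have hF : Continuous fun x : HRt H => Fe e (niH hH i * x * y) := Fe_comp e (c5e_c1 _ _)
  have hFm : Measurable fun x : HRt H => ENNReal.ofReal (Fe e (niH hH i * x * y)) := ENNReal.measurable_ofReal.comp hF.measurable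
  unfold nuI
  rw [lintegral_map hFm hx.measurable]
  obtain ⟨D, hD⟩ : ∃ D, D = Fe e y * Real.exp (-(xe b e i) * al (cA b) i (Ht y)) := ⟨_, rfl⟩
  have hD0 : 0 ≤ D := by
    rw [hD]
    exact mul_nonneg (Fe_pos e y).le (Real.exp_pos _).le
  have h1 : ∀ r : EE K, ENNReal.ofReal (Fe e (niH hH i * xH hH i r * y)) = ENNReal.ofReal D *
      ENNReal.ofReal (∏ w : InfinitePlace K, (1 + ‖(Real.exp (-(al (cA b) i (Hw w y))) : ℝ) • (evw w r + c w)‖ ^ 2) ^ (-((w.mult : ℝ) * xe b e i / 2))) := fun r => by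
    rw [hc r, ← hD, ENNReal.ofReal_mul hD0]
  rw [lintegral_congr h1, lintegral_const_mul' _ _ ENNReal.ofReal_ne_top]
  refine (mul_le_mul' le_rfl (h (fun w => al (cA b) i (Hw w y)) c)).trans (le_of_eq ?_)
  rw [← ENNReal.ofReal_mul hD0, ← al_Ht, hD]
  congr 1
  have h2 : Fe (se b i e) y = Fe e y * Real.exp (-(mu b e i) * al (cA b) i (Ht y)) := by
    unfold Fe
    rw [sum_al_se, ← Real.exp_add]
    congr 1
    ring
  rw [h2]
  have h3 : Real.exp (-(xe b e i) * al (cA b) i (Ht y)) * Real.exp (al (cA b) i (Ht y)) = Real.exp (-(mu b e i) * al (cA b) i (Ht y)) := by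
    rw [← Real.exp_add]
    congr 1
    unfold mu
    ring
  rw [← h3]
  ring

/-- **The integral over `U_w`** for the measure `μ_L`. -/
theorem int_muW {κ : ℝ} (hκ : 0 < κ) (e : b.support → ℝ) : ∀ L : List b.support, PosW b κ e L → ∃ C : ℝ, 0 < C ∧ ∀ y : HRt H,
    ∫⁻ u, ENNReal.ofReal (Fe e (nH hH L * u * y)) ∂(muW hH L) ≤ ENNReal.ofReal (C * Fe (eW b e L) y)
  | [] => fun _ => by
    refine ⟨1, one_pos, fun y => ?_⟩
    have hF : Continuous fun u : HRt H => Fe e (nH hH [] * u * y) := Fe_comp e (c5e_c1 _ _)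
    have hFm : Measurable fun u : HRt H => ENNReal.ofReal (Fe e (nH hH [] * u * y)) := ENNReal.measurable_ofReal.comp hF.measurable
    show ∫⁻ u, ENNReal.ofReal (Fe e (nH hH [] * u * y)) ∂(Measure.dirac 1) ≤ _
    rw [lintegral_dirac' _ hFm, nH_nil, one_mul, one_mul, one_mul]
    exact le_rfl
  | i :: L => fun hP => by
    obtain ⟨hi, hL⟩ := hP
    obtain ⟨C1, hC1, h1⟩ := int_muW hκ e L hL
    obtain ⟨C2, hC2, h2⟩ := step_rk hH (eW b e L) i (lt_of_lt_of_le hκ hi)
    refine ⟨C1 * C2, mul_pos hC1 hC2, fun y => ?_⟩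
    have hF : Continuous fun u : HRt H => Fe e (nH hH (i :: L) * u * y) := Fe_comp e (c5e_c1 _ _)
    have hF2 : Continuous fun p : HRt H × HRt H => Fe e (nH hH L * p.1 * (niH hH i * p.2 * y)) := Fe_comp e (c5e_c2 _ _ _)
    have hΦ : Continuous fun p : HRt H × HRt H => (niH hH i)⁻¹ * p.1 * niH hH i * p.2 := c5e_c3 _
    have hFm : Measurable fun u : HRt H => ENNReal.ofReal (Fe e (nH hH (i :: L) * u * y)) := ENNReal.measurable_ofReal.comp hF.measurable
    have hFm2 : Measurable fun p : HRt H × HRt H => ENNReal.ofReal (Fe e (nH hH L * p.1 * (niH hH i * p.2 * y))) := ENNReal.measurable_ofReal.comp hF2.measurable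
    show ∫⁻ u, ENNReal.ofReal (Fe e (nH hH (i :: L) * u * y)) ∂(((muW hH L).prod (nuI hH i)).map fun p => (niH hH i)⁻¹ * p.1 * niH hH i * p.2) ≤ _
    rw [lintegral_map hFm hΦ.measurable]
    have e1 : ∀ p : HRt H × HRt H, ENNReal.ofReal (Fe e (nH hH (i :: L) * ((niH hH i)⁻¹ * p.1 * niH hH i * p.2) * y)) = ENNReal.ofReal (Fe e (nH hH L * p.1 * (niH hH i * p.2 * y))) := fun p => by
      have e2 : nH hH (i :: L) * ((niH hH i)⁻¹ * p.1 * niH hH i * p.2) * y = nH hH L * p.1 * (niH hH i * p.2 * y) := by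
        rw [nH_cons]
        group
      rw [e2]
    rw [lintegral_congr e1, lintegral_prod_symm _ hFm2.aemeasurable]
    calc ∫⁻ x, ∫⁻ u, ENNReal.ofReal (Fe e (nH hH L * u * (niH hH i * x * y))) ∂(muW hH L) ∂(nuI hH i)
        ≤ ∫⁻ x, ENNReal.ofReal C1 * ENNReal.ofReal (Fe (eW b e L) (niH hH i * x * y)) ∂(nuI hH i) := by
          refine lintegral_mono fun x => ?_
          rw [← ENNReal.ofReal_mul hC1.le]
          exact h1 _
      _ = ENNReal.ofReal C1 * ∫⁻ x, ENNReal.ofReal (Fe (eW b e L) (niH hH i * x * y)) ∂(nuI hH i) := lintegral_const_mul' _ _ ENNReal.ofReal_ne_top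
      _ ≤ ENNReal.ofReal C1 * ENNReal.ofReal (C2 * Fe (se b i (eW b e L)) y) := mul_le_mul' le_rfl (h2 y)
      _ = ENNReal.ofReal (C1 * C2 * Fe (eW b e (i :: L)) y) := by
          rw [← ENNReal.ofReal_mul hC1.le, mul_assoc]
          rfl

/-- **The integral over `U_w`** for every right Haar measure of `U_w`; the constant does not depend on `y`. -/
theorem int_UwH {κ : ℝ} (hκ : 0 < κ) (e : b.support → ℝ) {L : List b.support} (hL : RedW b L) (hP : PosW b κ e L) {ν : Measure (HRt H)} (hν : RH (UwH hH L) ν) :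
    ∃ C : ℝ, 0 < C ∧ ∀ y : HRt H, ∫⁻ u, ENNReal.ofReal (Fe e (nH hH L * u * y)) ∂ν ≤ ENNReal.ofReal (C * Fe (eW b e L) y) := by
  obtain ⟨c, hc0, hc1, hc⟩ := rh_uniq (UwH_closed hH L) hν (muW_RH hH hL)
  obtain ⟨C, hC, h⟩ := int_muW hH hκ e L hP
  refine ⟨c.toReal * C, mul_pos (ENNReal.toReal_pos hc0 hc1) hC, fun y => ?_⟩
  rw [hc, lintegral_smul_measure, smul_eq_mul, mul_assoc, ENNReal.ofReal_mul ENNReal.toReal_nonneg, ENNReal.ofReal_toReal hc1]
  exact mul_le_mul' le_rfl (h y)

end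

end Pool.Agent.Lib.L8.FL
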