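import Pool.Agent.Lib.L8.FL.C5E
import Pool.Agent.Lib.L8.FC.D1

/-!
# FL, module C5, C5F: `N_J = U_w` for `w = w_J` in the real group; the archimedean integral (owner: helper33)
-/

namespace Pool.Agent.Lib.L8.FL

set_option linter.unusedSectionVars false

open MeasureTheory Matrix NumberField IsDedekindDomain Pool.Agent.Lib.H89N Pool.Agent.Lib.H33W Pool.Agent.Lib.L1S
open scoped ENNReal

noncomputable section

variable {ι M N : Type} [Fintype ι] [DecidableEq ι] [AddCommGroup M] [Module ℚ M] [AddCommGroup N] [Module ℚ N]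
  {P : RootPairing ι ℚ M N} [P.IsCrystallographic] [P.IsReduced] [P.IsIrreducible] [P.IsRootSystem] {b : P.Base}

/-! ## The local group -/

theorem c5f_sL (l : List b.support) (x : M) : sL b l.reverse (sL b l x) = x := by
  induction l generalizing x with
  | nil => rfl
  | cons i l ih =>
    have h1 : sL b (i :: l) x = P.reflection i (sL b l x) := rfl
    have h2 : sL b (i :: l).reverse = sL b l.reverse * P.reflection i := by
      rw [List.reverse_cons]
      unfold sL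
      rw [List.map_append, List.prod_append, List.map_singleton, List.prod_singleton]
    rw [h1, h2]
    show sL b l.reverse (P.reflection i (P.reflection i (sL b l x))) = x
    rw [P.reflection_same, ih]

theorem dJ_wq (J : Finset b.support) (r : I b) : ((dJ b J r : ℤ) : ℚ) = ∑ k ∈ J, wq b r k := by
  unfold dJ
  rw [Int.cast_sum]
  exact Finset.sum_congr rfl fun k _ => d5_mc b k r

variable {F : Type} [RCLike F]

/-- **`U_w` raises the degree `J`.** PROOF: let `u r c ≠ 1 r c`, so `ht c < ht r`, `wq c ≤ wq r` (`gU_uni`). If `dJ r ≤ dJ c` then `wq r k = wq c k` for `k ∈ J`. For `v = g u g⁻¹ ∈ V`, `g = gnl l`: `conj_entry'` gives `r'`, `c'` with `v r' c' ≠ 0`, `wt r' = w wt r`, `wt c' = w wt c`, and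
`ht r' - ht c' = ∑_i (wq r i - wq c i) ht(w α_i) > 0` (`ig21b_diff`), but `ht r' ≤ ht c'` by `gV_lo`. -/
theorem c5f_sub {l : List b.support} {J : Finset b.support} (hW : ∀ i : b.support, i ∉ J → 0 < b.height (wL b l (i : ι))) {u : GF b F} (hu : u ∈ gU b F)
    (hv : gnl b F l * u * (gnl b F l)⁻¹ ∈ gV b F) {r c : I b} (hrc : dJ b J r ≤ dJ b J c) : u.1.1 r c = (1 : Matrix (I b) (I b) F) r c := by
  by_contra hne
  rcases gU_uni hu r c with h1 | ⟨h1, h2⟩
  · exact hne h1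
  have hrc' : r ≠ c := by
    rintro rfl
    exact lt_irrefl _ h1
  have h0 : u.1.1 r c ≠ 0 := by
    rwa [Matrix.one_apply_ne hrc'] at hne
  have h3 : (((gnl b F l)⁻¹).1.1 * (gnl b F l * u * (gnl b F l)⁻¹).1.1 * (gnl b F l).1.1) r c ≠ 0 := by
    rw [← ig21b_back]
    exact h0
  obtain ⟨r', c', h4, h5, h6⟩ := conj_entry' l _ h3
  have hJ : ∀ k ∈ J, wq b r k - wq b c k = 0 := by
    have h7 : ∑ k ∈ J, (wq b r k - wq b c k) ≤ 0 := by
      rw [Finset.sum_sub_distrib, ← dJ_wq, ← dJ_wq, sub_nonpos]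
      exact_mod_cast hrc
    have h8 : ∀ k ∈ J, 0 ≤ wq b r k - wq b c k := fun k _ => sub_nonneg.2 (h2 k)
    have h9 := le_antisymm h7 (Finset.sum_nonneg h8)
    exact (Finset.sum_eq_zero_iff_of_nonneg h8).1 h9
  have h7 := ig21b_diff l h4 h5
  have h8 : ∑ i : b.support, (wq b r i - wq b c i) ≤ ∑ i : b.support, (wq b r i - wq b c i) * ((b.height (wL b l (i : ι)) : ℤ) : ℚ) := by
    refine Finset.sum_le_sum fun i _ => ?_
    by_cases hi : i ∈ J
    · rw [hJ i hi, zero_mul]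
    · have h9 : (1 : ℚ) ≤ ((b.height (wL b l (i : ι)) : ℤ) : ℚ) := by
        have h10 := hW i hi
        exact_mod_cast (by omega : (1 : ℤ) ≤ b.height (wL b l (i : ι)))
      exact le_mul_of_one_le_right (sub_nonneg.2 (h2 i)) h9
  have h9 := ig21b_d h1
  have h10 : ((ht b c' : ℤ) : ℚ) < ((ht b r' : ℤ) : ℚ) := by linarith
  have h11 : ht b c' < ht b r' := by exact_mod_cast h10
  rcases gV_lo hv r' c' with h12 | ⟨h12, -⟩
  · rw [h12] at h6
    have h13 : r' = c' := by
      by_contra hne'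
      exact h6 (Matrix.one_apply_ne hne')
    rw [h13] at h11
    exact lt_irrefl _ h11
  · exact lt_asymm h11 h12

/-- **An element of `U` which raises the degree `J` and is mapped to `U` by `w` is trivial.** PROOF: let `u r c ≠ 1 r c`: `wq c ≤ wq r`, `dJ c < dJ r`. `conj_entry'` with `X = g u g⁻¹ - 1`: `r'`, `c'` with `X r' c' ≠ 0`, `wt r' = w wt r`, `wt c' = w wt c`, so `wq c' ≤ wq r'` (`gU_uni`), and
`dJ r - dJ c = ∑_i (wq r' i - wq c' i) dJ(w⁻¹ α_i) ≤ 0` (`wq_sL` for the reversed word). -/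
theorem c5f_one {l : List b.support} {J : Finset b.support} (hW : ∀ i : b.support, dJ b J (Sum.inr (wL b l.reverse (i : ι))) ≤ 0) {u : GF b F} (hu : u ∈ gU b F)
    (huJ : ∀ r c, dJ b J r ≤ dJ b J c → u.1.1 r c = (1 : Matrix (I b) (I b) F) r c) (hv : gnl b F l * u * (gnl b F l)⁻¹ ∈ gU b F) : u = 1 := by
  refine Subtype.ext (Units.ext (Matrix.ext fun r c => ?_))
  show u.1.1 r c = (1 : Matrix (I b) (I b) F) r c
  by_contra hne
  have hd : dJ b J c < dJ b J r := by
    by_contra h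
    exact hne (huJ r c (not_lt.1 h))
  have h3 : (((gnl b F l)⁻¹).1.1 * ((gnl b F l * u * (gnl b F l)⁻¹).1.1 - 1) * (gnl b F l).1.1) r c ≠ 0 := by
    have e1 : ((gnl b F l)⁻¹).1.1 * (gnl b F l).1.1 = 1 := (gnl b F l).1.inv_mul
    have e2 : ((gnl b F l)⁻¹).1.1 * ((gnl b F l * u * (gnl b F l)⁻¹).1.1 - 1) * (gnl b F l).1.1 = u.1.1 - 1 := by
      rw [Matrix.mul_sub, Matrix.sub_mul, Matrix.mul_one, e1, ← ig21b_back]
    rw [e2, Matrix.sub_apply]
    exact sub_ne_zero.2 hne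
  obtain ⟨r', c', h4, h5, h6⟩ := conj_entry' l _ h3
  rw [Matrix.sub_apply] at h6
  have h7 : ∀ k, wq b c' k ≤ wq b r' k := by
    rcases gU_uni hv r' c' with h8 | ⟨-, h8⟩
    · exact absurd (sub_eq_zero.2 h8) h6
    · exact h8
  have h4' : wt b r = sL b l.reverse (wt b r') := by rw [h4, c5f_sL]
  have h5' : wt b c = sL b l.reverse (wt b c') := by rw [h5, c5f_sL]
  have h8 : ((dJ b J r : ℤ) : ℚ) - ((dJ b J c : ℤ) : ℚ) = ∑ i : b.support, (wq b r' i - wq b c' i) * ((dJ b J (Sum.inr (wL b l.reverse (i : ι))) : ℤ) : ℚ) := by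
    rw [dJ_wq, dJ_wq, ← Finset.sum_sub_distrib]
    have e1 : ∀ k ∈ J, wq b r k - wq b c k = ∑ i : b.support, (wq b r' i - wq b c' i) * wq b (Sum.inr (wL b l.reverse (i : ι))) k := fun k _ => by
      rw [wq_sL l.reverse h4' k, wq_sL l.reverse h5' k, ← Finset.sum_sub_distrib]
      exact Finset.sum_congr rfl fun i _ => by ring
    rw [Finset.sum_congr rfl e1, Finset.sum_comm]
    refine Finset.sum_congr rfl fun i _ => ?_
    rw [dJ_wq, Finset.mul_sum]
  have h9 : ((dJ b J r : ℤ) : ℚ) - ((dJ b J c : ℤ) : ℚ) ≤ 0 := by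
    rw [h8]
    refine Finset.sum_nonpos fun i _ => mul_nonpos_of_nonneg_of_nonpos (sub_nonneg.2 (h7 i)) ?_
    exact_mod_cast hW i
  have h10 : ((dJ b J c : ℤ) : ℚ) < ((dJ b J r : ℤ) : ℚ) := by exact_mod_cast hd
  linarith

end

section dec

variable {J F G : Type} [Fintype J] [DecidableEq J] [RCLike F] [Group G] [TopologicalSpace G] [IsTopologicalGroup G] [SecondCountableTopology G] [LocallyCompactSpace G] [T2Space G] [MeasurableSpace G] [BorelSpace G] (I : Iw J F G)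

/-- **`U = (U ∩ w⁻¹ U w) U_w`.** PROOF: induction on the word from the end: `u = v x_i(c)`, `v ∈ U^i`, `n_i v n_i⁻¹ = a₁ a₂` for the shorter word, `a₂ ∈ U_w ⊆ U^i`. -/
theorem c5f_dec {l : List J} (h : I.Red l) {u : G} (hu : u ∈ I.U) : ∃ u₁ ∈ I.U, I.nl l * u₁ * (I.nl l)⁻¹ ∈ I.U ∧ ∃ u₂ ∈ I.Uw l, u = u₁ * u₂ := by
  induction l using List.reverseRecOn generalizing u with
  | nil =>
    refine ⟨u, hu, ?_, 1, one_mem _, (mul_one u).symm⟩
    have e : I.nl [] * u * (I.nl [])⁻¹ = u := by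
      show 1 * u * (1 : G)⁻¹ = u
      group
    rw [e]
    exact hu
  | append_singleton l i ih =>
    obtain ⟨hl, hi⟩ := brh_red_concat I h
    obtain ⟨c, hc⟩ : ∃ c, c = I.c i u := ⟨_, rfl⟩
    have hv : u * (I.x i c)⁻¹ ∈ I.Uc i := by
      rw [hc]
      exact brf_dec I i hu
    have hv' := brf_nc I i hv
    obtain ⟨a₁, h1, h2, a₂, h3, h4⟩ := ih hl hv'.1
    have h5 : a₂ ∈ I.Uc i := brh_UwUc I hi h3
    have h6 : a₁ ∈ I.Uc i := by
      have e : a₁ = I.n i * (u * (I.x i c)⁻¹) * (I.n i)⁻¹ * a₂⁻¹ := by rw [h4]; group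
      rw [e]
      exact mul_mem hv' (inv_mem h5)
    have h7 := brf_nc' I i h6
    have h8 : (I.n i)⁻¹ * a₂ * I.n i ∈ I.Uw (l ++ [i]) := by
      have h9 := (brh_V1 I hi ((I.n i)⁻¹ * a₂ * I.n i)).2 (by
        have e : I.n i * ((I.n i)⁻¹ * a₂ * I.n i) * (I.n i)⁻¹ = a₂ := by group
        rw [e]
        exact h3)
      exact h9.1
    refine ⟨(I.n i)⁻¹ * a₁ * I.n i, h7.1, ?_, (I.n i)⁻¹ * a₂ * I.n i * I.x i c, mul_mem h8 (brh_Ui_le I hi ⟨c, rfl⟩), ?_⟩
    · rw [brh_cj1]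
      have e : I.n i * ((I.n i)⁻¹ * a₁ * I.n i) * (I.n i)⁻¹ = a₁ := by group
      rw [e]
      exact h2
    · have e : (I.n i)⁻¹ * a₁ * I.n i * ((I.n i)⁻¹ * a₂ * I.n i * I.x i c) = (I.n i)⁻¹ * (a₁ * a₂) * I.n i * I.x i c := by group
      rw [e, ← h4]
      group

end dec

section real

noncomputable section

variable {ι M N : Type} [Fintype ι] [DecidableEq ι] [AddCommGroup M] [Module ℚ M] [AddCommGroup N] [Module ℚ N]
  {P : RootPairing ι ℚ M N} [P.IsCrystallographic] [P.IsReduced] [P.IsIrreducible] [P.IsRootSystem] {b : P.Base}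
  {K : Type} [Field K] [NumberField K]

/-- **The unipotent radical `N_J` of the real group**: the elements of `U` which raise the degree `J`. -/
def NoH (H : Subgroup (GK b K)) (J : Finset b.support) : Subgroup (HRt H) where
  carrier := {u | u ∈ UHR H ∧ ∀ r c, dJ b J r ≤ dJ b J c → u.1.1.1 r c = (1 : Matrix (I b) (I b) (EE K)) r c ∧ u⁻¹.1.1.1 r c = (1 : Matrix (I b) (I b) (EE K)) r c}
  one_mem' := ⟨one_mem _, fun r c _ => ⟨rfl, by rw [inv_one]; rfl⟩⟩
  mul_mem' := by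
    rintro g g' ⟨hg0, hg⟩ ⟨hg0', hg'⟩
    have key : ∀ X Y : Matrix (I b) (I b) (EE K), (∀ r c, dJ b J r ≤ dJ b J c → X r c = (1 : Matrix (I b) (I b) (EE K)) r c) →
        (∀ r c, dJ b J r ≤ dJ b J c → Y r c = (1 : Matrix (I b) (I b) (EE K)) r c) → ∀ r c, dJ b J r ≤ dJ b J c → (X * Y) r c = (1 : Matrix (I b) (I b) (EE K)) r c := by
      intro X Y hX hY r c hrc
      rw [Matrix.mul_apply, Finset.sum_eq_single r]
      · rw [hX r r le_rfl, hY r c hrc, Matrix.one_apply_eq, one_mul]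
      · intro k _ hk
        by_cases h1 : dJ b J r ≤ dJ b J k
        · rw [hX r k h1, Matrix.one_apply_ne hk.symm, zero_mul]
        · have h2 : dJ b J k ≤ dJ b J c := (not_le.1 h1).le.trans hrc
          by_cases h3 : k = c
          · subst h3
            exact absurd hrc h1
          · rw [hY k c h2, Matrix.one_apply_ne h3, mul_zero]
      · intro h
        exact absurd (Finset.mem_univ r) h
    refine ⟨mul_mem hg0 hg0', fun r c hrc => ⟨key _ _ (fun r c h => (hg r c h).1) (fun r c h => (hg' r c h).1) r c hrc, ?_⟩⟩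
    have e : (g * g')⁻¹.1.1.1 = g'⁻¹.1.1.1 * g⁻¹.1.1.1 := by
      rw [_root_.mul_inv_rev]
      rfl
    rw [e]
    exact key _ _ (fun r c h => (hg' r c h).2) (fun r c h => (hg r c h).2) r c hrc
  inv_mem' := by
    rintro g ⟨hg0, hg⟩
    refine ⟨inv_mem hg0, fun r c hrc => ⟨(hg r c hrc).2, ?_⟩⟩
    rw [inv_inv]
    exact (hg r c hrc).1

variable {H : Subgroup (GK b K)}

theorem mem_NoH {J : Finset b.support} {u : HRt H} : u ∈ NoH H J ↔ u ∈ UHR H ∧ ∀ r c, dJ b J r ≤ dJ b J c →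
    u.1.1.1 r c = (1 : Matrix (I b) (I b) (EE K)) r c ∧ u⁻¹.1.1.1 r c = (1 : Matrix (I b) (I b) (EE K)) r c := Iff.rfl

/-- In terms of the components. -/
theorem mem_NoH_iff {J : Finset b.support} {u : HRt H} : u ∈ NoH H J ↔ ∀ w, pH H w u ∈ gU b ℂ ∧ ∀ r c, dJ b J r ≤ dJ b J c →
    (pH H w u).1.1 r c = (1 : Matrix (I b) (I b) ℂ) r c ∧ (pH H w u)⁻¹.1.1 r c = (1 : Matrix (I b) (I b) ℂ) r c := by
  have e1 : ∀ (w : InfinitePlace K) (r c : I b), evw w ((1 : Matrix (I b) (I b) (EE K)) r c) = (1 : Matrix (I b) (I b) ℂ) r c := fun w r c => by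
    by_cases h : r = c
    · subst h
      rw [Matrix.one_apply_eq, Matrix.one_apply_eq, map_one]
    · rw [Matrix.one_apply_ne h, Matrix.one_apply_ne h, map_zero]
  have e2 : ∀ w, (pH H w u)⁻¹ = pH H w u⁻¹ := fun w => (map_inv (pH H w) u).symm
  constructor
  · rintro ⟨h1, h2⟩ w
    refine ⟨mem_UHR_iff.1 h1 w, fun r c hrc => ⟨?_, ?_⟩⟩
    · show evw w (u.1.1.1 r c) = _
      rw [(h2 r c hrc).1, e1]
    · rw [e2]
      show evw w (u⁻¹.1.1.1 r c) = _
      rw [(h2 r c hrc).2, e1]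
  · intro h
    refine ⟨mem_UHR_iff.2 fun w => (h w).1, fun r c hrc => ⟨evw_ext fun w => ?_, evw_ext fun w => ?_⟩⟩
    · rw [e1]
      exact ((h w).2 r c hrc).1
    · rw [e1]
      have h1 := ((h w).2 r c hrc).2
      rw [e2] at h1
      exact h1

variable (hH : ∀ g : GR b K, g ∈ HRs H)

theorem c5f_red {L : List b.support} (h : RedW b L) : (iwG b ℂ).Red L.reverse := by
  refine iw_red.2 fun l₁ i l₂ e => ?_
  induction L generalizing l₂ with
  | nil =>
    rw [List.reverse_nil] at e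
    have h1 := congrArg List.length e
    simp at h1
  | cons j L ih =>
    obtain ⟨h1, h2⟩ := h
    rw [List.reverse_cons] at e
    rcases List.eq_nil_or_concat l₂ with rfl | ⟨l₃, k, rfl⟩
    · have h3 := List.append_inj' e rfl
      have h4 : j = i := by
        have h5 := h3.2
        exact (List.cons.inj h5).1
      rw [← h3.1, ← h4, ← wW_eq]
      exact h1
    · have h3 : L.reverse ++ [j] = (l₁ ++ i :: l₃) ++ [k] := by
        rw [e]
        simp
      exact ih h2 l₃ (List.append_inj' h3 rfl).1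

/-- **`N_J = U_w`** in the real group. -/
theorem NoH_eq {J : Finset b.support} {L : List b.support} (hL : RedW b L) (hJ : IsWJ b J (wW b L)) : NoH H J = UwH hH L := by
  have e0 : wW b L = wL b L.reverse := wW_eq L
  have e1 : (wW b L)⁻¹ = wL b L.reverse.reverse := by
    rw [← FC.wW_reverse, wW_eq]
  have hW1 : ∀ i : b.support, i ∉ J → 0 < b.height (wL b L.reverse (i : ι)) := by
    intro i hi
    have h1 := (hJ.2 (i : ι) (b.isPos_of_mem_support i.2)).2 (by rw [FC.dJ_simple, if_neg hi])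
    rw [e0] at h1
    exact h1
  have hW2 : ∀ i : b.support, dJ b J (Sum.inr (wL b L.reverse.reverse (i : ι))) ≤ 0 := by
    intro i
    rw [← e1]
    by_cases hp : b.IsPos ((wW b L)⁻¹ (i : ι))
    · have h1 := (hJ.2 _ hp).1 (by
        have e2 : wW b L ((wW b L)⁻¹ (i : ι)) = (i : ι) := (wW b L).apply_symm_apply _
        rw [e2]
        exact b.isPos_of_mem_support i.2)
      exact h1.le
    · exact Finset.sum_nonpos fun j _ => FC.mc_neg b hp j
  have hsub : ∀ (w : InfinitePlace K) (x : GF b ℂ), x ∈ (iwG b ℂ).Uw L.reverse → x ∈ gU b ℂ ∧ ∀ r c, dJ b J r ≤ dJ b J c →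
      x.1.1 r c = (1 : Matrix (I b) (I b) ℂ) r c ∧ x⁻¹.1.1 r c = (1 : Matrix (I b) (I b) ℂ) r c := fun w x hx => by
    have hx' := inv_mem hx
    exact ⟨hx.1, fun r c hrc => ⟨c5f_sub hW1 hx.1 hx.2 hrc, c5f_sub hW1 hx'.1 hx'.2 hrc⟩⟩
  ext u
  rw [mem_NoH_iff, mem_UwH_iff]
  refine forall_congr' fun w => ⟨?_, fun h => hsub w _ h⟩
  rintro ⟨h1, h2⟩
  obtain ⟨u₁, h3, h4, u₂, h5, h6⟩ := c5f_dec (iwG b ℂ) (c5f_red hL) h1
  have h7 := hsub w u₂ h5
  have key : ∀ X Y : Matrix (I b) (I b) ℂ, (∀ r c, dJ b J r ≤ dJ b J c → X r c = (1 : Matrix (I b) (I b) ℂ) r c) →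
      (∀ r c, dJ b J r ≤ dJ b J c → Y r c = (1 : Matrix (I b) (I b) ℂ) r c) → ∀ r c, dJ b J r ≤ dJ b J c → (X * Y) r c = (1 : Matrix (I b) (I b) ℂ) r c := by
    intro X Y hX hY r c hrc
    rw [Matrix.mul_apply, Finset.sum_eq_single r]
    · rw [hX r r le_rfl, hY r c hrc, Matrix.one_apply_eq, one_mul]
    · intro k _ hk
      by_cases h1 : dJ b J r ≤ dJ b J k
      · rw [hX r k h1, Matrix.one_apply_ne hk.symm, zero_mul]
      · have h2 : dJ b J k ≤ dJ b J c := (not_le.1 h1).le.trans hrc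
        by_cases h3 : k = c
        · subst h3
          exact absurd hrc h1
        · rw [hY k c h2, Matrix.one_apply_ne h3, mul_zero]
    · intro h
      exact absurd (Finset.mem_univ r) h
  have h8 : u₁ = 1 := by
    refine c5f_one (l := L.reverse) hW2 h3 (fun r c hrc => ?_) h4
    have e2 : u₁ = pH H w u * u₂⁻¹ := by
      rw [eq_mul_inv_iff_mul_eq]
      exact h6.symm
    rw [e2]
    exact key _ _ (fun r c h => (h2 r c h).1) (fun r c h => (h7.2 r c h).2) r c hrc
  rw [h6, h8, one_mul]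
  exact h5

theorem NoH_closed (J : Finset b.support) : IsClosed (NoH H J : Set (HRt H)) := by
  have h1 : ∀ r c, Continuous fun g : HRt H => g.1.1.1 r c := fun r c => (cont_entry b K r c).comp continuous_subtype_val
  have e : (NoH H J : Set (HRt H)) = (UHR H : Set (HRt H)) ∩ ⋂ (r : I b) (c : I b) (_ : dJ b J r ≤ dJ b J c),
      {g : HRt H | g.1.1.1 r c = (1 : Matrix (I b) (I b) (EE K)) r c} ∩ {g : HRt H | g⁻¹.1.1.1 r c = (1 : Matrix (I b) (I b) (EE K)) r c} := by
    ext g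
    simp only [Set.mem_inter_iff, Set.mem_iInter]
    exact Iff.rfl
  rw [e]
  refine (UHR_closed H).inter (isClosed_iInter fun r => isClosed_iInter fun c => isClosed_iInter fun _ => ?_)
  exact (isClosed_eq (h1 r c) continuous_const).inter (isClosed_eq ((h1 r c).comp continuous_inv) continuous_const)

/-- `n_L` is the image of `n_L ∈ G(K)`. -/
theorem embH_nW {L : List b.support} {g : H} (hg : (g : GK b K) = nW b K L) : embH H g = nH hH L := by
  refine Subtype.ext ?_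
  show emb b K g.1 = emb b K (nW b K L)
  rw [hg]

/-- **The archimedean integral (C5).** For a right Haar measure `ν` of `N_J` (as a measure on the real group): `∫ F_e(n_w u y) dν(u) ≤ C F_(w⁻¹ e)(y)`. -/
theorem arch_int {κ : ℝ} (hκ : 0 < κ) (e : b.support → ℝ) {J : Finset b.support} {L : List b.support} (hL : RedW b L) (hP : PosW b κ e L) (hJ : IsWJ b J (wW b L))
    {ν : Measure (HRt H)} (hν : RH (NoH H J) ν) :
    ∃ C : ℝ, 0 < C ∧ ∀ y : HRt H, ∫⁻ u, ENNReal.ofReal (Fe e (nH hH L * u * y)) ∂ν ≤ ENNReal.ofReal (C * Fe (eW b e L) y) := by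
  rw [NoH_eq hH hL hJ] at hν
  exact int_UwH hH hκ e hL hP hν

end

end real

end Pool.Agent.Lib.L8.FL
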