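import Pool.Agent.Lib.L8.FL.C5F

/-!
# FL, module C5, C5G: the projection `U → U_M` of the real group (owner: helper33)
-/

namespace Pool.Agent.Lib.L8.FL

set_option linter.unusedSectionVars false

open MeasureTheory Matrix NumberField IsDedekindDomain Pool.Agent.Lib.H89N Pool.Agent.Lib.H33W Pool.Agent.Lib.L1S
open scoped ENNReal

noncomputable section

variable {ι M N : Type} [Fintype ι] [DecidableEq ι] [AddCommGroup M] [Module ℚ M] [AddCommGroup N] [Module ℚ N]
  {P : RootPairing ι ℚ M N} [P.IsCrystallographic] [P.IsReduced] [P.IsIrreducible] [P.IsRootSystem] {b : P.Base}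
  {K : Type} [Field K] [NumberField K] {H : Subgroup (GK b K)}

/-! ## The degree zero part -/

section deg

variable {n R : Type} [Fintype n] [DecidableEq n] [CommRing R]

/-- The part of degree zero. -/
def dg0 (d : n → ℤ) (X : Matrix n n R) : Matrix n n R := Matrix.of fun r c => if d r = d c then X r c else 0

/-- `X` does not lower the degree. -/
def Up (d : n → ℤ) (X : Matrix n n R) : Prop := ∀ r c, d r < d c → X r c = 0

theorem dg0_mul (d : n → ℤ) {X Y : Matrix n n R} (hX : Up d X) (hY : Up d Y) : dg0 d (X * Y) = dg0 d X * dg0 d Y := by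
  ext r c
  rw [Matrix.mul_apply]
  show (if d r = d c then (X * Y) r c else 0) = ∑ k, (if d r = d k then X r k else 0) * (if d k = d c then Y k c else 0)
  by_cases h : d r = d c
  · rw [if_pos h, Matrix.mul_apply]
    refine Finset.sum_congr rfl fun k _ => ?_
    by_cases h1 : d r = d k
    · rw [if_pos h1, if_pos (by rw [← h1, h])]
    · rw [if_neg h1, zero_mul]
      rcases lt_or_gt_of_ne h1 with h2 | h2
      · rw [hX r k h2, zero_mul]
      · rw [hY k c (by rw [← h]; exact h2), mul_zero]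
  · rw [if_neg h]
    symm
    refine Finset.sum_eq_zero fun k _ => ?_
    by_cases h1 : d r = d k
    · have h2 : ¬d k = d c := by
        rw [← h1]
        exact h
      rw [if_neg h2, mul_zero]
    · rw [if_neg h1, zero_mul]

theorem dg0_one (d : n → ℤ) : dg0 d (1 : Matrix n n R) = 1 := by
  ext r c
  show (if d r = d c then (1 : Matrix n n R) r c else 0) = _
  by_cases h : r = c
  · rw [h, if_pos rfl]
  · rw [Matrix.one_apply_ne h, ite_self]

theorem dg0_dg0 (d : n → ℤ) (X : Matrix n n R) : dg0 d (dg0 d X) = dg0 d X := by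
  ext r c
  show (if d r = d c then (if d r = d c then X r c else 0) else 0) = if d r = d c then X r c else 0
  split_ifs <;> rfl

end deg

/-! ## The local group -/

/-- An element of `U` which is mapped to `U` by `w` has degree zero. PROOF: as `c5f_one`. -/
theorem c5g_deg {F : Type} [RCLike F] {l : List b.support} {J : Finset b.support} (hW : ∀ i : b.support, dJ b J (Sum.inr (wL b l.reverse (i : ι))) ≤ 0) {u : GF b F} (hu : u ∈ gU b F)
    (hv : gnl b F l * u * (gnl b F l)⁻¹ ∈ gU b F) {r c : I b} (hrc : dJ b J r ≠ dJ b J c) : u.1.1 r c = 0 := by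
  by_contra hne0
  have hrc' : r ≠ c := by
    rintro rfl
    exact hrc rfl
  have hne : u.1.1 r c ≠ (1 : Matrix (I b) (I b) F) r c := by
    rwa [Matrix.one_apply_ne hrc']
  have h2 : ∀ k, wq b c k ≤ wq b r k := by
    rcases gU_uni hu r c with h1 | ⟨-, h2⟩
    · exact absurd h1 hne
    · exact h2
  have h3 : (((gnl b F l)⁻¹).1.1 * ((gnl b F l * u * (gnl b F l)⁻¹).1.1 - 1) * (gnl b F l).1.1) r c ≠ 0 := by
    have e1 : ((gnl b F l)⁻¹).1.1 * (gnl b F l).1.1 = 1 := (gnl b F l).1.inv_mul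
    have e2 : ((gnl b F l)⁻¹).1.1 * ((gnl b F l * u * (gnl b F l)⁻¹).1.1 - 1) * (gnl b F l).1.1 = u.1.1 - 1 := by
      rw [Matrix.mul_sub, Matrix.sub_mul, Matrix.mul_one, e1, ← ig21b_back]
    rw [e2, Matrix.sub_apply]
    exact sub_ne_zero.2 hne
  obtain ⟨r', c', h4, h5, h6⟩ := conj_entry' l _ h3
  rw [Matrix.sub_apply] at h6
  have h7 : ∀ k, wq b c' k ≤ wq b r' k := by
    rcases gU_uni hv r' c' with h8 | ⟨-, h8⟩
    · exact absurd (sub_eq_zero.2 h8) h6
    · exact h8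
  have h4' : wt b r = sL b l.reverse (wt b r') := by rw [h4, c5f_sL]
  have h5' : wt b c = sL b l.reverse (wt b c') := by rw [h5, c5f_sL]
  have h8 : ((dJ b J r : ℤ) : ℚ) - ((dJ b J c : ℤ) : ℚ) = ∑ i : b.support, (wq b r' i - wq b c' i) * ((dJ b J (Sum.inr (wL b l.reverse (i : ι))) : ℤ) : ℚ) := by
    rw [dJ_wq, dJ_wq, ← Finset.sum_sub_distrib]
    have e1 : ∀ k ∈ J, wq b r k - wq b c k = ∑ i : b.support, (wq b r' i - wq b c' i) * wq b (Sum.inr (wL b l.reverse (i : ι))) k := fun k _ => by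
      rw [wq_sL l.reverse h4' k, wq_sL l.reverse h5' k, ← Finset.sum_sub_distrib]
      exact Finset.sum_congr rfl fun i _ => by ring
    rw [Finset.sum_congr rfl e1, Finset.sum_comm]
    refine Finset.sum_congr rfl fun i _ => ?_
    rw [dJ_wq, Finset.mul_sum]
  have h9 : ((dJ b J r : ℤ) : ℚ) - ((dJ b J c : ℤ) : ℚ) ≤ 0 := by
    rw [h8]
    refine Finset.sum_nonpos fun i _ => mul_nonpos_of_nonneg_of_nonpos (sub_nonneg.2 (h7 i)) ?_
    exact_mod_cast hW i
  have h10 : 0 ≤ ((dJ b J r : ℤ) : ℚ) - ((dJ b J c : ℤ) : ℚ) := by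
    rw [dJ_wq, dJ_wq, ← Finset.sum_sub_distrib]
    exact Finset.sum_nonneg fun k _ => sub_nonneg.2 (h2 k)
  have h11 : ((dJ b J r : ℤ) : ℚ) = ((dJ b J c : ℤ) : ℚ) := by linarith
  exact hrc (by exact_mod_cast h11)

/-- Elements of `U` do not lower the degree. -/
theorem up_gU {F : Type} [RCLike F] (J : Finset b.support) {u : GF b F} (hu : u ∈ gU b F) : Up (dJ b J) u.1.1 := by
  intro r c hrc
  have hrc' : r ≠ c := by
    rintro rfl
    exact lt_irrefl _ hrc
  rcases gU_uni hu r c with h1 | ⟨-, h2⟩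
  · rw [h1, Matrix.one_apply_ne hrc']
  · have h3 : ((dJ b J c : ℤ) : ℚ) ≤ ((dJ b J r : ℤ) : ℚ) := by
      rw [dJ_wq, dJ_wq]
      exact Finset.sum_le_sum fun k _ => h2 k
    have h4 : dJ b J c ≤ dJ b J r := by exact_mod_cast h3
    exact absurd hrc (not_lt.2 h4)

/-! ## The real group -/

theorem up_UHR (J : Finset b.support) {u : HRt H} (hu : u ∈ UHR H) : Up (dJ b J) u.1.1.1 := by
  intro r c hrc
  refine evw_ext fun w => ?_
  rw [map_zero]
  exact up_gU J (mem_UHR_iff.1 hu w) r c hrc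

variable (hH : ∀ g : GR b K, g ∈ HRs H)

theorem c5g_nc (i : b.support) {v : HRt H} (hv : v ∈ UcH H i) : niH hH i * v * (niH hH i)⁻¹ ∈ UcH H i :=
  mem_UcH_iff.2 fun w => by
    rw [map_mul, map_mul, map_inv, pH_niH]
    exact brf_nc (iwG b ℂ) i (mem_UcH_iff.1 hv w)

theorem c5g_nc' (i : b.support) {v : HRt H} (hv : v ∈ UcH H i) : (niH hH i)⁻¹ * v * niH hH i ∈ UcH H i :=
  mem_UcH_iff.2 fun w => by
    rw [map_mul, map_mul, map_inv, pH_niH]
    exact brf_nc' (iwG b ℂ) i (mem_UcH_iff.1 hv w)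

/-- **`U = (U ∩ w⁻¹ U w) U_w`** in the real group. PROOF: as `c5f_dec`. -/
theorem c5g_dec {L : List b.support} (h : RedW b L) {u : HRt H} (hu : u ∈ UHR H) : ∃ u₁ ∈ UHR H, nH hH L * u₁ * (nH hH L)⁻¹ ∈ UHR H ∧ ∃ u₂ ∈ UwH hH L, u = u₁ * u₂ := by
  induction L generalizing u with
  | nil =>
    refine ⟨u, hu, ?_, 1, one_mem _, (mul_one u).symm⟩
    rw [nH_nil, one_mul, inv_one, mul_one]
    exact hu
  | cons i L ih =>
    obtain ⟨hi, hl⟩ := h
    obtain ⟨c, hc⟩ : ∃ c, c = cH i u := ⟨_, rfl⟩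
    have hv : u * (xH hH i c)⁻¹ ∈ UcH H i := by
      rw [hc]
      exact dec_UcH hH i hu
    have hv' := c5g_nc hH i hv
    obtain ⟨a₁, h1, h2, a₂, h3, h4⟩ := ih hl hv'.1
    have h5 : a₂ ∈ UcH H i := UwH_le_UcH hH hi h3
    have h6 : a₁ ∈ UcH H i := by
      have e : a₁ = niH hH i * (u * (xH hH i c)⁻¹) * (niH hH i)⁻¹ * a₂⁻¹ := by rw [h4]; group
      rw [e]
      exact mul_mem hv' (inv_mem h5)
    have h7 := c5g_nc' hH i h6
    have h8 : (niH hH i)⁻¹ * a₂ * niH hH i ∈ UwH hH (i :: L) := by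
      have h9 := (UwH_V1 hH hi ((niH hH i)⁻¹ * a₂ * niH hH i)).2 (by
        have e : niH hH i * ((niH hH i)⁻¹ * a₂ * niH hH i) * (niH hH i)⁻¹ = a₂ := by group
        rw [e]
        exact h3)
      exact h9.1
    refine ⟨(niH hH i)⁻¹ * a₁ * niH hH i, h7.1, ?_, (niH hH i)⁻¹ * a₂ * niH hH i * xH hH i c, mul_mem h8 (UiH_le hH hi ⟨c, rfl⟩), ?_⟩
    · rw [nH_cons]
      have e : nH hH L * niH hH i * ((niH hH i)⁻¹ * a₁ * niH hH i) * (nH hH L * niH hH i)⁻¹ = nH hH L * a₁ * (nH hH L)⁻¹ := by group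
      rw [e]
      exact h2
    · have e : (niH hH i)⁻¹ * a₁ * niH hH i * ((niH hH i)⁻¹ * a₂ * niH hH i * xH hH i c) = (niH hH i)⁻¹ * (a₁ * a₂) * niH hH i * xH hH i c := by group
      rw [e, ← h4]
      group

include hH

/-- **The degree zero part of an element of `U` is in `U`**, and it is `u v` with `v ∈ N_J`. -/
theorem c5g_ex {J : Finset b.support} {w : Equiv.Perm ι} (hJ : IsWJ b J w) {u : HRt H} (hu : u ∈ UHR H) :
    ∃ u₁ ∈ UHR H, u₁.1.1.1 = dg0 (dJ b J) u.1.1.1 ∧ ∃ u₂ ∈ NoH H J, u = u₁ * u₂ := by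
  obtain ⟨L, hL, rfl⟩ := FC.RedW_exists b hJ.1
  have hW2 : ∀ i : b.support, dJ b J (Sum.inr (wL b L.reverse.reverse (i : ι))) ≤ 0 := by
    intro i
    have e1 : (wW b L)⁻¹ = wL b L.reverse.reverse := by
      rw [← FC.wW_reverse, wW_eq]
    rw [← e1]
    by_cases hp : b.IsPos ((wW b L)⁻¹ (i : ι))
    · have h1 := (hJ.2 _ hp).1 (by
        have e2 : wW b L ((wW b L)⁻¹ (i : ι)) = (i : ι) := (wW b L).apply_symm_apply _
        rw [e2]
        exact b.isPos_of_mem_support i.2)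
      exact h1.le
    · exact Finset.sum_nonpos fun j _ => FC.mc_neg b hp j
  obtain ⟨u₁, h1, h2, u₂, h3, h4⟩ := c5g_dec hH hL hu
  rw [← NoH_eq hH hL hJ] at h3
  refine ⟨u₁, h1, ?_, u₂, h3, h4⟩
  have h5 : dg0 (dJ b J) u₁.1.1.1 = u₁.1.1.1 := by
    refine Matrix.ext fun r c => ?_
    show (if dJ b J r = dJ b J c then u₁.1.1.1 r c else 0) = u₁.1.1.1 r c
    split_ifs with h
    · rfl
    · symm
      refine evw_ext fun w => ?_
      rw [map_zero]
      have h6 : pH H w (nH hH L * u₁ * (nH hH L)⁻¹) ∈ gU b ℂ := mem_UHR_iff.1 h2 w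
      rw [map_mul, map_mul, map_inv, pH_nH] at h6
      exact c5g_deg hW2 (mem_UHR_iff.1 h1 w) h6 h
  have h6 : dg0 (dJ b J) u₂.1.1.1 = 1 := by
    rw [← dg0_one (dJ b J)]
    refine Matrix.ext fun r c => ?_
    show (if dJ b J r = dJ b J c then u₂.1.1.1 r c else 0) = if dJ b J r = dJ b J c then (1 : Matrix (I b) (I b) (EE K)) r c else 0
    split_ifs with h
    · exact (h3.2 r c h.le).1
    · rfl
  have h7 : u.1.1.1 = u₁.1.1.1 * u₂.1.1.1 := by rw [h4]; rfl
  rw [h7, dg0_mul _ (up_UHR J h1) (up_UHR J h3.1), h5, h6, Matrix.mul_one]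

/-- **The projection `U → U_M`** (the part of degree zero). -/
theorem piJ_exists {J : Finset b.support} {w : Equiv.Perm ι} (hJ : IsWJ b J w) : ∃ π : UHR H →* UHR H, Continuous π ∧ (∀ u, (π u).1.1.1.1 = dg0 (dJ b J) u.1.1.1.1) ∧
    (∀ u, π (π u) = π u) ∧ ∀ u, π u = 1 ↔ u.1 ∈ NoH H J := by
  choose f hf1 hf2 hf3 using fun u : UHR H => c5g_ex hH hJ u.2
  have hext : ∀ u v : HRt H, u.1.1.1 = v.1.1.1 → u = v := fun u v h => Subtype.ext (Subtype.ext (Units.ext h))
  have hmul : ∀ u v : UHR H, f (u * v) = f u * f v := by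
    intro u v
    refine hext _ _ ?_
    have e1 : (f u * f v).1.1.1 = (f u).1.1.1 * (f v).1.1.1 := rfl
    have e2 : (u * v).1.1.1.1 = u.1.1.1.1 * v.1.1.1.1 := rfl
    rw [hf2, e1, hf2, hf2, e2, dg0_mul _ (up_UHR J u.2) (up_UHR J v.2)]
  have hone : f 1 = 1 := by
    refine hext _ _ ?_
    have e2 : (1 : UHR H).1.1.1.1 = 1 := rfl
    have e3 : (1 : HRt H).1.1.1 = 1 := rfl
    rw [hf2, e2, dg0_one, e3]
  obtain ⟨π, hπ⟩ : ∃ π : UHR H →* UHR H, ∀ u, (π u).1 = f u :=
    ⟨{ toFun := fun u => ⟨f u, hf1 u⟩, map_one' := Subtype.ext hone, map_mul' := fun u v => Subtype.ext (hmul u v) }, fun u => rfl⟩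
  have hval : ∀ u, (π u).1.1.1.1 = dg0 (dJ b J) u.1.1.1.1 := fun u => by rw [hπ, hf2]
  have hent : ∀ r c, Continuous fun u : UHR H => (π u).1.1.1.1 r c := by
    intro r c
    have e : (fun u : UHR H => (π u).1.1.1.1 r c) = fun u => if dJ b J r = dJ b J c then u.1.1.1.1 r c else 0 := by
      funext u
      rw [hval]
      rfl
    rw [e]
    split_ifs
    · exact (cont_entry b K r c).comp (continuous_subtype_val.comp continuous_subtype_val)
    · exact continuous_const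
  have hmat : Continuous fun u : UHR H => (π u).1.1.1.1 := continuous_matrix hent
  have hinv : Continuous fun u : UHR H => (π u)⁻¹.1.1.1.1 := by
    have e : (fun u : UHR H => (π u)⁻¹.1.1.1.1) = (fun u : UHR H => (π u).1.1.1.1) ∘ fun u => u⁻¹ := by
      funext u
      show (π u)⁻¹.1.1.1.1 = (π u⁻¹).1.1.1.1
      rw [map_inv]
    rw [e]
    exact hmat.comp continuous_inv
  refine ⟨π, ?_, hval, ?_, ?_⟩
  · refine continuous_induced_rng.2 (continuous_induced_rng.2 (continuous_induced_rng.2 ?_))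
    exact Units.continuous_iff.2 ⟨hmat, hinv⟩
  · intro u
    refine Subtype.ext (hext _ _ ?_)
    rw [hval, hval, dg0_dg0]
  · intro u
    constructor
    · intro h
      obtain ⟨u₂, h1, h2⟩ := hf3 u
      have h3 : f u = 1 := by rw [← hπ, h]; rfl
      rw [h2, h3, one_mul]
      exact h1
    · intro h
      refine Subtype.ext (hext _ _ ?_)
      rw [hval]
      have e3 : ((1 : UHR H) : HRt H).1.1.1 = 1 := rfl
      rw [e3, ← dg0_one (dJ b J)]
      refine Matrix.ext fun r c => ?_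
      show (if dJ b J r = dJ b J c then u.1.1.1.1 r c else 0) = if dJ b J r = dJ b J c then (1 : Matrix (I b) (I b) (EE K)) r c else 0
      split_ifs with h1
      · exact (h.2 r c h1.le).1
      · rfl

end

end Pool.Agent.Lib.L8.FL
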