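import Pool.Agent.Lib.L8.BRB
import Pool.Agent.Lib.L8.BRC

/-!
# FL, module C5, C5H: the modulus of a contracted group is one (owner: helper33)

`T` a locally compact group with a contracting automorphism `φ` (`φ^n(u) → 1` for all `u`), `V` a closed subgroup with `φ(V) = V`: conjugation by an element of `T` which normalises `V` preserves the Haar measures of `V`.
-/

namespace Pool.Agent.Lib.L8.FL

set_option linter.unusedSectionVars false

open MeasureTheory Topology Filter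
open scoped ENNReal

noncomputable section

variable {T : Type} [Group T] [TopologicalSpace T] [IsTopologicalGroup T] [SecondCountableTopology T] [LocallyCompactSpace T] [T2Space T] [MeasurableSpace T] [BorelSpace T]
  {V : Subgroup T}

theorem c5h_map (φ : T ≃* T) (h1 : Continuous φ) (h2 : Continuous φ.symm) (hn : ∀ x, x ∈ V ↔ φ x ∈ V) {ν : Measure T} (h : RH V ν) : RH V (ν.map φ) := by
  obtain ⟨e, he⟩ : ∃ e : T ≃ₜ T, ∀ x, e x = φ x := ⟨⟨φ.toEquiv, h1, h2⟩, fun x => rfl⟩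
  have e0 : (e : T → T) = φ := funext he
  have hM : MeasurableEmbedding φ := by
    rw [← e0]
    exact e.measurableEmbedding
  refine ⟨?_, fun C hC => ?_, ?_, fun w hw => ?_⟩
  · rw [hM.ae_map_iff]
    filter_upwards [h.ae] with x hx
    exact (hn x).1 hx
  · rw [hM.map_apply]
    refine h.fin _ ?_
    rw [← e0]
    exact e.isCompact_preimage.2 hC
  · rw [Ne, Measure.map_eq_zero_iff hM.measurable.aemeasurable]
    exact h.ne
  · rw [Measure.map_map (measurable_mul_const w) hM.measurable]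
    have e1 : (fun x : T => x * w) ∘ φ = φ ∘ fun x : T => x * φ.symm w := by
      funext x
      simp only [Function.comp_apply, map_mul, MulEquiv.apply_symm_apply]
    have hw' : φ.symm w ∈ V := by
      rw [hn, MulEquiv.apply_symm_apply]
      exact hw
    rw [e1, ← Measure.map_map hM.measurable (measurable_mul_const _), h.inv _ hw']

/-- One half of the modulus lemma. -/
theorem c5h_le {ν : Measure T} (h : RH V ν) (hV : IsClosed (V : Set T)) (φ : T ≃* T) (h1 : Continuous φ) (h2 : Continuous φ.symm) (hn : ∀ x, x ∈ V ↔ φ x ∈ V)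
    (hd : ∀ u : T, Tendsto (fun n : ℕ => (φ ^ n) u) atTop (𝓝 1)) {u : T} {c : ℝ≥0∞} (hc : c ≠ ∞) (he : (ν.map fun x => u * x * u⁻¹) = c • ν) : c ≤ 1 := by
  obtain ⟨a, ha0, ha1, ha⟩ := rh_uniq hV (c5h_map φ h1 h2 hn h) h
  have hφm : Measurable φ := h1.measurable
  have hφn : ∀ n : ℕ, Measurable (φ ^ n : T ≃* T) ∧ ν.map (φ ^ n : T ≃* T) = a ^ n • ν := by
    intro n
    induction n with
    | zero =>
      rw [pow_zero, pow_zero, one_smul]
      exact ⟨measurable_id, Measure.map_id⟩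
    | succ n ih =>
      have e1 : ((φ ^ (n + 1) : T ≃* T) : T → T) = φ ∘ (φ ^ n : T ≃* T) := by
        rw [pow_succ']
        rfl
      rw [e1]
      refine ⟨hφm.comp ih.1, ?_⟩
      rw [← Measure.map_map hφm ih.1, ih.2, Measure.map_smul, ha, smul_smul, pow_succ]
  have key : ∀ k n : ℕ, (ν.map fun x => (φ ^ n) (u ^ k) * x * ((φ ^ n) (u ^ k))⁻¹) = c ^ k • ν := by
    intro k n
    have hk := brc_pow he k
    have han : a ^ n ≠ 0 := pow_ne_zero _ ha0
    have han' : a ^ n ≠ ∞ := ENNReal.pow_ne_top ha1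
    have e1 : ((fun x => (φ ^ n) (u ^ k) * x * ((φ ^ n) (u ^ k))⁻¹) ∘ (φ ^ n : T ≃* T)) = (φ ^ n : T ≃* T) ∘ fun x => u ^ k * x * (u ^ k)⁻¹ := by
      funext x
      show (φ ^ n) (u ^ k) * (φ ^ n) x * ((φ ^ n) (u ^ k))⁻¹ = (φ ^ n) (u ^ k * x * (u ^ k)⁻¹)
      rw [map_mul, map_mul, map_inv]
    have e2 : (ν.map (φ ^ n : T ≃* T)).map (fun x => (φ ^ n) (u ^ k) * x * ((φ ^ n) (u ^ k))⁻¹) = (ν.map fun x => u ^ k * x * (u ^ k)⁻¹).map (φ ^ n : T ≃* T) := by
      rw [Measure.map_map (brc_meas _) (hφn n).1, Measure.map_map (hφn n).1 (brc_meas _), e1]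
    rw [hk, (hφn n).2, Measure.map_smul, Measure.map_smul, (hφn n).2, smul_smul, mul_comm (c ^ k), ← smul_smul] at e2
    have e3 : ∀ m m' : Measure T, a ^ n • m = a ^ n • m' → m = m' := by
      intro m m' hm
      ext s hs
      have h5 := congrArg (fun μ : Measure T => μ s) hm
      simp only [Measure.smul_apply, smul_eq_mul] at h5
      exact (ENNReal.mul_right_inj han han').1 h5
    exact e3 _ _ e2
  by_contra hlt
  rw [not_le] at hlt
  obtain ⟨C, hC, hpos⟩ := rh_pos h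
  obtain ⟨K, hK, hK1⟩ := exists_compact_mem_nhds (1 : T)
  set C' : Set T := (fun p : T × T => p.1⁻¹ * p.2 * p.1) '' (K ×ˢ C) with hC'
  have h3 : IsCompact C' := (hK.prod hC).image (by fun_prop)
  have h4 : ν C' < ∞ := h.fin _ h3
  have h5 : ν C < ∞ := h.fin _ hC
  have h6 : ∀ k : ℕ, c ^ k * ν C ≤ ν C' := by
    intro k
    obtain ⟨n, hn'⟩ := ((hd (u ^ k)).eventually hK1).exists
    have h7 := congrArg (fun μ : Measure T => μ C) (key k n)
    simp only [Measure.smul_apply, smul_eq_mul] at h7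
    rw [← h7, Measure.map_apply (brc_meas _) hC.measurableSet]
    refine measure_mono fun y hy => ?_
    have h8 : (φ ^ n) (u ^ k) * y * ((φ ^ n) (u ^ k))⁻¹ ∈ C := hy
    refine ⟨((φ ^ n) (u ^ k), (φ ^ n) (u ^ k) * y * ((φ ^ n) (u ^ k))⁻¹), ⟨hn', h8⟩, ?_⟩
    show ((φ ^ n) (u ^ k))⁻¹ * ((φ ^ n) (u ^ k) * y * ((φ ^ n) (u ^ k))⁻¹) * (φ ^ n) (u ^ k) = y
    group
  have h7 : 1 < c.toReal := by
    have h8 := (ENNReal.toReal_lt_toReal ENNReal.one_ne_top hc).2 hlt
    rwa [ENNReal.toReal_one] at h8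
  have h8 : 0 < (ν C).toReal := ENNReal.toReal_pos hpos.ne' h5.ne
  obtain ⟨n, hn'⟩ := pow_unbounded_of_one_lt ((ν C').toReal / (ν C).toReal) h7
  rw [div_lt_iff₀ h8] at hn'
  have h9 := ENNReal.toReal_mono h4.ne (h6 n)
  rw [ENNReal.toReal_mul, ENNReal.toReal_pow] at h9
  exact absurd hn' (not_lt.2 h9)

/-- **The modulus lemma.** -/
theorem c5h_mod {ν : Measure T} (h : RH V ν) (hV : IsClosed (V : Set T)) (φ : T ≃* T) (h1 : Continuous φ) (h2 : Continuous φ.symm) (hn : ∀ x, x ∈ V ↔ φ x ∈ V)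
    (hd : ∀ u : T, Tendsto (fun n : ℕ => (φ ^ n) u) atTop (𝓝 1)) {u : T} (hu : ∀ x, x ∈ V ↔ u⁻¹ * x * u ∈ V) : (ν.map fun x => u * x * u⁻¹) = ν := by
  obtain ⟨c, -, hc1, hc⟩ := rh_mod hV h u hu
  have hu' : ∀ x, x ∈ V ↔ u⁻¹⁻¹ * x * u⁻¹ ∈ V := by
    intro x
    rw [hu (u⁻¹⁻¹ * x * u⁻¹)]
    have e : u⁻¹ * (u⁻¹⁻¹ * x * u⁻¹) * u = x := by group
    rw [e]
  obtain ⟨c', -, hc1', hc'⟩ := rh_mod hV h u⁻¹ hu'
  have i1 := c5h_le h hV φ h1 h2 hn hd hc1 hc
  have i2 := c5h_le h hV φ h1 h2 hn hd hc1' hc'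
  have h3 := brc_comp hc hc'
  rw [mul_inv_cancel, brc_one] at h3
  have h4 := rh_cst h h3
  have h5 : c = 1 := by
    refine le_antisymm i1 ?_
    rw [h4]
    calc c * c' ≤ c * 1 := mul_le_mul_right i2 c
      _ = c := mul_one c
  rw [hc, h5, one_smul]

/-- **The Haar measure of a semidirect product** `T = ker π ⋊ im π`, `T` with a contracting automorphism which commutes with `π`. -/
theorem c5h_split {π : T →* T} (hπ : Continuous π) (hi : ∀ t, π (π t) = π t) (φ : T ≃* T) (h1 : Continuous φ) (h2 : Continuous φ.symm) (hd : ∀ u : T, Tendsto (fun n : ℕ => (φ ^ n) u) atTop (𝓝 1))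
    (hc : ∀ x, π (φ x) = φ (π x)) (ν : Measure T) [ν.IsHaarMeasure] :
    ∃ νV νM : Measure T, RH π.ker νV ∧ RH π.range νM ∧ ν = (νV.prod νM).map (fun p => p.1 * p.2) ∧ (∀ g : T, νV.map (fun x => g * x * g⁻¹) = νV) ∧
      ∀ g ∈ π.ker, νV.map (fun x => g * x) = νV := by
  have c1 : IsClosed (π.ker : Set T) := by
    have e : (π.ker : Set T) = π ⁻¹' {1} := by
      ext x
      exact Iff.rfl
    rw [e]
    exact isClosed_singleton.preimage hπ
  have c2 : IsClosed (π.range : Set T) := by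
    have e : (π.range : Set T) = {x | π x = x} := by
      ext x
      constructor
      · rintro ⟨y, rfl⟩
        exact hi y
      · intro hx
        exact ⟨x, hx⟩
    rw [e]
    exact isClosed_eq hπ continuous_id
  obtain ⟨ν1, k1⟩ := rh_ex c1
  obtain ⟨ν2, k2⟩ := rh_ex c2
  have s1 : SigmaFinite ν1 := rh_sigma k1
  have s2 : SigmaFinite ν2 := rh_sigma k2
  have k3 : RH (⊤ : Subgroup T) ((ν1.prod ν2).map fun p => p.1 * p.2) := by
    refine rh_prod (V1 := π.ker) (V2 := π.range) (π := π) isClosed_univ le_top le_top ?_ ?_ hπ.continuousOn ?_ k1 k2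
    · intro v _
      refine ⟨v * (π v)⁻¹, ?_, π v, ⟨v, rfl⟩, (inv_mul_cancel_right v (π v)).symm⟩
      rw [MonoidHom.mem_ker, map_mul, map_inv, hi, mul_inv_cancel]
    · intro y _ x hx
      exact (MonoidHom.normal_ker π).conj_mem x hx y
    · rintro x hx y ⟨z, rfl⟩
      rw [map_mul, (MonoidHom.mem_ker).1 hx, one_mul, hi]
  obtain ⟨lam, hlam⟩ : ∃ m : Measure T, m = (ν1.prod ν2).map fun p => p.1 * p.2 := ⟨_, rfl⟩
  rw [← hlam] at k3
  have hL : lam.IsMulLeftInvariant := by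
    refine ⟨fun g => ?_⟩
    have e1 : (fun x : T => g * x) = (fun x => x * g) ∘ fun x => g * x * g⁻¹ := by
      funext x
      show g * x = g * x * g⁻¹ * g
      group
    rw [e1, ← Measure.map_map (measurable_mul_const g) (brc_meas g),
      c5h_mod k3 isClosed_univ φ h1 h2 (fun x => ⟨fun _ => Subgroup.mem_top _, fun _ => Subgroup.mem_top _⟩) hd (fun x => ⟨fun _ => Subgroup.mem_top _, fun _ => Subgroup.mem_top _⟩)]
    exact k3.inv g (Subgroup.mem_top g)
  have hf : IsFiniteMeasureOnCompacts lam := ⟨fun {K} hK => k3.fin K hK⟩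
  have h3 := Measure.isMulLeftInvariant_eq_smul lam ν
  obtain ⟨c, hcc⟩ : ∃ c : NNReal, c = Measure.haarScalarFactor lam ν := ⟨_, rfl⟩
  rw [← hcc] at h3
  have h3' : lam = (c : ℝ≥0∞) • ν := h3
  have hc0 : (c : ℝ≥0∞) ≠ 0 := by
    intro h0
    apply k3.ne
    rw [h3', h0, zero_smul]
  have hc1 : (c : ℝ≥0∞) ≠ ∞ := ENNReal.coe_ne_top
  have i0 : (c : ℝ≥0∞)⁻¹ ≠ 0 := ENNReal.inv_ne_zero.2 hc1
  have i1 : (c : ℝ≥0∞)⁻¹ ≠ ∞ := ENNReal.inv_ne_top.2 hc0
  have k4 : RH π.ker ((c : ℝ≥0∞)⁻¹ • ν1) := rh_smul k1 i0 i1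
  have s4 : SigmaFinite ((c : ℝ≥0∞)⁻¹ • ν1) := rh_sigma k4
  have hconj : ∀ g : T, ((c : ℝ≥0∞)⁻¹ • ν1).map (fun x => g * x * g⁻¹) = (c : ℝ≥0∞)⁻¹ • ν1 := by
    intro g
    refine c5h_mod k4 c1 φ h1 h2 (fun x => ?_) hd fun x => ⟨fun hx => ?_, fun hx => ?_⟩
    · rw [MonoidHom.mem_ker, MonoidHom.mem_ker, hc]
      constructor
      · intro h
        rw [h, map_one]
      · intro h
        exact φ.injective (by rw [h, map_one])
    · have h5 := (MonoidHom.normal_ker π).conj_mem x hx g⁻¹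
      rwa [inv_inv] at h5
    · have h5 := (MonoidHom.normal_ker π).conj_mem _ hx g
      have e : g * (g⁻¹ * x * g) * g⁻¹ = x := by group
      rwa [e] at h5
  refine ⟨(c : ℝ≥0∞)⁻¹ • ν1, ν2, k4, k2, ?_, hconj, fun g hg => ?_⟩
  · rw [Measure.prod_smul_left, Measure.map_smul, ← hlam, h3', smul_smul, ENNReal.inv_mul_cancel hc0 hc1, one_smul]
  · have e1 : (fun x : T => g * x) = (fun x => x * g) ∘ fun x => g * x * g⁻¹ := by
      funext x
      show g * x = g * x * g⁻¹ * g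
      group
    rw [e1, ← Measure.map_map (measurable_mul_const g) (brc_meas g), hconj]
    exact k4.inv g hg

end

end Pool.Agent.Lib.L8.FL
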