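import Pool.Agent.Lib.L8.FL.C5G
import Pool.Agent.Lib.L8.FL.C5H
import Pool.Agent.Lib.L8.FC.D7
import Pool.Agent.Lib.L1S.DE

/-!
# FL, module C5, C5I: the contraction of `U`, the Levi projections and the Haar measures (owner: helper33)
-/

namespace Pool.Agent.Lib.L8.FL

set_option linter.unusedSectionVars false

open MeasureTheory Matrix NumberField IsDedekindDomain Pool.Agent.Lib.H89N Pool.Agent.Lib.H33W Pool.Agent.Lib.L1S Topology Filter
open scoped ENNReal

noncomputable section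

variable {ι M N : Type} [Fintype ι] [DecidableEq ι] [AddCommGroup M] [Module ℚ M] [AddCommGroup N] [Module ℚ N]
  {P : RootPairing ι ℚ M N} [P.IsCrystallographic] [P.IsReduced] [P.IsIrreducible] [P.IsRootSystem] {b : P.Base}
  {K : Type} [Field K] [NumberField K] {H : Subgroup (GK b K)}

/-- A multiple of the sum of the fundamental coweights is in the coroot lattice. -/
theorem c5i_c (b : P.Base) : ∃ (c : b.support → ℤ) (m : ℤ), 0 < m ∧ ∀ r, pr b c r = m * ht b r := by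
  classical
  obtain ⟨D, hD⟩ : ∃ D : ℤ, D = b.cartanMatrix.det := ⟨_, rfl⟩
  have hdet : D ≠ 0 := by
    rw [hD]
    exact Matrix.nondegenerate_iff_det_ne_zero.1 b.cartanMatrix_nondegenerate
  obtain ⟨a, ha⟩ : ∃ a : b.support → ℤ, a = b.cartanMatrix.adjugate.mulVec 1 := ⟨_, rfl⟩
  have h1 : ∀ i, b.cartanMatrix.mulVec a i = D := by
    intro i
    rw [ha, Matrix.mulVec_mulVec, Matrix.mul_adjugate, Matrix.smul_mulVec, Matrix.one_mulVec, hD]
    simp
  have h2 : ∀ i : b.support, pr b (fun j => D * a j) (Sum.inr i) = D * D := by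
    intro i
    have e1 : pr b (fun j => D * a j) (Sum.inr i) = ∑ j : b.support, D * (b.cartanMatrix i j * a j) := by
      show ∑ j : b.support, D * a j * P.pairingIn ℤ i j = _
      refine Finset.sum_congr rfl fun j _ => ?_
      have e2 : b.cartanMatrix i j = P.pairingIn ℤ i j := rfl
      rw [e2]
      ring
    rw [e1, ← Finset.mul_sum]
    congr 1
    exact h1 i
  refine ⟨fun j => D * a j, D * D, mul_self_pos.2 hdet, fun r => ?_⟩
  have h3 := dc_pr (b := b) (fun j => D * a j) r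
  have h4 : ((pr b (fun j => D * a j) r : ℤ) : ℚ) = ((D * D * ht b r : ℤ) : ℚ) := by
    rw [h3]
    push_cast
    rw [dc3_ht, Finset.mul_sum]
    refine Finset.sum_congr rfl fun k _ => ?_
    rw [h2]
    push_cast
    ring
  exact_mod_cast h4

theorem c5i_me (K : Type) [Field K] [NumberField K] (z : ℤ) : mixedEmbedding K ((2 : K) ^ z) = ((2 : ℝ) ^ z) • (1 : EE K) := by
  refine Prod.ext (funext fun w => ?_) (funext fun w => ?_)
  · show InfinitePlace.embedding_of_isReal w.2 ((2 : K) ^ z) = (2 : ℝ) ^ z * 1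
    rw [map_zpow₀, map_ofNat, mul_one]
  · show w.1.embedding ((2 : K) ^ z) = ((2 : ℝ) ^ z) • (1 : ℂ)
    rw [map_zpow₀, map_ofNat, Complex.real_smul, mul_one]
    push_cast
    rfl

/-- The dilation of the real group. -/
theorem c5i_t (hH : ∀ g : GR b K, g ∈ HRs H) : ∃ (t : HRt H) (m : ℤ), 0 < m ∧ ∀ (g : HRt H) r c, (t * g * t⁻¹).1.1.1 r c = ((2 : ℝ) ^ (-(m * (ht b r - ht b c)))) • g.1.1.1 r c := by
  obtain ⟨c, m, hm, hc⟩ := c5i_c b
  obtain ⟨d, hd⟩ := de_lam (b := b) (K := K) c (Units.mk0 (2 : K) two_ne_zero)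
  have hd' : d⁻¹.1.1 = Matrix.diagonal fun r => (2 : K) ^ pr b c r := by
    have e1 : d.1.1 * (Matrix.diagonal fun r => (2 : K) ^ pr b c r) = 1 := by
      rw [hd, Matrix.diagonal_mul_diagonal, ← Matrix.diagonal_one]
      congr 1
      funext r
      rw [Units.val_mk0, ← zpow_add₀ (two_ne_zero : (2 : K) ≠ 0), neg_add_cancel, zpow_zero]
    have e2 : d⁻¹.1.1 * d.1.1 = 1 := d.1.inv_mul
    calc d⁻¹.1.1 = d⁻¹.1.1 * (d.1.1 * Matrix.diagonal fun r => (2 : K) ^ pr b c r) := by rw [e1, Matrix.mul_one]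
      _ = _ := by rw [← Matrix.mul_assoc, e2, Matrix.one_mul]
  refine ⟨⟨emb b K d, hH _⟩, m, hm, fun g r c' => ?_⟩
  have e1 : ((⟨emb b K d, hH _⟩ * g * (⟨emb b K d, hH _⟩ : HRt H)⁻¹ : HRt H)).1.1.1 = d.1.1.map (mixedEmbedding K) * g.1.1.1 * d⁻¹.1.1.map (mixedEmbedding K) := by
    have e2 : ((⟨emb b K d, hH _⟩ * g * (⟨emb b K d, hH _⟩ : HRt H)⁻¹ : HRt H)).1 = emb b K d * g.1 * emb b K d⁻¹ := by
      rw [map_inv]
      rfl
    rw [e2]
    rfl
  rw [e1, hd, hd', Matrix.diagonal_map (map_zero _), Matrix.diagonal_map (map_zero _), Matrix.mul_diagonal, Matrix.diagonal_mul]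
  show mixedEmbedding K (((Units.mk0 (2 : K) two_ne_zero : Kˣ) : K) ^ (-pr b c r)) * g.1.1.1 r c' * mixedEmbedding K ((2 : K) ^ pr b c c') = _
  rw [Units.val_mk0, c5i_me, c5i_me, hc, hc, smul_mul_assoc, one_mul, mul_smul_comm, mul_one, smul_smul, ← zpow_add₀ (two_ne_zero : (2 : ℝ) ≠ 0)]
  congr 2
  ring

/-- **The contracting automorphism of `U`.** -/
theorem c5i_phi (hH : ∀ g : GR b K, g ∈ HRs H) : ∃ (φ : UHR H ≃* UHR H) (m : ℤ), 0 < m ∧ Continuous φ ∧ Continuous φ.symm ∧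
    (∀ (u : UHR H) r c, (φ u).1.1.1.1 r c = ((2 : ℝ) ^ (-(m * (ht b r - ht b c)))) • u.1.1.1.1 r c) ∧ ∀ u : UHR H, Tendsto (fun n : ℕ => (φ ^ n) u) atTop (𝓝 1) := by
  obtain ⟨t, m, hm, ht'⟩ := c5i_t hH
  have hz : ∀ z : ℤ, (2 : ℝ) ^ z ≠ 0 := fun z => zpow_ne_zero _ two_ne_zero
  have ht2 : ∀ (g : HRt H) r c, (t⁻¹ * g * t).1.1.1 r c = ((2 : ℝ) ^ (m * (ht b r - ht b c))) • g.1.1.1 r c := by
    intro g r c
    have h1 := ht' (t⁻¹ * g * t) r c
    have e : t * (t⁻¹ * g * t) * t⁻¹ = g := by group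
    rw [e] at h1
    rw [h1, smul_smul, ← zpow_add₀ (two_ne_zero : (2 : ℝ) ≠ 0), add_neg_cancel, zpow_zero, one_smul]
  have memU : ∀ g : HRt H, g ∈ UHR H ↔ ∀ r c, ht b r ≤ ht b c → g.1.1.1 r c = (1 : Matrix (I b) (I b) (EE K)) r c ∧ g⁻¹.1.1.1 r c = (1 : Matrix (I b) (I b) (EE K)) r c :=
    fun g => Iff.rfl
  have hsc : ∀ (X : Matrix (I b) (I b) (EE K)) (z : ℤ) r c, X r c = (1 : Matrix (I b) (I b) (EE K)) r c → ((2 : ℝ) ^ (z * (ht b r - ht b c))) • X r c = (1 : Matrix (I b) (I b) (EE K)) r c := by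
    intro X z r c hX
    by_cases hrc : r = c
    · subst hrc
      rw [sub_self, mul_zero, zpow_zero, one_smul, hX]
    · rw [hX, Matrix.one_apply_ne hrc, smul_zero]
  have m1 : ∀ g ∈ UHR H, t * g * t⁻¹ ∈ UHR H := by
    intro g hg
    rw [memU] at hg ⊢
    intro r c hrc
    have e : (t * g * t⁻¹)⁻¹ = t * g⁻¹ * t⁻¹ := by group
    rw [e, ht', ht', ← neg_mul]
    exact ⟨hsc _ _ _ _ (hg r c hrc).1, hsc _ _ _ _ (hg r c hrc).2⟩
  have m2 : ∀ g ∈ UHR H, t⁻¹ * g * t ∈ UHR H := by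
    intro g hg
    rw [memU] at hg ⊢
    intro r c hrc
    have e : (t⁻¹ * g * t)⁻¹ = t⁻¹ * g⁻¹ * t := by group
    rw [e, ht2, ht2]
    exact ⟨hsc _ _ _ _ (hg r c hrc).1, hsc _ _ _ _ (hg r c hrc).2⟩
  obtain ⟨φ, hφ, hφ'⟩ : ∃ φ : UHR H ≃* UHR H, (∀ u, (φ u).1 = t * u.1 * t⁻¹) ∧ ∀ u, (φ.symm u).1 = t⁻¹ * u.1 * t :=
    ⟨{ toFun := fun u => ⟨t * u.1 * t⁻¹, m1 _ u.2⟩
       invFun := fun u => ⟨t⁻¹ * u.1 * t, m2 _ u.2⟩
       left_inv := fun u => Subtype.ext (by
        show t⁻¹ * (t * u.1 * t⁻¹) * t = u.1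
        group)
       right_inv := fun u => Subtype.ext (by
        show t * (t⁻¹ * u.1 * t) * t⁻¹ = u.1
        group)
       map_mul' := fun u v => Subtype.ext (by
        show t * (u.1 * v.1) * t⁻¹ = t * u.1 * t⁻¹ * (t * v.1 * t⁻¹)
        group) }, fun u => rfl, fun u => rfl⟩
  have hval : ∀ (u : UHR H) r c, (φ u).1.1.1.1 r c = ((2 : ℝ) ^ (-(m * (ht b r - ht b c)))) • u.1.1.1.1 r c := by
    intro u r c
    rw [hφ]
    exact ht' _ r c
  refine ⟨φ, m, hm, ?_, ?_, hval, ?_⟩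
  · have e : (φ : UHR H → UHR H) = fun u => ⟨t * u.1 * t⁻¹, m1 _ u.2⟩ := funext fun u => Subtype.ext (hφ u)
    rw [e]
    exact ((continuous_const.mul continuous_subtype_val).mul continuous_const).subtype_mk _
  · have e : (φ.symm : UHR H → UHR H) = fun u => ⟨t⁻¹ * u.1 * t, m2 _ u.2⟩ := funext fun u => Subtype.ext (hφ' u)
    rw [e]
    exact ((continuous_const.mul continuous_subtype_val).mul continuous_const).subtype_mk _
  · intro u
    have hn : ∀ (u : UHR H) (n : ℕ) r c, ((φ ^ n) u).1.1.1.1 r c = (((2 : ℝ) ^ (-(m * (ht b r - ht b c)))) ^ n) • u.1.1.1.1 r c := by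
      intro u n r c
      induction n with
      | zero =>
        rw [pow_zero, pow_zero, one_smul]
        rfl
      | succ n ih =>
        have e : (φ ^ (n + 1)) u = φ ((φ ^ n) u) := by
          rw [pow_succ']
          rfl
        rw [e, hval, ih, smul_smul, pow_succ']
    have ent : ∀ (u : UHR H) r c, Tendsto (fun n : ℕ => ((φ ^ n) u).1.1.1.1 r c) atTop (𝓝 ((1 : Matrix (I b) (I b) (EE K)) r c)) := by
      intro u r c
      have e : (fun n : ℕ => ((φ ^ n) u).1.1.1.1 r c) = fun n : ℕ => (((2 : ℝ) ^ (-(m * (ht b r - ht b c)))) ^ n) • u.1.1.1.1 r c := funext fun n => hn u n r c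
      rw [e]
      by_cases hrc : r = c
      · subst hrc
        have h1 := (((memU _).1 u.2) r r le_rfl).1
        rw [sub_self, mul_zero, neg_zero, zpow_zero]
        simp only [one_pow, one_smul]
        rw [h1]
        exact tendsto_const_nhds
      · rw [Matrix.one_apply_ne hrc]
        by_cases h2 : ht b r ≤ ht b c
        · have h1 := (((memU _).1 u.2) r c h2).1
          rw [Matrix.one_apply_ne hrc] at h1
          simp only [h1, smul_zero]
          exact tendsto_const_nhds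
        · have h3 : (2 : ℝ) ^ (-(m * (ht b r - ht b c))) < 1 := by
            refine zpow_lt_one_of_neg₀ (by norm_num) ?_
            have h4 : 0 < m * (ht b r - ht b c) := mul_pos hm (by lia)
            lia
          have h5 : (0 : ℝ) ≤ (2 : ℝ) ^ (-(m * (ht b r - ht b c))) := (zpow_pos (by norm_num) _).le
          have h6 := (tendsto_pow_atTop_nhds_zero_of_lt_one h5 h3).smul_const (u.1.1.1.1 r c)
          rw [zero_smul] at h6
          exact h6
    have mat : ∀ u : UHR H, Tendsto (fun n : ℕ => ((φ ^ n) u).1.1.1.1) atTop (𝓝 (1 : Matrix (I b) (I b) (EE K))) :=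
      fun u => tendsto_pi_nhds.2 fun r => tendsto_pi_nhds.2 fun c => ent u r c
    have hinv : Tendsto (fun n : ℕ => ((φ ^ n) u).1.1.1⁻¹.1) atTop (𝓝 (1 : Matrix (I b) (I b) (EE K))) := by
      have e : (fun n : ℕ => ((φ ^ n) u).1.1.1⁻¹.1) = fun n : ℕ => ((φ ^ n) u⁻¹).1.1.1.1 := by
        funext n
        rw [map_inv]
        rfl
      rw [e]
      exact mat u⁻¹
    rw [tendsto_subtype_rng, tendsto_subtype_rng, tendsto_subtype_rng]
    refine (Units.isInducing_embedProduct.tendsto_nhds_iff).2 ?_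
    refine (mat u).prodMk_nhds ?_
    exact (MulOpposite.continuous_op.tendsto _).comp hinv

end

end Pool.Agent.Lib.L8.FL
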