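import Pool.Agent.Lib.L8.FL.C5I
import Pool.Agent.Lib.L8.FU.U3

/-!
# FL, module C5, C5J: the Levi projections `π` of `U` and `q` of `U(K)`, the measures on `N_J` and `U_M`, the archimedean integral on `U` (owner: helper33)
-/

namespace Pool.Agent.Lib.L8.FL

set_option linter.unusedSectionVars false

open MeasureTheory Matrix NumberField IsDedekindDomain Pool.Agent.Lib.H89N Pool.Agent.Lib.H33W Pool.Agent.Lib.L1S Topology Filter
open scoped ENNReal

noncomputable section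

variable {ι M N : Type} [Fintype ι] [DecidableEq ι] [AddCommGroup M] [Module ℚ M] [AddCommGroup N] [Module ℚ N]
  {P : RootPairing ι ℚ M N} [P.IsCrystallographic] [P.IsReduced] [P.IsIrreducible] [P.IsRootSystem] {b : P.Base}
  {K : Type} [Field K] [NumberField K] {H : Subgroup (GK b K)}

/-- The degree zero part of `m v`, `m ∈ U_M`, `v ∈ N_J`. -/
theorem c5j_dg {J : Finset b.support} {m v : GK b K} (hm : m ∈ FC.UM b K J) (hv : v ∈ NJ b K J) : Up (dJ b J) (m * v).1.1 ∧ dg0 (dJ b J) (m * v).1.1 = m.1.1 := by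
  have um : Up (dJ b J) m.1.1 := fun r c h => (hm.2 r c h.ne).1
  have uv : Up (dJ b J) v.1.1 := fun r c h => by
    rw [(hv.2 r c h.le).1, Matrix.one_apply_ne (fun e => by rw [e] at h; exact lt_irrefl _ h)]
  have e1 : (m * v).1.1 = m.1.1 * v.1.1 := rfl
  have e2 : dg0 (dJ b J) m.1.1 = m.1.1 := by
    refine Matrix.ext fun r c => ?_
    show (if dJ b J r = dJ b J c then m.1.1 r c else 0) = m.1.1 r c
    split_ifs with h
    · rfl
    · exact ((hm.2 r c h).1).symm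
  have e3 : dg0 (dJ b J) v.1.1 = 1 := by
    rw [← dg0_one (dJ b J)]
    refine Matrix.ext fun r c => ?_
    show (if dJ b J r = dJ b J c then v.1.1 r c else 0) = if dJ b J r = dJ b J c then (1 : Matrix (I b) (I b) K) r c else 0
    split_ifs with h
    · exact (hv.2 r c h.le).1
    · rfl
  rw [e1, dg0_mul _ um uv, e2, e3, Matrix.mul_one]
  refine ⟨fun r c h => ?_, rfl⟩
  rw [Matrix.mul_apply]
  refine Finset.sum_eq_zero fun k _ => ?_
  rcases lt_or_ge (dJ b J r) (dJ b J k) with h1 | h1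
  · rw [um r k h1, zero_mul]
  · rw [uv k c (lt_of_le_of_lt h1 h), mul_zero]

/-- **The Levi projections** of `U` and `U(K)`. -/
theorem levi_exists (hT : H = ⊤) (hH : ∀ g : GR b K, g ∈ HRs H) {J : Finset b.support} {w : Equiv.Perm ι} (hJ : IsWJ b J w) :
    ∃ (π : UHR H →* UHR H) (q : HUH H →* HUH H), FU.Prj (kUH H) π q ∧ Continuous π ∧ (∀ u, (π u).1.1.1.1 = dg0 (dJ b J) u.1.1.1.1) ∧ (∀ u, π u = 1 ↔ u.1 ∈ NoH H J) ∧
      (∀ u, (q u).1.1.1.1 = dg0 (dJ b J) u.1.1.1.1) ∧ (∀ u, q (q u) = q u) ∧ (∀ u, q u = 1 ↔ u.1.1 ∈ NJ b K J) ∧ (∀ u, (q u).1.1 ∈ FC.UM b K J) ∧ ∀ u, (q u).1.1⁻¹ * u.1.1 ∈ NJ b K J := by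
  obtain ⟨π, c1, c2, c3, c4⟩ := piJ_exists hH hJ
  have hext : ∀ u v : HUH H, u.1.1.1.1 = v.1.1.1.1 → u = v := fun u v h => Subtype.ext (Subtype.ext (Subtype.ext (Units.ext h)))
  have hex : ∀ u : HUH H, ∃ m : HUH H, m.1.1 ∈ FC.UM b K J ∧ m.1.1⁻¹ * u.1.1 ∈ NJ b K J := by
    intro u
    obtain ⟨m, hm, v, hv, e⟩ := FC.HU_eq J ((HUH_mem H u.1).1 u.2)
    refine ⟨⟨⟨m, by rw [hT]; exact Subgroup.mem_top _⟩, (HUH_mem H _).2 hm.1⟩, hm, ?_⟩
    rw [e]
    show m⁻¹ * (m * v) ∈ NJ b K J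
    rw [inv_mul_cancel_left]
    exact hv
  choose f hf1 hf2 using hex
  have hup : ∀ u : HUH H, Up (dJ b J) u.1.1.1.1 ∧ (f u).1.1.1.1 = dg0 (dJ b J) u.1.1.1.1 := by
    intro u
    obtain ⟨h1, h2⟩ := c5j_dg (hf1 u) (hf2 u)
    rw [mul_inv_cancel_left] at h1 h2
    exact ⟨h1, h2.symm⟩
  obtain ⟨q, hq⟩ : ∃ q : HUH H →* HUH H, ∀ u, q u = f u := by
    refine ⟨{ toFun := f, map_one' := ?_, map_mul' := fun u v => ?_ }, fun u => rfl⟩
    · refine hext _ _ ?_
      rw [(hup 1).2]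
      exact dg0_one _
    · refine hext _ _ ?_
      have e1 : (f u * f v).1.1.1.1 = (f u).1.1.1.1 * (f v).1.1.1.1 := rfl
      have e2 : (u * v).1.1.1.1 = u.1.1.1.1 * v.1.1.1.1 := rfl
      rw [e1, (hup (u * v)).2, (hup u).2, (hup v).2, e2, dg0_mul _ (hup u).1 (hup v).1]
  have hqv : ∀ u : HUH H, (q u).1.1.1.1 = dg0 (dJ b J) u.1.1.1.1 := fun u => by rw [hq, (hup u).2]
  refine ⟨π, q, ⟨fun h t => rfl, c3, fun h => ?_⟩, c1, c2, c4, hqv, fun u => ?_, fun u => ?_, fun u => ?_, fun u => ?_⟩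
  · refine Subtype.ext (Subtype.ext (Subtype.ext (Units.ext ?_)))
    rw [c2]
    have e1 : (kUH H h).1.1.1.1 = h.1.1.1.1.map (mixedEmbedding K) := rfl
    have e2 : (kUH H (q h)).1.1.1.1 = (q h).1.1.1.1.map (mixedEmbedding K) := rfl
    rw [e1, e2, hqv]
    refine Matrix.ext fun r c => ?_
    show (if dJ b J r = dJ b J c then mixedEmbedding K (h.1.1.1.1 r c) else 0) = mixedEmbedding K (if dJ b J r = dJ b J c then h.1.1.1.1 r c else 0)
    split_ifs with h1
    · rfl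
    · rw [map_zero]
  · refine hext _ _ ?_
    rw [hqv, hqv, dg0_dg0]
  · constructor
    · intro h
      have h1 := hf2 u
      rw [← hq, h] at h1
      have e : (1 : HUH H).1.1⁻¹ * u.1.1 = u.1.1 := by
        show (1 : GK b K)⁻¹ * u.1.1 = u.1.1
        rw [inv_one, one_mul]
      rw [e] at h1
      exact h1
    · intro h
      have h1 : (f u).1.1 ∈ NJ b K J := by
        have h2 := mul_mem h (inv_mem (hf2 u))
        have e : u.1.1 * ((f u).1.1⁻¹ * u.1.1)⁻¹ = (f u).1.1 := by group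
        rwa [e] at h2
      have h2 := FC.UM_NJ (hf1 u) h1
      rw [hq]
      exact Subtype.ext (Subtype.ext h2)
  · rw [hq]
    exact hf1 u
  · rw [hq]
    exact hf2 u

theorem c5j_emb (H : Subgroup (GK b K)) : IsClosedEmbedding (fun u : UHR H => (u : HRt H)) := (UHR_closed H).isClosedEmbedding_subtypeVal

theorem c5j_me (H : Subgroup (GK b K)) : MeasurableEmbedding (fun u : UHR H => (u : HRt H)) := (c5j_emb H).measurableEmbedding

/-- A Haar measure of `ker π` in `U` is a Haar measure of `N_J` in the real group. -/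
theorem c5j_push {J : Finset b.support} {π : UHR H →* UHR H} (hk : ∀ u, π u = 1 ↔ u.1 ∈ NoH H J) {νV : Measure (UHR H)} (h : RH π.ker νV) : RH (NoH H J) (νV.map Subtype.val) := by
  have hM : MeasurableEmbedding (Subtype.val : UHR H → HRt H) := c5j_me H
  refine ⟨?_, fun C hC => ?_, ?_, fun v hv => ?_⟩
  · rw [hM.ae_map_iff]
    filter_upwards [h.ae] with x hx
    exact (hk x).1 hx
  · rw [hM.map_apply]
    exact h.fin _ ((c5j_emb H).isCompact_preimage hC)
  · rw [Ne, Measure.map_eq_zero_iff hM.measurable.aemeasurable]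
    exact h.ne
  · have hv' : v ∈ UHR H := hv.1
    rw [Measure.map_map (measurable_mul_const v) hM.measurable]
    have e1 : (fun x : HRt H => x * v) ∘ (Subtype.val : UHR H → HRt H) = (Subtype.val : UHR H → HRt H) ∘ fun x => x * ⟨v, hv'⟩ := rfl
    rw [e1, ← Measure.map_map hM.measurable (measurable_mul_const _), h.inv]
    exact (hk _).2 hv

/-- **The measures on `N_J` and `U_M`.** -/
theorem levi_msr (hH : ∀ g : GR b K, g ∈ HRs H) {J : Finset b.support} {π : UHR H →* UHR H} {q : HUH H →* HUH H} (hP : FU.Prj (kUH H) π q) (hπ : Continuous π)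
    (hval : ∀ u, (π u).1.1.1.1 = dg0 (dJ b J) u.1.1.1.1) (hk : ∀ u, π u = 1 ↔ u.1 ∈ NoH H J) (ν : Measure (UHR H)) [ν.IsHaarMeasure] :
    ∃ νV νM : Measure (UHR H), FU.Msr (kUH H) π q ν νV νM ∧ RH π.ker νV ∧ RH π.range νM ∧ RH (NoH H J) (νV.map Subtype.val) ∧ (∀ g : UHR H, νV.map (fun x => g * x * g⁻¹) = νV) ∧
      ∀ g ∈ π.ker, νV.map (fun x => g * x) = νV := by
  obtain ⟨φ, m, hm, p1, p2, p3, p4⟩ := c5i_phi hH
  have hc : ∀ x, π (φ x) = φ (π x) := by
    intro x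
    refine Subtype.ext (Subtype.ext (Subtype.ext (Units.ext (Matrix.ext fun r c => ?_))))
    show (π (φ x)).1.1.1.1 r c = (φ (π x)).1.1.1.1 r c
    rw [p3, hval, hval]
    show (if dJ b J r = dJ b J c then (φ x).1.1.1.1 r c else 0) = ((2 : ℝ) ^ (-(m * (ht b r - ht b c)))) • (if dJ b J r = dJ b J c then x.1.1.1.1 r c else 0)
    split_ifs with h1
    · exact p3 x r c
    · rw [smul_zero]
  obtain ⟨νV, νM, k1, k2, k3, k4, k5⟩ := c5h_split hπ hP.idem φ p1 p2 p4 hc ν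
  refine ⟨νV, νM, ⟨hπ.measurable, (continuous_id.mul hπ.inv).measurable, ?_, ?_, k3, fun g => th2_hp H ν g, ?_, ?_, fun g hg => ?_, fun m hm => ?_⟩, k1, k2, c5j_push hk k1, k4, k5⟩
  · have := rh_sigma k1
    infer_instance
  · have := rh_sigma k2
    infer_instance
  · filter_upwards [k1.ae] with v hv
    exact hv
  · filter_upwards [k2.ae] with v hv
    obtain ⟨y, rfl⟩ := hv
    exact hP.idem y
  · refine ⟨measurable_const_mul (kUH H g), k5 _ ?_⟩
    rw [MonoidHom.mem_ker, hP.cpt, (MonoidHom.mem_ker).1 hg, map_one]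
  · have h1 := k4 m⁻¹
    rw [inv_inv] at h1
    exact ⟨(by fun_prop : Continuous fun t : UHR H => m⁻¹ * t * m).measurable, h1⟩

/-- **The archimedean integral on `U`.** -/
theorem arch_int_U (hH : ∀ g : GR b K, g ∈ HRs H) {κ : ℝ} (hκ : 0 < κ) (e : b.support → ℝ) {J : Finset b.support} {L : List b.support} (hL : RedW b L) (hP : PosW b κ e L) (hJ : IsWJ b J (wW b L))
    {n : H} (hn : n.1 = nW b K L) {νV : Measure (UHR H)} (hν : RH (NoH H J) (νV.map Subtype.val)) :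
    ∃ C : ℝ, 0 < C ∧ ∀ y : HRt H, ∫⁻ v : UHR H, ENNReal.ofReal (Fe e (embH H n * ((v : HRt H) * y))) ∂νV ≤ ENNReal.ofReal (C * Fe (eW b e L) y) := by
  obtain ⟨C, hC, h⟩ := arch_int hH hκ e hL hP hJ hν
  refine ⟨C, hC, fun y => le_trans (le_of_eq ?_) (h y)⟩
  have hM : MeasurableEmbedding (Subtype.val : UHR H → HRt H) := c5j_me H
  rw [hM.lintegral_map]
  refine lintegral_congr fun v => ?_
  rw [embH_nW hH hn, mul_assoc]

end

end Pool.Agent.Lib.L8.FL
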