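import Pool.Agent.Lib.L8.FL.M1

/-!
# FL, module C8, file CH (helper67): the interfaces of the core: the count (C3) and the heights on the support
-/

namespace Pool.Agent.Lib.L8.FL

open MeasureTheory Matrix NumberField NumberField.InfinitePlace IsDedekindDomain Pool.Agent.Lib.H89N Pool.Agent.Lib.H33W Pool.Agent.Lib.H67G Pool.Agent.Lib.L1S
open scoped ENNReal Pointwise

noncomputable section

set_option linter.unusedSectionVars false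

variable {ι M N : Type} [Fintype ι] [DecidableEq ι] [AddCommGroup M] [Module ℚ M] [AddCommGroup N] [Module ℚ N]
  {P : RootPairing ι ℚ M N} [P.IsCrystallographic] [P.IsReduced] [P.IsIrreducible] [P.IsRootSystem]

/-- **The count** (C3): `H` is the full group `G(L)`, `Γ₁` a congruence group of level `𝔫` (an ideal of `𝓞_L`), `g ∈ H` with `g⁻¹ ∈ K_w(𝔫)` for all `w` which divide `𝔫`, `S = U x C` a set on which the heights at all infinite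
places vary at most by `A`, `e = ρ + (1 + ε) λ_J*`, `e' = ρ - (1 + ε) λ_J`. -/
def CountH (b : P.Base) (L : Type) [Field L] [NumberField L] (nu : Equiv.Perm ι → ℝ) : Prop :=
  ∀ ε : ℝ, 0 < ε → ε ≤ 1 / 2 → ∀ A : ℝ, ∃ C : ℝ, 0 < C ∧ ∀ (H : Subgroup (GK b L)), H = ⊤ → ∀ 𝔫 : Ideal (𝓞 L), 𝔫 ≠ ⊥ → ∀ Γ₁ : Subgroup H, (∀ γ ∈ Γ₁, γ.1 ∈ G1 b 𝔫) → Dsc H Γ₁ →
    (∀ h : H, (cjG Γ₁ h).relIndex Γ₁ ≠ 0) → (∀ h : H, CCH H (cjG Γ₁ h)) → ∀ g : H, (∀ w : HeightOneSpectrum (𝓞 L), aI w 𝔫 ≠ 1 → (g⁻¹).1 ∈ Kv b 𝔫 w) →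
    ∀ (x : HRt H) (Cs : Set (HRt H)), (∀ y ∈ ST H x Cs, ∀ y' ∈ ST H x Cs, ∀ w i, |Hw w y i - Hw w y' i| ≤ A) → MeasurableSet (ST H x Cs) →
    ∀ (ν : Measure (UHR H)) [ν.IsHaarMeasure] (D₁ : Set (UHR H)), H33W.SF ((cjG Γ₁ g).subgroupOf (HUH H)) D₁ → ∀ w : Equiv.Perm ι, IsC b w → ∀ y ∈ Cs,
      ∫⁻ t in D₁, ce (cjG Γ₁ g ⊓ HUH H) ((cjG Γ₁ g : Set H) ∩ {γ : H | γ.1 ∈ cell b L w})
        (fun γ => (ST H x Cs).indicator (fun z => ENNReal.ofReal (Fe (eJ b (1 + ε) (Js b w)) z)) (embH H γ * ((t : HRt H) * (x * y)))) ∂ν ≤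
      ENNReal.ofReal (C * (Ideal.absNorm 𝔫 : ℝ) ^ (ε - nu w) * (fe b (eJ b (-(1 + ε)) (Js b w⁻¹)) (g⁻¹).1 / fe b (eJ b (1 + ε) (Js b w)) (g⁻¹).1)) *
        ENNReal.ofReal (Fe (eJ b (-(1 + ε)) (Js b w⁻¹)) (x * y)) * ν D₁

/-- **The heights on the support** `U x K₀`, `x ∈ U t Ω`, `t = diag(a_β)`: `H_w = log |t|_w + O(1)`. -/
def HeightsH (b : P.Base) (L : Type) [Field L] [NumberField L] : Prop :=
  ∀ (H : Subgroup (GK b L)) (Ω : Set (GL (I b) (EE L))) (K₀ : Set (HRt H)), IsCompact Ω → IsCompact K₀ → ∃ A : ℝ, 0 ≤ A ∧ ∀ (t : HRt H) (a : ι → (EE L)ˣ), t.1.1.1 = dgz b a →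
    ∀ x : HRt H, (∃ u : UHR H, ∃ ω ∈ Ω, x.1.1.1 = u.1.1.1.1 * t.1.1.1 * ω.1) → ∀ z ∈ ST H x K₀,
      (∀ (w : InfinitePlace L) (j : b.support), |Hw w z j - ∑ k, om b j k * Real.log (mixedEmbedding.normAtPlace w (a k : EE L))| ≤ A) ∧
      ∀ j : b.support, |Ht z j - ∑ k, om b j k * Real.log (mixedEmbedding.norm (a k : EE L))| ≤ A

end

end Pool.Agent.Lib.L8.FL
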