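import Pool.Agent.Lib.L8.PE7
import Pool.Agent.Lib.L8.StmV
import Pool.Agent.Lib.L8.MainM
import Pool.Agent.Lib.L8.FL.Defs

/-!
# FL, module C8, file M1 (helper67): the statements of the core, the Jacquet integral
-/

namespace Pool.Agent.Lib.L8.FL

open MeasureTheory Matrix NumberField NumberField.InfinitePlace IsDedekindDomain Pool.Agent.Lib.H89N Pool.Agent.Lib.H33W Pool.Agent.Lib.H67G Pool.Agent.Lib.L1S
open scoped ENNReal Pointwise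

noncomputable section

set_option linter.unusedSectionVars false
set_option linter.unusedVariables false

variable {ι M N : Type} [Fintype ι] [DecidableEq ι] [AddCommGroup M] [Module ℚ M] [AddCommGroup N] [Module ℚ N]
  {P : RootPairing ι ℚ M N} [P.IsCrystallographic] [P.IsReduced] [P.IsIrreducible] [P.IsRootSystem]

/-! ## 1. The exceptional sum -/

section numbers

variable (b : P.Base)

/-- The relevant cells: `w = w_J` for a nonempty set `J` (then `J = Js b w⁻¹` and `J* = Js b w`). -/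
def IsC (w : Equiv.Perm ι) : Prop := ∃ J : Finset b.support, J.Nonempty ∧ IsWJ b J w

/-- The coefficient of `α_k` in `λ_J + λ_J*`. -/
def XW (w : Equiv.Perm ι) (k : b.support) : ℝ := ∑ j ∈ Js b w⁻¹, om b j k + ∑ j ∈ Js b w, om b j k

open scoped Classical in
/-- **The exceptional sum** for the exponents `ν_w`, the level `n` and the numbers `E_k` (`|a_k|` times the effect of the Hecke element): `∑_w n ^ (ε - ν_w) ∏_k E_k ^ (-(1 + ε) (λ_J + λ_J*)_k)`. -/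
def Exs (nu : Equiv.Perm ι → ℝ) (ε n : ℝ) (E : b.support → ℝ) : ℝ :=
  ∑ w ∈ Finset.univ.filter (fun w : Equiv.Perm ι => IsC b w), n ^ (ε - nu w) * ∏ k, E k ^ (-((1 + ε) * XW b w k))

end numbers

variable {b : P.Base} {K L : Type} [Field K] [NumberField K] [Field L] [NumberField L] [Algebra K L]

/-! ## 2. The statements -/

/-- **The core**: the large sieve with the exceptional elements counted, for the exponents `ν_J` (`r`, `s`, `c`, `h`: the level and the Hecke element at `v`). -/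
def StatementMF (Q : QS b K L) (nu : Equiv.Perm ι → ℝ) : Prop :=
  ∀ ε : ℝ, 0 < ε → ε ≤ 1 / 2 → ∀ (Ω : Set (GL (I b) (EE L))) (K₀ : Set (HRt (HQ Q))), IsCompact Ω → IsCompact K₀ → ∃ C : ℝ,
    ∀ (v : HeightOneSpectrum (𝓞 K)) (𝔫 : Ideal (𝓞 K)), 𝔫 ≠ ⊥ → ¬𝔫 ≤ v.asIdeal → ∀ (r s : ℕ) (c : b.support → ℤ), InvC Q c → (∀ i : b.support, 0 ≤ pr b c (Sum.inr i)) → (1 ≤ r + s ∨ c = 0) →
    ∀ π : K, v.valuation K π = WithZero.exp (-1 : ℤ) → ∀ h : HQ Q, h.1 ∈ HGL b L 𝔫 v → AtVL b v r s π c h.1 →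
    ∀ θ : b.support → (EE L →ₗ[ℝ] ℝ), GenQ Q 𝔫 v r s θ →
    ∀ (t : HRt (HQ Q)) (a : ι → (EE L)ˣ), t.1.1.1 = dgz b a → ∀ x : HRt (HQ Q), (∃ u : UHR (HQ Q), ∃ ω ∈ Ω, x.1.1.1 = u.1.1.1.1 * t.1.1.1 * ω.1) →
    ∀ (μ : Measure (HRt (HQ Q))) [μ.IsHaarMeasure], ∀ φ : HRt (HQ Q) → ℂ, Continuous φ → tsupport φ ⊆ K₀ →
    ∀ (ν : Measure (UHR (HQ Q))) [ν.IsHaarMeasure] (D : Set (HRt (HQ Q))), IsFundamentalDomain (GamHR (HQ Q) 𝔫 v r s) D μ →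
    ∀ (n : ℕ) (F : Fin n → HRt (HQ Q) → ℂ) (c' t' : Fin n → ℂ), (∀ l, AuE (HQ Q) (GamQ (HQ Q) 𝔫 v r s) μ D φ (c' l) (F l)) → (∀ l, IsTH (HQ Q) 𝔫 v r s h (F l) (t' l)) →
    (∀ l k, ∫ x in D, star (F l x) * F k x ∂μ = if l = k then 1 else 0) →
    ∀ D' : Set (UHR (HQ Q)), IsFundamentalDomain (GamUH (HQ Q) 𝔫 v r s) D' ν →
      ENNReal.ofReal (∑ l, ‖c' l * t' l * WhH (HQ Q) ν D' θ (F l) x‖ ^ 2) * ν D' ≤
        ENNReal.ofReal (C * (1 + Exs b nu ε (Ideal.absNorm 𝔫) fun k => mixedEmbedding.norm (a k : EE L) * (Ideal.absNorm v.asIdeal : ℝ) ^ (-pr b c (Sum.inr (k : ι)))) *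
          (Ideal.absNorm v.asIdeal : ℝ) ^ (∑ β ∈ Pos b, pr b c (Sum.inr β))) * Jf (UHR (HQ Q)).subtype μ ν φ x

/-- **The density theorem** with the exceptional sum: `E_k` is also multiplied by the effect `exp` of the shifts at the archimedean places. -/
def StatementVF (Q : QS b K L) (nu : Equiv.Perm ι → ℝ) : Prop :=
  ∀ (p : ℕ) (Fv : Fin p → Type) [∀ k, RCLike (Fv k)] (V : ∀ k, PlH (HQ Q) (Fv k) (trQ Q)) (Λ : Fin p → b.support → ℝ), (∀ k i, 0 ≤ al (fun i j => b.cartanMatrix i j) i (Λ k)) →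
    ∀ ε : ℝ, 0 < ε → ε ≤ 1 / 2 → ∀ (T : ℝ) (Ω : Set (GL (I b) (EE L))) (K₀ : Set (HRt (HQ Q))), IsCompact Ω → IsCompact K₀ → ∃ C : ℝ,
    ∀ (v : HeightOneSpectrum (𝓞 K)) (𝔫 : Ideal (𝓞 K)), 𝔫 ≠ ⊥ → ¬𝔫 ≤ v.asIdeal → ∀ (r s : ℕ) (c : b.support → ℤ), InvC Q c → (∀ i : b.support, 0 ≤ pr b c (Sum.inr i)) → (1 ≤ r + s ∨ c = 0) →
    ∀ π : K, v.valuation K π = WithZero.exp (-1 : ℤ) → ∀ h : HQ Q, h.1 ∈ HGL b L 𝔫 v → AtVL b v r s π c h.1 →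
    ∀ θ : b.support → (EE L →ₗ[ℝ] ℝ), GenQ Q 𝔫 v r s θ →
    ∀ (t : HRt (HQ Q)) (a : ι → (EE L)ˣ), t.1.1.1 = dgz b a → ∀ x : HRt (HQ Q), (∃ u : UHR (HQ Q), ∃ ω ∈ Ω, x.1.1.1 = u.1.1.1.1 * t.1.1.1 * ω.1) →
    ∀ R : Fin p → ℝ, (∀ k, 0 ≤ R k) →
    ∀ X : ℝ, (∀ y : Fin p → b.support → ℝ, (∀ (k : Fin p) (w : Equiv.Perm ι), IsC b w → -(R k * (∑ j ∈ Js b w⁻¹, trQ Q (Λ k) j + ∑ j ∈ Js b w, trQ Q (Λ k) j)) ≤ ∑ j ∈ Js b w⁻¹, y k j + ∑ j ∈ Js b w, y k j) →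
      Exs b nu ε (Ideal.absNorm 𝔫) (fun k => mixedEmbedding.norm (a k : EE L) * Real.exp (∑ q, Module.finrank ℝ (Fv q) * al (cA b) k (y q)) * (Ideal.absNorm v.asIdeal : ℝ) ^ (-pr b c (Sum.inr (k : ι)))) ≤ X) →
    ∀ (μ : Measure (HRt (HQ Q))) [μ.IsHaarMeasure], ∀ φ : HRt (HQ Q) → ℂ, Continuous φ → tsupport φ ⊆ K₀ →
    ∀ (ν : Measure (UHR (HQ Q))) [ν.IsHaarMeasure] (D : Set (HRt (HQ Q))), IsFundamentalDomain (GamHR (HQ Q) 𝔫 v r s) D μ →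
    ∀ (n : ℕ) (F : Fin n → HRt (HQ Q) → ℂ) (c' t' : Fin n → ℂ), (∀ l, AuE (HQ Q) (GamQ (HQ Q) 𝔫 v r s) μ D φ (c' l) (F l)) → (∀ l, IsTH (HQ Q) 𝔫 v r s h (F l) (t' l)) →
    (∀ l k, ∫ x in D, star (F l x) * F k x ∂μ = if l = k then 1 else 0) →
    ∀ z : Fin p → Fin n → b.support → ℂ, (∀ k l j, ‖z k l j‖ ≤ T) → (∀ k l, SphV (V k) (z k l) (F l)) →
    ∀ D' : Set (UHR (HQ Q)), IsFundamentalDomain (GamUH (HQ Q) 𝔫 v r s) D' ν →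
    ∀ g : Fin p → Fin n → List b.support,
      ∑ l, Real.exp (2 * ∑ k, R k * (∑ j, (z k l j).re * wl (fun i j => b.cartanMatrix i j) (g k l) (Λ k) j - ε)) * ‖c' l * t' l * WhH (HQ Q) ν D' θ (F l) x‖ ^ 2 ≤
        C * (1 + X) * (Ideal.absNorm v.asIdeal : ℝ) ^ (∑ β ∈ Pos b, pr b c (Sum.inr β)) * (∫ y, ‖φ y‖ ^ 2 ∂μ) *
          ((∏ β ∈ Pos b, mixedEmbedding.norm (a β : EE L)) ^ ((Module.finrank K L : ℝ)⁻¹) / (Ideal.absNorm 𝔫 : ℝ) ^ (Pos b).card)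

/-! ## 3. The Jacquet integral -/

/-- The bound of the Jacquet integral. -/
theorem m1_jf (Q : QS b K L) [IsGalois K L] {Ω : Set (GL (I b) (EE L))} (hΩ : IsCompact Ω) {K₀ : Set (HRt (HQ Q))} (hK₀ : IsCompact K₀) : ∃ C : ℝ, 0 ≤ C ∧
    ∀ (v : HeightOneSpectrum (𝓞 K)) (𝔫 : Ideal (𝓞 K)), 𝔫 ≠ ⊥ → ∀ (r s : ℕ), ∀ θ : b.support → (EE L →ₗ[ℝ] ℝ),
    ∀ (t : HRt (HQ Q)) (a : ι → (EE L)ˣ), t.1.1.1 = dgz b a → ∀ x : HRt (HQ Q), (∃ u : UHR (HQ Q), ∃ ω ∈ Ω, x.1.1.1 = u.1.1.1.1 * t.1.1.1 * ω.1) →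
    ∀ (μ : Measure (HRt (HQ Q))) [μ.IsHaarMeasure], ∀ φ : HRt (HQ Q) → ℂ, Continuous φ → tsupport φ ⊆ K₀ →
    ∀ (ν : Measure (UHR (HQ Q))) [ν.IsHaarMeasure], ∀ D' : Set (UHR (HQ Q)), IsFundamentalDomain (GamUH (HQ Q) 𝔫 v r s) D' ν →
      Jf (UHR (HQ Q)).subtype μ ν φ x ≤
        ENNReal.ofReal (C * (∫ y, ‖φ y‖ ^ 2 ∂μ) * (∏ β ∈ Pos b, mixedEmbedding.norm (a β : EE L)) ^ ((Module.finrank K L : ℝ)⁻¹) / (Ideal.absNorm 𝔫 : ℝ) ^ (Pos b).card) * ν D' := by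
  obtain ⟨C₂, hC2, h2⟩ := pe_vol Q (om2_compact b hΩ (cg_compact (HQ Q) hK₀))
  refine ⟨C₂, hC2, ?_⟩
  intro v 𝔫 h0 r s θ t a hta x hx μ _ φ cφ sφ ν _ D' hD'
  have ci : Countable (HQ Q) := th_count (HQ Q)
  have hx' : InRz (HQ Q) Ω a x := by
    obtain ⟨u, ω, hω, e⟩ := hx
    exact ⟨u, ω, hω, by rw [e, hta]⟩
  have sφ' : HasCompactSupport φ := HasCompactSupport.intro hK₀ fun x hx => by
    by_contra hne
    exact hx (sφ (subset_tsupport _ hne))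
  obtain ⟨D₁, hD₁⟩ := (dsc_Gam (HQ Q) 𝔫 v r s).sfU
  have hcc0 : CCH (HQ Q) (GamQ (HQ Q) 𝔫 v r s) := by
    have h2 : CCH (HQ Q) (cjG (GamQ (HQ Q) 𝔫 v r s) 1) := qa_cc Q h0 v r s 1
    rw [cjG_one] at h2
    exact h2
  have hG := th2_gd (HQ Q) hcc0 hD₁ μ ν θ (psT_mul' (HQ Q) θ)
  have hvD : ν D' = ν D₁ := th2_volU (HQ Q) ν hD₁ hD'
  have e1 : ∫⁻ y, ‖φ y‖ₑ ^ 2 ∂μ = ENNReal.ofReal (∫ y, ‖φ y‖ ^ 2 ∂μ) := mm_sq μ cφ sφ'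
  have h3 := jf_vol hG cφ.measurable x (V := {t : UHR (HQ Q) | ∃ y ∈ K₀, ∃ y' ∈ K₀, (t : HRt (HQ Q)) = x * y * (x * y')⁻¹}) (by
    rintro t ⟨y, hy, y', hy', e⟩
    exact ⟨y, sφ (subset_tsupport _ hy), y', sφ (subset_tsupport _ hy'), e⟩)
  have h4 := (qa8_P (HQ Q) (fun s => hG.rT s) (C := K₀) hx').trans (h2 ν 𝔫 h0 v r s D₁ hD₁ t a hta)
  have hX0 : 0 ≤ (∏ β ∈ Pos b, mixedEmbedding.norm (a β : EE L)) ^ ((Module.finrank K L : ℝ)⁻¹) / (Ideal.absNorm 𝔫 : ℝ) ^ (Pos b).card :=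
    div_nonneg (Real.rpow_nonneg (Finset.prod_nonneg fun β _ => mixedEmbedding.norm_nonneg _) _) (pow_nonneg (Nat.cast_nonneg _) _)
  have hφ0 : 0 ≤ ∫ y, ‖φ y‖ ^ 2 ∂μ := integral_nonneg fun y => by positivity
  calc Jf (UHR (HQ Q)).subtype μ ν φ x ≤ (∫⁻ y, ‖φ y‖ₑ ^ 2 ∂μ) * ν {t : UHR (HQ Q) | ∃ y ∈ K₀, ∃ y' ∈ K₀, (t : HRt (HQ Q)) = x * y * (x * y')⁻¹} := h3
    _ ≤ ENNReal.ofReal (∫ y, ‖φ y‖ ^ 2 ∂μ) * (ENNReal.ofReal (C₂ * ((∏ β ∈ Pos b, mixedEmbedding.norm (a β : EE L)) ^ ((Module.finrank K L : ℝ)⁻¹) / (Ideal.absNorm 𝔫 : ℝ) ^ (Pos b).card)) * ν D₁) := by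
        rw [e1]
        exact mul_le_mul_right h4 _
    _ = ENNReal.ofReal (C₂ * (∫ y, ‖φ y‖ ^ 2 ∂μ) * (∏ β ∈ Pos b, mixedEmbedding.norm (a β : EE L)) ^ ((Module.finrank K L : ℝ)⁻¹) / (Ideal.absNorm 𝔫 : ℝ) ^ (Pos b).card) * ν D' := by
        rw [← mul_assoc, ← ENNReal.ofReal_mul hφ0, hvD]
        congr 2
        ring

end

end Pool.Agent.Lib.L8.FL
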