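import Pool.Agent.Lib.L8.FI.G2
import Pool.Agent.Lib.L1S.QB4

/-!
# FL, module C8 (helper43), file M2A: the Hecke element and the arithmetic group

`g = κ λ(π)⁻¹` at `v`, `g ≡ 1` modulo `𝔫`, integral outside of `v`. `z = g⁻¹`.

* `m2_Kv`: `z ∈ Kv b (up L 𝔫) w` for all `w` not over `v`, and `m2_Kvn`: for all `w` which divide `𝔫`;
* `m2_Ah`: `Ah b w z k = |𝔳|_w ^ ⟨α_k, λ⟩`, `𝔳 = up L v`;
* `m2_prod`: `∏_w Ah b w z k = q ^ (-[L : K] ⟨α_k, λ⟩)`; `m2_fe`: `f_e(z) = ∏_k q ^ (-[L : K] e_k ⟨α_k, λ⟩)`;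
* `m2_Fx`, `m2_HQ`: for `[L : K] = 1` the group is `G(L)`; `m2_G1`: `Γ ≤ G1 b (up L 𝔫)`; `m2_norm`: `absNorm (up L 𝔞) = absNorm 𝔞 ^ [L : K]`.
-/

namespace Pool.Agent.Lib.L8.FL

open Matrix NumberField IsDedekindDomain Pool.Agent.Lib.H89N Pool.Agent.Lib.L1S Pool.Agent.Lib.L8.FI

noncomputable section

set_option linter.unusedSectionVars false

variable {ι M N : Type} [Fintype ι] [DecidableEq ι] [AddCommGroup M] [Module ℚ M] [AddCommGroup N] [Module ℚ N]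
  {P : RootPairing ι ℚ M N} [P.IsCrystallographic] [P.IsReduced] [P.IsIrreducible] [P.IsRootSystem] (b : P.Base)

section torus

variable {L : Type} [Field L] [NumberField L]

/-- The torus elements with prescribed coordinates. -/
theorem m2_Tors (s : b.support → Lˣ) : ∃ t : GK b L, Tors s t := by
  classical
  have key : ∀ F : Finset b.support, ∃ t : GK b L, Tors (fun j => if j ∈ F then s j else 1) t := by
    intro F
    induction F using Finset.induction_on with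
    | empty => exact ⟨1, by simpa using Tors.one (b := b) (K := L)⟩
    | insert i F hi ih =>
      obtain ⟨t, ht⟩ := ih
      refine ⟨fh b i (s i) * t, ?_⟩
      have h1 := (fh_Tors i (s i)).mul ht
      have e : (fun j => (if j = i then s i else 1) * (if j ∈ F then s j else 1)) = fun j => if j ∈ insert i F then s j else 1 := by
        funext j
        by_cases h : j = i
        · subst h
          rw [if_pos rfl, if_neg hi, if_pos (Finset.mem_insert_self j F), mul_one]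
        · rw [if_neg h, one_mul]
          by_cases h2 : j ∈ F
          · rw [if_pos h2, if_pos (Finset.mem_insert_of_mem h2)]
          · rw [if_neg h2, if_neg fun h3 => (Finset.mem_insert.1 h3).elim h h2]
      rw [e] at h1
      exact h1
  obtain ⟨t, ht⟩ := key Finset.univ
  refine ⟨t, ?_⟩
  have e : (fun j => if j ∈ (Finset.univ : Finset b.support) then s j else 1) = s := by
    funext j
    rw [if_pos (Finset.mem_univ j)]
  rw [e] at ht
  exact ht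

/-- The torus element `λ(π)`, `λ = ∑ c_j α_j^∨`. -/
theorem m2_lam {π : L} (hπ : π ≠ 0) (c : b.support → ℤ) : ∃ t : GK b L, t.1.1 = Matrix.diagonal fun r => π ^ pr b c r := by
  obtain ⟨t, ht⟩ := m2_Tors b (L := L) fun j => Units.mk0 π hπ ^ c j
  refine ⟨t, ?_⟩
  have h : t.1.1 = Matrix.diagonal fun r => ∏ j, (((Units.mk0 π hπ ^ c j : Lˣ) : L)) ^ pj b j r := ht
  rw [h]
  refine congrArg Matrix.diagonal ?_
  funext r
  have e1 : pr b c r = ∑ j, c j * pj b j r := by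
    rcases r with i | β
    · have h0 : ∀ j : b.support, pj b j (Sum.inl i) = 0 := fun j => rfl
      simp only [h0, mul_zero, Finset.sum_const_zero]
      rfl
    · rfl
  rw [e1]
  have e2 : ∀ F : Finset b.support, ∏ j ∈ F, (((Units.mk0 π hπ ^ c j : Lˣ) : L)) ^ pj b j r = π ^ ∑ j ∈ F, c j * pj b j r := by
    intro F
    classical
    induction F using Finset.induction_on with
    | empty => simp
    | insert i F hi ih =>
      rw [Finset.prod_insert hi, Finset.sum_insert hi, ih, zpow_add₀ hπ, Units.val_zpow_eq_zpow_val, Units.val_mk0, ← _root_.zpow_mul]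
  exact e2 Finset.univ

end torus

variable {K L : Type} [Field K] [NumberField K] [Field L] [NumberField L] [Algebra K L]

section hecke

variable {𝔫 : Ideal (𝓞 K)} {v : HeightOneSpectrum (𝓞 K)} {r s : ℕ} {π : K} {c : b.support → ℤ} {g : GK b L}

/-- **Away from `v`** the Hecke element is in the congruence group. -/
theorem m2_Kv (h0 : 𝔫 ≠ ⊥) (hg : g ∈ HGL b L 𝔫 v) {w : HeightOneSpectrum (𝓞 L)} (hw : ¬up L v.asIdeal ≤ w.asIdeal) : g⁻¹ ∈ Kv b (up L 𝔫) w := by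
  obtain ⟨j, hj⟩ := hg
  intro r c
  rw [inv_inv]
  exact ⟨qb4_away h0 hw (hj r c).2, qb4_away h0 hw (hj r c).1⟩

/-- At all places which divide `𝔫` the Hecke element is in the congruence group. -/
theorem m2_Kvn (h0 : 𝔫 ≠ ⊥) (hv : ¬𝔫 ≤ v.asIdeal) (hg : g ∈ HGL b L 𝔫 v) {w : HeightOneSpectrum (𝓞 L)} (hw : up L 𝔫 ≤ w.asIdeal) : g⁻¹ ∈ Kv b (up L 𝔫) w :=
  m2_Kv b h0 hg fun h => qb4_cop h hv hw

/-- The same with the absolute value of `𝔫`. -/
theorem m2_Kva (h0 : 𝔫 ≠ ⊥) (hv : ¬𝔫 ≤ v.asIdeal) (hg : g ∈ HGL b L 𝔫 v) {w : HeightOneSpectrum (𝓞 L)} (hw : aI w (up L 𝔫) ≠ 1) : g⁻¹ ∈ Kv b (up L 𝔫) w :=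
  m2_Kvn b h0 hv hg (by
    by_contra h
    exact hw (nu2_nw_one w (qb4_ne L h0) h))

/-- **The Hecke element at the places over `v`**: `g⁻¹ = λ(π) k`. -/
theorem m2_over (hπ : v.valuation K π = WithZero.exp (-1 : ℤ)) (hg : AtVL b v r s π c g) : ∃ t ∈ TK b L, (∀ k : b.support, tv b L t k = algebraMap K L π ^ pr b c (Sum.inr (k : ι))) ∧
    ∀ w : HeightOneSpectrum (𝓞 L), up L v.asIdeal ≤ w.asIdeal → ∃ k ∈ Gv b w, g⁻¹ = t * k := by
  have hπ0 : algebraMap K L π ≠ 0 := by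
    rw [Ne, map_eq_zero]
    rintro rfl
    rw [map_zero] at hπ
    exact absurd hπ.symm WithZero.exp_ne_zero
  obtain ⟨t, ht⟩ := m2_lam b hπ0 c
  have htT : t ∈ TK b L := by
    rw [g1_TK]
    intro r c hrc
    rw [ht]
    exact Matrix.diagonal_apply_ne _ hrc
  have hti : t⁻¹.1.1 = Matrix.diagonal fun r => algebraMap K L π ^ (-pr b c r) := by
    have h1 := f_mi t
    rw [ht] at h1
    have h2 : (Matrix.diagonal fun r => algebraMap K L π ^ (-pr b c r)) * (Matrix.diagonal fun r => algebraMap K L π ^ pr b c r) = 1 := by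
      rw [Matrix.diagonal_mul_diagonal, ← Matrix.diagonal_one]
      refine congrArg Matrix.diagonal ?_
      funext r
      rw [← zpow_add₀ hπ0, neg_add_cancel, zpow_zero]
    calc t⁻¹.1.1 = ((Matrix.diagonal fun r => algebraMap K L π ^ (-pr b c r)) * (Matrix.diagonal fun r => algebraMap K L π ^ pr b c r)) * t⁻¹.1.1 := by rw [h2, one_mul]
      _ = _ := by rw [mul_assoc, h1, mul_one]
  refine ⟨t, htT, fun k => ?_, fun w hw => ⟨t⁻¹ * g⁻¹, fun i j => ?_, by group⟩⟩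
  · unfold tv
    rw [ht, Matrix.diagonal_apply_eq]
  · have e1 : (t⁻¹ * g⁻¹).1.1 = (Matrix.diagonal fun r => algebraMap K L π ^ (-pr b c r)) * g⁻¹.1.1 := by
      rw [f_mul, hti]
    have e2 : (t⁻¹ * g⁻¹)⁻¹.1.1 = g.1.1 * Matrix.diagonal fun r => algebraMap K L π ^ pr b c r := by
      have e3 : (t⁻¹ * g⁻¹)⁻¹ = g * t := by group
      rw [e3, f_mul, ht]
    rw [e1, e2]
    exact ⟨qb4_int hw (hg.2 i j).1, qb4_int hw (hg.1 i j).1⟩

/-- **The heights of the Hecke element**: `|α_k|_w = |𝔳|_w ^ ⟨α_k, λ⟩`. -/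
theorem m2_Ah (h0 : 𝔫 ≠ ⊥) (hπ : v.valuation K π = WithZero.exp (-1 : ℤ)) (hG : g ∈ HGL b L 𝔫 v) (hg : AtVL b v r s π c g) (w : HeightOneSpectrum (𝓞 L)) (k : b.support) :
    Ah b w g⁻¹ k = aI w (up L v.asIdeal) ^ pr b c (Sum.inr (k : ι)) := by
  by_cases hw : up L v.asIdeal ≤ w.asIdeal
  · obtain ⟨t, ht, htv, hk⟩ := m2_over b hπ hg
    obtain ⟨κ, hκ, e⟩ := hk w hw
    have e1 : g⁻¹ = 1 * t * κ := by rw [one_mul, e]
    rw [e1, Ah_utk b w (one_mem _) ht hκ, htv, map_zpow₀]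
    have h1 : av w (algebraMap K L π) = aI w (up L v.asIdeal) := qb4_pi hπ hw
    rw [h1]
  · have h1 : aI w (up L v.asIdeal) = 1 := nu2_nw_one w (qb4_ne L v.ne_bot) hw
    rw [h1, _root_.one_zpow]
    exact Ah_Gv b w (g1_Kv_Gv b w (m2_Kv b h0 hG hw)) k

/-- At the places which do not lie over `v` the heights are `1`. -/
theorem m2_Ah_one (h0 : 𝔫 ≠ ⊥) (hG : g ∈ HGL b L 𝔫 v) {w : HeightOneSpectrum (𝓞 L)} (hw : ¬up L v.asIdeal ≤ w.asIdeal) (k : b.support) : Ah b w g⁻¹ k = 1 :=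
  Ah_Gv b w (g1_Kv_Gv b w (m2_Kv b h0 hG hw)) k

end hecke

/-- The norm is the product of the local norms. -/
theorem m2_fin {𝔞 : Ideal (𝓞 L)} (h0 : 𝔞 ≠ ⊥) : {w : HeightOneSpectrum (𝓞 L) | aI w 𝔞 ≠ 1}.Finite ∧ ∏ᶠ w : HeightOneSpectrum (𝓞 L), aI w 𝔞 = (Ideal.absNorm 𝔞 : ℝ)⁻¹ := by
  have h1 : (Function.mulSupport fun w : HeightOneSpectrum (𝓞 L) => w.maxPowDividing 𝔞).Finite := Ideal.hasFiniteMulSupport h0
  have e : ∀ w : HeightOneSpectrum (𝓞 L), aI w 𝔞 = (Ideal.absNorm (w.maxPowDividing 𝔞) : ℝ)⁻¹ := by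
    intro w
    unfold aI HeightOneSpectrum.maxPowDividing
    rw [map_pow, Nat.cast_pow, _root_.zpow_neg, zpow_natCast]
  have hs : {w : HeightOneSpectrum (𝓞 L) | aI w 𝔞 ≠ 1} ⊆ Function.mulSupport fun w : HeightOneSpectrum (𝓞 L) => w.maxPowDividing 𝔞 := by
    intro w hw h2
    refine hw ?_
    have h3 : w.maxPowDividing 𝔞 = 1 := h2
    rw [e, h3, map_one, Nat.cast_one, inv_one]
  refine ⟨h1.subset hs, ?_⟩
  have h4 : ∏ w ∈ h1.toFinset, w.maxPowDividing 𝔞 = 𝔞 := by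
    rw [← finprod_eq_prod_of_mulSupport_subset _ (s := h1.toFinset) (by rw [Set.Finite.coe_toFinset]), Ideal.finprod_heightOneSpectrum_factorization h0]
  rw [finprod_eq_prod_of_mulSupport_subset (fun w => aI w 𝔞) (s := h1.toFinset) (by rw [Set.Finite.coe_toFinset]; exact hs)]
  conv_rhs => rw [← h4]
  rw [map_prod, Nat.cast_prod, ← Finset.prod_inv_distrib]
  exact Finset.prod_congr rfl fun w _ => e w

/-- `absNorm (up L 𝔞) = absNorm 𝔞 ^ [L : K]`. -/
theorem m2_norm (𝔞 : Ideal (𝓞 K)) : Ideal.absNorm (up L 𝔞) = Ideal.absNorm 𝔞 ^ Module.finrank K L := by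
  have h1 := Ideal.absNorm_algebraMap (R := 𝓞 K) (S := 𝓞 L) 𝔞
  rw [← IsFractionRing.finrank_eq (𝓞 K) K (𝓞 L) L] at h1
  exact h1

section hecke2

variable {𝔫 : Ideal (𝓞 K)} {v : HeightOneSpectrum (𝓞 K)} {r s : ℕ} {π : K} {c : b.support → ℤ} {g : GK b L}

/-- **The product of the heights of the Hecke element.** -/
theorem m2_prod (h0 : 𝔫 ≠ ⊥) (hπ : v.valuation K π = WithZero.exp (-1 : ℤ)) (hG : g ∈ HGL b L 𝔫 v) (hg : AtVL b v r s π c g) (k : b.support) :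
    ∏ᶠ w : HeightOneSpectrum (𝓞 L), Ah b w g⁻¹ k = ((Ideal.absNorm v.asIdeal : ℝ) ^ Module.finrank K L) ^ (-pr b c (Sum.inr (k : ι))) := by
  obtain ⟨h1, h2⟩ := m2_fin (L := L) (qb4_ne L v.ne_bot)
  have h3 : ∏ᶠ w : HeightOneSpectrum (𝓞 L), Ah b w g⁻¹ k = ∏ᶠ w : HeightOneSpectrum (𝓞 L), aI w (up L v.asIdeal) ^ pr b c (Sum.inr (k : ι)) :=
    finprod_congr fun w => m2_Ah b h0 hπ hG hg w k
  have hsub : (Function.mulSupport fun w : HeightOneSpectrum (𝓞 L) => aI w (up L v.asIdeal) ^ pr b c (Sum.inr (k : ι))) ⊆ ↑h1.toFinset := by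
    intro w hw
    rw [Set.Finite.coe_toFinset]
    intro h4
    refine hw ?_
    have h5 : aI w (up L v.asIdeal) = 1 := h4
    show aI w (up L v.asIdeal) ^ pr b c (Sum.inr (k : ι)) = 1
    rw [h5, _root_.one_zpow]
  have hsub' : (Function.mulSupport fun w : HeightOneSpectrum (𝓞 L) => aI w (up L v.asIdeal)) ⊆ ↑h1.toFinset := by
    intro w hw
    rw [Set.Finite.coe_toFinset]
    exact hw
  rw [h3, finprod_eq_prod_of_mulSupport_subset _ hsub, Finset.prod_zpow, ← finprod_eq_prod_of_mulSupport_subset (fun w => aI w (up L v.asIdeal)) hsub', h2, m2_norm, Nat.cast_pow, _root_.zpow_neg, _root_.inv_zpow]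

/-- **The value of `f_e` at the Hecke element.** -/
theorem m2_fe (h0 : 𝔫 ≠ ⊥) (hπ : v.valuation K π = WithZero.exp (-1 : ℤ)) (hG : g ∈ HGL b L 𝔫 v) (hg : AtVL b v r s π c g) (e : b.support → ℝ) :
    fe b e g⁻¹ = ∏ k : b.support, (Ideal.absNorm v.asIdeal : ℝ) ^ (-(Module.finrank K L : ℝ) * e k * (pr b c (Sum.inr (k : ι)) : ℝ)) := by
  have hq : (0 : ℝ) < (Ideal.absNorm v.asIdeal : ℝ) := nu2_pos v
  rw [fe_eq]
  refine Finset.prod_congr rfl fun k _ => ?_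
  rw [m2_prod b h0 hπ hG hg k, ← Real.rpow_natCast, ← Real.rpow_intCast, ← Real.rpow_mul hq.le, ← Real.rpow_mul hq.le]
  congr 1
  push_cast
  ring

end hecke2

section id

variable {b}

/-- The elements of the negative root groups are lower unipotent. -/
theorem m2_LT {A : Type} [CommRing A] {β : ι} (hβ : b.height β < 0) (t : A) : LT b (xx b β t) := by
  intro r c hrc
  have h1 : ∀ k : ℕ, 1 ≤ k → dvp (E b β) k r c = 0 := by
    intro k hk
    by_contra hne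
    have h2 := ht_of_wt b r c k β (dvp_wt b β k r c hne)
    have h3 : (k : ℤ) * b.height β ≤ b.height β := by
      have h4 : (1 : ℤ) ≤ k := by exact_mod_cast hk
      nlinarith
    omega
  simp only [xx, Pool.Agent.Lib.L1S.ex, Matrix.sum_apply, Matrix.smul_apply, Matrix.map_apply, smul_eq_mul]
  rw [Finset.sum_eq_single 0]
  · rw [dvp_zero, pow_zero, one_mul]
    by_cases h : r = c
    · subst h
      rw [Matrix.one_apply_eq, Matrix.one_apply_eq, Int.cast_one]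
    · rw [Matrix.one_apply_ne h, Matrix.one_apply_ne h, Int.cast_zero]
  · intro k _ hk
    rw [h1 k (Nat.pos_of_ne_zero hk), Int.cast_zero, mul_zero]
  · intro h
    exact absurd (Finset.mem_range.2 (by norm_num)) h

/-- The Galois group is trivial for `[L : K] = 1`. -/
theorem m2_gal (h1 : Module.finrank K L = 1) (s : L ≃ₐ[K] L) : s = 1 := by
  ext x
  have h2 : x ∈ (⊥ : Subalgebra K L) := by
    rw [Subalgebra.bot_eq_top_of_finrank_eq_one h1]
    exact Algebra.mem_top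
  obtain ⟨y, rfl⟩ := Algebra.mem_bot.1 h2
  exact s.commutes y

theorem m2_Fx (h1 : Module.finrank K L = 1) (Q : QS b K L) (X : Matrix (I b) (I b) L) : Fx Q X := by
  intro s r c
  have h2 : Q.act s = 1 := by rw [m2_gal h1 s, map_one]
  have h3 : ∀ r : I b, (Q.da s).pI r = r := by
    intro r
    rcases r with i | β
    · rw [DA.pI_inl]
      refine congrArg Sum.inl (Subtype.ext ?_)
      rw [DA.sp_coe, h2]
      rfl
    · rw [DA.pI_inr, h2]
      rfl
  rw [h3, h3, m2_gal h1 s]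
  rfl

/-- **For `[L : K] = 1` the group is `G(L)`.** -/
theorem m2_HQ (h1 : Module.finrank K L = 1) (Q : QS b K L) : HQ Q = ⊤ := by
  have h2 : ∀ (β : ι) (t : L), (⟨xG b β t, xG_mem b β t⟩ : GK b L) ∈ HQ Q := fun β t => by
    refine Subgroup.subset_closure ⟨m2_Fx h1 Q _, ?_⟩
    rcases lt_or_gt_of_ne (b.height_ne_zero β) with h | h
    · exact Or.inr (m2_LT h t)
    · left
      intro r c hrc
      exact xx_UTk b β h t r c (by omega)
  have h3 : GQ b L ≤ (HQ Q).map (GQ b L).subtype := by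
    conv_lhs => rw [GQ_eq]
    rw [Subgroup.closure_le]
    rintro _ ⟨i, t, rfl | rfl⟩
    · exact ⟨_, h2 (i : ι) t, rfl⟩
    · exact ⟨_, h2 (ng P i) t, rfl⟩
  rw [eq_top_iff]
  intro g _
  obtain ⟨g', hg', e⟩ := h3 g.2
  have e' : g' = g := Subtype.ext e
  rw [← e']
  exact hg'

theorem m2_mem (h1 : Module.finrank K L = 1) (Q : QS b K L) (g : GK b L) : g ∈ HQ Q := by
  rw [m2_HQ h1]
  exact Subgroup.mem_top g

/-- The arithmetic group is in the principal congruence group. -/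
theorem m2_G1L {𝔫 : Ideal (𝓞 K)} {v : HeightOneSpectrum (𝓞 K)} {r s : ℕ} {g : GK b L} (hg : g ∈ GamL b L 𝔫 v r s) : g ∈ G1 b (up L 𝔫) :=
  fun i j => ⟨(hg i j).1.1, (hg i j).2.1⟩

theorem m2_G1 {H : Subgroup (GK b L)} {𝔫 : Ideal (𝓞 K)} {v : HeightOneSpectrum (𝓞 K)} {r s : ℕ} {g : H} (hg : g ∈ GamQ H 𝔫 v r s) : g.1 ∈ G1 b (up L 𝔫) := m2_G1L hg

/-- The arithmetic group is in the subgroup of the elements of `G1 b (up L 𝔫)`. -/
theorem m2_G1_le (H : Subgroup (GK b L)) (𝔫 : Ideal (𝓞 K)) (v : HeightOneSpectrum (𝓞 K)) (r s : ℕ) : GamQ H 𝔫 v r s ≤ (G1 b (up L 𝔫)).comap H.subtype := fun _ hg => m2_G1 hg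

theorem m2_norm1 (h1 : Module.finrank K L = 1) (𝔞 : Ideal (𝓞 K)) : Ideal.absNorm (up L 𝔞) = Ideal.absNorm 𝔞 := by
  rw [m2_norm, h1, pow_one]

variable {𝔫 : Ideal (𝓞 K)} {v : HeightOneSpectrum (𝓞 K)} {r s : ℕ} {π : K} {c : b.support → ℤ} {g : GK b L}

theorem m2_prod1 (h1 : Module.finrank K L = 1) (h0 : 𝔫 ≠ ⊥) (hπ : v.valuation K π = WithZero.exp (-1 : ℤ)) (hG : g ∈ HGL b L 𝔫 v) (hg : AtVL b v r s π c g) (k : b.support) :
    ∏ᶠ w : HeightOneSpectrum (𝓞 L), Ah b w g⁻¹ k = (Ideal.absNorm v.asIdeal : ℝ) ^ (-pr b c (Sum.inr (k : ι))) := by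
  rw [m2_prod b h0 hπ hG hg k, h1, pow_one]

theorem m2_fe1 (h1 : Module.finrank K L = 1) (h0 : 𝔫 ≠ ⊥) (hπ : v.valuation K π = WithZero.exp (-1 : ℤ)) (hG : g ∈ HGL b L 𝔫 v) (hg : AtVL b v r s π c g) (e : b.support → ℝ) :
    fe b e g⁻¹ = ∏ k : b.support, (Ideal.absNorm v.asIdeal : ℝ) ^ (-(e k * (pr b c (Sum.inr (k : ι)) : ℝ))) := by
  rw [m2_fe b h0 hπ hG hg e, h1]
  refine Finset.prod_congr rfl fun k _ => ?_
  congr 1
  push_cast
  ring

/-- The total exponent: `f_e(g⁻¹) = q ^ (-∑_k e_k ⟨α_k, λ⟩)`. -/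
theorem m2_fe2 (h1 : Module.finrank K L = 1) (h0 : 𝔫 ≠ ⊥) (hπ : v.valuation K π = WithZero.exp (-1 : ℤ)) (hG : g ∈ HGL b L 𝔫 v) (hg : AtVL b v r s π c g) (e : b.support → ℝ) :
    fe b e g⁻¹ = (Ideal.absNorm v.asIdeal : ℝ) ^ (-∑ k : b.support, e k * (pr b c (Sum.inr (k : ι)) : ℝ)) := by
  rw [m2_fe1 h1 h0 hπ hG hg e, ← Finset.sum_neg_distrib, ← Real.rpow_sum_of_pos (nu2_pos v)]

end id

end

end Pool.Agent.Lib.L8.FL
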