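import Pool.Agent.Lib.L8.FU.P1
import Pool.Agent.Lib.L8.PE1
import Pool.Agent.Lib.L8.FL.C5A
import Pool.Agent.Lib.L1S.TW0

/-!
# FL, module C8 (helper43), file M2G: the heights on the support

`x ∈ U t Ω`, `t = diag(a_β)`: `H_w(z)_j = ∑_k om_jk log |a_k|_w + O(1)` for `z ∈ U x K₀`.
-/

namespace Pool.Agent.Lib.L8.FL

set_option linter.unusedSectionVars false

open MeasureTheory Matrix NumberField IsDedekindDomain Pool.Agent.Lib.H89N Pool.Agent.Lib.H33W Pool.Agent.Lib.H67G Pool.Agent.Lib.L1S Pool.Agent.Lib.L8.FU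
open scoped ENNReal

noncomputable section

variable {ι M N : Type} [Fintype ι] [DecidableEq ι] [AddCommGroup M] [Module ℚ M] [AddCommGroup N] [Module ℚ N]
  {P : RootPairing ι ℚ M N} [P.IsCrystallographic] [P.IsReduced] [P.IsIrreducible] [P.IsRootSystem]

variable {b : P.Base} {L : Type} [Field L] [NumberField L]

/-! ## 1. Diagonal elements of the group -/

/-- The relation of the entries. -/
theorem m2g_add {g : GR b L} {a : ι → (EE L)ˣ} (h : g.1.1 = dgz b a) {i : b.support} {γ δ : ι} (e : P.root γ = P.root i + P.root δ) : a γ = a i * a δ := by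
  have h1 := congrFun (congrFun (pe_conj_E h (i : ι)) (Sum.inr γ)) (Sum.inr δ)
  rw [pe_conj_entry, Matrix.smul_apply, smul_eq_mul] at h1
  simp only [Sum.elim_inr] at h1
  have h2 : E b (i : ι) (Sum.inr γ) (Sum.inr δ) ≠ 0 := by
    rw [E_simple]
    have e1 : eZ b i (Sum.inr γ) (Sum.inr δ) = (P.chainBotCoeff i δ : ℤ) + 1 := by
      simp [eZ, e]
    rw [e1]
    positivity
  have h3 : toA (EE L) (E b (i : ι)) (Sum.inr γ) (Sum.inr δ) = ((E b (i : ι) (Sum.inr γ) (Sum.inr δ) : ℤ) : EE L) := rfl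
  rw [h3] at h1
  have h4 : ((a γ : EE L) * (((a δ)⁻¹ : (EE L)ˣ) : EE L)) * ((E b (i : ι) (Sum.inr γ) (Sum.inr δ) : ℤ) : EE L) = (a i : EE L) * ((E b (i : ι) (Sum.inr γ) (Sum.inr δ) : ℤ) : EE L) := by
    rw [← h1]
    ring
  have h5 := pe_int h2 (x := (a γ : EE L) * (((a δ)⁻¹ : (EE L)ˣ) : EE L)) (y := (a i : EE L)) h4
  have h6 : a γ * (a δ)⁻¹ = a i := Units.ext h5
  rw [← h6, inv_mul_cancel_right]

/-- `a(β) = ∏_k a(α_k) ^ m_k(β)`. -/
theorem m2g_prod {g : GR b L} {a : ι → (EE L)ˣ} (h : g.1.1 = dgz b a) (β : ι) : a β = ∏ k : b.support, a (k : ι) ^ mc b k (Sum.inr β) := by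
  classical
  have hprod : ∀ i : b.support, ∏ k : b.support, a (k : ι) ^ mc b k (Sum.inr (i : ι)) = a i := by
    intro i
    rw [Finset.prod_eq_single i]
    · rw [mc_simple, if_pos rfl, zpow_one]
    · intro k _ hk
      rw [mc_simple, if_neg hk, zpow_zero]
    · intro h
      exact absurd (Finset.mem_univ i) h
  have hneg : ∀ β, ∏ k : b.support, a (k : ι) ^ mc b k (Sum.inr (P.reflectionPerm β β)) = (∏ k : b.support, a (k : ι) ^ mc b k (Sum.inr β))⁻¹ := by
    intro β
    rw [← Finset.prod_inv_distrib]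
    exact Finset.prod_congr rfl fun k _ => by rw [d7_mc_neg, _root_.zpow_neg]
  have hadd : ∀ {β γ : ι} (i : b.support), P.root γ = P.root i + P.root β → ∏ k : b.support, a (k : ι) ^ mc b k (Sum.inr γ) = a i * ∏ k : b.support, a (k : ι) ^ mc b k (Sum.inr β) := by
    intro β γ i h
    rw [← hprod i, ← Finset.prod_mul_distrib]
    refine Finset.prod_congr rfl fun k _ => ?_
    rw [mc_add h, _root_.zpow_add]
  have s3 : ∀ β, b.IsPos β → a β = ∏ k : b.support, a (k : ι) ^ mc b k (Sum.inr β) := by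
    intro β hβ
    refine hβ.induction_on_add (p := fun β => a β = ∏ k : b.support, a (k : ι) ^ mc b k (Sum.inr β)) ?_ ?_
    · intro i hi
      exact (hprod ⟨i, hi⟩).symm
    · intro i j k hk hi hj
      have h1 : P.root k = P.root (⟨j, hj⟩ : b.support) + P.root i := by rw [hk, add_comm]
      rw [m2g_add h h1, hadd ⟨j, hj⟩ h1]
      congr 1
  by_cases hβ : b.IsPos β
  · exact s3 β hβ
  · have h1 : b.IsPos (P.reflectionPerm β β) := (RootPairing.Base.IsPos.neg_iff_not b β).2 hβ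
    have h2 := s3 _ h1
    rw [hneg, pe_inv h β] at h2
    exact inv_injective h2

theorem m2g_evw (w : InfinitePlace L) (x : EE L) : ‖evw w x‖ = mixedEmbedding.normAtPlace w x := by
  rcases w.isReal_or_isComplex with h | h
  · rw [evw_real h, mixedEmbedding.normAtPlace_apply_of_isReal h]
    exact Complex.norm_real _
  · rw [evw_complex h, mixedEmbedding.normAtPlace_apply_of_isComplex h]

/-! ## 2. The height of a matrix -/

/-- The height of a matrix. -/
def hM (b : P.Base) (w : InfinitePlace L) (j : b.support) (X : Matrix (I b) (I b) (EE L)) : ℝ :=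
  -(1 / (2 * ((cw b j : ℤ) : ℝ))) * (Real.log ‖Nj b ℂ j (X.map (evw w))‖ - Real.log ‖Nj b ℂ j (1 : Matrix (I b) (I b) ℂ)‖)

theorem hM_Hw {H : Subgroup (GK b L)} (w : InfinitePlace L) (y : HRt H) (j : b.support) : Hw w y j = hM b w j y.1.1.1 := rfl

theorem hM_U (w : InfinitePlace L) (j : b.support) {u : GR b L} (hu : u ∈ UR b L) (X : Matrix (I b) (I b) (EE L)) : hM b w j (u.1.1 * X) = hM b w j X := by
  unfold hM
  have h1 : (u.1.1 * X).map (evw w) = (pw b w u).1.1 * X.map (evw w) := Matrix.map_mul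
  rw [h1, Nj_U j (mem_UR_iff.1 hu w)]

theorem hM_torus (w : InfinitePlace L) (j : b.support) {t : GR b L} {a : ι → (EE L)ˣ} (ht : t.1.1 = dgz b a) (g : GL (I b) (EE L)) :
    hM b w j (t.1.1 * g.1) = hM b w j g.1 + ∑ k, om b j k * Real.log (mixedEmbedding.normAtPlace w (a k : EE L)) := by
  classical
  have hc : (0 : ℝ) < ((cw b j : ℤ) : ℝ) := by exact_mod_cast cw_pos j
  set d : I b → ℂ := fun r => evw w (Sum.elim (fun _ => 1) (fun β => (a β : EE L)) r) with hd
  have hmat : (t.1.1 * g.1).map (evw w) = Matrix.diagonal d * (g.1.map (evw w)) := by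
    rw [Matrix.map_mul]
    congr 1
    rw [ht]
    ext r c
    rw [Matrix.map_apply]
    unfold dgz
    by_cases h : r = c
    · subst h
      rw [Matrix.diagonal_apply_eq, Matrix.diagonal_apply_eq]
    · rw [Matrix.diagonal_apply_ne _ h, Matrix.diagonal_apply_ne _ h, map_zero]
  have hsub : ((Matrix.diagonal d).submatrix (fun r : Tn b j => r.1) (fun r : Tn b j => r.1)).det = ∏ r : Tn b j, d r.1 := by
    rw [Matrix.submatrix_diagonal _ _ Subtype.val_injective, Matrix.det_diagonal]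
    rfl
  have hN : Nj b ℂ j (Matrix.diagonal d * (g.1.map (evw w))) = (∏ r : Tn b j, d r.1) * Nj b ℂ j (g.1.map (evw w)) * star (∏ r : Tn b j, d r.1) := by
    rw [ig16_N, hsub]
    intro r c hr hc
    rw [Matrix.diagonal_apply_ne]
    rintro rfl
    exact hc hr
  set n : ι → ℝ := fun β => mixedEmbedding.normAtPlace w (a β : EE L) with hn
  have hn0 : ∀ β, 0 < n β := fun β => by
    have h1 : mixedEmbedding.normAtPlace w (a β : EE L) * mixedEmbedding.normAtPlace w (((a β)⁻¹ : (EE L)ˣ) : EE L) = 1 := by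
      rw [← map_mul, Units.mul_inv, map_one]
    have h2 := mixedEmbedding.normAtPlace_nonneg w (a β : EE L)
    rcases h2.lt_or_eq with h3 | h3
    · exact h3
    · rw [← h3, zero_mul] at h1
      exact absurd h1 zero_ne_one
  have hdn : ∀ β, ‖d (Sum.inr β)‖ = n β := fun β => m2g_evw w _
  have hd0 : ∀ r, 0 < ‖d r‖ := by
    intro r
    rcases r with i | β
    · show 0 < ‖evw w (1 : EE L)‖
      rw [map_one, norm_one]
      exact one_pos
    · rw [hdn]
      exact hn0 β
  have hmul : ∀ β, n β = ∏ k : b.support, n k ^ mc b k (Sum.inr β) := by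
    intro β
    have h1 : ∀ u : (EE L)ˣ, ∀ m : ℤ, mixedEmbedding.normAtPlace w ((u ^ m : (EE L)ˣ) : EE L) = mixedEmbedding.normAtPlace w (u : EE L) ^ m := by
      intro u m
      have h2 : ((Units.map (mixedEmbedding.normAtPlace w : EE L →* ℝ) u : ℝˣ) : ℝ) = mixedEmbedding.normAtPlace w (u : EE L) := rfl
      rw [← h2, ← Units.val_zpow_eq_zpow_val, ← map_zpow]
      rfl
    show mixedEmbedding.normAtPlace w (a β : EE L) = _
    rw [m2g_prod ht β, Units.coe_prod, map_prod]
    exact Finset.prod_congr rfl fun k _ => h1 _ _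
  have hP : ‖∏ r : Tn b j, d r.1‖ = ∏ r : Tn b j, ‖d r.1‖ := norm_prod _ _
  have hP0 : (0 : ℝ) < ∏ r : Tn b j, ‖d r.1‖ := Finset.prod_pos fun r _ => hd0 r.1
  have hX0 : 0 < ‖Nj b ℂ j (g.1.map (evw w))‖ := norm_pos_iff.2 (Nj_ne j (Matrix.GeneralLinearGroup.map (evw w) g))
  have hlog : Real.log (∏ r : Tn b j, ‖d r.1‖) = -((cw b j : ℤ) : ℝ) * ∑ k, om b j k * Real.log (n k) := by
    rw [Real.log_prod (fun r _ => (hd0 r.1).ne')]
    have h1 : ∑ r : Tn b j, Real.log ‖d r.1‖ = ∑ β ∈ Phi b j, Real.log ‖d (Sum.inr (P.reflectionPerm β β))‖ := sum_Tn j fun r => Real.log ‖d r‖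
    have h2 : ∀ β, Real.log ‖d (Sum.inr (P.reflectionPerm β β))‖ = -∑ k, (mc b k (Sum.inr β) : ℝ) * Real.log (n k) := by
      intro β
      rw [hdn, hmul, Real.log_prod (fun k _ => zpow_ne_zero _ (hn0 _).ne'), ← Finset.sum_neg_distrib]
      refine Finset.sum_congr rfl fun k _ => ?_
      rw [Real.log_zpow, d7_mc_neg]
      push_cast
      ring
    rw [h1, Finset.sum_congr rfl fun β _ => h2 β, Finset.sum_neg_distrib, Finset.sum_comm, neg_mul, Finset.mul_sum]
    congr 1
    refine Finset.sum_congr rfl fun k _ => ?_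
    rw [← Finset.sum_mul]
    unfold om
    field_simp
  unfold hM
  rw [hmat, hN, norm_mul, norm_mul, norm_star, hP, Real.log_mul (mul_pos hP0 hX0).ne' hP0.ne', Real.log_mul hP0.ne' hX0.ne', hlog]
  field_simp
  ring

theorem hM_cont (w : InfinitePlace L) (j : b.support) : Continuous fun g : GL (I b) (EE L) => hM b w j g.1 := by
  unfold hM
  have h1 : Continuous fun g : GL (I b) (EE L) => Nj b ℂ j (g.1.map (evw w)) := (Nj_cont j).comp (Continuous.matrix_map Units.continuous_val (evw_cont w))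
  have h2 : Continuous fun g : GL (I b) (EE L) => Real.log ‖Nj b ℂ j (g.1.map (evw w))‖ :=
    h1.norm.log fun g => norm_ne_zero_iff.2 (Nj_ne j (Matrix.GeneralLinearGroup.map (evw w) g))
  exact continuous_const.mul (h2.sub continuous_const)

/-! ## 3. The heights on the support -/

/-- The total height is the sum of the local heights. -/
theorem m2g_log (x : (EE L)ˣ) : Real.log (mixedEmbedding.norm (x : EE L)) = ∑ w : InfinitePlace L, (w.mult : ℝ) * Real.log (mixedEmbedding.normAtPlace w (x : EE L)) := by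
  have hn0 : ∀ w : InfinitePlace L, mixedEmbedding.normAtPlace w (x : EE L) ≠ 0 := fun w h0 => by
    have h1 : mixedEmbedding.normAtPlace w (x : EE L) * mixedEmbedding.normAtPlace w ((x⁻¹ : (EE L)ˣ) : EE L) = 1 := by
      rw [← map_mul, Units.mul_inv, map_one]
    rw [h0, zero_mul] at h1
    exact absurd h1 zero_ne_one
  rw [mixedEmbedding.norm_apply, Real.log_prod fun w _ => pow_ne_zero _ (hn0 w)]
  exact Finset.sum_congr rfl fun w _ => Real.log_pow _ _

/-- **The heights on the support.** -/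
theorem m2g_main (H : Subgroup (GK b L)) (Ω : Set (GL (I b) (EE L))) (K₀ : Set (HRt H)) (hΩ : IsCompact Ω) (hK₀ : IsCompact K₀) : ∃ A : ℝ, 0 ≤ A ∧ ∀ (t : HRt H) (a : ι → (EE L)ˣ), t.1.1.1 = dgz b a →
    ∀ x : HRt H, (∃ u : UHR H, ∃ ω ∈ Ω, x.1.1.1 = u.1.1.1.1 * t.1.1.1 * ω.1) → ∀ z ∈ ST H x K₀,
      (∀ (w : InfinitePlace L) (j : b.support), |Hw w z j - ∑ k, om b j k * Real.log (mixedEmbedding.normAtPlace w (a k : EE L))| ≤ A) ∧
      ∀ j : b.support, |Ht z j - ∑ k, om b j k * Real.log (mixedEmbedding.norm (a k : EE L))| ≤ A := by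
  classical
  have hS : IsCompact ((fun p : GL (I b) (EE L) × HRt H => p.1 * p.2.1.1) '' (Ω ×ˢ K₀)) := by
    refine (hΩ.prod hK₀).image ?_
    exact continuous_fst.mul ((continuous_subtype_val.comp continuous_subtype_val).comp continuous_snd)
  have hB : ∀ (w : InfinitePlace L) (j : b.support), ∃ B : ℝ, 0 ≤ B ∧ ∀ ω ∈ Ω, ∀ y ∈ K₀, |hM b w j (ω * y.1.1).1| ≤ B := by
    intro w j
    obtain ⟨B, hB⟩ := hS.exists_bound_of_continuousOn (hM_cont (b := b) w j).continuousOn
    refine ⟨max B 0, le_max_right _ _, fun ω hω y hy => ?_⟩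
    exact (hB _ ⟨(ω, y), ⟨hω, hy⟩, rfl⟩).trans (le_max_left _ _)
  choose B hB0 hB using hB
  set A1 : ℝ := ∑ w : InfinitePlace L, ∑ j : b.support, B w j with hA1
  have hA10 : 0 ≤ A1 := Finset.sum_nonneg fun w _ => Finset.sum_nonneg fun j _ => hB0 w j
  have hle : ∀ w j, B w j ≤ A1 := fun w j =>
    (Finset.single_le_sum (f := fun j => B w j) (fun j _ => hB0 w j) (Finset.mem_univ j)).trans
      (Finset.single_le_sum (f := fun w => ∑ j : b.support, B w j) (fun w _ => Finset.sum_nonneg fun j _ => hB0 w j) (Finset.mem_univ w))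
  set A2 : ℝ := (∑ w : InfinitePlace L, (w.mult : ℝ)) * A1 with hA2
  have hA20 : 0 ≤ A2 := mul_nonneg (Finset.sum_nonneg fun w _ => Nat.cast_nonneg _) hA10
  refine ⟨A1 + A2, add_nonneg hA10 hA20, ?_⟩
  intro t a ht x hx z hz
  obtain ⟨u, ω, hω, e⟩ := hx
  obtain ⟨u', _, ⟨y, hy, rfl⟩, rfl⟩ := hz
  have key : ∀ (w : InfinitePlace L) (j : b.support), |Hw w ((u' : HRt H) * (x * y)) j - ∑ k, om b j k * Real.log (mixedEmbedding.normAtPlace w (a k : EE L))| ≤ A1 := by
    intro w j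
    have e1 : ((u' : HRt H) * (x * y)).1.1.1 = (u'.1.1 * u.1.1).1.1 * (t.1.1.1 * (ω * y.1.1).1) := by
      have e2 : ((u' : HRt H) * (x * y)).1.1.1 = u'.1.1.1.1 * (x.1.1.1 * y.1.1.1) := rfl
      have e3 : (u'.1.1 * u.1.1).1.1 = u'.1.1.1.1 * u.1.1.1.1 := rfl
      have e4 : (ω * y.1.1).1 = ω.1 * y.1.1.1 := rfl
      rw [e2, e3, e4, e]
      simp only [Matrix.mul_assoc]
    have hu : u'.1.1 * u.1.1 ∈ UR b L := mul_mem u'.2 u.2
    rw [hM_Hw, e1, hM_U w j hu, hM_torus w j ht, add_sub_cancel_right]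
    exact (hB w j ω hω y hy).trans (hle w j)
  refine ⟨fun w j => (key w j).trans (le_add_of_nonneg_right hA20), fun j => ?_⟩
  have e5 : Ht ((u' : HRt H) * (x * y)) j - ∑ k, om b j k * Real.log (mixedEmbedding.norm (a k : EE L)) =
      ∑ w : InfinitePlace L, (w.mult : ℝ) * (Hw w ((u' : HRt H) * (x * y)) j - ∑ k, om b j k * Real.log (mixedEmbedding.normAtPlace w (a k : EE L))) := by
    unfold Ht
    rw [Finset.sum_congr rfl fun w _ => mul_sub _ _ _, Finset.sum_sub_distrib]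
    congr 1
    rw [Finset.sum_congr rfl fun k _ => by rw [m2g_log (a k), Finset.mul_sum], Finset.sum_comm]
    refine Finset.sum_congr rfl fun w _ => ?_
    rw [Finset.mul_sum]
    exact Finset.sum_congr rfl fun k _ => by ring
  rw [e5]
  refine (Finset.abs_sum_le_sum_abs _ _).trans ?_
  have h6 : ∀ w : InfinitePlace L, |(w.mult : ℝ) * (Hw w ((u' : HRt H) * (x * y)) j - ∑ k, om b j k * Real.log (mixedEmbedding.normAtPlace w (a k : EE L)))| ≤ (w.mult : ℝ) * A1 := by
    intro w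
    rw [abs_mul, Nat.abs_cast]
    exact mul_le_mul_of_nonneg_left (key w j) (Nat.cast_nonneg _)
  refine (Finset.sum_le_sum fun w _ => h6 w).trans ?_
  rw [← Finset.sum_mul]
  exact le_add_of_nonneg_left hA10

end

end Pool.Agent.Lib.L8.FL
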