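import Pool.Agent.Lib.L8.FL.CH
import Pool.Agent.Lib.L8.FL.M2G

/-!
# FL, module C8 (helper43), file M2H: the heights on the support
-/

namespace Pool.Agent.Lib.L8.FL

open NumberField Pool.Agent.Lib.H89N Pool.Agent.Lib.H33W Pool.Agent.Lib.H67G Pool.Agent.Lib.L1S

variable {ι M N : Type} [Fintype ι] [DecidableEq ι] [AddCommGroup M] [Module ℚ M] [AddCommGroup N] [Module ℚ N]
  {P : RootPairing ι ℚ M N} [P.IsCrystallographic] [P.IsReduced] [P.IsIrreducible] [P.IsRootSystem]

/-- **The heights on the support.** -/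
theorem heightsH (b : P.Base) (L : Type) [Field L] [NumberField L] : HeightsH b L := fun H Ω K₀ hΩ hK₀ => m2g_main H Ω K₀ hΩ hK₀

end Pool.Agent.Lib.L8.FL
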