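import Pool.Agent.Lib.L8.FL.M1
import Pool.Agent.Lib.L8.FV6

/-!
# FL, module C8, file M3 (helper67): from the core to the density theorem at the archimedean places
-/

namespace Pool.Agent.Lib.L8.FL

open MeasureTheory Matrix NumberField NumberField.InfinitePlace IsDedekindDomain Pool.Agent.Lib.H89N Pool.Agent.Lib.H33W Pool.Agent.Lib.H67G Pool.Agent.Lib.L1S
open scoped ENNReal Pointwise

noncomputable section

set_option linter.unusedSectionVars false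
set_option linter.unusedVariables false

variable {ι M N : Type} [Fintype ι] [DecidableEq ι] [AddCommGroup M] [Module ℚ M] [AddCommGroup N] [Module ℚ N]
  {P : RootPairing ι ℚ M N} [P.IsCrystallographic] [P.IsReduced] [P.IsIrreducible] [P.IsRootSystem]
  {b : P.Base} {K L : Type} [Field K] [NumberField K] [Field L] [NumberField L] [Algebra K L]

/-- The opposition on the relevant cells. -/
def OppH (b : P.Base) : Prop := ∀ w, IsC b w → ∃ f : b.support → b.support, Function.Injective f ∧ (∀ j, j ∈ Js b w ↔ ∃ i ∈ Js b w⁻¹, f i = j) ∧ ∀ i, Opp b i (f i)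

theorem m3_sum (h : OppH b) {w : Equiv.Perm ι} (hw : IsC b w) : ∃ f : b.support → b.support, (∀ y : b.support → ℝ, ∑ j ∈ Js b w, y j = ∑ i ∈ Js b w⁻¹, y (f i)) ∧ ∀ i, Opp b i (f i) := by
  classical
  obtain ⟨f, h1, h2, h3⟩ := h w hw
  refine ⟨f, fun y => ?_, h3⟩
  have e : Js b w = (Js b w⁻¹).image f := by
    ext j
    rw [h2 j, Finset.mem_image]
  rw [e, Finset.sum_image fun i _ j _ hij => h1 hij]

theorem wl_int (l : List b.support) (y : b.support → ℤ) : ∃ z : b.support → ℤ, wl (cA b) l (fun i => (y i : ℝ)) = fun i => (z i : ℝ) := by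
  induction l with
  | nil => exact ⟨y, rfl⟩
  | cons i l ih =>
    obtain ⟨z, hz⟩ := ih
    refine ⟨fun k => if k = i then z k - ∑ j, cA b i j * z j else z k, ?_⟩
    show sr (cA b) i (wl (cA b) l _) = _
    rw [hz]
    funext k
    by_cases h : k = i
    · subst h
      simp [sr, al]
    · simp [sr, h]

theorem cw_dvd {i j : b.support} (h : Opp b i j) : cw b j ∣ cw b i := by
  obtain ⟨l, hl⟩ := opp_word h
  obtain ⟨z, hz⟩ := wl_int (b := b) l (Pi.single i 1)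
  have h1 := opp_sum hl fun k => ((Pi.single i 1 : b.support → ℤ) k : ℝ)
  rw [hz] at h1
  beta_reduce at h1
  rw [Pi.single_eq_same] at h1
  refine ⟨-z j, ?_⟩
  have h2 : ((cw b j * (-z j) : ℤ) : ℝ) = ((cw b i : ℤ) : ℝ) := by
    push_cast
    push_cast at h1
    linarith
  exact_mod_cast h2.symm

theorem cw_opp {i j : b.support} (h : Opp b i j) : cw b i = cw b j :=
  Int.dvd_antisymm (cw_pos i).le (cw_pos j).le (cw_dvd (opp_symm h)) (cw_dvd h)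

theorem m3_opp (Q : QS b K L) (h : OppH b) {Λ y : b.support → ℝ} (hΛ : ∀ i, 0 ≤ al (cA b) i Λ) {R : ℝ} (hR : 0 ≤ R) (l : List b.support) (hy : ∀ i, R * wl (cA b) l Λ i ≤ y i) {w : Equiv.Perm ι} (hw : IsC b w) :
    -(R * (∑ j ∈ Js b w⁻¹, trQ Q Λ j + ∑ j ∈ Js b w, trQ Q Λ j)) ≤ ∑ j ∈ Js b w⁻¹, trQ Q y j + ∑ j ∈ Js b w, trQ Q y j := by
  obtain ⟨f, h1, h2⟩ := m3_sum h hw
  rw [h1, h1, ← Finset.sum_add_distrib, ← Finset.sum_add_distrib, Finset.mul_sum, ← Finset.sum_neg_distrib]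
  refine Finset.sum_le_sum fun i _ => ?_
  have e1 := trQ_opp Q (h2 i) hΛ hR l hy
  have e2 : (0 : ℝ) < ((cw b i : ℤ) : ℝ) := by exact_mod_cast cw_pos i
  rw [← cw_opp (h2 i), ← mul_add, ← mul_add] at e1
  have e3 : -(R * (((cw b i : ℤ) : ℝ) * (trQ Q Λ i + trQ Q Λ (f i)))) = ((cw b i : ℤ) : ℝ) * (-(R * (trQ Q Λ i + trQ Q Λ (f i)))) := by ring
  rw [e3] at e1
  exact le_of_mul_le_mul_left e1 e2

/-- **The density theorem** with the exceptional sum, from the core. -/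
theorem statementVF_of (Q : QS b K L) [IsGalois K L] {nu : Equiv.Perm ι → ℝ} (hM : StatementMF Q nu) (hO : OppH b) : StatementVF Q nu := by
  intro p Fv _ V Λ hΛ ε hε hε1 T Ω K₀ hΩ hK₀
  have he : Module.finrank K L ≠ 0 := by
    have : FiniteDimensional K L := Module.Finite.of_restrictScalars_finite ℚ K L
    exact Module.finrank_pos.ne'
  have htr : ∀ y : b.support → ℝ, ∑ j, trQ Q y j = (Module.finrank K L : ℝ) * ∑ j, y j := fun y => by
    have : FiniteDimensional K L := Module.Finite.of_restrictScalars_finite ℚ K L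
    rw [trQ_sum, ← Nat.card_eq_fintype_card, IsGalois.card_aut_eq_finrank]
  obtain ⟨lw, lM, Z', h1, h2, _⟩ := adapted (b := b) (Z := 0) (fun i => by unfold al; simp)
  obtain ⟨Ω', hΩ', C₁, hC₁, hmany⟩ := fv_many h1 h2 hε T p Fv V Λ hΛ Ω hΩ
  obtain ⟨C₂, hC₂⟩ := hM ε hε hε1 Ω' K₀ hΩ' hK₀
  obtain ⟨C₃, hC₃0, hC₃⟩ := m1_jf Q hΩ' hK₀
  refine ⟨C₁ * (|C₂| * C₃), ?_⟩
  intro v 𝔫 h0 hv r s c hcQ hc hrs π hπ h hh1 hh2 θ hθ t a ht x hx R hR X hX μ _ φ cφ sφ ν _ D hD n F c' t' hF hT hort z hzT hz D' hD' g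
  have ci : Countable (HQ Q) := th_count (HQ Q)
  have hdΓ : Dsc (HQ Q) (GamQ (HQ Q) 𝔫 v r s) := dsc_Gam (HQ Q) 𝔫 v r s
  obtain ⟨D₁, hD₁⟩ := hdΓ.sfU
  have hcc0 : CCH (HQ Q) (GamQ (HQ Q) 𝔫 v r s) := by
    have h2 : CCH (HQ Q) (cjG (GamQ (HQ Q) 𝔫 v r s) 1) := qa_cc Q h0 v r s 1
    rw [cjG_one] at h2
    exact h2
  have hone : ∀ w : HUH (HQ Q), (w : HQ Q) ∈ GamQ (HQ Q) 𝔫 v r s → psT (HQ Q) θ (kUH (HQ Q) w) = 1 := fun w hw =>
    hθ.2 _ ((th2_mem_imU (HQ Q) (GamQ (HQ Q) 𝔫 v r s) _).2 ⟨w, hw, rfl⟩)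
  have pD : ν D₁ ≠ 0 := th2_pos (HQ Q) hD₁ ν
  have fD : ν D₁ ≠ ⊤ := th2_fin (HQ Q) hcc0 hD₁ ν
  have hvD : ν D' = ν D₁ := th2_volU (HQ Q) ν hD₁ hD'
  have hq : (0 : ℝ) ≤ (Ideal.absNorm v.asIdeal : ℝ) ^ (∑ β ∈ Pos b, pr b c (Sum.inr β)) := zpow_nonneg (Nat.cast_nonneg _) _
  have hI : 0 ≤ ∫ y, ‖φ y‖ ^ 2 ∂μ := integral_nonneg fun y => sq_nonneg _
  obtain ⟨dl, hdl⟩ : ∃ dl : (ι → (EE L)ˣ) → ℝ, dl = fun a => (∏ β ∈ Pos b, mixedEmbedding.norm (a β : EE L)) ^ ((Module.finrank K L : ℝ)⁻¹) := ⟨_, rfl⟩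
  have hdl0 : ∀ a, 0 ≤ dl a := fun a => by
    rw [hdl]
    exact Real.rpow_nonneg (Finset.prod_nonneg fun β _ => mixedEmbedding.norm_nonneg _) _
  have hN : (0 : ℝ) ≤ (Ideal.absNorm 𝔫 : ℝ) ^ (Pos b).card := by positivity
  have hex0 : ∀ E : b.support → ℝ, (∀ k, 0 ≤ E k) → 0 ≤ Exs b nu ε (Ideal.absNorm 𝔫) E := fun E hE =>
    Finset.sum_nonneg fun w _ => mul_nonneg (Real.rpow_nonneg (Nat.cast_nonneg _) _) (Finset.prod_nonneg fun k _ => Real.rpow_nonneg (hE k) _)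
  have hX0 : 0 ≤ X := by
    refine le_trans (hex0 _ fun k => ?_) (hX (fun k => trQ Q (fun j => R k * wl (cA b) (lw ++ lM) (Λ k) j)) fun k w hw => m3_opp Q hO (hΛ k) (hR k) (lw ++ lM) (fun i => le_rfl) hw)
    exact mul_nonneg (mul_nonneg (mixedEmbedding.norm_nonneg _) (Real.exp_pos _).le) (zpow_nonneg (Nat.cast_nonneg _) _)
  have key := hmany (GamQ (HQ Q) 𝔫 v r s) hcc0 θ hone ν D₁ hD₁ D' hD' t a ht x hx R hR n F (fun l => (hF l).cont) (fun l => (hF l).inv) z hzT (fun k l y g => sphV_iff (hz k l) y g)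
    (fun l => ‖c' l * t' l‖ ^ 2) (fun l => sq_nonneg _)
    ((|C₂| * C₃) * (1 + X) * (Ideal.absNorm v.asIdeal : ℝ) ^ (∑ β ∈ Pos b, pr b c (Sum.inr β)) * (∫ y, ‖φ y‖ ^ 2 ∂μ) * (dl a / (Ideal.absNorm 𝔫 : ℝ) ^ (Pos b).card))
    (by
      have := hdl0 a
      positivity) (fun Y hY t₁ a₁ ht₁ hn x₁ hx₁ => by
      have A1 := hC₂ v 𝔫 h0 hv r s c hcQ hc hrs π hπ h hh1 hh2 θ hθ t₁ a₁ ht₁ x₁ hx₁ μ φ cφ sφ ν D hD n F c' t' hF hT hort D' hD'
      have A2 := hC₃ v 𝔫 h0 r s θ t₁ a₁ ht₁ x₁ hx₁ μ φ cφ sφ ν D' hD'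
      have hE : (fun k : b.support => mixedEmbedding.norm (a₁ k : EE L) * (Ideal.absNorm v.asIdeal : ℝ) ^ (-pr b c (Sum.inr (k : ι)))) =
          fun k : b.support => mixedEmbedding.norm (a k : EE L) * Real.exp (∑ q, Module.finrank ℝ (Fv q) * al (cA b) k (trQ Q (Y q))) * (Ideal.absNorm v.asIdeal : ℝ) ^ (-pr b c (Sum.inr (k : ι))) := by
        funext k
        rw [hn k]
        simp only [ig19b_al]
        rfl
      have hEx := hX (fun k => trQ Q (Y k)) (fun k w hw => m3_opp Q hO (hΛ k) (hR k) (lw ++ lM) (hY k) hw)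
      rw [← hE] at hEx
      have hEx0 : 0 ≤ Exs b nu ε (Ideal.absNorm 𝔫) (fun k : b.support => mixedEmbedding.norm (a₁ k : EE L) * (Ideal.absNorm v.asIdeal : ℝ) ^ (-pr b c (Sum.inr (k : ι)))) :=
        hex0 _ fun k => mul_nonneg (mixedEmbedding.norm_nonneg _) (zpow_nonneg (Nat.cast_nonneg _) _)
      have hX' : 0 ≤ |C₂| * (1 + X) * (Ideal.absNorm v.asIdeal : ℝ) ^ (∑ β ∈ Pos b, pr b c (Sum.inr β)) := by positivity
      have hY' : 0 ≤ C₃ * (∫ y, ‖φ y‖ ^ 2 ∂μ) * dl a₁ / (Ideal.absNorm 𝔫 : ℝ) ^ (Pos b).card := by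
        have := hdl0 a₁
        positivity
      have B1 : ENNReal.ofReal (∑ l, ‖c' l * t' l * WhH (HQ Q) ν D' θ (F l) x₁‖ ^ 2) * ν D' ≤ ENNReal.ofReal (|C₂| * (1 + X) * (Ideal.absNorm v.asIdeal : ℝ) ^ (∑ β ∈ Pos b, pr b c (Sum.inr β))) *
          Jf (UHR (HQ Q)).subtype μ ν φ x₁ := by
        refine A1.trans (mul_le_mul_left (ENNReal.ofReal_le_ofReal ?_) _)
        refine mul_le_mul_of_nonneg_right ?_ hq
        refine (mul_le_mul_of_nonneg_right (le_abs_self C₂) (by linarith)).trans (mul_le_mul_of_nonneg_left (by linarith) (abs_nonneg _))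
      have B2 : Jf (UHR (HQ Q)).subtype μ ν φ x₁ ≤ ENNReal.ofReal (C₃ * (∫ y, ‖φ y‖ ^ 2 ∂μ) * dl a₁ / (Ideal.absNorm 𝔫 : ℝ) ^ (Pos b).card) * ν D' := by
        rw [hdl]
        exact A2
      have B3 := fv_enn (by rw [hvD]; exact pD) (by rw [hvD]; exact fD) hX' hY' B1 B2
      have e0 : dl a₁ = dl a * Real.exp (2 * ∑ k, dF (Fv k) * ∑ j, Y k j) := by
        rw [hdl]
        exact mod_many he (fun k => htr (Y k)) hn
      rw [e0] at B3
      refine le_trans (le_of_eq (Finset.sum_congr rfl fun l _ => ?_)) (B3.trans (le_of_eq ?_))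
      · rw [norm_mul (c' l * t' l), mul_pow]
        rfl
      · ring) g
  refine le_trans (le_of_eq (Finset.sum_congr rfl fun l _ => ?_)) (key.trans (le_of_eq ?_))
  · rw [norm_mul (c' l * t' l), mul_pow]
    rfl
  · rw [hdl]
    ring

end

end Pool.Agent.Lib.L8.FL
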