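import Pool.Agent.Lib.L8.FL.M4

/-!
# FL, module C8, file M5 (helper67): the density hypothesis, from the core
-/

namespace Pool.Agent.Lib.L8.FL

open MeasureTheory Matrix NumberField NumberField.InfinitePlace IsDedekindDomain Pool.Agent.Lib.H89N Pool.Agent.Lib.H33W Pool.Agent.Lib.H67G Pool.Agent.Lib.L1S
open Pool.Agent.Lib.L8.FU
open scoped ENNReal Pointwise

noncomputable section

set_option linter.unusedSectionVars false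
set_option linter.unusedVariables false

variable {ι M N : Type} [Fintype ι] [DecidableEq ι] [AddCommGroup M] [Module ℚ M] [AddCommGroup N] [Module ℚ N]
  {P : RootPairing ι ℚ M N} [P.IsCrystallographic] [P.IsReduced] [P.IsIrreducible] [P.IsRootSystem]
  {b : P.Base} {K L : Type} [Field K] [NumberField K] [Field L] [NumberField L] [Algebra K L]

/-- **The density hypothesis** at archimedean places `V_1, …, V_p` and a finite place `v`, for split groups (`[L : K] = 1`): `R_k ≥ 0`, `Λ_k` dominant, `λ` a dominant coweight, `|a_k| ≥ N` for the simple roots and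
`exp(2 ∑_k R_k ρ(Λ_k)) q ^ (2 ρ(λ)) ≤ N ^ D` (the density hypothesis: `D = dim G`). -/
def StatementDF (Q : QS b K L) (D₀ : ℕ) : Prop :=
  ∀ (p : ℕ) (Fv : Fin p → Type) [∀ k, RCLike (Fv k)] (V : ∀ k, PlH (HQ Q) (Fv k) (trQ Q)) (Λ : Fin p → b.support → ℝ), (∀ k i, 0 ≤ al (fun i j => b.cartanMatrix i j) i (Λ k)) →
    ∀ ε : ℝ, 0 < ε → ∀ (T : ℝ) (Ω : Set (GL (I b) (EE L))) (K₀ : Set (HRt (HQ Q))), IsCompact Ω → IsCompact K₀ → ∃ C : ℝ,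
    ∀ (v : HeightOneSpectrum (𝓞 K)) (𝔫 : Ideal (𝓞 K)), 𝔫 ≠ ⊥ → ¬𝔫 ≤ v.asIdeal → ∀ (r s : ℕ) (c : b.support → ℤ), InvC Q c → (∀ i : b.support, 0 ≤ pr b c (Sum.inr i)) → (1 ≤ r + s ∨ c = 0) →
    ∀ π : K, v.valuation K π = WithZero.exp (-1 : ℤ) → ∀ h : HQ Q, h.1 ∈ HGL b L 𝔫 v → AtVL b v r s π c h.1 →
    ∀ θ : b.support → (EE L →ₗ[ℝ] ℝ), GenQ Q 𝔫 v r s θ →
    ∀ (t : HRt (HQ Q)) (a : ι → (EE L)ˣ), t.1.1.1 = dgz b a → ∀ x : HRt (HQ Q), (∃ u : UHR (HQ Q), ∃ ω ∈ Ω, x.1.1.1 = u.1.1.1.1 * t.1.1.1 * ω.1) →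
    ∀ R : Fin p → ℝ, (∀ k, 0 ≤ R k) → (∀ k : b.support, (Ideal.absNorm 𝔫 : ℝ) ≤ mixedEmbedding.norm (a k : EE L)) →
    Real.exp (2 * ∑ k, Module.finrank ℝ (Fv k) * (R k * ∑ j, Λ k j)) * (Ideal.absNorm v.asIdeal : ℝ) ^ (∑ β ∈ Pos b, pr b c (Sum.inr β)) ≤ (Ideal.absNorm 𝔫 : ℝ) ^ D₀ →
    ∀ (μ : Measure (HRt (HQ Q))) [μ.IsHaarMeasure], ∀ φ : HRt (HQ Q) → ℂ, Continuous φ → tsupport φ ⊆ K₀ →
    ∀ (ν : Measure (UHR (HQ Q))) [ν.IsHaarMeasure] (D : Set (HRt (HQ Q))), IsFundamentalDomain (GamHR (HQ Q) 𝔫 v r s) D μ →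
    ∀ (n : ℕ) (F : Fin n → HRt (HQ Q) → ℂ) (c' t' : Fin n → ℂ), (∀ l, AuE (HQ Q) (GamQ (HQ Q) 𝔫 v r s) μ D φ (c' l) (F l)) → (∀ l, IsTH (HQ Q) 𝔫 v r s h (F l) (t' l)) →
    (∀ l k, ∫ x in D, star (F l x) * F k x ∂μ = if l = k then 1 else 0) →
    ∀ z : Fin p → Fin n → b.support → ℂ, (∀ k l j, ‖z k l j‖ ≤ T) → (∀ k l, SphV (V k) (z k l) (F l)) →
    ∀ D' : Set (UHR (HQ Q)), IsFundamentalDomain (GamUH (HQ Q) 𝔫 v r s) D' ν →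
    ∀ g : Fin p → Fin n → List b.support,
      ∑ l, Real.exp (2 * ∑ k, R k * (∑ j, (z k l j).re * wl (fun i j => b.cartanMatrix i j) (g k l) (Λ k) j - ε)) * ‖c' l * t' l * WhH (HQ Q) ν D' θ (F l) x‖ ^ 2 ≤
        C * ((Ideal.absNorm v.asIdeal : ℝ) ^ (∑ β ∈ Pos b, pr b c (Sum.inr β))) ^ (1 + ε) * (∫ y, ‖φ y‖ ^ 2 ∂μ) *
          ((∏ β ∈ Pos b, mixedEmbedding.norm (a β : EE L)) ^ ((Module.finrank K L : ℝ)⁻¹) / (Ideal.absNorm 𝔫 : ℝ) ^ (Pos b).card)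

theorem sum_pr_nonneg {c : b.support → ℤ} (hc : ∀ i : b.support, 0 ≤ pr b c (Sum.inr i)) : 0 ≤ ∑ β ∈ Pos b, pr b c (Sum.inr β) := by
  have hcR : ∀ i : b.support, al (cA b) i (fun j => (c j : ℝ)) = ((pr b c (Sum.inr (i : ι)) : ℤ) : ℝ) := fun i => by
    show ∑ k, ((b.cartanMatrix i k : ℤ) : ℝ) * (c k : ℝ) = ((∑ j : b.support, c j * P.pairingIn ℤ i j : ℤ) : ℝ)
    rw [Int.cast_sum]
    exact Finset.sum_congr rfl fun k _ => by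
      rw [Int.cast_mul, mul_comm]
      rfl
  have hcd : ∀ i, 0 ≤ al (cA b) i (fun j => (c j : ℝ)) := fun i => by
    rw [hcR i]
    exact_mod_cast hc i
  have hP : ((∑ β ∈ Pos b, pr b c (Sum.inr β) : ℤ) : ℝ) = 2 * ∑ j, (c j : ℝ) := by
    rw [← ig19b_sum, Int.cast_sum]
    refine Finset.sum_congr rfl fun β _ => ?_
    show ((∑ j : b.support, c j * P.pairingIn ℤ β j : ℤ) : ℝ) = ∑ j : b.support, ((P.pairingIn ℤ β j : ℤ) : ℝ) * (c j : ℝ)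
    rw [Int.cast_sum]
    exact Finset.sum_congr rfl fun k _ => by
      rw [Int.cast_mul, mul_comm]
  have h : (0 : ℝ) ≤ ((∑ β ∈ Pos b, pr b c (Sum.inr β) : ℤ) : ℝ) := by
    rw [hP]
    exact mul_nonneg (by norm_num) (Finset.sum_nonneg fun j _ => ig_dom hcd j)
  exact_mod_cast h

/-- **The density hypothesis**, from the density theorem with the exceptional sum and the inequality for the exponents. -/
theorem statementDF_of (Q : QS b K L) [IsGalois K L] (hKL : Module.finrank K L = 1) {D₀ : ℕ} (hD0 : 0 < D₀) {nu : Equiv.Perm ι → ℝ} (hV : StatementVF Q nu) (hI : IneqH b D₀ nu) : StatementDF Q D₀ := by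
  classical
  intro p Fv _ V Λ hΛ ε hε T Ω K₀ hΩ hK₀
  have hΛ' : ∀ k i, 0 ≤ al (cA b) i (Λ k) := hΛ
  have hΛ0 : ∀ k j, 0 ≤ Λ k j := fun k j => ig_dom (hΛ k) j
  obtain ⟨Mx, hMx⟩ : ∃ Mx : ℝ, Mx = ∑ k, Module.finrank ℝ (Fv k) * ∑ j, Λ k j := ⟨_, rfl⟩
  have hM0 : ∀ k, 0 ≤ (Module.finrank ℝ (Fv k) : ℝ) * ∑ j, Λ k j := fun k => mul_nonneg (Nat.cast_nonneg _) (Finset.sum_nonneg fun j _ => hΛ0 k j)
  have hMx0 : 0 ≤ Mx := by rw [hMx]; exact Finset.sum_nonneg fun k _ => hM0 k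
  have hMk : ∀ k, (Module.finrank ℝ (Fv k) : ℝ) * ∑ j, Λ k j ≤ Mx := fun k => by
    rw [hMx]
    exact Finset.single_le_sum (f := fun k => (Module.finrank ℝ (Fv k) : ℝ) * ∑ j, Λ k j) (fun k _ => hM0 k) (Finset.mem_univ k)
  obtain ⟨e, he⟩ : ∃ e : ℝ, e = min (1 / 2) (ε / (3 * Mx + 3)) := ⟨_, rfl⟩
  have he0 : 0 < e := by
    rw [he]
    exact lt_min (by norm_num) (div_pos hε (by linarith))
  have he1 : e ≤ 1 / 2 := by rw [he]; exact min_le_left _ _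
  have he2 : e * (3 * Mx + 3) ≤ ε := by
    rw [← le_div_iff₀ (by linarith : (0 : ℝ) < 3 * Mx + 3), he]
    exact min_le_right _ _
  have he3 : e * (3 * Mx) + e ≤ ε := by nlinarith
  have he4 : 3 * e ≤ ε := by nlinarith [mul_nonneg he0.le hMx0]
  obtain ⟨C, hC⟩ := hV p Fv V Λ hΛ e he0 he1 T Ω K₀ hΩ hK₀
  obtain ⟨W, hW⟩ : ∃ W : ℝ, W = ((Finset.univ.filter fun w : Equiv.Perm ι => IsC b w).card : ℝ) := ⟨_, rfl⟩
  have hW0 : 0 ≤ W := by rw [hW]; exact Nat.cast_nonneg _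
  refine ⟨|C| * (1 + W), ?_⟩
  intro v 𝔫 h0 hv r s c hcQ hc hrs π hπ h hh1 hh2 θ hθ t a ht x hx R hR ha hdim μ _ φ cφ sφ ν _ D hD n F c' t' hF hT hort z hzT hz D' hD' g
  obtain ⟨A, hA⟩ : ∃ A : ℝ, A = ∑ k, Module.finrank ℝ (Fv k) * (R k * ∑ j, Λ k j) := ⟨_, rfl⟩
  obtain ⟨q₀, hq₀⟩ : ∃ q₀ : ℝ, q₀ = (Ideal.absNorm v.asIdeal : ℝ) := ⟨_, rfl⟩
  obtain ⟨P₀, hP₀⟩ : ∃ P₀ : ℤ, P₀ = ∑ β ∈ Pos b, pr b c (Sum.inr β) := ⟨_, rfl⟩
  have hP0 : 0 ≤ P₀ := by rw [hP₀]; exact sum_pr_nonneg hc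
  have hn1 : (1 : ℝ) ≤ (Ideal.absNorm 𝔫 : ℝ) := by
    have h1 : 0 < Ideal.absNorm 𝔫 := Nat.pos_of_ne_zero fun e => h0 (Ideal.absNorm_eq_zero_iff.1 e)
    exact_mod_cast h1
  have hq1 : (1 : ℝ) ≤ q₀ := by
    have h1 : 0 < Ideal.absNorm v.asIdeal := Nat.pos_of_ne_zero fun e => v.ne_bot (Ideal.absNorm_eq_zero_iff.1 e)
    rw [hq₀]
    exact_mod_cast h1
  have hqP : 1 ≤ q₀ ^ P₀ := one_le_zpow₀ hq1 hP0
  have hA0 : 0 ≤ A := by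
    rw [hA]
    exact Finset.sum_nonneg fun k _ => mul_nonneg (Nat.cast_nonneg _) (mul_nonneg (hR k) (Finset.sum_nonneg fun j _ => hΛ0 k j))
  obtain ⟨X, hX⟩ : ∃ X : ℝ, X = W * (Real.exp (6 * e * A) * (q₀ ^ P₀) ^ (3 * e)) := ⟨_, rfl⟩
  have key := hC v 𝔫 h0 hv r s c hcQ hc hrs π hπ h hh1 hh2 θ hθ t a ht x hx R hR X (fun y hy => by
    unfold Exs
    rw [hX, hW, ← nsmul_eq_mul]
    refine Finset.sum_le_card_nsmul _ _ _ fun w hw => ?_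
    have hw' : IsC b w := (Finset.mem_filter.1 hw).2
    have h2 := m4_term hD0 hI (d := fun k => (Module.finrank ℝ (Fv k) : ℝ)) (fun k => Nat.cast_nonneg _) hΛ' hc hn1 hq1 (a := fun k => mixedEmbedding.norm (a k : EE L)) ha hR (by
      rw [hq₀]
      exact hdim) he0 he1 hw' (y := y) (fun q => by
      have h3 := hy q w hw'
      rw [trQ_one Q hKL] at h3
      exact h3)
    rw [hq₀, hP₀, hA]
    rw [hq₀] at h2
    exact h2) μ φ cφ sφ ν D hD n F c' t' hF hT hort z hzT hz D' hD' g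
  rw [← hq₀, ← hP₀] at key ⊢
  obtain ⟨Y, hY⟩ : ∃ Y : ℝ, Y = (∏ β ∈ Pos b, mixedEmbedding.norm (a β : EE L)) ^ ((Module.finrank K L : ℝ)⁻¹) / (Ideal.absNorm 𝔫 : ℝ) ^ (Pos b).card := ⟨_, rfl⟩
  have hY0 : 0 ≤ Y := by
    rw [hY]
    exact div_nonneg (Real.rpow_nonneg (Finset.prod_nonneg fun β _ => mixedEmbedding.norm_nonneg _) _) (pow_nonneg (Nat.cast_nonneg _) _)
  have hI0 : 0 ≤ ∫ y, ‖φ y‖ ^ 2 ∂μ := integral_nonneg fun y => sq_nonneg _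
  rw [← hY] at key ⊢
  obtain ⟨s₀, hs₀⟩ : ∃ s₀ : ℝ, s₀ = ∑ k, R k := ⟨_, rfl⟩
  have hs0 : 0 ≤ s₀ := by rw [hs₀]; exact Finset.sum_nonneg fun k _ => hR k
  have hAs : A ≤ Mx * s₀ := by
    rw [hA, hs₀, Finset.mul_sum]
    refine Finset.sum_le_sum fun k _ => ?_
    have := mul_le_mul_of_nonneg_right (hMk k) (hR k)
    linarith
  -- the left side
  have e1 : ∀ l, Real.exp (2 * ∑ k, R k * (∑ j, (z k l j).re * wl (fun i j => b.cartanMatrix i j) (g k l) (Λ k) j - ε)) =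
      Real.exp (-(2 * (ε - e) * s₀)) * Real.exp (2 * ∑ k, R k * (∑ j, (z k l j).re * wl (fun i j => b.cartanMatrix i j) (g k l) (Λ k) j - e)) := fun l => by
    rw [← Real.exp_add]
    congr 1
    rw [hs₀, Finset.mul_sum, Finset.mul_sum, Finset.mul_sum, ← Finset.sum_neg_distrib, ← Finset.sum_add_distrib]
    exact Finset.sum_congr rfl fun k _ => by ring
  have e2 : ∑ l, Real.exp (2 * ∑ k, R k * (∑ j, (z k l j).re * wl (fun i j => b.cartanMatrix i j) (g k l) (Λ k) j - ε)) * ‖c' l * t' l * WhH (HQ Q) ν D' θ (F l) x‖ ^ 2 =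
      Real.exp (-(2 * (ε - e) * s₀)) * ∑ l, Real.exp (2 * ∑ k, R k * (∑ j, (z k l j).re * wl (fun i j => b.cartanMatrix i j) (g k l) (Λ k) j - e)) * ‖c' l * t' l * WhH (HQ Q) ν D' θ (F l) x‖ ^ 2 := by
    rw [Finset.mul_sum]
    refine Finset.sum_congr rfl fun l _ => ?_
    rw [e1 l, mul_assoc]
  rw [e2]
  refine (mul_le_mul_of_nonneg_left key (Real.exp_pos _).le).trans ?_
  -- the right side
  have hq3 : 1 ≤ (q₀ ^ P₀) ^ (3 * e) := Real.one_le_rpow hqP (by linarith)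
  have hE1 : 1 ≤ Real.exp (6 * e * A) := Real.one_le_exp (mul_nonneg (by linarith) hA0)
  have hX1 : 1 + X ≤ (1 + W) * (Real.exp (6 * e * A) * (q₀ ^ P₀) ^ (3 * e)) := by
    rw [hX, add_mul, one_mul]
    have : (1 : ℝ) ≤ Real.exp (6 * e * A) * (q₀ ^ P₀) ^ (3 * e) := one_le_mul_of_one_le_of_one_le hE1 hq3
    linarith
  have hX00 : 0 ≤ 1 + X := by
    rw [hX]
    positivity
  have hq4 : (q₀ ^ P₀) ^ (3 * e) * q₀ ^ P₀ ≤ (q₀ ^ P₀) ^ (1 + ε) := by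
    have h1 : (0 : ℝ) < q₀ ^ P₀ := by linarith
    calc (q₀ ^ P₀) ^ (3 * e) * q₀ ^ P₀ = (q₀ ^ P₀) ^ (3 * e + 1) := by rw [Real.rpow_add h1, Real.rpow_one]
      _ ≤ _ := Real.rpow_le_rpow_of_exponent_le hqP (by linarith)
  have hE2 : Real.exp (-(2 * (ε - e) * s₀)) * Real.exp (6 * e * A) ≤ 1 := by
    rw [← Real.exp_add]
    refine Real.exp_le_one_iff.2 ?_
    have h1 : e * (3 * Mx) ≤ ε - e := by linarith
    have h2 := mul_le_mul_of_nonneg_right h1 hs0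
    have h3 := mul_le_mul_of_nonneg_left hAs (by linarith : 0 ≤ 6 * e)
    nlinarith
  have hCX : C * (1 + X) ≤ |C| * ((1 + W) * (Real.exp (6 * e * A) * (q₀ ^ P₀) ^ (3 * e))) :=
    (mul_le_mul_of_nonneg_right (le_abs_self C) hX00).trans (mul_le_mul_of_nonneg_left hX1 (abs_nonneg C))
  have hq00 : 0 ≤ q₀ ^ P₀ := by linarith
  calc Real.exp (-(2 * (ε - e) * s₀)) * (C * (1 + X) * q₀ ^ P₀ * (∫ y, ‖φ y‖ ^ 2 ∂μ) * Y) ≤
        Real.exp (-(2 * (ε - e) * s₀)) * (|C| * ((1 + W) * (Real.exp (6 * e * A) * (q₀ ^ P₀) ^ (3 * e))) * q₀ ^ P₀ * (∫ y, ‖φ y‖ ^ 2 ∂μ) * Y) := by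
        refine mul_le_mul_of_nonneg_left ?_ (Real.exp_pos _).le
        exact mul_le_mul_of_nonneg_right (mul_le_mul_of_nonneg_right (mul_le_mul_of_nonneg_right hCX hq00) hI0) hY0
    _ = (Real.exp (-(2 * (ε - e) * s₀)) * Real.exp (6 * e * A)) * ((|C| * (1 + W)) * ((q₀ ^ P₀) ^ (3 * e) * q₀ ^ P₀) * (∫ y, ‖φ y‖ ^ 2 ∂μ) * Y) := by ring
    _ ≤ 1 * ((|C| * (1 + W)) * (q₀ ^ P₀) ^ (1 + ε) * (∫ y, ‖φ y‖ ^ 2 ∂μ) * Y) := by
        refine mul_le_mul hE2 ?_ ?_ zero_le_one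
        · refine mul_le_mul_of_nonneg_right (mul_le_mul_of_nonneg_right (mul_le_mul_of_nonneg_left hq4 ?_) hI0) hY0
          exact mul_nonneg (abs_nonneg C) (by linarith)
        · exact mul_nonneg (mul_nonneg (mul_nonneg (mul_nonneg (abs_nonneg C) (by linarith)) (mul_nonneg (by linarith) hq00)) hI0) hY0
    _ = _ := by ring

end

end Pool.Agent.Lib.L8.FL
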