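import Pool.Agent.Lib.L8.FL.M3
import Pool.Agent.Lib.L8.F7.W5
import Pool.Agent.Lib.L8.F7.EX3
import Pool.Agent.Lib.L8.FL.M4

/-!
# FL, module C8, file M6 (helper67): opposition and exponents of stage 1
-/

namespace Pool.Agent.Lib.L8.FL

open Matrix NumberField Pool.Agent.Lib.L1S Pool.Agent.Lib.L8.F7

noncomputable section

set_option linter.unusedSectionVars false

variable {ι M N : Type} [Fintype ι] [DecidableEq ι] [AddCommGroup M] [Module ℚ M] [AddCommGroup N] [Module ℚ N]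
  {P : RootPairing ι ℚ M N} [P.IsCrystallographic] [P.IsReduced] [P.IsIrreducible] [P.IsRootSystem] {b : P.Base}

theorem oppH (b : P.Base) : OppH b := by
  rintro w ⟨J, _, hw⟩
  obtain ⟨f, h1, h2⟩ := w5 hw
  refine ⟨f, f.injective, fun j => ?_, h2⟩
  rw [FC.Js_inv hw, ← h1, Finset.mem_map]

/-- The exponents of stage 1. -/
def nu1 (b : P.Base) : Equiv.Perm ι → ℝ := fun _ => Fintype.card b.support

theorem sum_xw {w : Equiv.Perm ι} : ∑ k, XW b w k = ∑ j ∈ Js b w⁻¹, rr b j + ∑ j ∈ Js b w, rr b j := by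
  unfold XW rr
  rw [Finset.sum_add_distrib, Finset.sum_comm]
  congr 1
  exact Finset.sum_comm

theorem ineqH1 (hT : Ty b) : IneqH b (Fintype.card ι + Fintype.card b.support) (nu1 b) := by
  rintro w ⟨J, hJ, hw⟩
  refine ⟨?_, fun Λ hΛ => ?_⟩
  · obtain ⟨j, _⟩ := hJ
    have : 0 < Fintype.card b.support := Fintype.card_pos_iff.2 ⟨j⟩
    show (1 : ℝ) ≤ ((Fintype.card b.support : ℕ) : ℝ)
    exact_mod_cast this
  · rw [sum_xw, FC.Js_inv hw]
    exact c7 hT hw hΛ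

/-- The exceptional types. -/
theorem ineqH1x {D : ℕ} (hD : ExD b D) : IneqH b D (nu1 b) := by
  rintro w ⟨J, hJ, hw⟩
  refine ⟨?_, fun Λ hΛ => ?_⟩
  · obtain ⟨j, _⟩ := hJ
    have : 0 < Fintype.card b.support := Fintype.card_pos_iff.2 ⟨j⟩
    show (1 : ℝ) ≤ ((Fintype.card b.support : ℕ) : ℝ)
    exact_mod_cast this
  · rw [sum_xw, FC.Js_inv hw]
    exact c7x hD hw hΛ

end

end Pool.Agent.Lib.L8.FL
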