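import Pool.Agent.Lib.L8.FL.M6
import Pool.Agent.Lib.L8.FC.N3
import Pool.Agent.Lib.L8.FC.D8

/-!
# FL, module C8, file M7 (helper21): the exponents `ν_w` for all types
-/

namespace Pool.Agent.Lib.L8.FL

open Matrix Pool.Agent.Lib.L1S Pool.Agent.Lib.L8.F7

noncomputable section

set_option linter.unusedSectionVars false

variable {ι M N : Type} [Fintype ι] [DecidableEq ι] [AddCommGroup M] [Module ℚ M] [AddCommGroup N] [Module ℚ N]
  {P : RootPairing ι ℚ M N} [P.IsCrystallographic] [P.IsReduced] [P.IsIrreducible] [P.IsRootSystem] {b : P.Base}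

/-- The types of the Killing-Cartan list. -/
def All (b : P.Base) : Prop :=
  (∃ n : ℕ, (1 ≤ n ∧ Typ b (CartanMatrix.A n)) ∨ (2 ≤ n ∧ Typ b (CartanMatrix.B n)) ∨ (2 ≤ n ∧ Typ b (CartanMatrix.C n)) ∨ (4 ≤ n ∧ Typ b (CartanMatrix.D n))) ∨
    Typ b CartanMatrix.E₆ ∨ Typ b CartanMatrix.E₇ ∨ Typ b CartanMatrix.E₈ ∨ Typ b CartanMatrix.F₄ ∨ Typ b CartanMatrix.G₂

theorem all_cases (h : All b) : Ty b ∨ FC.Ty4 b := by
  unfold Ty FC.Ty4
  rcases h with ⟨n, ⟨hn, h⟩ | ⟨hn, h⟩ | ⟨hn, h⟩ | ⟨hn, h⟩⟩ | h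
  · rcases Nat.lt_or_ge n 4 with h4 | h4
    · have h5 : n = 1 ∨ n = 2 ∨ n = 3 := by omega
      rcases h5 with rfl | rfl | rfl
      · exact Or.inr (Or.inl h)
      · exact Or.inr (Or.inr (Or.inl h))
      · exact Or.inr (Or.inr (Or.inr (Or.inl h)))
    · exact Or.inl (Or.inl ⟨n, Or.inl ⟨h4, h⟩⟩)
  · rcases Nat.lt_or_ge n 3 with h4 | h4
    · have h5 : n = 2 := by omega
      subst h5
      exact Or.inr (Or.inr (Or.inr (Or.inr (Or.inl h))))
    · exact Or.inl (Or.inl ⟨n, Or.inr (Or.inl ⟨h4, h⟩)⟩)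
  · rcases Nat.lt_or_ge n 3 with h4 | h4
    · have h5 : n = 2 := by omega
      subst h5
      exact Or.inr (Or.inr (Or.inr (Or.inr (Or.inr h))))
    · exact Or.inl (Or.inl ⟨n, Or.inr (Or.inr (Or.inl ⟨h4, h⟩))⟩)
  · exact Or.inl (Or.inl ⟨n, Or.inr (Or.inr (Or.inr ⟨hn, h⟩))⟩)
  · exact Or.inl (Or.inr h)

theorem exD_ty {D : ℕ} (h : ExD b D) : Ty b := by
  unfold Ty
  rcases h with ⟨h, -⟩ | ⟨h, -⟩ | ⟨h, -⟩ | ⟨h, -⟩ | ⟨h, -⟩
  · exact Or.inr (Or.inr (Or.inr (Or.inr (Or.inr h))))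
  · exact Or.inr (Or.inr (Or.inr (Or.inr (Or.inl h))))
  · exact Or.inr (Or.inl h)
  · exact Or.inr (Or.inr (Or.inl h))
  · exact Or.inr (Or.inr (Or.inr (Or.inl h)))

/-- The gain is at least the number of the letters. -/
theorem gn_ge (b : P.Base) (e : b.support → ℝ) {L : List b.support} (h : PosW b 1 e L) (B : Finset b.support) : (L.toFinset.card : ℝ) ≤ FC.gn b e Finset.univ B L := by
  induction L generalizing B with
  | nil =>
    change ((List.toFinset []).card : ℝ) ≤ 0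
    simp
  | cons i L ih =>
    obtain ⟨h1, h2⟩ := h
    have h3 := ih h2 (B.erase i)
    have h4 : FC.gn b e Finset.univ B (i :: L) = FC.gn b e Finset.univ (B.erase i) L + (if i ∈ (Finset.univ : Finset b.support) ∧ i ∉ L then (if i ∈ B then mu b (eW b e L) i else 1) else 0) := rfl
    rw [h4]
    by_cases hi : i ∈ L
    · have h5 : (i :: L).toFinset = L.toFinset := by
        rw [List.toFinset_cons, Finset.insert_eq_of_mem (List.mem_toFinset.2 hi)]
      rw [h5, if_neg (fun h => h.2 hi), add_zero]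
      exact h3
    · have h5 : (i :: L).toFinset.card = L.toFinset.card + 1 := by
        rw [List.toFinset_cons, Finset.card_insert_of_notMem (fun h => hi (List.mem_toFinset.1 h))]
      rw [h5, if_pos ⟨Finset.mem_univ _, hi⟩]
      push_cast
      refine add_le_add h3 ?_
      split_ifs
      · exact h1
      · exact le_rfl

theorem posW_mono (b : P.Base) {κ κ' : ℝ} (hκ : κ ≤ κ') {e : b.support → ℝ} {L : List b.support} (h : PosW b κ' e L) : PosW b κ e L := by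
  induction L with
  | nil => trivial
  | cons i L ih => exact ⟨hκ.trans h.1, ih h.2⟩

/-- The gain of a word of `w_J` is at least the rank. -/
theorem gn_rank {w : Equiv.Perm ι} (hw : IsC b w) {L : List b.support} (hL : RedW b L) (hLw : wW b L = w) {c : ℝ} (hc : 1 ≤ c) (B : Finset b.support) :
    (Fintype.card b.support : ℝ) ≤ FC.gn b (eJ b c (Js b w)) Finset.univ B L := by
  obtain ⟨J, hJ, hw⟩ := hw
  subst hLw
  have h1 := posW_mono b hc (FC.posW_eJ b hL hw (zero_le_one.trans hc))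
  have h2 : L.toFinset = Finset.univ := by
    ext k
    rw [List.mem_toFinset]
    exact ⟨fun _ => Finset.mem_univ _, fun _ => FC.full_support hJ hw k⟩
  have h3 := gn_ge b _ h1 B
  rw [h2, Finset.card_univ] at h3
  exact h3

/-- **The exponents `ν_w` for all types**: the inequality (C7) with the dimension (and the numbers of the exceptional types), `ν_w ≥ rank`, and for `w = w_J` a reduced word with `ν_w ≤ gain + κ`, `κ = 1` only with a torus
direction. -/
theorem exists_nu2 (h : All b) : ∃ nu : Equiv.Perm ι → ℝ, IneqH b (Fintype.card ι + Fintype.card b.support) nu ∧ (∀ D, ExD b D → IneqH b D nu) ∧ (∀ w, nu w⁻¹ = nu w) ∧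
    (∀ w, IsC b w → (Fintype.card b.support : ℝ) ≤ nu w) ∧ ∀ w, IsC b w → ∃ (L : List b.support) (κ : ℤ), RedW b L ∧ wW b L = w ∧
    (κ = 0 ∨ (κ = 1 ∧ ∃ (i k : b.support) (m : ℕ), (m = 1 ∨ m = 2 ∨ m = 4) ∧
      (pj b i (Sum.inr (k : ι)) - pj b i (Sum.inr ((wW b L)⁻¹ (k : ι))) = m ∨ pj b i (Sum.inr (k : ι)) - pj b i (Sum.inr ((wW b L)⁻¹ (k : ι))) = -m))) ∧
    ∀ c : ℝ, 1 ≤ c → nu w ≤ FC.gn b (eJ b c (Js b w)) Finset.univ Finset.univ L + κ := by
  by_cases hT : Ty b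
  · refine ⟨nu1 b, ineqH1 hT, fun D hD => ineqH1x hD, fun w => rfl, fun w _ => le_rfl, ?_⟩
    intro w hw
    have hw' := hw
    obtain ⟨J, hJ, hw'⟩ := hw'
    obtain ⟨L, h1, h2⟩ := FC.RedW_exists b hw'.1
    refine ⟨L, 0, h1, h2, Or.inl rfl, fun c hc => ?_⟩
    rw [Int.cast_zero, add_zero]
    exact gn_rank hw h1 h2 hc _
  · have h4 : FC.Ty4 b := (all_cases h).resolve_left hT
    obtain ⟨nu, h1, h2, h3, h5⟩ := FC.s5 h4
    exact ⟨nu, h1, fun D hD => absurd (exD_ty hD) hT, h2, h3, h5⟩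

end

end Pool.Agent.Lib.L8.FL
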